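import Pool.Agent.H4G.Defs

/-!
# Areas of lattice triangles (helper19, for Row C)
-/

set_option autoImplicit false

namespace Pool.Agent.H4G

open Set Topology MeasureTheory

namespace Ar

/-- the standard triangle -/
def Dl : Set V := {c | 0 ≤ c.1 ∧ 0 ≤ c.2 ∧ c.1 + c.2 ≤ 1}

lemma Dl_meas : MeasurableSet Dl := by
  have e : Dl = {c : V | 0 ≤ c.1} ∩ ({c : V | 0 ≤ c.2} ∩ {c : V | c.1 + c.2 ≤ 1}) := by
    ext x
    simp only [Dl, mem_ofPred_eq, mem_inter_iff]
  rw [e]
  exact ((isClosed_le continuous_const continuous_fst).inter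
    ((isClosed_le continuous_const continuous_snd).inter
    (isClosed_le (continuous_fst.add continuous_snd) continuous_const))).measurableSet

lemma vol_Dl : (volume : Measure V) Dl ≤ ENNReal.ofReal (1 / 2) := by
  rw [Measure.volume_eq_prod, Measure.prod_apply Dl_meas]
  have h1 : ∀ x : ℝ, (volume : Measure ℝ) (Prod.mk x ⁻¹' Dl) ≤
      (Icc (0 : ℝ) 1).indicator (fun x => ENNReal.ofReal (1 - x)) x := by
    intro x
    by_cases hx : x ∈ Icc (0 : ℝ) 1
    · rw [indicator_of_mem hx]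
      have h2 : Prod.mk x ⁻¹' Dl ⊆ Icc 0 (1 - x) := by
        rintro y ⟨_, h3, h4⟩
        exact ⟨h3, by linarith⟩
      refine (measure_mono h2).trans ?_
      rw [Real.volume_Icc, sub_zero]
    · rw [indicator_of_notMem hx]
      have h2 : Prod.mk x ⁻¹' Dl = ∅ := by
        rw [eq_empty_iff_forall_notMem]
        rintro y ⟨h3, h4, h5⟩
        simp only at h3 h4 h5
        exact hx ⟨h3, by linarith⟩
      rw [h2, measure_empty]
  refine (lintegral_mono h1).trans ?_
  rw [lintegral_indicator measurableSet_Icc]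
  rw [← ofReal_integral_eq_lintegral_ofReal]
  · rw [integral_Icc_eq_integral_Ioc, ← intervalIntegral.integral_of_le zero_le_one]
    refine ENNReal.ofReal_le_ofReal (le_of_eq ?_)
    rw [intervalIntegral.integral_sub (by simp) (by simp)]
    simp
    norm_num
  · exact ((continuous_const.sub continuous_id).integrableOn_Icc)
  · rw [Filter.EventuallyLE, ae_restrict_iff' measurableSet_Icc]
    exact Filter.Eventually.of_forall (fun x hx => by simp only [Pi.zero_apply]; linarith [hx.2])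

/-- the linear map with the columns `u`, `v` -/
noncomputable def lm (u1 u2 v1 v2 : ℝ) : V →ₗ[ℝ] V where
  toFun c := (c.1 * u1 + c.2 * v1, c.1 * u2 + c.2 * v2)
  map_add' c c' := by
    ext <;> simp only [Prod.fst_add, Prod.snd_add] <;> ring
  map_smul' a c := by
    ext <;> simp only [Prod.smul_fst, Prod.smul_snd, smul_eq_mul, RingHom.id_apply] <;> ring

lemma lm_det (u1 u2 v1 v2 : ℝ) : LinearMap.det (lm u1 u2 v1 v2) = u1 * v2 - u2 * v1 := by
  rw [← LinearMap.det_toMatrix (Module.Basis.finTwoProd ℝ), Matrix.det_fin_two]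
  simp only [LinearMap.toMatrix_apply, Module.Basis.finTwoProd_zero, Module.Basis.finTwoProd_one,
    lm, LinearMap.coe_mk, AddHom.coe_mk, Module.Basis.coe_finTwoProd_repr]
  simp
  ring

lemma ori_sum (A B C : Z2) (x : V) : ori A B x + ori B C x + ori C A x = (tri A B C : ℝ) := by
  simp only [ori, tri, cr, Prod.fst_sub, Prod.snd_sub]
  push_cast
  ring

lemma vol_tri {A B C : Z2} (hD : 0 < tri A B C) :
    (volume : Measure V) {x | 0 ≤ ori A B x ∧ 0 ≤ ori B C x ∧ 0 ≤ ori C A x} ≤
      ENNReal.ofReal ((tri A B C : ℝ) / 2) := by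
  have hD' : (0 : ℝ) < tri A B C := by exact_mod_cast hD
  set φ := lm ((B.1 : ℝ) - A.1) ((B.2 : ℝ) - A.2) ((C.1 : ℝ) - A.1) ((C.2 : ℝ) - A.2) with hφ
  have hdet : LinearMap.det φ = (tri A B C : ℝ) := by
    rw [hφ, lm_det]
    simp only [tri, cr, Prod.fst_sub, Prod.snd_sub]
    push_cast
    ring
  have hsub : {x : V | 0 ≤ ori A B x ∧ 0 ≤ ori B C x ∧ 0 ≤ ori C A x} ⊆
      (fun x => -em A + x) ⁻¹' (φ '' Dl) := by
    rintro x ⟨h1, h2, h3⟩
    refine ⟨(ori C A x / tri A B C, ori A B x / tri A B C), ⟨?_, ?_, ?_⟩, ?_⟩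
    · exact div_nonneg h3 hD'.le
    · exact div_nonneg h1 hD'.le
    · simp only
      rw [← add_div, div_le_one hD']
      have := ori_sum A B C x
      linarith
    · have hne : (tri A B C : ℝ) ≠ 0 := ne_of_gt hD'
      simp only [hφ, lm, LinearMap.coe_mk, AddHom.coe_mk]
      refine Prod.ext ?_ ?_
      · apply mul_left_cancel₀ hne
        simp only [em, Prod.fst_add, Prod.fst_neg]
        field_simp
        simp only [ori, tri, cr, Prod.fst_sub, Prod.snd_sub]
        push_cast
        ring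
      · apply mul_left_cancel₀ hne
        simp only [em, Prod.snd_add, Prod.snd_neg]
        field_simp
        simp only [ori, tri, cr, Prod.fst_sub, Prod.snd_sub]
        push_cast
        ring
  refine (measure_mono hsub).trans ?_
  rw [measure_preimage_add, Measure.addHaar_image_linearMap, hdet, abs_of_pos hD']
  calc ENNReal.ofReal (tri A B C : ℝ) * volume Dl
      ≤ ENNReal.ofReal (tri A B C : ℝ) * ENNReal.ofReal (1 / 2) := by gcongr; exact vol_Dl
    _ = ENNReal.ofReal ((tri A B C : ℝ) / 2) := by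
        rw [← ENNReal.ofReal_mul hD'.le]
        congr 1
        ring

/-- the open unit square -/
def Ro : Set V := {c | 0 < c.1 ∧ c.1 < 1 ∧ 0 < c.2 ∧ c.2 < 1}

lemma Ro_eq : Ro = Ioo (0 : ℝ) 1 ×ˢ Ioo (0 : ℝ) 1 := by
  ext c
  simp only [Ro, mem_ofPred_eq, mem_prod, mem_Ioo]
  tauto

lemma vol_Ro : (volume : Measure V) Ro = 1 := by
  rw [Ro_eq, Measure.volume_eq_prod, Measure.prod_prod, Real.volume_Ioo]
  simp

lemma Ro_open : IsOpen Ro := by
  rw [Ro_eq]
  exact isOpen_Ioo.prod isOpen_Ioo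

lemma Ro_refl {c : V} (h : c ∈ Ro) : ((1, 1) : V) - c ∈ Ro := by
  obtain ⟨h1, h2, h3, h4⟩ := h
  refine ⟨?_, ?_, ?_, ?_⟩ <;> simp only [Prod.fst_sub, Prod.snd_sub] <;> linarith

/-- the part of a set in the open square `z` -/
noncomputable def ms (K : Set V) (z : Z2) : ENNReal :=
  (volume : Measure V) (K ∩ (fun x => x - em z) ⁻¹' Ro)

lemma ms_one (K : Set V) (z : Z2) :
    (volume : Measure V) {c | c ∈ Ro ∧ em z + c ∈ K} = ms K z := by
  have e : {c | c ∈ Ro ∧ em z + c ∈ K} =
      (fun c => em z + c) ⁻¹' (K ∩ (fun x => x - em z) ⁻¹' Ro) := by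
    ext c
    simp only [mem_ofPred_eq, mem_preimage, mem_inter_iff, add_sub_cancel_left]
    tauto
  rw [e, measure_preimage_add, ms]

lemma ms_two (K : Set V) (z : Z2) :
    (volume : Measure V) {c | c ∈ Ro ∧ em z + ((1, 1) - c) ∈ K} = ms K z := by
  have e : {c | c ∈ Ro ∧ em z + ((1, 1) - c) ∈ K} =
      (fun c => -c) ⁻¹' ((fun c => ((1, 1) : V) + c) ⁻¹' {c | c ∈ Ro ∧ em z + c ∈ K}) := by
    ext c
    simp only [mem_ofPred_eq, mem_preimage, ← sub_eq_add_neg]
    constructor
    · rintro ⟨h1, h2⟩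
      exact ⟨Ro_refl h1, h2⟩
    · rintro ⟨h1, h2⟩
      refine ⟨?_, h2⟩
      have := Ro_refl h1
      rwa [sub_sub_cancel] at this
  rw [e]
  have h1 := Measure.measure_preimage_neg (volume : Measure V)
    ((fun c => ((1, 1) : V) + c) ⁻¹' {c | c ∈ Ro ∧ em z + c ∈ K})
  refine h1.trans ?_
  rw [measure_preimage_add, ms_one]

lemma ms_sum {K : Set V} (hK : MeasurableSet K) (F : Finset Z2) :
    ∑ z ∈ F, ms K z ≤ (volume : Measure V) K := by
  have h1 : (volume : Measure V) (⋃ z ∈ F, K ∩ (fun x => x - em z) ⁻¹' Ro) =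
      ∑ z ∈ F, ms K z := by
    refine measure_biUnion_finset ?_ ?_
    · intro z _ w _ hzw
      rw [Function.onFun, Set.disjoint_left]
      rintro x ⟨_, h1, h2, h3, h4⟩ ⟨_, k1, k2, k3, k4⟩
      simp only [em, Prod.fst_sub, Prod.snd_sub] at h1 h2 h3 h4 k1 k2 k3 k4
      apply hzw
      have g1 : (z.1 : ℝ) < w.1 + 1 := by linarith
      have g2 : (w.1 : ℝ) < z.1 + 1 := by linarith
      have g3 : (z.2 : ℝ) < w.2 + 1 := by linarith
      have g4 : (w.2 : ℝ) < z.2 + 1 := by linarith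
      have g1' : z.1 < w.1 + 1 := by exact_mod_cast g1
      have g2' : w.1 < z.1 + 1 := by exact_mod_cast g2
      have g3' : z.2 < w.2 + 1 := by exact_mod_cast g3
      have g4' : w.2 < z.2 + 1 := by exact_mod_cast g4
      exact Prod.ext (by omega) (by omega)
    · intro z _
      exact hK.inter ((Ro_open.preimage (by fun_prop)).measurableSet)
  rw [← h1]
  refine measure_mono ?_
  intro x hx
  simp only [mem_iUnion] at hx
  obtain ⟨z, _, hx⟩ := hx
  exact hx.1

end Ar

end Pool.Agent.H4G
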