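import Pool.Agent.H4G.Defs

/-!
# Row H: invariance under `SL₂(ℤ)` (helper19)
-/

set_option autoImplicit false

namespace Pool.Agent.H4G

open Set

variable {X : Type}

namespace HI

/-- closed under a permutation of a finite set, hence under the inverse -/
lemma back [Finite X] {S : Set X} {e : Equiv.Perm X} (h : ∀ x ∈ S, e x ∈ S) :
    ∀ x ∈ S, e.symm x ∈ S := by
  intro x hx
  have hf : S.Finite := Set.toFinite S
  have himg : e '' S ⊆ S := by
    rintro _ ⟨y, hy, rfl⟩
    exact h y hy
  have heq : e '' S = S := by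
    refine Set.eq_of_subset_of_ncard_le himg ?_ hf
    rw [Set.ncard_image_of_injective _ e.injective]
  rw [← heq] at hx
  obtain ⟨y, hy, hyx⟩ := hx
  rw [← hyx, Equiv.symm_apply_apply]
  exact hy

lemma trans_T [Finite X] {O : Org X} : O.T.Trans ↔ O.Trans := by
  constructor
  · intro h S hne hr hu
    refine h S hne hr ?_
    intro x hx
    change O.u (O.r.symm x) ∈ S
    exact hu _ (back hr x hx)
  · intro h S hne hr hu
    refine h S hne hr ?_
    intro x hx
    have h1 := hu (O.r x) (hr x hx)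
    change O.u (O.r.symm (O.r x)) ∈ S at h1
    rwa [Equiv.symm_apply_apply] at h1

lemma trans_J [Finite X] {O : Org X} : O.J.Trans ↔ O.Trans := by
  constructor
  · intro h S hne hr hu
    refine h S hne ?_ hr
    intro x hx
    change O.u.symm x ∈ S
    exact back hu x hx
  · intro h S hne hr hu
    refine h S hne hu ?_
    intro x hx
    have h1 := back (e := O.u⁻¹) hr x hx
    exact h1

lemma comm_T (O : Org X) : O.T.r * O.T.u * O.T.r⁻¹ * O.T.u⁻¹ = O.r * O.u * O.r⁻¹ * O.u⁻¹ := by
  change O.r * (O.u * O.r⁻¹) * O.r⁻¹ * (O.u * O.r⁻¹)⁻¹ = _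
  group

lemma comm_J (O : Org X) :
    O.J.r * O.J.u * O.J.r⁻¹ * O.J.u⁻¹ = O.u⁻¹ * (O.r * O.u * O.r⁻¹ * O.u⁻¹) * (O.u⁻¹)⁻¹ := by
  change O.u⁻¹ * O.r * (O.u⁻¹)⁻¹ * O.r⁻¹ = _
  group

/-- transport of a cardinality by a permutation -/
lemma card_perm (e : Equiv.Perm X) {P Q : X → Prop} (h : ∀ y, P (e y) ↔ Q y) :
    {x | P x}.ncard = {x | Q x}.ncard := by
  have h1 : {x | P x} = e '' {x | Q x} := by
    ext x
    constructor
    · intro hx
      refine ⟨e.symm x, ?_, e.apply_symm_apply x⟩
      have hx' : P x := hx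
      rw [← e.apply_symm_apply x] at hx'
      exact (h _).1 hx'
    · rintro ⟨y, hy, rfl⟩
      exact (h y).2 hy
  rw [h1, Set.ncard_image_of_injective _ e.injective]

lemma seven_T (O : Org X) :
    {x | O.T.i x = x}.ncard + {x | O.T.i x = O.T.r x}.ncard + {x | O.T.i x = O.T.u x}.ncard +
      {x | O.T.i x = O.T.u (O.T.r x) ∧ O.T.r (O.T.u x) = O.T.u (O.T.r x)}.ncard =
    {x | O.i x = x}.ncard + {x | O.i x = O.r x}.ncard + {x | O.i x = O.u x}.ncard +
      {x | O.i x = O.u (O.r x) ∧ O.r (O.u x) = O.u (O.r x)}.ncard := by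
  have key : ∀ y, O.T.i (O.r y) = O.i y := by
    intro y
    change O.r (O.i (O.r y)) = O.i y
    rw [O.ir, Equiv.apply_symm_apply]
  have h1 : {x | O.T.i x = x}.ncard = {x | O.i x = O.r x}.ncard :=
    card_perm O.r (fun y => by rw [key])
  have h2 : {x | O.T.i x = O.T.r x}.ncard = {x | O.i x = x}.ncard := by
    congr 1
    ext x
    change O.r (O.i x) = O.r x ↔ O.i x = x
    exact O.r.injective.eq_iff
  have h3 : {x | O.T.i x = O.T.u x}.ncard = {x | O.i x = O.u x}.ncard := by
    refine card_perm O.r (fun y => ?_)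
    rw [key]
    change O.i y = O.u (O.r.symm (O.r y)) ↔ _
    rw [Equiv.symm_apply_apply]
  have h4 : {x | O.T.i x = O.T.u (O.T.r x) ∧ O.T.r (O.T.u x) = O.T.u (O.T.r x)}.ncard =
      {x | O.i x = O.u (O.r x) ∧ O.r (O.u x) = O.u (O.r x)}.ncard := by
    refine card_perm O.r (fun y => ?_)
    rw [key]
    change O.i y = O.u (O.r.symm (O.r (O.r y))) ∧
      O.r (O.u (O.r.symm (O.r y))) = O.u (O.r.symm (O.r (O.r y))) ↔ _
    rw [Equiv.symm_apply_apply, Equiv.symm_apply_apply]
  rw [h1, h2, h3, h4]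
  omega

lemma seven_J (O : Org X) :
    {x | O.J.i x = x}.ncard + {x | O.J.i x = O.J.r x}.ncard + {x | O.J.i x = O.J.u x}.ncard +
      {x | O.J.i x = O.J.u (O.J.r x) ∧ O.J.r (O.J.u x) = O.J.u (O.J.r x)}.ncard =
    {x | O.i x = x}.ncard + {x | O.i x = O.r x}.ncard + {x | O.i x = O.u x}.ncard +
      {x | O.i x = O.u (O.r x) ∧ O.r (O.u x) = O.u (O.r x)}.ncard := by
  have h2 : {x | O.J.i x = O.J.r x}.ncard = {x | O.i x = O.u x}.ncard := by
    refine card_perm O.u (fun y => ?_)
    change O.i (O.u y) = O.u.symm (O.u y) ↔ _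
    rw [O.iu, Equiv.symm_apply_apply, Equiv.symm_apply_eq]
  have h4 : {x | O.J.i x = O.J.u (O.J.r x) ∧ O.J.r (O.J.u x) = O.J.u (O.J.r x)}.ncard =
      {x | O.i x = O.u (O.r x) ∧ O.r (O.u x) = O.u (O.r x)}.ncard := by
    refine card_perm O.u (fun y => ?_)
    change O.i (O.u y) = O.r (O.u.symm (O.u y)) ∧
      O.u.symm (O.r (O.u y)) = O.r (O.u.symm (O.u y)) ↔ _
    rw [O.iu, Equiv.symm_apply_apply, Equiv.symm_apply_eq, Equiv.symm_apply_eq]
  have h1 : {x | O.J.i x = x}.ncard = {x | O.i x = x}.ncard := rfl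
  have h3 : {x | O.J.i x = O.J.u x}.ncard = {x | O.i x = O.r x}.ncard := rfl
  rw [h1, h2, h3, h4]
  omega

lemma hyp_T [Finite X] {O : Org X} : Hyp O.T ↔ Hyp O := by
  constructor
  · intro h
    refine ⟨trans_T.1 h.trans, ?_, ?_, ?_⟩
    · have := h.cyc
      rwa [comm_T] at this
    · have := h.five
      rwa [comm_T] at this
    · have := h.seven
      rwa [seven_T] at this
  · intro h
    refine ⟨trans_T.2 h.trans, ?_, ?_, ?_⟩
    · rw [comm_T]; exact h.cyc
    · rw [comm_T]; exact h.five
    · rw [seven_T]; exact h.seven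

lemma moved_conj (c g : Equiv.Perm X) :
    {x | (g * c * g⁻¹) x ≠ x}.ncard = {x | c x ≠ x}.ncard := by
  refine card_perm g (fun y => ?_)
  change ¬ g (c (g.symm (g y))) = g y ↔ ¬ c y = y
  rw [Equiv.symm_apply_apply, g.injective.eq_iff]

lemma hyp_J [Finite X] {O : Org X} : Hyp O.J ↔ Hyp O := by
  constructor
  · intro h
    refine ⟨trans_J.1 h.trans, ?_, ?_, ?_⟩
    · have h1 := h.cyc
      rw [comm_J] at h1
      have h2 := h1.conj (g := O.u)
      convert h2 using 1
      group
    · have := h.five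
      rwa [comm_J, moved_conj] at this
    · have := h.seven
      rwa [seven_J] at this
  · intro h
    refine ⟨trans_J.2 h.trans, ?_, ?_, ?_⟩
    · rw [comm_J]; exact h.cyc.conj
    · rw [comm_J, moved_conj]; exact h.five
    · rw [seven_J]; exact h.seven

/-! ### Paths -/

lemma pc {O : Org X} {x y : X} {w w' : Z2} (h : Path O x w y) (e : w = w') : Path O x w' y := e ▸ h

/-- inverse shear -/
def shT' (p : Z2) : Z2 := (p.1 - p.2, p.2)

/-- inverse rotation -/
def shJ' (p : Z2) : Z2 := (p.2, -p.1)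

lemma path_T {O : Org X} {x y : X} {w : Z2} (h : Path O x w y) : Path O.T x (shT w) y := by
  induction h with
  | refl => exact Path.refl _
  | @right y w h ih =>
    have h1 : Path O.T x (shT w + (1, 0)) (O.r y) := ih.right
    exact pc h1 (by apply Prod.ext <;> simp [shT]; ring)
  | @left y w h ih =>
    have h1 : Path O.T x (shT w - (1, 0)) (O.r.symm y) := ih.left
    exact pc h1 (by apply Prod.ext <;> simp [shT]; ring)
  | @up y w h ih =>
    have h1 : Path O.T x (shT w + (1, 0) + (0, 1)) (O.u (O.r.symm (O.r y))) := ih.right.up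
    rw [Equiv.symm_apply_apply] at h1
    exact pc h1 (by apply Prod.ext <;> simp [shT]; ring)
  | @down y w h ih =>
    have h1 : Path O.T x (shT w - (0, 1) - (1, 0)) (O.r.symm (O.r (O.u.symm y))) := ih.down.left
    rw [Equiv.symm_apply_apply] at h1
    exact pc h1 (by apply Prod.ext <;> simp [shT]; ring)

lemma path_J {O : Org X} {x y : X} {w : Z2} (h : Path O x w y) : Path O.J x (shJ w) y := by
  induction h with
  | refl => exact Path.refl _
  | @right y w h ih =>
    have h1 : Path O.J x (shJ w + (0, 1)) (O.r y) := ih.up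
    exact pc h1 (by apply Prod.ext <;> simp [shJ])
  | @left y w h ih =>
    have h1 : Path O.J x (shJ w - (0, 1)) (O.r.symm y) := ih.down
    exact pc h1 (by apply Prod.ext <;> simp [shJ])
  | @up y w h ih =>
    have h1 : Path O.J x (shJ w - (1, 0)) (O.u y) := ih.left
    exact pc h1 (by apply Prod.ext <;> simp [shJ]; ring)
  | @down y w h ih =>
    have h1 : Path O.J x (shJ w + (1, 0)) (O.u.symm y) := ih.right
    exact pc h1 (by apply Prod.ext <;> simp [shJ]; ring)

lemma path_T' {O : Org X} {x y : X} {w : Z2} (h : Path O.T x w y) : Path O x (shT' w) y := by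
  induction h with
  | refl => exact Path.refl _
  | @right y w h ih =>
    have h1 : Path O x (shT' w + (1, 0)) (O.r y) := ih.right
    exact pc h1 (by apply Prod.ext <;> simp [shT']; ring)
  | @left y w h ih =>
    have h1 : Path O x (shT' w - (1, 0)) (O.r.symm y) := ih.left
    exact pc h1 (by apply Prod.ext <;> simp [shT']; ring)
  | @up y w h ih =>
    have h1 : Path O x (shT' w - (1, 0) + (0, 1)) (O.u (O.r.symm y)) := ih.left.up
    exact pc h1 (by apply Prod.ext <;> simp [shT']; ring)
  | @down y w h ih =>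
    have h1 : Path O x (shT' w - (0, 1) + (1, 0)) (O.r (O.u.symm y)) := ih.down.right
    exact pc h1 (by apply Prod.ext <;> simp [shT']; ring)

lemma path_J' {O : Org X} {x y : X} {w : Z2} (h : Path O.J x w y) : Path O x (shJ' w) y := by
  induction h with
  | refl => exact Path.refl _
  | @right y w h ih =>
    have h1 : Path O x (shJ' w - (0, 1)) (O.u.symm y) := ih.down
    exact pc h1 (by apply Prod.ext <;> simp [shJ']; ring)
  | @left y w h ih =>
    have h1 : Path O x (shJ' w + (0, 1)) (O.u y) := ih.up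
    exact pc h1 (by apply Prod.ext <;> simp [shJ']; ring)
  | @up y w h ih =>
    have h1 : Path O x (shJ' w + (1, 0)) (O.r y) := ih.right
    exact pc h1 (by apply Prod.ext <;> simp [shJ'])
  | @down y w h ih =>
    have h1 : Path O x (shJ' w - (1, 0)) (O.r.symm y) := ih.left
    exact pc h1 (by apply Prod.ext <;> simp [shJ'])

lemma prim_T {O : Org X} : O.T.Prim ↔ O.Prim := by
  constructor
  · intro h x w
    exact pc (path_T' (h x (shT w))) (by apply Prod.ext <;> simp [shT, shT'])
  · intro h x w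
    exact pc (path_T (h x (shT' w))) (by apply Prod.ext <;> simp [shT, shT'])

lemma prim_J {O : Org X} : O.J.Prim ↔ O.Prim := by
  constructor
  · intro h x w
    exact pc (path_J' (h x (shJ w))) (by apply Prod.ext <;> simp [shJ, shJ'])
  · intro h x w
    exact pc (path_J (h x (shJ' w))) (by apply Prod.ext <;> simp [shJ, shJ'])

end HI

theorem Step.hyp [Finite X] {O O' : Org X} (h : Step O O') (hO : Hyp O) : Hyp O' := by
  cases h with
  | T => exact HI.hyp_T.2 hO
  | J => exact HI.hyp_J.2 hO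

theorem Step.hyp' [Finite X] {O O' : Org X} (h : Step O O') (hO : Hyp O') : Hyp O := by
  cases h with
  | T => exact HI.hyp_T.1 hO
  | J => exact HI.hyp_J.1 hO

theorem Step.prim {O O' : Org X} (h : Step O O') : O.Prim ↔ O'.Prim := by
  cases h with
  | T => exact HI.prim_T.symm
  | J => exact HI.prim_J.symm

end Pool.Agent.H4G
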