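import Pool.Agent.H4G.FinDefs
import Pool.Agent.H4G.Inv

/-!
# Row X: explicit families of hyperelliptic origamis for every `N > 8` (helper19)
-/

set_option autoImplicit false

namespace Pool.Agent.H4G

namespace FX

/-! ### Paths and periods -/

section paths

variable {X : Type} {O : Org X}

lemma _root_.Pool.Agent.H4G.Path.trans {x y t : X} {v w : Z2} (h : Path O x v y)
    (h' : Path O y w t) : Path O x (v + w) t := by
  induction h' with
  | refl => simpa using h
  | @right y w h' ih => exact HI.pc ih.right (add_assoc _ _ _)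
  | @left y w h' ih => exact HI.pc ih.left (add_sub_assoc _ _ _)
  | @up y w h' ih => exact HI.pc ih.up (add_assoc _ _ _)
  | @down y w h' ih => exact HI.pc ih.down (add_sub_assoc _ _ _)

lemma one_right (x : X) : Path O x (1, 0) (O.r x) := HI.pc (Path.refl x).right (zero_add _)
lemma one_left (x : X) : Path O x (-1, 0) (O.r.symm x) :=
  HI.pc (Path.refl x).left (by apply Prod.ext <;> simp)
lemma one_up (x : X) : Path O x (0, 1) (O.u x) := HI.pc (Path.refl x).up (zero_add _)
lemma one_down (x : X) : Path O x (0, -1) (O.u.symm x) :=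
  HI.pc (Path.refl x).down (by apply Prod.ext <;> simp)

lemma _root_.Pool.Agent.H4G.Path.symm {x y : X} {v : Z2} (h : Path O x v y) :
    Path O y (-v) x := by
  induction h with
  | refl => simpa using Path.refl _
  | @right y w h ih =>
    have h1 := (one_left (O := O) (O.r y))
    rw [Equiv.symm_apply_apply] at h1
    exact HI.pc (h1.trans ih) (by apply Prod.ext <;> simp [add_comm])
  | @left y w h ih =>
    have h1 := (one_right (O := O) (O.r.symm y))
    rw [Equiv.apply_symm_apply] at h1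
    exact HI.pc (h1.trans ih) (by apply Prod.ext <;> simp; ring)
  | @up y w h ih =>
    have h1 := (one_down (O := O) (O.u y))
    rw [Equiv.symm_apply_apply] at h1
    exact HI.pc (h1.trans ih) (by apply Prod.ext <;> simp [add_comm])
  | @down y w h ih =>
    have h1 := (one_up (O := O) (O.u.symm y))
    rw [Equiv.apply_symm_apply] at h1
    exact HI.pc (h1.trans ih) (by apply Prod.ext <;> simp; ring)

lemma exists_path (hT : O.Trans) (x y : X) : ∃ v, Path O x v y := by
  have h := hT {y | ∃ v, Path O x v y} ⟨x, 0, Path.refl x⟩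
    (fun y ⟨v, hv⟩ => ⟨_, hv.right⟩) (fun y ⟨v, hv⟩ => ⟨_, hv.up⟩)
  have : y ∈ {y | ∃ v, Path O x v y} := by rw [h]; exact Set.mem_univ y
  exact this

/-- `w` is a period, at every base point -/
def Per (O : Org X) (w : Z2) : Prop := ∀ x, Path O x w x

lemma Per.of (hT : O.Trans) {y : X} {w : Z2} (h : Path O y w y) : Per O w := by
  intro x
  obtain ⟨v, hv⟩ := exists_path hT x y
  exact HI.pc ((hv.trans h).trans hv.symm) (by abel)

lemma Per.add {v w : Z2} (h : Per O v) (h' : Per O w) : Per O (v + w) :=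
  fun x => (h x).trans (h' x)

lemma Per.neg {v : Z2} (h : Per O v) : Per O (-v) := fun x => (h x).symm

lemma Per.nsmul {v : Z2} (h : Per O v) (n : ℕ) : Per O (n • v) := by
  induction n with
  | zero => intro x; simpa using Path.refl x
  | succ n ih => rw [succ_nsmul]; exact ih.add h

lemma Per.zsmul {v : Z2} (h : Per O v) (n : ℤ) : Per O (n • v) := by
  cases n with
  | ofNat n => simpa using h.nsmul n
  | negSucc n => rw [negSucc_zsmul]; exact (h.nsmul _).neg

lemma Per.prim (h1 : Per O (1, 0)) (h2 : Per O (0, 1)) : O.Prim := by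
  intro x w
  exact HI.pc (((h1.zsmul w.1).add (h2.zsmul w.2)) x) (by apply Prod.ext <;> simp)

end paths

/-! ### Origamis on `Fin N` given by functions on numbers -/

/-- counting by a list -/
lemma cnt {N : ℕ} {P : Fin N → Prop} (l : List ℕ) (hn : l.Nodup) (hl : ∀ a ∈ l, a < N)
    (h : ∀ x : Fin N, P x ↔ x.1 ∈ l) : {x | P x}.ncard = l.length := by
  have e : {x | P x} = ((l.toFinset.attachFin (fun a ha => hl a (List.mem_toFinset.1 ha)) :
      Finset (Fin N)) : Set (Fin N)) := by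
    ext x
    rw [Finset.mem_coe, Finset.mem_attachFin, List.mem_toFinset]
    exact h x
  rw [e, Set.ncard_coe_finset, Finset.card_attachFin, List.toFinset_card_of_nodup hn]

/-- a permutation of `Fin N` given by functions on numbers -/
def prm {N : ℕ} (f g : ℕ → ℕ) (h1 : ∀ x < N, f x < N) (h2 : ∀ x < N, g x < N)
    (h3 : ∀ x < N, g (f x) = x) (h4 : ∀ x < N, f (g x) = x) : Equiv.Perm (Fin N) where
  toFun x := ⟨f x.1, h1 x.1 x.2⟩
  invFun x := ⟨g x.1, h2 x.1 x.2⟩
  left_inv x := Fin.ext (h3 x.1 x.2)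
  right_inv x := Fin.ext (h4 x.1 x.2)

/-- data of an origami on `Fin N` -/
structure Dat (N : ℕ) where
  r : ℕ → ℕ
  r' : ℕ → ℕ
  u : ℕ → ℕ
  u' : ℕ → ℕ
  i : ℕ → ℕ
  r1 : ∀ x < N, r x < N
  r2 : ∀ x < N, r' x < N
  r3 : ∀ x < N, r' (r x) = x
  r4 : ∀ x < N, r (r' x) = x
  u1 : ∀ x < N, u x < N
  u2 : ∀ x < N, u' x < N
  u3 : ∀ x < N, u' (u x) = x
  u4 : ∀ x < N, u (u' x) = x
  i1 : ∀ x < N, i x < N
  i2 : ∀ x < N, i (i x) = x
  ir : ∀ x < N, i (r x) = r' (i x)
  iu : ∀ x < N, i (u x) = u' (i x)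

/-- the origami -/
def Dat.org {N : ℕ} (D : Dat N) : Org (Fin N) where
  r := prm D.r D.r' D.r1 D.r2 D.r3 D.r4
  u := prm D.u D.u' D.u1 D.u2 D.u3 D.u4
  i := prm D.i D.i D.i1 D.i1 D.i2 D.i2
  ii x := Fin.ext (D.i2 x.1 x.2)
  ir x := Fin.ext (D.ir x.1 x.2)
  iu x := Fin.ext (D.iu x.1 x.2)

/-- the commutator on numbers -/
def Dat.c {N : ℕ} (D : Dat N) (x : ℕ) : ℕ := D.r (D.u (D.r' (D.u' x)))

lemma Dat.comm_val {N : ℕ} (D : Dat N) (x : Fin N) :
    ((D.org.r * D.org.u * D.org.r⁻¹ * D.org.u⁻¹) x).1 = D.c x.1 := rfl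

/-- the hypotheses, on numbers -/
theorem Dat.hyp {N : ℕ} (D : Dat N) (hT : D.org.Trans) (a b c d e : ℕ)
    (hl : ∀ t ∈ [a, b, c, d, e], t < N) (hn : [a, b, c, d, e].Nodup)
    (ha : D.c a = b) (hb : D.c b = c) (hc : D.c c = d) (hd : D.c d = e) (he : D.c e = a)
    (ho : ∀ x < N, x ∉ [a, b, c, d, e] → D.c x = x) (L0 LC LV LH : List ℕ)
    (h0 : ∀ x < N, (D.i x = D.u (D.r x) ∧ D.r (D.u x) = D.u (D.r x)) ↔ x ∈ L0)
    (h1 : ∀ x < N, D.i x = x ↔ x ∈ LC) (h2 : ∀ x < N, D.i x = D.r x ↔ x ∈ LV)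
    (h3 : ∀ x < N, D.i x = D.u x ↔ x ∈ LH)
    (n0 : L0.Nodup) (n1 : LC.Nodup) (n2 : LV.Nodup) (n3 : LH.Nodup)
    (l0 : ∀ t ∈ L0, t < N) (l1 : ∀ t ∈ LC, t < N) (l2 : ∀ t ∈ LV, t < N) (l3 : ∀ t ∈ LH, t < N)
    (hs : LC.length + LV.length + LH.length + L0.length = 7) :
    Hyp D.org ∧ D.org.hlk = (L0.length, {LC.length, LV.length, LH.length}) := by
  have f0 : D.org.n0 = L0.length := by
    refine cnt L0 n0 l0 (fun x => ?_)
    rw [← h0 x.1 x.2, Fin.ext_iff, Fin.ext_iff]
    rfl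
  have f1 : D.org.nC = LC.length := by
    refine cnt LC n1 l1 (fun x => ?_)
    rw [← h1 x.1 x.2, Fin.ext_iff]
    rfl
  have f2 : D.org.nV = LV.length := by
    refine cnt LV n2 l2 (fun x => ?_)
    rw [← h2 x.1 x.2, Fin.ext_iff]
    rfl
  have f3 : D.org.nH = LH.length := by
    refine cnt LH n3 l3 (fun x => ?_)
    rw [← h3 x.1 x.2, Fin.ext_iff]
    rfl
  have hmem : ∀ x : Fin N, D.c x.1 ≠ x.1 ↔ x.1 ∈ [a, b, c, d, e] := by
    intro x
    constructor
    · intro h
      by_contra h'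
      exact h (ho x.1 x.2 h')
    · intro h
      simp only [List.mem_cons, List.not_mem_nil, or_false] at h
      simp only [List.nodup_cons, List.mem_cons, List.not_mem_nil, or_false, not_or] at hn
      obtain ⟨⟨hab, hac, had, hae⟩, ⟨hbc, hbd, hbe⟩, ⟨hcd, hce⟩, hde, -⟩ := hn
      rcases h with h | h | h | h | h <;> rw [h]
      · rw [ha]; exact Ne.symm hab
      · rw [hb]; exact Ne.symm hbc
      · rw [hc]; exact Ne.symm hcd
      · rw [hd]; exact Ne.symm hde
      · rw [he]; exact hae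
  refine ⟨⟨hT, ?_, ?_, ?_⟩, ?_⟩
  · set C := D.org.r * D.org.u * D.org.r⁻¹ * D.org.u⁻¹ with hC
    have hv : ∀ x : Fin N, (C x).1 = D.c x.1 := fun x => rfl
    have la := hl a (by simp)
    have lb := hl b (by simp)
    have lc := hl c (by simp)
    have ld := hl d (by simp)
    have le := hl e (by simp)
    have ea : C ⟨a, la⟩ = ⟨b, lb⟩ := Fin.ext ha
    have eb : C ⟨b, lb⟩ = ⟨c, lc⟩ := Fin.ext hb
    have ec : C ⟨c, lc⟩ = ⟨d, ld⟩ := Fin.ext hc
    have ed : C ⟨d, ld⟩ = ⟨e, le⟩ := Fin.ext hd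
    have s0 : C.SameCycle ⟨a, la⟩ ⟨a, la⟩ := Equiv.Perm.SameCycle.refl _ _
    have s1 : C.SameCycle ⟨a, la⟩ ⟨b, lb⟩ := by
      rw [← ea]; exact Equiv.Perm.sameCycle_apply_right.2 s0
    have s2 : C.SameCycle ⟨a, la⟩ ⟨c, lc⟩ := by
      rw [← eb]; exact Equiv.Perm.sameCycle_apply_right.2 s1
    have s3 : C.SameCycle ⟨a, la⟩ ⟨d, ld⟩ := by
      rw [← ec]; exact Equiv.Perm.sameCycle_apply_right.2 s2
    have s4 : C.SameCycle ⟨a, la⟩ ⟨e, le⟩ := by
      rw [← ed]; exact Equiv.Perm.sameCycle_apply_right.2 s3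
    refine ⟨⟨a, la⟩, ?_, ?_⟩
    · intro h
      have h1 := congrArg Fin.val h
      exact ((hmem ⟨a, la⟩).2 (by simp)) h1
    · intro y hy
      have h1 : D.c y.1 ≠ y.1 := fun h => hy (Fin.ext h)
      have h2 := (hmem y).1 h1
      simp only [List.mem_cons, List.not_mem_nil, or_false] at h2
      rcases h2 with h | h | h | h | h
      · obtain rfl : y = ⟨a, la⟩ := Fin.ext h; exact s0
      · obtain rfl : y = ⟨b, lb⟩ := Fin.ext h; exact s1
      · obtain rfl : y = ⟨c, lc⟩ := Fin.ext h; exact s2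
      · obtain rfl : y = ⟨d, ld⟩ := Fin.ext h; exact s3
      · obtain rfl : y = ⟨e, le⟩ := Fin.ext h; exact s4
  · refine cnt [a, b, c, d, e] hn hl (fun x => ?_)
    rw [← hmem x, Ne, Fin.ext_iff]
    rfl
  · have e0 : D.org.nC + D.org.nV + D.org.nH + D.org.n0 = 7 := by
      rw [f0, f1, f2, f3]; exact hs
    exact e0
  · unfold Org.hlk
    rw [f0, f1, f2, f3]

/-! ### The row -/

/-- right neighbour in one row of length `n` (further squares are fixed) -/
def rr (n x : ℕ) : ℕ := if x + 1 = n then 0 else if x < n then x + 1 else x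
/-- left neighbour -/
def rl (n x : ℕ) : ℕ := if x = 0 then n - 1 else if x < n then x - 1 else x
/-- half turn -/
def hh (n s x : ℕ) : ℕ := if x < s then s - 1 - x else if x < n then n + s - 1 - x else x

/-- family 1 -/
def u1 (x : ℕ) : ℕ :=
  if x = 0 then 6 else if x = 1 then 7 else if x = 2 then 4 else if x = 3 then 5 else
  if x = 4 then 2 else if x = 5 then 3 else if x = 6 then 0 else if x = 7 then 1 else x

/-- family 2 -/
def u2 (x : ℕ) : ℕ :=
  if x = 0 then 4 else if x = 4 then 1 else if x = 1 then 5 else if x = 5 then 0 else x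
/-- its inverse -/
def u2' (x : ℕ) : ℕ :=
  if x = 4 then 0 else if x = 1 then 4 else if x = 5 then 1 else if x = 0 then 5 else x

/-- family 3 -/
def u3 (x : ℕ) : ℕ :=
  if x = 0 then 3 else if x = 1 then 2 else if x = 2 then 1 else if x = 3 then 0 else x

/-- family D, `n` is the last square -/
def u4 (n x : ℕ) : ℕ := if x = 2 then n else if x = n then 0 else if x = 0 then 2 else x
/-- its inverse -/
def u4' (n x : ℕ) : ℕ := if x = n then 2 else if x = 0 then n else if x = 2 then 0 else x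

lemma rr_s (n x : ℕ) : (x + 1 = n ∧ rr n x = 0) ∨ (x + 1 < n ∧ rr n x = x + 1) ∨
    (n ≤ x ∧ rr n x = x) := by
  unfold rr; split_ifs <;> omega

lemma rl_s (n x : ℕ) : (x = 0 ∧ rl n x = n - 1) ∨ (0 < x ∧ x < n ∧ rl n x = x - 1) ∨
    (0 < x ∧ n ≤ x ∧ rl n x = x) := by
  unfold rl; split_ifs <;> omega

lemma hh_s (n s x : ℕ) : (x < s ∧ hh n s x = s - 1 - x) ∨
    (s ≤ x ∧ x < n ∧ hh n s x = n + s - 1 - x) ∨ (s ≤ x ∧ n ≤ x ∧ hh n s x = x) := by
  unfold hh; split_ifs <;> omega

lemma u1_s (x : ℕ) : (x = 0 ∧ u1 x = 6) ∨ (x = 1 ∧ u1 x = 7) ∨ (x = 2 ∧ u1 x = 4) ∨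
    (x = 3 ∧ u1 x = 5) ∨ (x = 4 ∧ u1 x = 2) ∨ (x = 5 ∧ u1 x = 3) ∨ (x = 6 ∧ u1 x = 0) ∨
    (x = 7 ∧ u1 x = 1) ∨ (8 ≤ x ∧ u1 x = x) := by
  unfold u1; split_ifs <;> omega

lemma u2_s (x : ℕ) : (x = 0 ∧ u2 x = 4) ∨ (x = 4 ∧ u2 x = 1) ∨ (x = 1 ∧ u2 x = 5) ∨
    (x = 5 ∧ u2 x = 0) ∨ (x ≠ 0 ∧ x ≠ 1 ∧ x ≠ 4 ∧ x ≠ 5 ∧ u2 x = x) := by
  unfold u2; split_ifs <;> omega

lemma u2'_s (x : ℕ) : (x = 4 ∧ u2' x = 0) ∨ (x = 1 ∧ u2' x = 4) ∨ (x = 5 ∧ u2' x = 1) ∨
    (x = 0 ∧ u2' x = 5) ∨ (x ≠ 0 ∧ x ≠ 1 ∧ x ≠ 4 ∧ x ≠ 5 ∧ u2' x = x) := by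
  unfold u2'; split_ifs <;> omega

lemma u3_s (x : ℕ) : (x = 0 ∧ u3 x = 3) ∨ (x = 1 ∧ u3 x = 2) ∨ (x = 2 ∧ u3 x = 1) ∨
    (x = 3 ∧ u3 x = 0) ∨ (4 ≤ x ∧ u3 x = x) := by
  unfold u3; split_ifs <;> omega

lemma u4_s (n x : ℕ) (hn : 2 < n) : (x = 2 ∧ u4 n x = n) ∨ (x = n ∧ u4 n x = 0) ∨
    (x = 0 ∧ u4 n x = 2) ∨ (x ≠ 0 ∧ x ≠ 2 ∧ x ≠ n ∧ u4 n x = x) := by
  unfold u4; split_ifs <;> omega

lemma u4'_s (n x : ℕ) (hn : 2 < n) : (x = n ∧ u4' n x = 2) ∨ (x = 0 ∧ u4' n x = n) ∨
    (x = 2 ∧ u4' n x = 0) ∨ (x ≠ 0 ∧ x ≠ 2 ∧ x ≠ n ∧ u4' n x = x) := by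
  unfold u4'; split_ifs <;> omega

/-- family 1 -/
def D1 (N : ℕ) (h : 8 < N) : Dat N where
  r := rr N
  r' := rl N
  u := u1
  u' := u1
  i := hh N 8
  r1 x hx := by have := rr_s N x; omega
  r2 x hx := by have := rl_s N x; omega
  r3 x hx := by have := rr_s N x; have := rl_s N (rr N x); omega
  r4 x hx := by have := rl_s N x; have := rr_s N (rl N x); omega
  u1 x hx := by have := u1_s x; omega
  u2 x hx := by have := u1_s x; omega
  u3 x hx := by have := u1_s x; have := u1_s (u1 x); omega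
  u4 x hx := by have := u1_s x; have := u1_s (u1 x); omega
  i1 x hx := by have := hh_s N 8 x; omega
  i2 x hx := by have := hh_s N 8 x; have := hh_s N 8 (hh N 8 x); omega
  ir x hx := by
    have := hh_s N 8 x; have := rr_s N x
    have := hh_s N 8 (rr N x); have := rl_s N (hh N 8 x); omega
  iu x hx := by
    have := hh_s N 8 x; have := u1_s x
    have := hh_s N 8 (u1 x); have := u1_s (hh N 8 x); omega

/-- family 2 -/
def D2 (N : ℕ) (h : 8 < N) : Dat N where
  r := rr N
  r' := rl N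
  u := u2
  u' := u2'
  i := hh N 6
  r1 x hx := by have := rr_s N x; omega
  r2 x hx := by have := rl_s N x; omega
  r3 x hx := by have := rr_s N x; have := rl_s N (rr N x); omega
  r4 x hx := by have := rl_s N x; have := rr_s N (rl N x); omega
  u1 x hx := by have := u2_s x; omega
  u2 x hx := by have := u2'_s x; omega
  u3 x hx := by have := u2_s x; have := u2'_s (u2 x); omega
  u4 x hx := by have := u2'_s x; have := u2_s (u2' x); omega
  i1 x hx := by have := hh_s N 6 x; omega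
  i2 x hx := by have := hh_s N 6 x; have := hh_s N 6 (hh N 6 x); omega
  ir x hx := by
    have := hh_s N 6 x; have := rr_s N x
    have := hh_s N 6 (rr N x); have := rl_s N (hh N 6 x); omega
  iu x hx := by
    have := hh_s N 6 x; have := u2_s x
    have := hh_s N 6 (u2 x); have := u2'_s (hh N 6 x); omega

/-- family 3 -/
def D3 (N : ℕ) (h : 8 < N) : Dat N where
  r := rr N
  r' := rl N
  u := u3
  u' := u3
  i := hh N 4
  r1 x hx := by have := rr_s N x; omega
  r2 x hx := by have := rl_s N x; omega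
  r3 x hx := by have := rr_s N x; have := rl_s N (rr N x); omega
  r4 x hx := by have := rl_s N x; have := rr_s N (rl N x); omega
  u1 x hx := by have := u3_s x; omega
  u2 x hx := by have := u3_s x; omega
  u3 x hx := by have := u3_s x; have := u3_s (u3 x); omega
  u4 x hx := by have := u3_s x; have := u3_s (u3 x); omega
  i1 x hx := by have := hh_s N 4 x; omega
  i2 x hx := by have := hh_s N 4 x; have := hh_s N 4 (hh N 4 x); omega
  ir x hx := by
    have := hh_s N 4 x; have := rr_s N x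
    have := hh_s N 4 (rr N x); have := rl_s N (hh N 4 x); omega
  iu x hx := by
    have := hh_s N 4 x; have := u3_s x
    have := hh_s N 4 (u3 x); have := u3_s (hh N 4 x); omega

/-- family D, with `n + 1` squares -/
def D4 (n : ℕ) (h : 7 < n) : Dat (n + 1) where
  r := rr n
  r' := rl n
  u := u4 n
  u' := u4' n
  i := hh n 3
  r1 x hx := by have := rr_s n x; omega
  r2 x hx := by have := rl_s n x; omega
  r3 x hx := by have := rr_s n x; have := rl_s n (rr n x); omega
  r4 x hx := by have := rl_s n x; have := rr_s n (rl n x); omega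
  u1 x hx := by have := u4_s n x (by omega); omega
  u2 x hx := by have := u4'_s n x (by omega); omega
  u3 x hx := by have := u4_s n x (by omega); have := u4'_s n (u4 n x) (by omega); omega
  u4 x hx := by have := u4'_s n x (by omega); have := u4_s n (u4' n x) (by omega); omega
  i1 x hx := by have := hh_s n 3 x; omega
  i2 x hx := by have := hh_s n 3 x; have := hh_s n 3 (hh n 3 x); omega
  ir x hx := by
    have := hh_s n 3 x; have := rr_s n x
    have := hh_s n 3 (rr n x); have := rl_s n (hh n 3 x); omega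
  iu x hx := by
    have := hh_s n 3 x; have := u4_s n x (by omega)
    have := hh_s n 3 (u4 n x); have := u4'_s n (hh n 3 x) (by omega); omega

lemma c1_a (N x : ℕ) (h : 8 < N) : (D1 N h).c x = rr N (u1 (rl N (u1 x))) := rfl
lemma c2_a (N x : ℕ) (h : 8 < N) : (D2 N h).c x = rr N (u2 (rl N (u2' x))) := rfl
lemma c3_a (N x : ℕ) (h : 8 < N) : (D3 N h).c x = rr N (u3 (rl N (u3 x))) := rfl
lemma c4_a (n x : ℕ) (h : 7 < n) : (D4 n h).c x = rr n (u4 n (rl n (u4' n x))) := rfl

lemma c1_b (N x y : ℕ) (h : 8 < N) (hx : x < N) (hxy : (x = 0 ∧ y = 4) ∨ (x = 4 ∧ y = 8) ∨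
    (x = 8 ∧ y = 2) ∨ (x = 2 ∧ y = 6) ∨ (x = 6 ∧ y = 0) ∨ (x = 1 ∧ y = 1) ∨ (x = 3 ∧ y = 3) ∨
    (x = 5 ∧ y = 5) ∨ (x = 7 ∧ y = 7) ∨ (8 < x ∧ y = x)) : (D1 N h).c x = y := by
  rw [c1_a]
  have h1 := u1_s x
  have h2 := rl_s N (u1 x)
  have h3 := u1_s (rl N (u1 x))
  have h4 := rr_s N (u1 (rl N (u1 x)))
  rcases hxy with h | h | h | h | h | h | h | h | h | h <;> omega

lemma c2_b (N x y : ℕ) (h : 8 < N) (hx : x < N) (hxy : (x = 0 ∧ y = 2) ∨ (x = 2 ∧ y = 6) ∨
    (x = 6 ∧ y = 1) ∨ (x = 1 ∧ y = 4) ∨ (x = 4 ∧ y = 0) ∨ (x = 3 ∧ y = 3) ∨ (x = 5 ∧ y = 5) ∨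
    (6 < x ∧ y = x)) : (D2 N h).c x = y := by
  rw [c2_a]
  have h1 := u2'_s x
  have h2 := rl_s N (u2' x)
  have h3 := u2_s (rl N (u2' x))
  have h4 := rr_s N (u2 (rl N (u2' x)))
  rcases hxy with h | h | h | h | h | h | h | h <;> omega

lemma c3_b (N x y : ℕ) (h : 8 < N) (hx : x < N) (hxy : (x = 0 ∧ y = 2) ∨ (x = 2 ∧ y = 4) ∨
    (x = 4 ∧ y = 1) ∨ (x = 1 ∧ y = 3) ∨ (x = 3 ∧ y = 0) ∨ (4 < x ∧ y = x)) :
    (D3 N h).c x = y := by
  rw [c3_a]
  have h1 := u3_s x
  have h2 := rl_s N (u3 x)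
  have h3 := u3_s (rl N (u3 x))
  have h4 := rr_s N (u3 (rl N (u3 x)))
  rcases hxy with h | h | h | h | h | h <;> omega

lemma c4_b (n x y : ℕ) (h : 7 < n) (hx : x < n + 1) (hxy : (x = 0 ∧ y = 1) ∨ (x = 1 ∧ y = 3) ∨
    (x = 3 ∧ y = n) ∨ (x = n ∧ y = 2) ∨ (x = 2 ∧ y = 0) ∨ (3 < x ∧ x < n ∧ y = x)) :
    (D4 n h).c x = y := by
  rw [c4_a]
  have h1 := u4'_s n x (by omega)
  have h2 := rl_s n (u4' n x)
  have h3 := u4_s n (rl n (u4' n x)) (by omega)
  have h4 := rr_s n (u4 n (rl n (u4' n x)))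
  rcases hxy with h | h | h | h | h | h <;> omega

/-! ### Connectedness -/

lemma row_mem {N n : ℕ} (O : Org (Fin N)) (hn : n ≤ N) (hr : ∀ x, (O.r x).1 = rr n x.1)
    {S : Set (Fin N)} (hS : ∀ x ∈ S, O.r x ∈ S) {x0 : Fin N} (h0 : x0 ∈ S) (hx : x0.1 < n) :
    ∀ (k : ℕ) (hk : k < n), (⟨k, hk.trans_le hn⟩ : Fin N) ∈ S := by
  have s1 : ∀ (k : ℕ) (h : x0.1 + k < n), (⟨x0.1 + k, h.trans_le hn⟩ : Fin N) ∈ S := by
    intro k
    induction k with
    | zero => intro h; exact h0
    | succ k ih =>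
      intro h
      have h1 := hS _ (ih (by omega))
      have h2 : O.r ⟨x0.1 + k, by omega⟩ = ⟨x0.1 + (k + 1), by omega⟩ := by
        apply Fin.ext
        rw [hr]
        have := rr_s n (x0.1 + k)
        change rr n (x0.1 + k) = x0.1 + (k + 1)
        omega
      rwa [h2] at h1
  have s2 : (⟨0, by omega⟩ : Fin N) ∈ S := by
    have h1 := hS _ (s1 (n - 1 - x0.1) (by omega))
    have h2 : O.r ⟨x0.1 + (n - 1 - x0.1), by omega⟩ = ⟨0, by omega⟩ := by
      apply Fin.ext
      rw [hr]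
      have := rr_s n (x0.1 + (n - 1 - x0.1))
      change rr n (x0.1 + (n - 1 - x0.1)) = 0
      omega
    rwa [h2] at h1
  intro k
  induction k with
  | zero => intro h; exact s2
  | succ k ih =>
    intro h
    have h1 := hS _ (ih (by omega))
    have h2 : O.r ⟨k, by omega⟩ = ⟨k + 1, by omega⟩ := by
      apply Fin.ext
      rw [hr]
      have := rr_s n k
      change rr n k = k + 1
      omega
    rwa [h2] at h1

lemma trans_row {N : ℕ} (O : Org (Fin N)) (hr : ∀ x, (O.r x).1 = rr N x.1) : O.Trans := by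
  intro S hne hS _
  obtain ⟨x0, h0⟩ := hne
  ext x
  exact ⟨fun _ => Set.mem_univ _, fun _ => row_mem O le_rfl hr hS h0 x0.2 x.1 x.2⟩

lemma trans4 (n : ℕ) (h : 7 < n) : (D4 n h).org.Trans := by
  intro S hne hS hU
  have hr : ∀ x, ((D4 n h).org.r x).1 = rr n x.1 := fun x => rfl
  have hu : ∀ x, ((D4 n h).org.u x).1 = u4 n x.1 := fun x => rfl
  have key : ∀ (k : ℕ) (hk : k < n), (⟨k, by omega⟩ : Fin (n + 1)) ∈ S := by
    obtain ⟨x0, h0⟩ := hne
    by_cases hx : x0.1 < n
    · exact row_mem _ (by omega) hr hS h0 hx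
    · have hx' : x0.1 = n := by have := x0.2; omega
      have h1 := hU _ h0
      refine row_mem _ (by omega) hr hS h1 ?_
      rw [hu, hx']
      have := u4_s n n (by omega)
      omega
  have hn : (⟨n, by omega⟩ : Fin (n + 1)) ∈ S := by
    have h1 := hU _ (key 2 (by omega))
    have h2 : (D4 n h).org.u ⟨2, by omega⟩ = ⟨n, by omega⟩ := by
      apply Fin.ext
      rw [hu]
      have := u4_s n 2 (by omega)
      change u4 n 2 = n
      omega
    rwa [h2] at h1
  ext x
  refine ⟨fun _ => Set.mem_univ _, fun _ => ?_⟩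
  by_cases hx : x.1 < n
  · exact key x.1 hx
  · have hx' : x.1 = n := by have := x.2; omega
    have : x = ⟨n, by omega⟩ := Fin.ext hx'
    rw [this]; exact hn

/-! ### Periods -/

lemma per_row {N : ℕ} (O : Org (Fin N)) (hN : 0 < N) (hr : ∀ x, (O.r x).1 = rr N x.1) :
    Per O ((N : ℤ), 0) := by
  have h1 : ∀ (k : ℕ) (hk : k < N), Path O ⟨0, hN⟩ ((k : ℤ), 0) ⟨k, hk⟩ := by
    intro k
    induction k with
    | zero => intro hk; exact Path.refl _
    | succ k ih =>
      intro hk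
      have h1 := (ih (by omega)).right
      have h2 : O.r ⟨k, by omega⟩ = ⟨k + 1, hk⟩ := by
        apply Fin.ext
        rw [hr]
        have := rr_s N k
        change rr N k = k + 1
        omega
      rw [h2] at h1
      exact HI.pc h1 (by apply Prod.ext <;> simp)
  have h2 := (h1 (N - 1) (by omega)).right
  have h3 : O.r ⟨N - 1, by omega⟩ = ⟨0, hN⟩ := by
    apply Fin.ext
    rw [hr]
    have := rr_s N (N - 1)
    change rr N (N - 1) = 0
    omega
  rw [h3] at h2
  refine Per.of (trans_row O hr) (HI.pc h2 ?_)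
  apply Prod.ext
  · simp only [Prod.fst_add]; omega
  · simp

lemma per_up {N : ℕ} (O : Org (Fin N)) (hT : O.Trans) (x : Fin N) (h : (O.u x).1 = x.1) :
    Per O (0, 1) := by
  refine Per.of hT (y := x) ?_
  have h1 := one_up (O := O) x
  rwa [show O.u x = x from Fin.ext h] at h1

lemma prim1 (N m : ℕ) (h : 8 < N) (hm : N = 2 * m + 1) : (D1 N h).org.Prim := by
  have hT : (D1 N h).org.Trans := trans_row _ (fun x => rfl)
  have p1 : Per (D1 N h).org (0, 1) := per_up _ hT ⟨8, h⟩ rfl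
  have p2 : Per (D1 N h).org (-2, 1) := by
    refine Per.of hT (y := ⟨2, by omega⟩) ?_
    have h1 := (((Path.refl (O := (D1 N h).org) ⟨2, by omega⟩).up).left).left
    have e : (D1 N h).org.r.symm ((D1 N h).org.r.symm ((D1 N h).org.u ⟨2, by omega⟩)) =
        ⟨2, by omega⟩ := by
      apply Fin.ext
      change rl N (rl N (u1 2)) = 2
      have h1 := u1_s 2
      have h2 := rl_s N (u1 2)
      have h3 := rl_s N (rl N (u1 2))
      omega
    rw [e] at h1
    exact HI.pc h1 (by decide)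
  have p3 := per_row (D1 N h).org (by omega) (fun x => rfl)
  have p4 := p3.add ((p2.add p1.neg).nsmul m)
  refine Per.prim ?_ p1
  convert p4 using 1
  apply Prod.ext
  · simp [hm]; ring
  · simp

lemma prim2 (N : ℕ) (h : 8 < N) : (D2 N h).org.Prim := by
  have hT : (D2 N h).org.Trans := trans_row _ (fun x => rfl)
  have p1 : Per (D2 N h).org (0, 1) := per_up _ hT ⟨2, by omega⟩ rfl
  have p2 : Per (D2 N h).org (-4, 1) := by
    refine Per.of hT (y := ⟨0, by omega⟩) ?_
    have h1 := (((((Path.refl (O := (D2 N h).org) ⟨0, by omega⟩).up).left).left).left).left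
    have e : (D2 N h).org.r.symm ((D2 N h).org.r.symm ((D2 N h).org.r.symm
        ((D2 N h).org.r.symm ((D2 N h).org.u ⟨0, by omega⟩)))) = ⟨0, by omega⟩ := by
      apply Fin.ext
      change rl N (rl N (rl N (rl N (u2 0)))) = 0
      have h1 := u2_s 0
      have h2 := rl_s N (u2 0)
      have h3 := rl_s N (rl N (u2 0))
      have h4 := rl_s N (rl N (rl N (u2 0)))
      have h5 := rl_s N (rl N (rl N (rl N (u2 0))))
      omega
    rw [e] at h1
    exact HI.pc h1 (by decide)
  have p3 : Per (D2 N h).org (3, 1) := by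
    refine Per.of hT (y := ⟨4, by omega⟩) ?_
    have h1 := ((((Path.refl (O := (D2 N h).org) ⟨4, by omega⟩).up).right).right).right
    have e : (D2 N h).org.r ((D2 N h).org.r ((D2 N h).org.r
        ((D2 N h).org.u ⟨4, by omega⟩))) = ⟨4, by omega⟩ := by
      apply Fin.ext
      change rr N (rr N (rr N (u2 4))) = 4
      have h1 := u2_s 4
      have h2 := rr_s N (u2 4)
      have h3 := rr_s N (rr N (u2 4))
      have h4 := rr_s N (rr N (rr N (u2 4)))
      omega
    rw [e] at h1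
    exact HI.pc h1 (by decide)
  have p4 := (p2.neg.add p3.neg).add (p1.add p1)
  exact Per.prim (fun x => HI.pc (p4 x) (by decide)) p1

lemma prim3 (N : ℕ) (h : 8 < N) : (D3 N h).org.Prim := by
  have hT : (D3 N h).org.Trans := trans_row _ (fun x => rfl)
  have p1 : Per (D3 N h).org (0, 1) := per_up _ hT ⟨4, by omega⟩ rfl
  have p2 : Per (D3 N h).org (-1, 1) := by
    refine Per.of hT (y := ⟨1, by omega⟩) ?_
    have h1 := ((Path.refl (O := (D3 N h).org) ⟨1, by omega⟩).up).left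
    have e : (D3 N h).org.r.symm ((D3 N h).org.u ⟨1, by omega⟩) = ⟨1, by omega⟩ := by
      apply Fin.ext
      change rl N (u3 1) = 1
      have h1 := u3_s 1
      have h2 := rl_s N (u3 1)
      omega
    rw [e] at h1
    exact HI.pc h1 (by decide)
  have p4 := p2.neg.add p1
  exact Per.prim (fun x => HI.pc (p4 x) (by decide)) p1

lemma prim4 (n : ℕ) (h : 7 < n) : (D4 n h).org.Prim := by
  have hT := trans4 n h
  have p1 : Per (D4 n h).org (0, 1) := by
    refine per_up _ hT ⟨1, by omega⟩ ?_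
    change u4 n 1 = 1
    have := u4_s n 1 (by omega)
    omega
  have p2 : Per (D4 n h).org (1, 0) := by
    refine Per.of hT (y := ⟨n, by omega⟩) ?_
    have h1 := one_right (O := (D4 n h).org) ⟨n, by omega⟩
    have e : (D4 n h).org.r ⟨n, by omega⟩ = ⟨n, by omega⟩ := by
      apply Fin.ext
      change rr n n = n
      have := rr_s n n
      omega
    rwa [e] at h1
  exact Per.prim p2 p1

/-! ### The values -/

lemma hyp1 (N m : ℕ) (h : 8 < N) (hm : N = 2 * m + 1) :
    Hyp (D1 N h).org ∧ (D1 N h).org.hlk = (4, {1, 1, 1}) := by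
  refine Dat.hyp (D1 N h) (trans_row _ (fun x => rfl)) 0 4 8 2 6 (by simp; omega) (by decide)
    (c1_b N _ _ h (by omega) (by omega)) (c1_b N _ _ h (by omega) (by omega))
    (c1_b N _ _ h (by omega) (by omega)) (c1_b N _ _ h (by omega) (by omega))
    (c1_b N _ _ h (by omega) (by omega)) ?_ [0, 2, 4, 6] [m + 4] [3] [m + 4] ?_ ?_ ?_ ?_
    (by decide) (by simp) (by decide) (by simp) (by simp; omega) (by simp; omega) (by simp; omega)
    (by simp; omega) rfl
  · intro x hx hx'
    simp only [List.mem_cons, List.not_mem_nil, or_false, not_or] at hx'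
    exact c1_b N _ _ h hx (by omega)
  · intro x hx
    simp only [List.mem_cons, List.not_mem_nil, or_false]
    change (hh N 8 x = u1 (rr N x) ∧ rr N (u1 x) = u1 (rr N x)) ↔ _
    have h1 := hh_s N 8 x
    have h2 := rr_s N x
    have h3 := u1_s (rr N x)
    have h4 := u1_s x
    have h5 := rr_s N (u1 x)
    rcases h4 with h4 | h4 | h4 | h4 | h4 | h4 | h4 | h4 | h4 <;> omega
  · intro x hx
    simp only [List.mem_cons, List.not_mem_nil, or_false]
    change hh N 8 x = x ↔ _
    have h1 := hh_s N 8 x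
    omega
  · intro x hx
    simp only [List.mem_cons, List.not_mem_nil, or_false]
    change hh N 8 x = rr N x ↔ _
    have h1 := hh_s N 8 x
    have h2 := rr_s N x
    omega
  · intro x hx
    simp only [List.mem_cons, List.not_mem_nil, or_false]
    change hh N 8 x = u1 x ↔ _
    have h1 := hh_s N 8 x
    have h4 := u1_s x
    omega

lemma hyp2o (N m : ℕ) (h : 8 < N) (hm : N = 2 * m + 1) :
    Hyp (D2 N h).org ∧ (D2 N h).org.hlk = (2, {1, 1, 3}) := by
  refine Dat.hyp (D2 N h) (trans_row _ (fun x => rfl)) 0 2 6 1 4 (by simp; omega) (by decide)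
    (c2_b N _ _ h (by omega) (by omega)) (c2_b N _ _ h (by omega) (by omega))
    (c2_b N _ _ h (by omega) (by omega)) (c2_b N _ _ h (by omega) (by omega))
    (c2_b N _ _ h (by omega) (by omega)) ?_ [0, 2] [m + 3] [2] [4, 5, m + 3] ?_ ?_ ?_ ?_
    (by decide) (by simp) (by decide) (by simp; omega) (by simp; omega) (by simp; omega) (by simp; omega)
    (by simp; omega) rfl
  · intro x hx hx'
    simp only [List.mem_cons, List.not_mem_nil, or_false, not_or] at hx'
    exact c2_b N _ _ h hx (by omega)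
  · intro x hx
    simp only [List.mem_cons, List.not_mem_nil, or_false]
    change (hh N 6 x = u2 (rr N x) ∧ rr N (u2 x) = u2 (rr N x)) ↔ _
    have h1 := hh_s N 6 x
    have h2 := rr_s N x
    have h3 := u2_s (rr N x)
    have h4 := u2_s x
    have h5 := rr_s N (u2 x)
    rcases h4 with h4 | h4 | h4 | h4 | h4 <;> omega
  · intro x hx
    simp only [List.mem_cons, List.not_mem_nil, or_false]
    change hh N 6 x = x ↔ _
    have h1 := hh_s N 6 x
    omega
  · intro x hx
    simp only [List.mem_cons, List.not_mem_nil, or_false]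
    change hh N 6 x = rr N x ↔ _
    have h1 := hh_s N 6 x
    have h2 := rr_s N x
    omega
  · intro x hx
    simp only [List.mem_cons, List.not_mem_nil, or_false]
    change hh N 6 x = u2 x ↔ _
    have h1 := hh_s N 6 x
    have h4 := u2_s x
    omega

lemma hyp2e (N m : ℕ) (h : 8 < N) (hm : N = 2 * m) :
    Hyp (D2 N h).org ∧ (D2 N h).org.hlk = (3, {0, 2, 2}) := by
  refine Dat.hyp (D2 N h) (trans_row _ (fun x => rfl)) 0 2 6 1 4 (by simp; omega) (by decide)
    (c2_b N _ _ h (by omega) (by omega)) (c2_b N _ _ h (by omega) (by omega))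
    (c2_b N _ _ h (by omega) (by omega)) (c2_b N _ _ h (by omega) (by omega))
    (c2_b N _ _ h (by omega) (by omega)) ?_ [0, 2, m + 2] [] [2, m + 2] [4, 5] ?_ ?_ ?_ ?_
    (by simp; omega) (by simp) (by simp; omega) (by decide) (by simp; omega) (by simp) (by simp; omega)
    (by simp; omega) rfl
  · intro x hx hx'
    simp only [List.mem_cons, List.not_mem_nil, or_false, not_or] at hx'
    exact c2_b N _ _ h hx (by omega)
  · intro x hx
    simp only [List.mem_cons, List.not_mem_nil, or_false]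
    change (hh N 6 x = u2 (rr N x) ∧ rr N (u2 x) = u2 (rr N x)) ↔ _
    have h1 := hh_s N 6 x
    have h2 := rr_s N x
    have h3 := u2_s (rr N x)
    have h4 := u2_s x
    have h5 := rr_s N (u2 x)
    rcases h4 with h4 | h4 | h4 | h4 | h4 <;> omega
  · intro x hx
    simp only [List.not_mem_nil, iff_false]
    change ¬ (hh N 6 x = x)
    have h1 := hh_s N 6 x
    omega
  · intro x hx
    simp only [List.mem_cons, List.not_mem_nil, or_false]
    change hh N 6 x = rr N x ↔ _
    have h1 := hh_s N 6 x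
    have h2 := rr_s N x
    omega
  · intro x hx
    simp only [List.mem_cons, List.not_mem_nil, or_false]
    change hh N 6 x = u2 x ↔ _
    have h1 := hh_s N 6 x
    have h4 := u2_s x
    omega

lemma hyp3o (N m : ℕ) (h : 8 < N) (hm : N = 2 * m + 1) :
    Hyp (D3 N h).org ∧ (D3 N h).org.hlk = (0, {1, 1, 5}) := by
  refine Dat.hyp (D3 N h) (trans_row _ (fun x => rfl)) 0 2 4 1 3 (by simp; omega) (by decide)
    (c3_b N _ _ h (by omega) (by omega)) (c3_b N _ _ h (by omega) (by omega))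
    (c3_b N _ _ h (by omega) (by omega)) (c3_b N _ _ h (by omega) (by omega))
    (c3_b N _ _ h (by omega) (by omega)) ?_ [] [m + 2] [1] [0, 1, 2, 3, m + 2] ?_ ?_ ?_ ?_
    (by simp) (by simp) (by decide) (by simp; omega) (by simp) (by simp; omega) (by simp; omega)
    (by simp; omega) rfl
  · intro x hx hx'
    simp only [List.mem_cons, List.not_mem_nil, or_false, not_or] at hx'
    exact c3_b N _ _ h hx (by omega)
  · intro x hx
    simp only [List.not_mem_nil, iff_false]
    change ¬ (hh N 4 x = u3 (rr N x) ∧ rr N (u3 x) = u3 (rr N x))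
    have h1 := hh_s N 4 x
    have h2 := rr_s N x
    have h3 := u3_s (rr N x)
    have h4 := u3_s x
    have h5 := rr_s N (u3 x)
    rcases h4 with h4 | h4 | h4 | h4 | h4 <;> omega
  · intro x hx
    simp only [List.mem_cons, List.not_mem_nil, or_false]
    change hh N 4 x = x ↔ _
    have h1 := hh_s N 4 x
    omega
  · intro x hx
    simp only [List.mem_cons, List.not_mem_nil, or_false]
    change hh N 4 x = rr N x ↔ _
    have h1 := hh_s N 4 x
    have h2 := rr_s N x
    omega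
  · intro x hx
    simp only [List.mem_cons, List.not_mem_nil, or_false]
    change hh N 4 x = u3 x ↔ _
    have h1 := hh_s N 4 x
    have h4 := u3_s x
    omega

lemma hyp3e (N m : ℕ) (h : 8 < N) (hm : N = 2 * m) :
    Hyp (D3 N h).org ∧ (D3 N h).org.hlk = (1, {0, 2, 4}) := by
  refine Dat.hyp (D3 N h) (trans_row _ (fun x => rfl)) 0 2 4 1 3 (by simp; omega) (by decide)
    (c3_b N _ _ h (by omega) (by omega)) (c3_b N _ _ h (by omega) (by omega))
    (c3_b N _ _ h (by omega) (by omega)) (c3_b N _ _ h (by omega) (by omega))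
    (c3_b N _ _ h (by omega) (by omega)) ?_ [m + 1] [] [1, m + 1] [0, 1, 2, 3] ?_ ?_ ?_ ?_
    (by simp) (by simp) (by simp; omega) (by decide) (by simp; omega) (by simp) (by simp; omega)
    (by simp; omega) rfl
  · intro x hx hx'
    simp only [List.mem_cons, List.not_mem_nil, or_false, not_or] at hx'
    exact c3_b N _ _ h hx (by omega)
  · intro x hx
    simp only [List.mem_cons, List.not_mem_nil, or_false]
    change (hh N 4 x = u3 (rr N x) ∧ rr N (u3 x) = u3 (rr N x)) ↔ _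
    have h1 := hh_s N 4 x
    have h2 := rr_s N x
    have h3 := u3_s (rr N x)
    have h4 := u3_s x
    have h5 := rr_s N (u3 x)
    rcases h4 with h4 | h4 | h4 | h4 | h4 <;> omega
  · intro x hx
    simp only [List.not_mem_nil, iff_false]
    change ¬ (hh N 4 x = x)
    have h1 := hh_s N 4 x
    omega
  · intro x hx
    simp only [List.mem_cons, List.not_mem_nil, or_false]
    change hh N 4 x = rr N x ↔ _
    have h1 := hh_s N 4 x
    have h2 := rr_s N x
    omega
  · intro x hx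
    simp only [List.mem_cons, List.not_mem_nil, or_false]
    change hh N 4 x = u3 x ↔ _
    have h1 := hh_s N 4 x
    have h4 := u3_s x
    omega

lemma hyp4o (n m : ℕ) (h : 7 < n) (hm : n = 2 * m) :
    Hyp (D4 n h).org ∧ (D4 n h).org.hlk = (0, {3, 1, 3}) := by
  refine Dat.hyp (D4 n h) (trans4 n h) 0 1 3 n 2 (by simp; omega) (by simp; omega)
    (c4_b n _ _ h (by omega) (by omega)) (c4_b n _ _ h (by omega) (by omega))
    (c4_b n _ _ h (by omega) (by omega)) (c4_b n _ _ h (by omega) (by omega))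
    (c4_b n _ _ h (by omega) (by omega)) ?_ [] [1, m + 1, n] [n] [0, 1, m + 1] ?_ ?_ ?_ ?_
    (by simp) (by simp; omega) (by simp) (by simp; omega) (by simp) (by simp; omega) (by simp)
    (by simp; omega) rfl
  · intro x hx hx'
    simp only [List.mem_cons, List.not_mem_nil, or_false, not_or] at hx'
    exact c4_b n _ _ h hx (by omega)
  · intro x hx
    simp only [List.not_mem_nil, iff_false]
    change ¬ (hh n 3 x = u4 n (rr n x) ∧ rr n (u4 n x) = u4 n (rr n x))
    have h1 := hh_s n 3 x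
    have h2 := rr_s n x
    have h3 := u4_s n (rr n x) (by omega)
    have h4 := u4_s n x (by omega)
    have h5 := rr_s n (u4 n x)
    rcases h4 with h4 | h4 | h4 | h4 <;> omega
  · intro x hx
    simp only [List.mem_cons, List.not_mem_nil, or_false]
    change hh n 3 x = x ↔ _
    have h1 := hh_s n 3 x
    omega
  · intro x hx
    simp only [List.mem_cons, List.not_mem_nil, or_false]
    change hh n 3 x = rr n x ↔ _
    have h1 := hh_s n 3 x
    have h2 := rr_s n x
    omega
  · intro x hx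
    simp only [List.mem_cons, List.not_mem_nil, or_false]
    change hh n 3 x = u4 n x ↔ _
    have h1 := hh_s n 3 x
    have h4 := u4_s n x (by omega)
    omega

lemma hyp4e (n m : ℕ) (h : 7 < n) (hm : n + 1 = 2 * m) :
    Hyp (D4 n h).org ∧ (D4 n h).org.hlk = (1, {2, 2, 2}) := by
  refine Dat.hyp (D4 n h) (trans4 n h) 0 1 3 n 2 (by simp; omega) (by simp; omega)
    (c4_b n _ _ h (by omega) (by omega)) (c4_b n _ _ h (by omega) (by omega))
    (c4_b n _ _ h (by omega) (by omega)) (c4_b n _ _ h (by omega) (by omega))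
    (c4_b n _ _ h (by omega) (by omega)) ?_ [m] [1, n] [m, n] [0, 1] ?_ ?_ ?_ ?_
    (by simp) (by simp; omega) (by simp; omega) (by decide) (by simp; omega) (by simp; omega) (by simp; omega)
    (by simp; omega) rfl
  · intro x hx hx'
    simp only [List.mem_cons, List.not_mem_nil, or_false, not_or] at hx'
    exact c4_b n _ _ h hx (by omega)
  · intro x hx
    simp only [List.mem_cons, List.not_mem_nil, or_false]
    change (hh n 3 x = u4 n (rr n x) ∧ rr n (u4 n x) = u4 n (rr n x)) ↔ _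
    have h1 := hh_s n 3 x
    have h2 := rr_s n x
    have h3 := u4_s n (rr n x) (by omega)
    have h4 := u4_s n x (by omega)
    have h5 := rr_s n (u4 n x)
    rcases h4 with h4 | h4 | h4 | h4 <;> omega
  · intro x hx
    simp only [List.mem_cons, List.not_mem_nil, or_false]
    change hh n 3 x = x ↔ _
    have h1 := hh_s n 3 x
    omega
  · intro x hx
    simp only [List.mem_cons, List.not_mem_nil, or_false]
    change hh n 3 x = rr n x ↔ _
    have h1 := hh_s n 3 x
    have h2 := rr_s n x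
    omega
  · intro x hx
    simp only [List.mem_cons, List.not_mem_nil, or_false]
    change hh n 3 x = u4 n x ↔ _
    have h1 := hh_s n 3 x
    have h4 := u4_s n x (by omega)
    omega

end FX

open FX

theorem exists_valO {N : ℕ} (hN : Odd N) (h8 : 8 < N) (k : Fin 4) :
    ∃ O : Org (Fin N), Hyp O ∧ O.Prim ∧ O.hlk = valO k := by
  obtain ⟨m, hm⟩ := hN
  match k with
  | 0 => exact ⟨_, (hyp1 N m h8 hm).1, prim1 N m h8 hm, (hyp1 N m h8 hm).2⟩
  | 1 =>
    refine ⟨_, (hyp2o N m h8 hm).1, prim2 N h8, (hyp2o N m h8 hm).2.trans ?_⟩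
    decide
  | 2 =>
    refine ⟨_, (hyp3o N m h8 hm).1, prim3 N h8, (hyp3o N m h8 hm).2.trans ?_⟩
    decide
  | 3 =>
    obtain ⟨n, rfl⟩ : ∃ n, N = n + 1 := ⟨N - 1, by omega⟩
    refine ⟨_, (hyp4o n m (by omega) (by omega)).1, prim4 n (by omega),
      (hyp4o n m (by omega) (by omega)).2.trans ?_⟩
    decide

theorem exists_valE {N : ℕ} (hN : Even N) (h8 : 8 < N) (k : Fin 3) :
    ∃ O : Org (Fin N), Hyp O ∧ O.Prim ∧ O.hlk = valE k := by
  obtain ⟨m, hm⟩ := hN
  match k with
  | 0 =>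
    refine ⟨_, (hyp2e N m h8 (by omega)).1, prim2 N h8, (hyp2e N m h8 (by omega)).2.trans ?_⟩
    decide
  | 1 =>
    refine ⟨_, (hyp3e N m h8 (by omega)).1, prim3 N h8, (hyp3e N m h8 (by omega)).2.trans ?_⟩
    decide
  | 2 =>
    obtain ⟨n, rfl⟩ : ∃ n, N = n + 1 := ⟨N - 1, by omega⟩
    exact ⟨_, (hyp4e n m (by omega) (by omega)).1, prim4 n (by omega),
      (hyp4e n m (by omega) (by omega)).2⟩

end Pool.Agent.H4G
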