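import Pool.Agent.H4G.Rot

/-!
# GEOM row U2 (helper96): reflection, translation, change of the root, flip of a folded side
-/

set_option autoImplicit false

namespace Pool.Agent.H4G

variable {X : Type}

/-! ## Reflection -/

/-- the half turn on points -/
def rv (c : Z2) (x : V) : V := ((c.1 : ℝ) - x.1, (c.2 : ℝ) - x.2)

theorem rv_rv (c : Z2) (x : V) : rv c (rv c x) = x := by
  ext <;> simp [rv]

theorem rf_rf (c z : Z2) : rf c (rf c z) = z := by
  ext <;> simp [rf]

theorem rp_rp (c z : Z2) : rp c (rp c z) = z := by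
  simp [rp]

theorem Nr.rv {x : V} {z : Z2} (h : Nr x z) (c : Z2) : Nr (rv c x) (H4G.rf c z) := h.rf c

theorem Org.ir' (O : Org X) (x : X) : O.r (O.i (O.r x)) = O.i x := by
  rw [O.ir, Equiv.apply_symm_apply]

theorem Org.iu' (O : Org X) (x : X) : O.u (O.i (O.u x)) = O.i x := by
  rw [O.iu, Equiv.apply_symm_apply]

theorem DevAt.refl {O : Org X} {x : V} {f : Z2 → X} (c : Z2) (h : DevAt O x f) :
    DevAt O (rv c x) (fun z => O.i (f (rf c z))) := by
  constructor
  · intro z h1 h2
    have k1 := h1.rv c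
    have k2 := h2.rv c
    rw [rv_rv] at k1 k2
    have e : rf c z = rf c (z + (1, 0)) + (1, 0) := by
      ext <;> simp [rf]
      ring
    have := h.1 (rf c (z + (1, 0))) k2 (by rw [← e]; exact k1)
    rw [← e] at this
    simp only
    rw [this, O.ir']
  · intro z h1 h2
    have k1 := h1.rv c
    have k2 := h2.rv c
    rw [rv_rv] at k1 k2
    have e : rf c z = rf c (z + (0, 1)) + (0, 1) := by
      ext <;> simp [rf]
      ring
    have := h.2 (rf c (z + (0, 1))) k2 (by rw [← e]; exact k1)
    rw [← e] at this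
    simp only
    rw [this, O.iu']

theorem ori_rp (c A B : Z2) (x : V) : ori (rp c A) (rp c B) x = ori A B (rv c x) := by
  simp only [ori, rp, rv, Prod.fst_sub, Prod.snd_sub]; push_cast; ring

theorem tri_rp (c A B C : Z2) : tri (rp c A) (rp c B) (rp c C) = tri A B C := by
  simp only [tri, cr, rp, Prod.fst_sub, Prod.snd_sub]; ring

theorem rv_eq_em (c A : Z2) (x : V) : rv c x = em A ↔ x = em (rp c A) := by
  constructor
  · intro h
    have h1 := congrArg Prod.fst h
    have h2 := congrArg Prod.snd h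
    simp only [rv, em] at h1 h2
    ext
    · simp only [em, rp, Prod.fst_sub]; push_cast; linarith
    · simp only [em, rp, Prod.snd_sub]; push_cast; linarith
  · rintro rfl
    ext
    · simp [rv, em, rp]
    · simp [rv, em, rp]

theorem mem_tri_rp (c A B C : Z2) (x : V) :
    x ∈ Tri (rp c A) (rp c B) (rp c C) ↔ rv c x ∈ Tri A B C := by
  simp only [Tri, Set.mem_ofPred_eq, ori_rp, ne_eq, rv_eq_em]

theorem mem_seg_rp (c A B : Z2) (x : V) : x ∈ Seg (rp c A) (rp c B) ↔ rv c x ∈ Seg A B := by
  constructor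
  · rintro ⟨t, h0, h1, rfl⟩
    refine ⟨t, h0, h1, ?_⟩
    ext
    · simp [rv, rp]; ring
    · simp [rv, rp]; ring
  · rintro ⟨t, h0, h1, h⟩
    refine ⟨t, h0, h1, ?_⟩
    have h1 := congrArg Prod.fst h
    have h2 := congrArg Prod.snd h
    simp only [rv] at h1 h2
    ext
    · simp only [rp, Prod.fst_sub]; push_cast; linarith
    · simp only [rp, Prod.snd_sub]; push_cast; linarith

theorem Dev.refl_tri {O : Org X} {A B C : Z2} {f : Z2 → X} (c : Z2) (h : Dev O (Tri A B C) f) :
    Dev O (Tri (rp c A) (rp c B) (rp c C)) (fun z => O.i (f (rf c z))) := by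
  intro x hx
  rw [mem_tri_rp] at hx
  have := (h _ hx).refl c
  rwa [rv_rv] at this

theorem Dev.refl_seg {O : Org X} {A B : Z2} {f : Z2 → X} (c : Z2) (h : Dev O (Seg A B) f) :
    Dev O (Seg (rp c A) (rp c B)) (fun z => O.i (f (rf c z))) := by
  intro x hx
  rw [mem_seg_rp] at hx
  have := (h _ hx).refl c
  rwa [rv_rv] at this

theorem Agree.refl_seg {O : Org X} {A B : Z2} {f g : Z2 → X} (c : Z2)
    (h : Agree (Seg A B) f g) :
    Agree (Seg (rp c A) (rp c B)) (fun z => O.i (f (rf c z))) (fun z => O.i (g (rf c z))) := by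
  intro x hx z hz
  rw [mem_seg_rp] at hx
  simp only
  rw [h _ hx _ (hz.rv c)]

theorem Fill.refl {O : Org X} {A B : Z2} {t : Tree} {g : Z2 → X} (c : Z2)
    (h : Fill O A B t g) : Fill O (rp c A) (rp c B) (t.map (rp c)) (fun z => O.i (g (rf c z))) := by
  induction t generalizing A B g with
  | leaf =>
    intro x hx z hz
    rw [mem_seg_rp] at hx
    have h1 := h _ hx _ (hz.rv c)
    simp only
    rw [h1]
    simp only [O.ii]
    congr 1
    ext
    · simp [rf, rp]; ring
    · simp [rf, rp]; ring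
  | node C l r ihl ihr =>
    obtain ⟨h0, f, h1, h2, h3, h4⟩ := h
    exact ⟨by rw [tri_rp]; exact h0, _, h1.refl_tri c, h2.refl_seg c, ihl h3, ihr h4⟩

theorem Has.refl {O : Org X} {A B : Z2} {t t' : Tree} (c : Z2) (h : Has O A B t t') :
    Has O (rp c A) (rp c B) (t.map (rp c)) (t'.map (rp c)) := by
  obtain ⟨g, h1, h2, h3⟩ := h
  exact ⟨_, h1.refl_seg c, h2.refl c, h3.refl c⟩

theorem Tree.map_map (φ ψ : Z2 → Z2) (t : Tree) : (t.map φ).map ψ = t.map (fun p => ψ (φ p)) := by
  induction t with
  | leaf => rfl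
  | node C l r ihl ihr => simp only [Tree.map, ihl, ihr]

theorem Fill.shift {O : Org X} {A B : Z2} {t : Tree} {g : Z2 → X} (c : Z2)
    (h : Fill O A B t g) : Fill O (A + c) (B + c) (t.map (fun p => p + c)) (fun z => g (z - c)) := by
  have h1 := (h.refl 0).refl c
  rw [Tree.map_map] at h1
  have e : ∀ p : Z2, rp c (rp 0 p) = p + c := by intro p; simp [rp, add_comm]
  simp only [e, O.ii] at h1
  have e2 : ∀ z : Z2, rf 0 (rf c z) = z - c := by
    intro z; ext
    · simp [rf]; ring
    · simp [rf]; ring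
  simp only [e2] at h1
  exact h1

theorem Has.shift {O : Org X} {A B : Z2} {t t' : Tree} (c : Z2) (h : Has O A B t t') :
    Has O (A + c) (B + c) (t.map (fun p => p + c)) (t'.map (fun p => p + c)) := by
  have h1 := (h.refl 0).refl c
  rw [Tree.map_map, Tree.map_map] at h1
  have e : ∀ p : Z2, rp c (rp 0 p) = p + c := by intro p; simp [rp, add_comm]
  simp only [e] at h1
  exact h1

/-! ## Change of the root -/

theorem Has.symm {O : Org X} {A B : Z2} {t t' : Tree} (h : Has O A B t t') : Has O B A t' t := by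
  obtain ⟨g, h1, h2, h3⟩ := h
  exact ⟨g, by rw [seg_symm]; exact h1, h3, h2⟩

theorem Has.left {O : Org X} {A B C : Z2} {l r t' : Tree} (h : Has O A B (.node C l r) t') :
    Has O C B l (.node A r t') := by
  obtain ⟨g, h1, ⟨t0, f, d1, a1, k1, k2⟩, h3⟩ := h
  have s := seg_sub_tri t0
  refine ⟨f, d1.mono (by rw [seg_symm]; exact s.2.1), k1, by rw [tri_rot]; exact t0, f,
    by rw [Tri_rot]; exact d1, Agree.refl _ _, k2, ?_⟩
  exact h3.congr (by rw [seg_symm]; exact a1.symm)

theorem Has.right {O : Org X} {A B C : Z2} {l r t' : Tree} (h : Has O A B (.node C l r) t') :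
    Has O A C r (.node B t' l) := by
  obtain ⟨g, h1, ⟨t0, f, d1, a1, k1, k2⟩, h3⟩ := h
  have s := seg_sub_tri t0
  refine ⟨f, d1.mono (by rw [seg_symm]; exact s.2.2), k2, by rw [tri_rot, tri_rot]; exact t0, f,
    by rw [Tri_rot, Tri_rot]; exact d1, Agree.refl _ _, ?_, k1⟩
  exact h3.congr (by rw [seg_symm]; exact a1.symm)

/-! ## Flip of a folded side -/

theorem Fold.symm {O : Org X} {A B : Z2} {f : Z2 → X} (h : Fold O A B f) : Fold O B A f := by
  intro x hx z hz
  rw [seg_symm] at hx
  rw [add_comm]; exact h x hx z hz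

/-- One development on the parallelogram `A, A + B - C, B, C` when the side `A B` of the triangle
`A B C` is folded. -/
theorem par_dev {O : Org X} {A B C : Z2} (h0 : 0 < tri A B C) {f : Z2 → X}
    (d : Dev O (Tri A B C) f) (hf : Fold O A B f) :
    ∃ h : Z2 → X, Dev O (Tri C A (A + B - C)) h ∧ Dev O (Tri C (A + B - C) B) h ∧
      Agree (Tri A B C) f h ∧ Agree (Tri B A (A + B - C)) (fun z => O.i (f (rf (A + B) z))) h ∧
      Fold O C (A + B - C) h := by
  set c := A + B with hc
  have eA : rp c A = B := by simp [rp, hc]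
  have eB : rp c B = A := by simp [rp, hc]
  have eC : rp c C = c - C := rfl
  have d2 : Dev O (Tri B A (c - C)) (fun z => O.i (f (rf c z))) := by
    have := d.refl_tri c
    rwa [eA, eB, eC] at this
  have t1 : 0 < tri C A B := by rw [← tri_rot C A B]; exact h0
  have t2 : 0 < tri B A (c - C) := by
    have := tri_rp c A B C
    rw [eA, eB, eC] at this
    rw [this]; exact h0
  have t3 : 0 < tri C A (c - C) := by
    have : tri C A (c - C) = tri A B C := by
      simp only [tri, cr, hc, Prod.fst_sub, Prod.snd_sub, Prod.fst_add, Prod.snd_add]; ring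
    rw [this]; exact h0
  have t4 : 0 < tri C (c - C) B := by
    have : tri C (c - C) B = tri A B C := by
      simp only [tri, cr, hc, Prod.fst_sub, Prod.snd_sub, Prod.fst_add, Prod.snd_add]; ring
    rw [this]; exact h0
  have d1 : Dev O (Tri C A B) f := by rw [← Tri_rot C A B]; exact d
  have ag : Agree (Seg B A) (fun z => O.i (f (rf c z))) f := by
    intro x hx z hz
    have := hf.symm x hx z hz
    rw [add_comm B A] at this
    exact this.symm
  obtain ⟨w, dw, a1, a2⟩ := quad_dev t1 t2 t3 t4 d1 d2 ag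
  have s1 := quad_sub1 t1 t2 t3 t4
  have s2 := quad_sub2 t1 t2 t3 t4
  rw [← Tri_rot C A B] at a1
  refine ⟨w, dw.mono s1, dw.mono s2, a1, a2, ?_⟩
  intro x hx z hz
  have e1 : C + (c - C) = c := by abel
  rw [e1]
  have hx' : x ∈ Tri C A B ∪ Tri B A (c - C) := by
    rw [seg_symm] at hx
    exact s1 ((seg_sub_tri t3).2.2 hx)
  have hz' := hz.rv c
  rcases hx' with hx' | hx'
  · rw [← Tri_rot C A B] at hx'
    have k1 := a1 x hx' z hz
    have hy : rv c x ∈ Tri B A (c - C) := by
      have := mem_tri_rp c A B C (rv c x)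
      rw [eA, eB, eC, rv_rv] at this
      exact this.2 hx'
    have k2 := a2 _ hy _ hz'
    simp only [rf_rf] at k2
    rw [← k1, ← k2, O.ii]
  · have k1 := a2 x hx' z hz
    have hy : rv c x ∈ Tri A B C := by
      have := mem_tri_rp c A B C x
      rw [eA, eB, eC] at this
      exact this.1 hx'
    have k2 := a1 _ hy _ hz'
    rw [← k1, ← k2]

theorem Has.fold {O : Org X} {A B C : Z2} {l r : Tree} (h : Has O A B (.node C l r) .leaf) :
    Has O (A + B - C) C (.node A r (l.map (rp (A + B)))) .leaf := by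
  obtain ⟨g, h1, ⟨t0, f, d1, a1, k1, k2⟩, h3⟩ := h
  have hf : Fold O A B f := by
    have : Fold O A B g := by
      have h3' : Fold O B A g := h3
      exact h3'.symm
    exact this.congr a1.symm
  obtain ⟨w, dw1, dw2, b1, b2, hw⟩ := par_dev t0 d1 hf
  have t3 : 0 < tri C A (A + B - C) := by
    have : tri C A (A + B - C) = tri A B C := by
      simp only [tri, cr, Prod.fst_sub, Prod.snd_sub, Prod.fst_add, Prod.snd_add]; ring
    rw [this]; exact t0
  have t3' : 0 < tri (A + B - C) C A := by rw [← tri_rot (A + B - C) C A]; exact t3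
  have dw1' : Dev O (Tri (A + B - C) C A) w := by rw [← Tri_rot (A + B - C) C A]; exact dw1
  have s0 := seg_sub_tri t0
  have s3 := seg_sub_tri t3'
  refine ⟨w, dw1'.mono s3.1, ⟨t3', w, dw1', Agree.refl _ _, ?_, ?_⟩, ?_⟩
  · exact k2.congr (b1.mono (by rw [seg_symm]; exact s0.2.2))
  · have := k1.refl (A + B)
    have e1 : rp (A + B) C = A + B - C := rfl
    have e2 : rp (A + B) B = A := by simp [rp]
    rw [e1, e2] at this
    refine this.congr (b2.mono ?_)
    rw [seg_symm]
    have t2 : 0 < tri B A (A + B - C) := by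
      have : tri B A (A + B - C) = tri A B C := by
        simp only [tri, cr, Prod.fst_sub, Prod.snd_sub, Prod.fst_add, Prod.snd_add]; ring
      rw [this]; exact t0
    exact (seg_sub_tri t2).2.1
  · exact hw

theorem Fill.foldr {O : Org X} {A B C : Z2} {l : Tree} {g : Z2 → X}
    (h : Fill O A B (.node C l .leaf) g) :
    Fill O A B (.node (A + C - B) .leaf (l.map (rp (A + C)))) g := by
  obtain ⟨t0, f, d1, a1, k1, k2⟩ := h
  have k2' : Fold O C A f := by
    have : Fold O A C f := k2
    exact this.symm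
  have t0' : 0 < tri C A B := by rw [← tri_rot C A B]; exact t0
  have d1' : Dev O (Tri C A B) f := by rw [← Tri_rot C A B]; exact d1
  obtain ⟨w, dw1, dw2, b1, b2, hw⟩ := par_dev t0' d1' k2'
  rw [add_comm C A] at dw1 dw2 b2 hw
  rw [← Tri_rot C A B] at b1
  have t3 : 0 < tri A B (A + C - B) := by
    have : tri A B (A + C - B) = tri A B C := by
      simp only [tri, cr, Prod.fst_sub, Prod.snd_sub, Prod.fst_add, Prod.snd_add]; ring
    rw [this]; exact t0
  have dw2' : Dev O (Tri A B (A + C - B)) w := by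
    rw [← Tri_rot A B (A + C - B)]; exact dw2
  have s0 := seg_sub_tri t0
  refine ⟨t3, w, dw2', (b1.symm.mono s0.1).trans a1, ?_, ?_⟩
  · exact hw.symm
  · have := k1.refl (A + C)
    have e1 : rp (A + C) C = A := by simp [rp]
    have e2 : rp (A + C) B = A + C - B := rfl
    rw [e1, e2] at this
    refine this.congr (b2.mono ?_)
    have t2 : 0 < tri A C (A + C - B) := by
      have : tri A C (A + C - B) = tri A B C := by
        simp only [tri, cr, Prod.fst_sub, Prod.snd_sub, Prod.fst_add, Prod.snd_add]; ring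
      rw [this]; exact t0
    rw [seg_symm]
    exact (seg_sub_tri t2).2.2

theorem Fill.foldl {O : Org X} {A B C : Z2} {r : Tree} {g : Z2 → X}
    (h : Fill O A B (.node C .leaf r) g) :
    Fill O A B (.node (B + C - A) (r.map (rp (B + C))) .leaf) g := by
  obtain ⟨t0, f, d1, a1, k1, k2⟩ := h
  have k1' : Fold O B C f := by
    have : Fold O C B f := k1
    exact this.symm
  have t0' : 0 < tri B C A := by rw [tri_rot]; exact t0
  have d1' : Dev O (Tri B C A) f := by rw [Tri_rot]; exact d1
  obtain ⟨w, dw1, dw2, b1, b2, hw⟩ := par_dev t0' d1' k1'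
  rw [Tri_rot] at b1
  have t3 : 0 < tri A B (B + C - A) := by
    have : tri A B (B + C - A) = tri A B C := by
      simp only [tri, cr, Prod.fst_sub, Prod.snd_sub, Prod.fst_add, Prod.snd_add]; ring
    rw [this]; exact t0
  have s0 := seg_sub_tri t0
  refine ⟨t3, w, dw1, (b1.symm.mono s0.1).trans a1, ?_, ?_⟩
  · have := k2.refl (B + C)
    have e1 : rp (B + C) C = B := by simp [rp]
    have e2 : rp (B + C) A = B + C - A := rfl
    rw [e1, e2] at this
    refine this.congr (b2.mono ?_)
    have t2 : 0 < tri C B (B + C - A) := by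
      have : tri C B (B + C - A) = tri A B C := by
        simp only [tri, cr, Prod.fst_sub, Prod.snd_sub, Prod.fst_add, Prod.snd_add]; ring
      rw [this]; exact t0
    rw [seg_symm]
    exact (seg_sub_tri t2).2.1
  · exact hw

end Pool.Agent.H4G
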