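import Pool.Agent.H4G.Defs

/-!
# The generators of `SL₂(ℤ)` act on developments (row S)
-/

set_option autoImplicit false

namespace Pool.Agent.H4G

variable {X : Type}

private theorem seg_symm_s (A B : Z2) : Seg A B = Seg B A := by
  have key : ∀ A B : Z2, Seg A B ⊆ Seg B A := by
    intro A B x hx
    obtain ⟨t, h0, h1, rfl⟩ := hx
    exact ⟨1 - t, by linarith, by linarith, by ext <;> ring⟩
  exact Set.Subset.antisymm (key A B) (key B A)

/-- The cast of `tri`. -/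
private theorem tri_cast (A B C : Z2) : ((tri A B C : ℤ) : ℝ) =
    ((B.1 : ℝ) - A.1) * ((C.2 : ℝ) - A.2) - ((B.2 : ℝ) - A.2) * ((C.1 : ℝ) - A.1) := by
  simp only [tri, cr, Prod.fst_sub, Prod.snd_sub]
  push_cast
  ring

private theorem seg_sub_tri1 {A B C : Z2} (h : 0 < tri A B C) : Seg A B ⊆ Tri A B C := by
  have h' : (0 : ℝ) < tri A B C := by exact_mod_cast h
  rw [tri_cast] at h'
  rintro x ⟨t, h0, h1, rfl⟩
  have e1 : ori A B ((1 - t) * A.1 + t * B.1, (1 - t) * A.2 + t * B.2) = 0 := by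
    simp only [ori]; ring
  have e2 : ori B C ((1 - t) * A.1 + t * B.1, (1 - t) * A.2 + t * B.2) = (1 - t) *
    (((B.1 : ℝ) - A.1) * ((C.2 : ℝ) - A.2) - ((B.2 : ℝ) - A.2) * ((C.1 : ℝ) - A.1)) := by
    simp only [ori]; ring
  have e3 : ori C A ((1 - t) * A.1 + t * B.1, (1 - t) * A.2 + t * B.2) = t *
    (((B.1 : ℝ) - A.1) * ((C.2 : ℝ) - A.2) - ((B.2 : ℝ) - A.2) * ((C.1 : ℝ) - A.1)) := by
    simp only [ori]; ring
  have p2 : 0 < (1 - t) *
    (((B.1 : ℝ) - A.1) * ((C.2 : ℝ) - A.2) - ((B.2 : ℝ) - A.2) * ((C.1 : ℝ) - A.1)) :=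
    mul_pos (by linarith) h'
  have p3 : 0 < t *
    (((B.1 : ℝ) - A.1) * ((C.2 : ℝ) - A.2) - ((B.2 : ℝ) - A.2) * ((C.1 : ℝ) - A.1)) :=
    mul_pos h0 h'
  refine ⟨e1.ge, e2 ▸ p2.le, e3 ▸ p3.le, ?_, ?_, ?_⟩
  · intro hx
    rw [hx] at e3
    simp only [ori, em] at e3
    have : ((A.1 : ℝ) - C.1) * (A.2 - C.2) - (A.2 - C.2) * (A.1 - C.1) = 0 := by ring
    rw [this] at e3
    rw [← e3] at p3
    exact lt_irrefl _ p3
  · intro hx
    rw [hx] at e2
    simp only [ori, em] at e2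
    have : ((C.1 : ℝ) - B.1) * (B.2 - B.2) - (C.2 - B.2) * (B.1 - B.1) = 0 := by ring
    rw [this] at e2
    rw [← e2] at p2
    exact lt_irrefl _ p2
  · intro hx
    rw [hx] at e2
    simp only [ori, em] at e2
    have : ((C.1 : ℝ) - B.1) * (C.2 - B.2) - (C.2 - B.2) * (C.1 - B.1) = 0 := by ring
    rw [this] at e2
    rw [← e2] at p2
    exact lt_irrefl _ p2

private theorem tri_rot (A B C : Z2) : tri B C A = tri A B C := by
  simp only [tri, cr, Prod.fst_sub, Prod.snd_sub]; ring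

private theorem Tri_rot (A B C : Z2) : Tri B C A = Tri A B C := by
  ext x; simp only [Tri, Set.mem_ofPred_eq]; tauto

private theorem seg_sub_tri2 {A B C : Z2} (h : 0 < tri A B C) : Seg B C ⊆ Tri A B C := by
  rw [← Tri_rot]; exact seg_sub_tri1 (by rw [tri_rot]; exact h)

private theorem seg_sub_tri3 {A B C : Z2} (h : 0 < tri A B C) : Seg C A ⊆ Tri A B C := by
  rw [← Tri_rot, ← Tri_rot]; exact seg_sub_tri1 (by rw [tri_rot, tri_rot]; exact h)

/-! ## Quarter turn -/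

/-- The rotated labelling. -/
private def jf (g : Z2 → X) (z : Z2) : X := g (z.2, -z.1 - 1)

/-- The rotated-back point. -/
private def jp (x : V) : V := (x.2, -x.1)

private theorem nr_jp (x : V) (z : Z2) : Nr x z ↔ Nr (jp x) (z.2, -z.1 - 1) := by
  simp only [Nr, jp]
  push_cast
  constructor
  · rintro ⟨h1, h2, h3, h4⟩
    exact ⟨h3, h4, by linarith, by linarith⟩
  · rintro ⟨h1, h2, h3, h4⟩
    exact ⟨by linarith, by linarith, h1, h2⟩

private theorem jp_seg {A B : Z2} {x : V} (hx : x ∈ Seg (shJ A) (shJ B)) : jp x ∈ Seg A B := by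
  obtain ⟨t, h0, h1, rfl⟩ := hx
  refine ⟨t, h0, h1, ?_⟩
  simp only [jp, shJ]
  push_cast
  ext <;> simp only <;> ring

private theorem jp_ori (A B : Z2) (x : V) : ori (shJ A) (shJ B) x = ori A B (jp x) := by
  simp only [ori, shJ, jp]; push_cast; ring

private theorem jp_em (A : Z2) (x : V) : x = em (shJ A) ↔ jp x = em A := by
  obtain ⟨x1, x2⟩ := x
  simp only [em, shJ, jp, Prod.mk.injEq]
  push_cast
  constructor
  · rintro ⟨h1, h2⟩; exact ⟨h2, by linarith⟩
  · rintro ⟨h1, h2⟩; exact ⟨by linarith, h1⟩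

private theorem jp_tri {A B C : Z2} {x : V} (hx : x ∈ Tri (shJ A) (shJ B) (shJ C)) :
    jp x ∈ Tri A B C := by
  obtain ⟨h1, h2, h3, h4, h5, h6⟩ := hx
  rw [jp_ori] at h1 h2 h3
  rw [Ne, jp_em] at h4 h5 h6
  exact ⟨h1, h2, h3, h4, h5, h6⟩

private theorem tri_J (A B C : Z2) : tri (shJ A) (shJ B) (shJ C) = tri A B C := by
  simp only [tri, cr, shJ, Prod.fst_sub, Prod.snd_sub]; ring

private theorem devJ {O : Org X} {K L : Set V} {g : Z2 → X} (h : Dev O K g)
    (hL : ∀ x ∈ L, jp x ∈ K) : Dev O.J L (jf g) := by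
  intro x hx
  obtain ⟨h1, h2⟩ := h _ (hL x hx)
  constructor
  · intro z hz hz'
    rw [nr_jp] at hz hz'
    have e := h2 (z.2, -z.1 - 2)
    have e1 : ((z.2, -z.1 - 2) : Z2) + (0, 1) = (z.2, -z.1 - 1) := by
      ext <;> simp only [Prod.fst_add, Prod.snd_add] <;> ring
    have e2 : (((z + (1, 0)).2, -(z + (1, 0)).1 - 1) : Z2) = (z.2, -z.1 - 2) := by
      ext <;> simp only [Prod.fst_add, Prod.snd_add] <;> ring
    rw [e1] at e
    rw [e2] at hz'
    have e3 := e hz' hz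
    change g ((z + (1, 0)).2, -(z + (1, 0)).1 - 1) = O.u⁻¹ (g (z.2, -z.1 - 1))
    rw [e2, e3]
    exact (O.u.symm_apply_apply _).symm
  · intro z hz hz'
    rw [nr_jp] at hz hz'
    have e := h1 (z.2, -z.1 - 1)
    have e2 : (((z + (0, 1)).2, -(z + (0, 1)).1 - 1) : Z2) = (z.2, -z.1 - 1) + (1, 0) := by
      ext <;> simp only [Prod.fst_add, Prod.snd_add] <;> ring
    rw [e2] at hz'
    have e3 := e hz hz'
    change g ((z + (0, 1)).2, -(z + (0, 1)).1 - 1) = O.r (g (z.2, -z.1 - 1))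
    rw [e2, e3]

private theorem agreeJ {K L : Set V} {f g : Z2 → X} (h : Agree K f g)
    (hL : ∀ x ∈ L, jp x ∈ K) : Agree L (jf f) (jf g) := by
  intro x hx z hz
  exact h _ (hL x hx) _ ((nr_jp x z).1 hz)

private theorem fillJ {O : Org X} (t : Tree) : ∀ (A B : Z2) (g : Z2 → X), Fill O A B t g →
    Fill O.J (shJ A) (shJ B) (t.map shJ) (jf g) := by
  induction t with
  | leaf =>
    intro A B g h x hx z hz
    have h1 := h (jp x) (jp_seg hx) _ ((nr_jp x z).1 hz)
    change g (z.2, -z.1 - 1) = O.i (g (_, _))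
    rw [h1]
    congr 2
    ext <;> simp only [rf, shJ, Prod.fst_add, Prod.snd_add] <;> ring
  | node C l r ihl ihr =>
    intro A B g h
    obtain ⟨h0, f, h1, h2, h3, h4⟩ := h
    refine ⟨by rw [tri_J]; exact h0, jf f, devJ h1 (fun x hx => jp_tri hx),
      agreeJ h2 (fun x hx => jp_seg hx), ihl _ _ _ h3, ihr _ _ _ h4⟩

theorem Has.J {O : Org X} {A B : Z2} {t t' : Tree} (h : Has O A B t t') :
    Has O.J (shJ A) (shJ B) (t.map shJ) (t'.map shJ) := by
  obtain ⟨g, h1, h2, h3⟩ := h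
  exact ⟨jf g, devJ h1 (fun x hx => jp_seg hx), fillJ _ _ _ _ h2, fillJ _ _ _ _ h3⟩

/-! ## Shear -/

/-- The sheared-back point. -/
private def tp (x : V) : V := (x.1 - x.2, x.2)

/-- `g'` is the sheared labelling of `g` on the image of `K`. -/
private def TRel (O : Org X) (K : Set V) (g g' : Z2 → X) : Prop :=
  ∀ x : V, tp x ∈ K → ∀ a b : ℤ, Nr x (a, b) →
    (Nr (tp x) (a - b, b) → g' (a, b) = g (a - b, b)) ∧
    (Nr (tp x) (a - b - 1, b) → g' (a, b) = O.r (g (a - b - 1, b)))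

private theorem nr_tp (x : V) (a b : ℤ) (h : Nr x (a, b)) :
    Nr (tp x) (a - b, b) ∨ Nr (tp x) (a - b - 1, b) := by
  obtain ⟨h1, h2, h3, h4⟩ := h
  simp only [Nr, tp] at *
  push_cast
  rcases le_total ((a : ℝ) - b) (x.1 - x.2) with h | h
  · left; refine ⟨h, by linarith, h3, h4⟩
  · right; refine ⟨by linarith, by linarith, h3, h4⟩

private theorem tp_seg {A B : Z2} {x : V} (hx : x ∈ Seg (shT A) (shT B)) : tp x ∈ Seg A B := by
  obtain ⟨t, h0, h1, rfl⟩ := hx
  refine ⟨t, h0, h1, ?_⟩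
  simp only [tp, shT]
  push_cast
  ext <;> simp only <;> ring

private theorem tp_ori (A B : Z2) (x : V) : ori (shT A) (shT B) x = ori A B (tp x) := by
  simp only [ori, shT, tp]; push_cast; ring

private theorem tp_em (A : Z2) (x : V) : x = em (shT A) ↔ tp x = em A := by
  obtain ⟨x1, x2⟩ := x
  simp only [em, shT, tp, Prod.mk.injEq]
  push_cast
  constructor
  · rintro ⟨h1, h2⟩; exact ⟨by linarith, h2⟩
  · rintro ⟨h1, h2⟩; exact ⟨by linarith, h2⟩

private theorem tp_tri {A B C : Z2} {x : V} (hx : x ∈ Tri (shT A) (shT B) (shT C)) :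
    tp x ∈ Tri A B C := by
  obtain ⟨h1, h2, h3, h4, h5, h6⟩ := hx
  rw [tp_ori] at h1 h2 h3
  rw [Ne, tp_em] at h4 h5 h6
  exact ⟨h1, h2, h3, h4, h5, h6⟩

private theorem tri_T (A B C : Z2) : tri (shT A) (shT B) (shT C) = tri A B C := by
  simp only [tri, cr, shT, Prod.fst_sub, Prod.snd_sub]; ring

/-- Convexity, in elementary form. -/
private def Cvx (K : Set V) : Prop := ∀ x ∈ K, ∀ y ∈ K, ∀ t : ℝ, 0 ≤ t → t ≤ 1 →
  (((1 - t) * x.1 + t * y.1, (1 - t) * x.2 + t * y.2) : V) ∈ K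

private theorem cvx_seg (A B : Z2) : Cvx (Seg A B) := by
  rintro x ⟨s, hs0, hs1, rfl⟩ y ⟨s', hs0', hs1', rfl⟩ t h0 h1
  refine ⟨(1 - t) * s + t * s', ?_, ?_, ?_⟩
  · rcases h0.lt_or_eq with h | h
    · have := mul_pos h hs0'
      have := mul_nonneg (sub_nonneg.2 h1) hs0.le
      linarith
    · subst h; linarith
  · rcases h0.lt_or_eq with h | h
    · have := mul_pos h (sub_pos.2 hs1')
      have := mul_nonneg (sub_nonneg.2 h1) (sub_nonneg.2 hs1.le)
      nlinarith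
    · subst h; linarith
  · ext <;> simp only <;> ring

private theorem ori_comb (A B : Z2) (x y : V) (t : ℝ) :
    ori A B ((1 - t) * x.1 + t * y.1, (1 - t) * x.2 + t * y.2) =
      (1 - t) * ori A B x + t * ori A B y := by
  simp only [ori]; ring

/-- The three functions determine the point. -/
private theorem ori_vertex {A B C : Z2} (h : 0 < tri A B C) {x : V} (h1 : ori A B x = 0)
    (h2 : ori C A x = 0) : x = em A := by
  have h' : (0 : ℝ) < tri A B C := by exact_mod_cast h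
  rw [tri_cast] at h'
  obtain ⟨x1, x2⟩ := x
  simp only [ori] at h1 h2
  have e1 : (((B.1 : ℝ) - A.1) * ((C.2 : ℝ) - A.2) - ((B.2 : ℝ) - A.2) * ((C.1 : ℝ) - A.1)) *
      (x1 - A.1) = 0 := by
    linear_combination ((C.1 : ℝ) - A.1) * h1 + ((B.1 : ℝ) - A.1) * h2
  have e2 : (((B.1 : ℝ) - A.1) * ((C.2 : ℝ) - A.2) - ((B.2 : ℝ) - A.2) * ((C.1 : ℝ) - A.1)) *
      (x2 - A.2) = 0 := by
    linear_combination ((C.2 : ℝ) - A.2) * h1 + ((B.2 : ℝ) - A.2) * h2
  have f1 := (mul_eq_zero.1 e1).resolve_left h'.ne'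
  have f2 := (mul_eq_zero.1 e2).resolve_left h'.ne'
  simp only [em, Prod.mk.injEq]
  exact ⟨by linarith, by linarith⟩

private theorem comb_ne {A B C : Z2} (h : 0 < tri A B C) {x y : V} (h1x : 0 ≤ ori A B x)
    (h1y : 0 ≤ ori A B y) (h2x : 0 ≤ ori C A x) (h2y : 0 ≤ ori C A y) (hx : x ≠ em A)
    (hy : y ≠ em A) {t : ℝ} (h0 : 0 ≤ t) (h1 : t ≤ 1) :
    (((1 - t) * x.1 + t * y.1, (1 - t) * x.2 + t * y.2) : V) ≠ em A := by
  intro he
  have z1 : ori A B (em A) = 0 := by simp only [ori, em]; ring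
  have z2 : ori C A (em A) = 0 := by simp only [ori, em]; ring
  have a1 := ori_comb A B x y t
  have a2 := ori_comb C A x y t
  rw [he, z1] at a1
  rw [he, z2] at a2
  rcases h0.lt_or_eq with h | h
  · have b1 : ori A B y = 0 := by
      have := mul_nonneg (sub_nonneg.2 h1) h1x
      have := mul_nonneg h.le h1y
      have : t * ori A B y = 0 := by linarith
      exact (mul_eq_zero.1 this).resolve_left h.ne'
    have b2 : ori C A y = 0 := by
      have := mul_nonneg (sub_nonneg.2 h1) h2x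
      have := mul_nonneg h.le h2y
      have : t * ori C A y = 0 := by linarith
      exact (mul_eq_zero.1 this).resolve_left h.ne'
    exact hy (ori_vertex ‹_› b1 b2)
  · subst h
    apply hx
    rw [← he]
    ext <;> simp only <;> ring

private theorem cvx_tri {A B C : Z2} (h : 0 < tri A B C) : Cvx (Tri A B C) := by
  rintro x ⟨x1, x2, x3, x4, x5, x6⟩ y ⟨y1, y2, y3, y4, y5, y6⟩ t h0 h1
  refine ⟨?_, ?_, ?_, comb_ne h x1 y1 x3 y3 x4 y4 h0 h1,
    comb_ne (by rw [tri_rot]; exact h) x2 y2 x1 y1 x5 y5 h0 h1,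
    comb_ne (by rw [tri_rot, tri_rot]; exact h) x3 y3 x2 y2 x6 y6 h0 h1⟩
  · rw [ori_comb]
    exact add_nonneg (mul_nonneg (sub_nonneg.2 h1) x1) (mul_nonneg h0 y1)
  · rw [ori_comb]
    exact add_nonneg (mul_nonneg (sub_nonneg.2 h1) x2) (mul_nonneg h0 y2)
  · rw [ori_comb]
    exact add_nonneg (mul_nonneg (sub_nonneg.2 h1) x3) (mul_nonneg h0 y3)

/-- Existence of the sheared labelling. -/
private theorem exists_trel {O : Org X} {K : Set V} (hK : Cvx K) {g : Z2 → X} (hg : Dev O K g) :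
    ∃ g' : Z2 → X, TRel O K g g' := by
  classical
  refine ⟨fun z => if ∃ x ∈ K, Nr x (z.1 - z.2, z.2) then g (z.1 - z.2, z.2)
    else O.r (g (z.1 - z.2 - 1, z.2)), ?_⟩
  intro x hx a b hz
  constructor
  · intro h
    have : ∃ y ∈ K, Nr y (a - b, b) := ⟨_, hx, h⟩
    simp only [this, if_true]
  · intro h
    simp only
    split_ifs with hy
    · obtain ⟨y, hy, hn⟩ := hy
      -- the segment from `tp x` to `y` crosses the line `a - b`
      obtain ⟨p1, p2, p3, p4⟩ := h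
      obtain ⟨q1, q2, q3, q4⟩ := hn
      simp only at p1 p2 p3 p4 q1 q2 q3 q4
      push_cast at p1 p2 q1 q2
      have hle : (tp x).1 ≤ (a : ℝ) - b := by linarith
      obtain ⟨t, t0, t1, ht⟩ : ∃ t : ℝ, 0 ≤ t ∧ t ≤ 1 ∧
          (1 - t) * (tp x).1 + t * y.1 = (a : ℝ) - b := by
        rcases hle.lt_or_eq with h | h
        · have hd : 0 < y.1 - (tp x).1 := by linarith
          refine ⟨((a : ℝ) - b - (tp x).1) / (y.1 - (tp x).1), by
            apply div_nonneg <;> linarith, by rw [div_le_one hd]; linarith, ?_⟩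
          field_simp
          ring
        · exact ⟨0, le_refl _, zero_le_one, by rw [h]; ring⟩
      have hw := hK _ hx _ hy t t0 t1
      rw [ht] at hw
      have := (hg _ hw).1 (a - b - 1, b)
      have e : ((a - b - 1, b) : Z2) + (1, 0) = (a - b, b) := by
        ext <;> simp only [Prod.fst_add, Prod.snd_add] <;> ring
      rw [e] at this
      have l3 : (b : ℝ) ≤ (1 - t) * (tp x).2 + t * y.2 := by
        nlinarith [mul_nonneg (sub_nonneg.2 t1) (sub_nonneg.2 p3),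
          mul_nonneg t0 (sub_nonneg.2 q3)]
      have l4 : (1 - t) * (tp x).2 + t * y.2 ≤ (b : ℝ) + 1 := by
        nlinarith [mul_nonneg (sub_nonneg.2 t1) (sub_nonneg.2 p4),
          mul_nonneg t0 (sub_nonneg.2 q4)]
      apply this
      · refine ⟨?_, ?_, l3, l4⟩ <;> simp only <;> push_cast <;> linarith
      · refine ⟨?_, ?_, l3, l4⟩ <;> simp only <;> push_cast <;> linarith
    · rfl

private theorem TRel.mono {O : Org X} {K L : Set V} {g g' : Z2 → X} (h : TRel O K g g')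
    (hL : L ⊆ K) : TRel O L g g' := fun x hx => h x (hL hx)

private theorem devT {O : Org X} {K L : Set V} {g g' : Z2 → X} (h : Dev O K g)
    (hr : TRel O K g g') (hL : ∀ x ∈ L, tp x ∈ K) : Dev O.T L g' := by
  intro x hx
  obtain ⟨h1, h2⟩ := h _ (hL x hx)
  have hr := hr x (hL x hx)
  constructor
  · rintro ⟨a, b⟩ hz hz'
    have e : ((a, b) : Z2) + (1, 0) = (a + 1, b) := by
      ext <;> simp only [Prod.fst_add, Prod.snd_add] <;> ring
    rw [e] at hz' ⊢
    obtain ⟨p1, p2, p3, p4⟩ := id hz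
    obtain ⟨q1, q2, q3, q4⟩ := id hz'
    simp only at p1 p2 p3 p4 q1 q2 q3 q4
    push_cast at p1 p2 p3 p4 q1 q2 q3 q4
    have n1 : Nr (tp x) (a - b, b) := by
      refine ⟨?_, ?_, p3, p4⟩ <;> simp only [tp] <;> push_cast <;> linarith
    have r1 := (hr a b hz).1 n1
    have r2 := (hr (a + 1) b hz').2 (by
      have : a + 1 - b - 1 = a - b := by ring
      rw [this]; exact n1)
    have e2 : a + 1 - b - 1 = a - b := by ring
    rw [e2] at r2
    rw [r1, r2]
    rfl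
  · rintro ⟨a, b⟩ hz hz'
    have e : ((a, b) : Z2) + (0, 1) = (a, b + 1) := by
      ext <;> simp only [Prod.fst_add, Prod.snd_add] <;> ring
    rw [e] at hz' ⊢
    obtain ⟨p1, p2, p3, p4⟩ := id hz
    obtain ⟨q1, q2, q3, q4⟩ := id hz'
    simp only at p1 p2 p3 p4 q1 q2 q3 q4
    push_cast at p1 p2 p3 p4 q1 q2 q3 q4
    have n1 : Nr (tp x) (a - b - 1, b) := by
      refine ⟨?_, ?_, p3, p4⟩ <;> simp only [tp] <;> push_cast <;> linarith
    have n2 : Nr (tp x) (a - (b + 1), b + 1) := by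
      refine ⟨?_, ?_, ?_, ?_⟩ <;> simp only [tp] <;> push_cast <;> linarith
    have r1 := (hr a b hz).2 n1
    have r2 := (hr a (b + 1) hz').1 n2
    have e2 : a - (b + 1) = a - b - 1 := by ring
    rw [e2] at r2 n2
    have e3 : ((a - b - 1, b) : Z2) + (0, 1) = (a - b - 1, b + 1) := by
      ext <;> simp only [Prod.fst_add, Prod.snd_add] <;> ring
    have h3 := h2 (a - b - 1, b) n1 (by rw [e3]; exact n2)
    rw [e3] at h3
    rw [r1, r2, h3]
    change O.u (g (a - b - 1, b)) = O.u (O.r.symm (O.r (g (a - b - 1, b))))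
    rw [O.r.symm_apply_apply]

private theorem agreeT {O : Org X} {K L : Set V} {f f' g g' : Z2 → X} (h : Agree K f g)
    (hf : TRel O K f f') (hg : TRel O K g g') (hL : ∀ x ∈ L, tp x ∈ K) : Agree L f' g' := by
  rintro x hx ⟨a, b⟩ hz
  rcases nr_tp x a b hz with hn | hn
  · rw [(hf x (hL x hx) a b hz).1 hn, (hg x (hL x hx) a b hz).1 hn, h _ (hL x hx) _ hn]
  · rw [(hf x (hL x hx) a b hz).2 hn, (hg x (hL x hx) a b hz).2 hn, h _ (hL x hx) _ hn]

private theorem foldT {O : Org X} {A B : Z2} {g g' : Z2 → X} (h : Fold O A B g)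
    (hg : TRel O (Seg A B) g g') : Fold O.T (shT A) (shT B) g' := by
  rintro x hx ⟨a, b⟩ hz
  have hx' := tp_seg hx
  -- the opposite point
  set c : Z2 := A + B with hc
  set y : V := ((c.1 : ℝ) + c.2 - x.1, (c.2 : ℝ) - x.2) with hy
  have ty : tp y = ((c.1 : ℝ) - (tp x).1, (c.2 : ℝ) - (tp x).2) := by
    simp only [tp, hy]; ext <;> simp only <;> ring
  have hy' : tp y ∈ Seg A B := by
    obtain ⟨t, h0, h1, ht⟩ := hx'
    refine ⟨1 - t, by linarith, by linarith, ?_⟩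
    rw [ty, ht, hc]
    simp only [Prod.fst_add, Prod.snd_add]
    push_cast
    ext <;> simp only <;> ring
  have e0 : rf (shT A + shT B) (a, b) = (c.1 + c.2 - 1 - a, c.2 - 1 - b) := by
    simp only [rf, shT, hc, Prod.fst_add, Prod.snd_add]
    ext <;> simp only <;> ring
  have ny : Nr y (c.1 + c.2 - 1 - a, c.2 - 1 - b) := by
    obtain ⟨p1, p2, p3, p4⟩ := id hz
    simp only at p1 p2 p3 p4
    refine ⟨?_, ?_, ?_, ?_⟩ <;> simp only [hy] <;> push_cast <;> linarith
  rw [e0]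
  change g' (a, b) = O.r (O.i (g' (c.1 + c.2 - 1 - a, c.2 - 1 - b)))
  have hr := hg y hy' _ _ ny
  rcases nr_tp x a b hz with hn | hn
  · have ny' : Nr (tp y) (c.1 - 1 - (a - b), c.2 - 1 - b) := by
      obtain ⟨p1, p2, p3, p4⟩ := id hn
      simp only at p1 p2 p3 p4
      push_cast at p1 p2 p3 p4
      rw [ty]
      refine ⟨?_, ?_, ?_, ?_⟩ <;> simp only <;> push_cast <;> linarith
    have e1 : c.1 + c.2 - 1 - a - (c.2 - 1 - b) - 1 = c.1 - 1 - (a - b) := by ring
    rw [(hg x hx' a b hz).1 hn, h _ hx' _ hn]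
    have r2 := hr.2 (by rw [e1]; exact ny')
    rw [e1] at r2
    rw [r2, O.ir, O.r.apply_symm_apply]
    rfl
  · have ny' : Nr (tp y) (c.1 - 1 - (a - b - 1), c.2 - 1 - b) := by
      obtain ⟨p1, p2, p3, p4⟩ := id hn
      simp only at p1 p2 p3 p4
      push_cast at p1 p2 p3 p4
      rw [ty]
      refine ⟨?_, ?_, ?_, ?_⟩ <;> simp only <;> push_cast <;> linarith
    have e1 : c.1 + c.2 - 1 - a - (c.2 - 1 - b) = c.1 - 1 - (a - b - 1) := by ring
    rw [(hg x hx' a b hz).2 hn, h _ hx' _ hn]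
    have r2 := hr.1 (by rw [e1]; exact ny')
    rw [e1] at r2
    rw [r2]
    rfl

private theorem fillT {O : Org X} (t : Tree) : ∀ (A B : Z2) (g g' : Z2 → X), Fill O A B t g →
    TRel O (Seg A B) g g' → Fill O.T (shT A) (shT B) (t.map shT) g' := by
  induction t with
  | leaf =>
    intro A B g g' h hg
    exact foldT h hg
  | node C l r ihl ihr =>
    intro A B g g' h hg
    obtain ⟨h0, f, h1, h2, h3, h4⟩ := h
    obtain ⟨f', hf⟩ := exists_trel (cvx_tri h0) h1
    refine ⟨by rw [tri_T]; exact h0, f', devT h1 hf (fun x hx => tp_tri hx),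
      agreeT h2 (hf.mono (seg_sub_tri1 h0)) hg (fun x hx => tp_seg hx),
      ihl _ _ _ _ h3 (hf.mono ?_), ihr _ _ _ _ h4 (hf.mono ?_)⟩
    · rw [seg_symm_s]; exact seg_sub_tri2 h0
    · rw [seg_symm_s]; exact seg_sub_tri3 h0

theorem Has.T {O : Org X} {A B : Z2} {t t' : Tree} (h : Has O A B t t') :
    Has O.T (shT A) (shT B) (t.map shT) (t'.map shT) := by
  obtain ⟨g, h1, h2, h3⟩ := h
  obtain ⟨g', hg⟩ := exists_trel (cvx_seg A B) h1
  exact ⟨g', devT h1 hg (fun x hx => tp_seg hx), fillT _ _ _ _ _ h2 hg,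
    fillT _ _ _ _ _ h3 (by rw [seg_symm_s]; exact hg)⟩

end Pool.Agent.H4G
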