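import Pool.Agent.H4G.Rot
import Pool.Agent.H4G.Fold
import Pool.Agent.H4G.SL

/-!
# GEOM row M (helper81): the elementary moves act on chains
-/

set_option autoImplicit false

namespace Pool.Agent.H4G

variable {X : Type}

/-! ## Casts -/

theorem Has.cast {O : Org X} {A B A' B' : Z2} {t t' s s' : Tree} (h : Has O A B t t')
    (hA : A = A') (hB : B = B') (ht : t = s) (ht' : t' = s') : Has O A' B' s s' := by
  subst hA hB ht ht'; exact h

theorem Fill.cast {O : Org X} {A B : Z2} {t s : Tree} {g : Z2 → X} (h : Fill O A B t g)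
    (ht : t = s) : Fill O A B s g := by
  subst ht; exact h

/-! ## Moves inside a tree -/

theorem Fill.mapl {O : Org X} {A B C : Z2} {l l' r : Tree} {g : Z2 → X}
    (h : Fill O A B (.node C l r) g) (H : ∀ f, Fill O C B l f → Fill O C B l' f) :
    Fill O A B (.node C l' r) g := by
  obtain ⟨h0, f, h1, h2, h3, h4⟩ := h
  exact ⟨h0, f, h1, h2, H f h3, h4⟩

theorem Fill.mapr {O : Org X} {A B C : Z2} {l r r' : Tree} {g : Z2 → X}
    (h : Fill O A B (.node C l r) g) (H : ∀ f, Fill O A C r f → Fill O A C r' f) :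
    Fill O A B (.node C l r') g := by
  obtain ⟨h0, f, h1, h2, h3, h4⟩ := h
  exact ⟨h0, f, h1, h2, h3, H f h4⟩

theorem Has.map1 {O : Org X} {A B : Z2} {t s t' : Tree} (h : Has O A B t t')
    (H : ∀ f, Fill O A B t f → Fill O A B s f) : Has O A B s t' := by
  obtain ⟨g, h1, h2, h3⟩ := h
  exact ⟨g, h1, H g h2, h3⟩

theorem Has.map2 {O : Org X} {A B : Z2} {t t' s : Tree} (h : Has O A B t t')
    (H : ∀ f, Fill O B A t' f → Fill O B A s f) : Has O A B t s := by
  obtain ⟨g, h1, h2, h3⟩ := h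
  exact ⟨g, h1, h2, H g h3⟩

theorem Has.unright {O : Org X} {A B C : Z2} {l r t' : Tree}
    (h : Has O A C r (.node B t' l)) : Has O A B (.node C l r) t' := h.symm.left.symm

theorem Has.unleft {O : Org X} {A B C : Z2} {l r t' : Tree}
    (h : Has O C B l (.node A r t')) : Has O A B (.node C l r) t' := h.symm.right.symm

/-! ## The half turn and the reversed chain -/

theorem chain_neg {O : Org X} {a0 a1 a2 a3 a4 a5 : Z2} (h : Chain O (a0, a1, a2, a3, a4, a5)) :
    Chain O (-a0, -a1, -a2, -a3, -a4, -a5) := by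
  have h1 : Has O 0 a0 (fan a1 a2 a3 a4 a5) .leaf := h
  exact (h1.refl 0).cast (by simp [rp]) (by simp [rp]) (by simp [fan, Tree.map, rp]) rfl

/-- backward fan -/
def bt : List Z2 → Tree
  | [] => .leaf
  | a :: s => .node a (bt s) .leaf

/-- forward fan -/
def ft : List Z2 → Tree
  | [] => .leaf
  | a :: s => .node a .leaf (ft s)

/-- alternating signs -/
def alt : Bool → List Z2 → List Z2
  | _, [] => []
  | true, a :: s => a :: alt false s
  | false, a :: s => -a :: alt true s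

theorem bt_ft {O : Org X} (s : List Z2) : ∀ (b : Z2) (g : Z2 → X),
    (Fill O 0 (-b) ((bt s).map (fun p => p - b)) g → Fill O 0 (-b) (ft (alt true s)) g) ∧
    (Fill O 0 b ((bt s).map (rp b)) g → Fill O 0 b (ft (alt false s)) g) := by
  induction s with
  | nil => exact fun b g => ⟨fun h => h, fun h => h⟩
  | cons a s ih =>
    intro b g
    constructor
    · intro h
      have h1 : Fill O 0 (-b) (.node (a - b) ((bt s).map (fun p => p - b)) .leaf) g := h
      have h2 := h1.foldr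
      rw [Tree.map_map] at h2
      have e1 : (0 : Z2) + (a - b) - -b = a := by abel
      have e2 : (fun p : Z2 => rp (0 + (a - b)) (p - b)) = rp a := by
        funext p; simp only [rp]; abel
      rw [e1, e2] at h2
      exact h2.mapr fun f hf => (ih a f).2 hf
    · intro h
      have h1 : Fill O 0 b (.node (b - a) ((bt s).map (rp b)) .leaf) g := h
      have h2 := h1.foldr
      rw [Tree.map_map] at h2
      have e1 : (0 : Z2) + (b - a) - b = -a := by abel
      have e2 : (fun p : Z2 => rp (0 + (b - a)) (rp b p)) = fun p => p - a := by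
        funext p; simp only [rp]; abel
      rw [e1, e2] at h2
      exact h2.mapr fun f hf => (ih a f).1 hf

theorem chain_rev {O : Org X} {a0 a1 a2 a3 a4 a5 : Z2} (h : Chain O (a0, a1, a2, a3, a4, a5)) :
    Chain O (a5, -a4, a3, -a2, a1, -a0) := by
  have h1 : Has O 0 a0 (fan a1 a2 a3 a4 a5) .leaf := h
  have h2 := h1.right.right.right.right.right.symm.refl a5
  have h3 : Has O 0 a5 ((bt [a4, a3, a2, a1, a0]).map (rp a5)) .leaf :=
    h2.cast (by simp [rp]) (by simp [rp]) rfl rfl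
  exact h3.map1 fun f hf => ((bt_ft _ a5 f).2 hf)

/-! ## The first vector -/

theorem chain_end0 {O : Org X} {a0 a1 a2 a3 a4 a5 : Z2} (h : Chain O (a0, a1, a2, a3, a4, a5)) :
    Chain O (a0 + a1, a1, a2, a3, a4, a5) := by
  have h1 : Has O 0 a0 (fan a1 a2 a3 a4 a5) .leaf := h
  exact (h1.right.map2 fun f hf => hf.foldr.cast (by
      (try simp only [Tree.map, rp, Tree.node.injEq, true_and, and_true]) <;>
        (try (repeat' apply And.intro)) <;> first | rfl | abel1)).unright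

theorem chain_end0' {O : Org X} {a0 a1 a2 a3 a4 a5 : Z2}
    (h : Chain O (a0 + a1, a1, a2, a3, a4, a5)) : Chain O (a0, a1, a2, a3, a4, a5) := by
  have h1 : Has O 0 (a0 + a1) (fan a1 a2 a3 a4 a5) .leaf := h
  exact (h1.right.map2 fun f hf => hf.foldl.cast (by
      (try simp only [Tree.map, rp, Tree.node.injEq, true_and, and_true]) <;>
        (try (repeat' apply And.intro)) <;> first | rfl | abel1)).unright

/-! ## The flips -/

theorem map_rp_rp (c : Z2) (t : Tree) : (t.map (rp c)).map (rp c) = t := by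
  induction t with
  | leaf => rfl
  | node C l r ihl ihr => simp only [Tree.map, ihl, ihr, rp_rp]

theorem flipA {O : Org X} {a b c : Z2} {R : Tree} {g : Z2 → X}
    (h : Fill O 0 a (.node b .leaf (.node c .leaf R)) g)
    (h1 : 0 < cr a (b + a - c)) (h2 : 0 < cr (b + a - c) c) :
    Fill O 0 a (.node (b + a - c) .leaf (.node c .leaf R)) g := by
  have k1 := h.foldl
  have k2 : Fill O 0 a (.node (a + b) (.node (b + a - c) .leaf (R.map (rp (a + b)))) .leaf) g :=
    k1.cast (by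
      have e1 : a + b - 0 = a + b := by abel
      have e2 : rp (a + b) c = b + a - c := by simp only [rp]; abel
      simp only [Tree.map, e1, e2])
  have k3 := k2.rot (by simp only [tri, sub_zero]; exact h1) (by
    simp only [tri, sub_zero]
    have : cr (b + a - c) (a + b) = cr (b + a - c) c := by
      simp only [cr, Prod.fst_sub, Prod.snd_sub, Prod.fst_add, Prod.snd_add]; ring
    rw [this]; exact h2)
  refine k3.mapr fun f hf => hf.foldr.cast ?_
  have e1 : 0 + (a + b) - (b + a - c) = c := by abel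
  have e2 : (0 : Z2) + (a + b) = a + b := by abel
  rw [e1, e2, map_rp_rp]

theorem flipB {O : Org X} {a b c : Z2} {R : Tree} {g : Z2 → X}
    (h : Fill O 0 a (.node b .leaf (.node c .leaf R)) g)
    (h1 : 0 < cr a (b - a + c)) (h2 : 0 < cr (b - a + c) c) :
    Fill O 0 a (.node (b - a + c) .leaf (.node c .leaf R)) g := by
  have k2 : Fill O 0 a (.node b .leaf (.node (b + c) (R.map (rp (b + c))) .leaf)) g :=
    h.mapr fun f hf => hf.foldl.cast (by rw [sub_zero])
  have k3 := k2.rot' (by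
    simp only [tri, sub_zero]
    have : cr a (b + c) = cr a (b - a + c) := by
      simp only [cr, Prod.fst_sub, Prod.snd_sub, Prod.fst_add, Prod.snd_add]; ring
    rw [this]; exact h1) (by
    have : tri (b + c) a b = cr (b - a + c) c := by
      simp only [tri, cr, Prod.fst_sub, Prod.snd_sub, Prod.fst_add, Prod.snd_add]; ring
    rw [this]; exact h2)
  refine k3.foldr.cast ?_
  have e1 : 0 + (b + c) - a = b - a + c := by abel
  have e2 : (0 : Z2) + (b + c) = b + c := by abel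
  have e3 : rp (b + c) b = c := by simp only [rp]; abel
  rw [e1, e2, Tree.map, map_rp_rp, e3]
  rfl

/-! ## The star moves -/

theorem chain_star {O : Org X} {a0 a1 a2 a3 a4 a5 : Z2} (h : Chain O (a0, a1, a2, a3, a4, a5))
    (c1 : 0 < cr a1 a3) (c2 : cr a1 a3 < cr a1 a2 + cr a2 a3)
    (c3 : 0 < cr a0 a3) (c4 : cr a0 a3 < cr a0 a1 + cr a1 a3) :
    Chain O (a2 - a3, a3 - a1, a0 - a3, a3, a4, a5) := by
  have h1 : Has O 0 a0 (fan a1 a2 a3 a4 a5) .leaf := h
  have h2 : Has O 0 a0 (.node a1 .leaf (.node a3 (.node a2 .leaf .leaf)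
      (.node a4 .leaf (.node a5 .leaf .leaf)))) .leaf := by
    refine h1.map1 fun f hf => hf.mapr fun f hf => hf.rot' (by
      simp only [tri, sub_zero]; exact c1) ?_
    have : tri a3 a1 a2 = cr a1 a2 + cr a2 a3 - cr a1 a3 := by
      simp only [tri, cr, Prod.fst_sub, Prod.snd_sub]; ring
    omega
  have h3 : Has O 0 a0 (.node a3 (.node a1 .leaf (.node a2 .leaf .leaf))
      (.node a4 .leaf (.node a5 .leaf .leaf))) .leaf := by
    refine h2.map1 fun f hf => hf.rot' (by simp only [tri, sub_zero]; exact c3) ?_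
    have : tri a3 a0 a1 = cr a0 a1 + cr a1 a3 - cr a0 a3 := by
      simp only [tri, cr, Prod.fst_sub, Prod.snd_sub]; ring
    omega
  have h4 := h3.right
  have h5 : Has O 0 a3 (.node a4 .leaf (.node a5 .leaf .leaf))
      (.node (a0 - a3) (.node (a0 - a1) .leaf (.node (a0 - a2) .leaf .leaf)) .leaf) :=
    h4.map2 fun f hf => hf.foldl.cast (by
      (try simp only [Tree.map, rp, Tree.node.injEq, true_and, and_true]) <;>
        (try (repeat' apply And.intro)) <;> first | rfl | abel1)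
  have h6 : Has O 0 a3 (.node a4 .leaf (.node a5 .leaf .leaf))
      (.node (a0 - a3) (.node (a3 - a1) (.node (a2 - a1) .leaf .leaf) .leaf) .leaf) :=
    h5.map2 fun f hf => hf.mapl fun f hf => hf.foldl.cast (by
      (try simp only [Tree.map, rp, Tree.node.injEq, true_and, and_true]) <;>
        (try (repeat' apply And.intro)) <;> first | rfl | abel1)
  have h7 : Has O 0 a3 (.node a4 .leaf (.node a5 .leaf .leaf))
      (.node (a0 - a3) (.node (a3 - a1) (.node (a2 - a3) .leaf .leaf) .leaf) .leaf) :=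
    h6.map2 fun f hf => hf.mapl fun f hf => hf.mapl fun f hf => hf.foldl.cast (by
      (try simp only [Tree.map, rp, Tree.node.injEq, true_and, and_true]) <;>
        (try (repeat' apply And.intro)) <;> first | rfl | abel1)
  exact h7.unright.unright.unright

theorem chain_star_inv {O : Org X} {a0 a1 a2 a3 a4 a5 : Z2}
    (h : Chain O (a2 - a3, a3 - a1, a0 - a3, a3, a4, a5))
    (p1 : 0 < cr a0 a1) (p2 : 0 < cr a1 a2) (p3 : 0 < cr a2 a3)
    (c1 : 0 < cr a1 a3) : Chain O (a0, a1, a2, a3, a4, a5) := by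
  have h0 : Has O 0 (a2 - a3) (fan (a3 - a1) (a0 - a3) a3 a4 a5) .leaf := h
  have h7 := h0.right.right.right
  have h6 : Has O 0 a3 (.node a4 .leaf (.node a5 .leaf .leaf))
      (.node (a0 - a3) (.node (a3 - a1) (.node (a2 - a1) .leaf .leaf) .leaf) .leaf) :=
    h7.map2 fun f hf => hf.mapl fun f hf => hf.mapl fun f hf => hf.foldr.cast (by
      (try simp only [Tree.map, rp, Tree.node.injEq, true_and, and_true]) <;>
        (try (repeat' apply And.intro)) <;> first | rfl | abel1)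
  have h5 : Has O 0 a3 (.node a4 .leaf (.node a5 .leaf .leaf))
      (.node (a0 - a3) (.node (a0 - a1) .leaf (.node (a0 - a2) .leaf .leaf)) .leaf) :=
    h6.map2 fun f hf => hf.mapl fun f hf => hf.foldr.cast (by
      (try simp only [Tree.map, rp, Tree.node.injEq, true_and, and_true]) <;>
        (try (repeat' apply And.intro)) <;> first | rfl | abel1)
  have h4 : Has O 0 a3 (.node a4 .leaf (.node a5 .leaf .leaf))
      (.node a0 .leaf (.node a1 .leaf (.node a2 .leaf .leaf))) :=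
    h5.map2 fun f hf => hf.foldr.cast (by
      (try simp only [Tree.map, rp, Tree.node.injEq, true_and, and_true]) <;>
        (try (repeat' apply And.intro)) <;> first | rfl | abel1)
  have h3 := h4.unright
  have h2 : Has O 0 a0 (.node a1 .leaf (.node a3 (.node a2 .leaf .leaf)
      (.node a4 .leaf (.node a5 .leaf .leaf)))) .leaf :=
    h3.map1 fun f hf => hf.rot (by simp only [tri, sub_zero]; exact p1)
      (by simp only [tri, sub_zero]; exact c1)
  exact h2.map1 fun f hf => hf.mapr fun f hf => hf.rot (by simp only [tri, sub_zero]; exact p2)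
      (by simp only [tri, sub_zero]; exact p3)

theorem chain_star' {O : Org X} {a0 a1 a2 a3 a4 a5 : Z2} (h : Chain O (a0, a1, a2, a3, a4, a5))
    (c1 : cr a1 a3 < 0) (c2 : 0 < cr a1 a3 + cr a1 a2 + cr a2 a3)
    (c3 : cr a1 a3 < cr a0 a3) (c4 : cr a0 a3 < cr a0 a1) :
    Chain O (a2 + a3, a3 - a1, a0 - a1 + a3, a3, a4, a5) := by
  have h1 : Has O 0 a0 (fan a1 a2 a3 a4 a5) .leaf := h
  have h2 : Has O 0 a0 (.node a1 .leaf (.node (a1 + a2) (.node (a1 + a2 - a3) .leaf
      (.node (a1 + a2 - a4) .leaf (.node (a1 + a2 - a5) .leaf .leaf))) .leaf)) .leaf :=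
    h1.map1 fun f hf => hf.mapr fun f hf => hf.foldl.cast (by
      (try simp only [Tree.map, rp, Tree.node.injEq, true_and, and_true]) <;>
        (try (repeat' apply And.intro)) <;> first | rfl | abel1)
  have h3 : Has O 0 a0 (.node a1 .leaf (.node (a1 + a2) (.node (a1 - a3)
      (.node (a4 + (a1 - a3)) .leaf (.node (a5 + (a1 - a3)) .leaf .leaf)) .leaf) .leaf)) .leaf :=
    h2.map1 fun f hf => hf.mapr fun f hf => hf.mapl fun f hf => hf.foldl.cast (by
      (try simp only [Tree.map, rp, Tree.node.injEq, true_and, and_true]) <;>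
        (try (repeat' apply And.intro)) <;> first | rfl | abel1)
  have h4 : Has O 0 a0 (.node a1 .leaf (.node (a1 - a3)
      (.node (a4 + (a1 - a3)) .leaf (.node (a5 + (a1 - a3)) .leaf .leaf))
      (.node (a1 + a2) .leaf .leaf))) .leaf := by
    refine h3.map1 fun f hf => hf.mapr fun f hf => hf.rot ?_ ?_
    · have : tri 0 a1 (a1 - a3) = - cr a1 a3 := by
        simp only [tri, cr, Prod.fst_sub, Prod.snd_sub, Prod.fst_zero, Prod.snd_zero]; ring
      omega
    · have : tri 0 (a1 - a3) (a1 + a2) = cr a1 a3 + cr a1 a2 + cr a2 a3 := by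
        simp only [tri, cr, Prod.fst_sub, Prod.snd_sub, Prod.fst_zero, Prod.snd_zero,
          Prod.fst_add, Prod.snd_add]; ring
      omega
  have h5 : Has O 0 a0 (.node (a1 - a3) (.node a1 .leaf
      (.node (a4 + (a1 - a3)) .leaf (.node (a5 + (a1 - a3)) .leaf .leaf)))
      (.node (a1 + a2) .leaf .leaf)) .leaf := by
    refine h4.map1 fun f hf => hf.rot' ?_ ?_
    · have : tri 0 a0 (a1 - a3) = cr a0 a1 - cr a0 a3 := by
        simp only [tri, cr, Prod.fst_sub, Prod.snd_sub, Prod.fst_zero, Prod.snd_zero]; ring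
      omega
    · have : tri (a1 - a3) a0 a1 = cr a0 a3 - cr a1 a3 := by
        simp only [tri, cr, Prod.fst_sub, Prod.snd_sub]; ring
      omega
  have h6 := h5.left.right.shift (a3 - a1)
  have h7 : Has O 0 a3 (.node a4 .leaf (.node a5 .leaf .leaf))
      (.node (a0 - a1 + a3) (.node (a3 - a1) (.node (a2 + a3) .leaf .leaf) .leaf) .leaf) :=
    h6.cast (by abel) (by abel) (by
      (try simp only [Tree.map, rp, Tree.node.injEq, true_and, and_true]) <;>
        (try (repeat' apply And.intro)) <;> first | rfl | abel1) (by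
      (try simp only [Tree.map, rp, Tree.node.injEq, true_and, and_true]) <;>
        (try (repeat' apply And.intro)) <;> first | rfl | abel1)
  exact h7.unright.unright.unright

theorem chain_star'_inv {O : Org X} {a0 a1 a2 a3 a4 a5 : Z2}
    (h : Chain O (a2 + a3, a3 - a1, a0 - a1 + a3, a3, a4, a5))
    (p1 : 0 < cr a0 a1) (p2 : 0 < cr a1 a2) (p3 : 0 < cr a2 a3)
    (c1 : cr a1 a3 < 0) : Chain O (a0, a1, a2, a3, a4, a5) := by
  have h0 : Has O 0 (a2 + a3) (fan (a3 - a1) (a0 - a1 + a3) a3 a4 a5) .leaf := h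
  have h7 := h0.right.right.right.shift (a1 - a3)
  have h6 : Has O (a1 - a3) a1 (.node (a4 + (a1 - a3)) .leaf (.node (a5 + (a1 - a3)) .leaf .leaf))
      (.node a0 (.node 0 (.node (a1 + a2) .leaf .leaf) .leaf) .leaf) :=
    h7.cast (by abel) (by abel) (by
      (try simp only [Tree.map, rp, Tree.node.injEq, true_and, and_true]) <;>
        (try (repeat' apply And.intro)) <;> first | rfl | abel1) (by
      (try simp only [Tree.map, rp, Tree.node.injEq, true_and, and_true]) <;>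
        (try (repeat' apply And.intro)) <;> first | rfl | abel1)
  have h5 := h6.unright.unleft
  have h4 : Has O 0 a0 (.node a1 .leaf (.node (a1 - a3)
      (.node (a4 + (a1 - a3)) .leaf (.node (a5 + (a1 - a3)) .leaf .leaf))
      (.node (a1 + a2) .leaf .leaf))) .leaf := by
    refine h5.map1 fun f hf => hf.rot (by simp only [tri, sub_zero]; exact p1) ?_
    have : tri 0 a1 (a1 - a3) = - cr a1 a3 := by
      simp only [tri, cr, Prod.fst_sub, Prod.snd_sub, Prod.fst_zero, Prod.snd_zero]; ring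
    omega
  have h3 : Has O 0 a0 (.node a1 .leaf (.node (a1 + a2) (.node (a1 - a3)
      (.node (a4 + (a1 - a3)) .leaf (.node (a5 + (a1 - a3)) .leaf .leaf)) .leaf) .leaf)) .leaf := by
    refine h4.map1 fun f hf => hf.mapr fun f hf => hf.rot' ?_ ?_
    · have : tri 0 a1 (a1 + a2) = cr a1 a2 := by
        simp only [tri, cr, Prod.fst_sub, Prod.snd_sub, Prod.fst_zero, Prod.snd_zero,
          Prod.fst_add, Prod.snd_add]; ring
      omega
    · have : tri (a1 + a2) a1 (a1 - a3) = cr a2 a3 := by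
        simp only [tri, cr, Prod.fst_sub, Prod.snd_sub, Prod.fst_add, Prod.snd_add]; ring
      omega
  have h2 : Has O 0 a0 (.node a1 .leaf (.node (a1 + a2) (.node (a1 + a2 - a3) .leaf
      (.node (a1 + a2 - a4) .leaf (.node (a1 + a2 - a5) .leaf .leaf))) .leaf)) .leaf :=
    h3.map1 fun f hf => hf.mapr fun f hf => hf.mapl fun f hf => hf.foldr.cast (by
      (try simp only [Tree.map, rp, Tree.node.injEq, true_and, and_true]) <;>
        (try (repeat' apply And.intro)) <;> first | rfl | abel1)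
  exact h2.map1 fun f hf => hf.mapr fun f hf => hf.foldr.cast (by
      (try simp only [Tree.map, rp, Tree.node.injEq, true_and, and_true]) <;>
        (try (repeat' apply And.intro)) <;> first | rfl | abel1)

/-! ## Isomorphisms -/

theorem DevAt.iso {X' : Type} {O : Org X} {O' : Org X'} {e : X ≃ X'} (h : Iso O O' e) {x : V}
    {f : Z2 → X} (hf : DevAt O x f) : DevAt O' x (fun z => e (f z)) :=
  ⟨fun z h1 h2 => by change e (f _) = O'.r (e (f z)); rw [hf.1 z h1 h2, h.r],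
    fun z h1 h2 => by change e (f _) = O'.u (e (f z)); rw [hf.2 z h1 h2, h.u]⟩

theorem Fill.iso {X' : Type} {O : Org X} {O' : Org X'} {e : X ≃ X'} (h : Iso O O' e) {A B : Z2}
    {t : Tree} {g : Z2 → X} (hf : Fill O A B t g) : Fill O' A B t (fun z => e (g z)) := by
  induction t generalizing A B g with
  | leaf =>
    intro x hx z hz
    have h1 := hf x hx z hz
    simp only
    rw [h1, h.i]
  | node C l r ihl ihr =>
    obtain ⟨h0, f, h1, h2, h3, h4⟩ := hf
    refine ⟨h0, fun z => e (f z), fun x hx => (h1 x hx).iso h, fun x hx z hz => ?_, ihl h3, ihr h4⟩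
    simp only
    rw [h2 x hx z hz]

theorem Has.iso {X' : Type} {O : Org X} {O' : Org X'} {e : X ≃ X'} (h : Iso O O' e) {A B : Z2}
    {t t' : Tree} (hf : Has O A B t t') : Has O' A B t t' := by
  obtain ⟨g, h1, h2, h3⟩ := hf
  exact ⟨fun z => e (g z), fun x hx => (h1 x hx).iso h, h2.iso h, h3.iso h⟩

theorem Iso.symm {X' : Type} {O : Org X} {O' : Org X'} {e : X ≃ X'} (h : Iso O O' e) :
    Iso O' O e.symm where
  r x := by
    apply e.injective; rw [e.apply_symm_apply, h.r, e.apply_symm_apply]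
  u x := by
    apply e.injective; rw [e.apply_symm_apply, h.u, e.apply_symm_apply]
  i x := by
    apply e.injective; rw [e.apply_symm_apply, h.i, e.apply_symm_apply]

theorem Chain.iso {X' : Type} {O : Org X} {O' : Org X'} {e : X ≃ X'} (h : Iso O O' e) {c : C6}
    (hc : Chain O c) : Chain O' c := by
  obtain ⟨a0, a1, a2, a3, a4, a5⟩ := c
  have h1 : Has O 0 a0 (fan a1 a2 a3 a4 a5) .leaf := hc
  exact h1.iso h

/-! ## The generators -/

theorem Chain.T {O : Org X} {c : C6} (h : Chain O c) : Chain O.T (c.map shT) := by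
  obtain ⟨a0, a1, a2, a3, a4, a5⟩ := c
  have h1 : Has O 0 a0 (fan a1 a2 a3 a4 a5) .leaf := h
  exact h1.T.cast (by simp [shT]) rfl rfl rfl

theorem Chain.J {O : Org X} {c : C6} (h : Chain O c) : Chain O.J (c.map shJ) := by
  obtain ⟨a0, a1, a2, a3, a4, a5⟩ := c
  have h1 : Has O 0 a0 (fan a1 a2 a3 a4 a5) .leaf := h
  exact h1.J.cast (by simp [shJ]) rfl rfl rfl

theorem Org.ext' {O O' : Org X} (hr : O.r = O'.r) (hu : O.u = O'.u) (hi : O.i = O'.i) :
    O = O' := by
  cases O; cases O'; subst hr hu hi; rfl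

theorem J4 (O : Org X) : O.J.J.J.J = O := Org.ext' (inv_inv _) (inv_inv _) rfl

theorem shJ4 (p : Z2) : shJ (shJ (shJ (shJ p))) = p := by
  simp [shJ]

/-- the inverse shear -/
def Org.Ti (O : Org X) : Org X where
  r := O.r
  u := O.u * O.r
  i := O.r⁻¹ * O.i
  ii x := by
    change O.r.symm (O.i (O.r.symm (O.i x))) = x
    have h : ∀ y, O.i (O.r.symm y) = O.r (O.i y) := by
      intro y
      have := O.ir (O.r.symm y)
      rw [O.r.apply_symm_apply] at this
      rw [this]; exact (O.r.apply_symm_apply _).symm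
    rw [h, O.ii]; exact O.r.symm_apply_apply x
  ir x := by
    change O.r.symm (O.i (O.r x)) = O.r.symm (O.r.symm (O.i x))
    rw [O.ir]
  iu x := by
    change O.r.symm (O.i (O.u (O.r x))) = (O.u * O.r).symm (O.r.symm (O.i x))
    rw [O.iu, O.ir]
    rfl

theorem Ti_T (O : Org X) : O.Ti.T = O := by
  apply Org.ext'
  · rfl
  · change O.u * O.r * O.r⁻¹ = O.u
    rw [mul_assoc, mul_inv_cancel, mul_one]
  · change O.r * (O.r⁻¹ * O.i) = O.i
    rw [← mul_assoc, mul_inv_cancel, one_mul]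

theorem i_r_inv (O : Org X) (y : X) : O.i (O.r⁻¹ y) = O.r (O.i y) := by
  have := O.ir (O.r.symm y)
  rw [O.r.apply_symm_apply] at this
  change O.i (O.r.symm y) = _
  rw [this]; exact (O.r.apply_symm_apply _).symm

theorem i_u_inv (O : Org X) (y : X) : O.i (O.u⁻¹ y) = O.u (O.i y) := by
  have := O.iu (O.u.symm y)
  rw [O.u.apply_symm_apply] at this
  change O.i (O.u.symm y) = _
  rw [this]; exact (O.u.apply_symm_apply _).symm

/-- the cube of the product of the two generators is the half turn -/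
theorem iso_S3 (O : Org X) : Iso O O.T.J.T.J.T.J (O.r * O.u⁻¹ * O.i) where
  r x := by
    have e : O.T.J.T.J.T.J.r = O.r * O.u⁻¹ * O.r⁻¹ * O.u * O.r⁻¹ := by
      change (O.T.J.T.J.u * O.T.J.T.J.r⁻¹)⁻¹ = _
      have e1 : O.T.J.T.J.u = O.T.J.r := rfl
      have e2 : O.T.J.T.J.r = (O.T.J.u * O.T.J.r⁻¹)⁻¹ := rfl
      have e3 : O.T.J.u = O.r := rfl
      have e4 : O.T.J.r = (O.u * O.r⁻¹)⁻¹ := rfl
      rw [e1, e2, e3, e4]; group
    rw [e]
    change O.r (O.u.symm (O.i (O.r x))) =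
      O.r (O.u.symm (O.r.symm (O.u (O.r.symm (O.r (O.u.symm (O.i x)))))))
    rw [O.ir, O.r.symm_apply_apply, O.u.apply_symm_apply]
  u x := by
    have e : O.T.J.T.J.T.J.u = O.r * O.u⁻¹ * O.r⁻¹ := by
      change O.T.J.T.J.r = _
      have e2 : O.T.J.T.J.r = (O.T.J.u * O.T.J.r⁻¹)⁻¹ := rfl
      have e3 : O.T.J.u = O.r := rfl
      have e4 : O.T.J.r = (O.u * O.r⁻¹)⁻¹ := rfl
      rw [e2, e3, e4]; group
    rw [e]
    change O.r (O.u.symm (O.i (O.u x))) = O.r (O.u.symm (O.r.symm (O.r (O.u.symm (O.i x)))))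
    rw [O.iu, O.r.symm_apply_apply]
  i x := by
    have e : O.T.J.T.J.T.J.i = O.r * O.u⁻¹ * O.u⁻¹ * O.r * O.i := by
      change O.T.J.T.J.r * O.T.J.T.J.i = _
      have e2 : O.T.J.T.J.r = (O.T.J.u * O.T.J.r⁻¹)⁻¹ := rfl
      have e3 : O.T.J.u = O.r := rfl
      have e4 : O.T.J.r = (O.u * O.r⁻¹)⁻¹ := rfl
      have e5 : O.T.J.T.J.i = O.T.J.r * O.T.J.i := rfl
      have e6 : O.T.J.i = O.r * O.i := rfl
      rw [e2, e3, e5, e4, e6]; group
    rw [e]
    change O.r (O.u.symm (O.i (O.i x))) =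
      O.r (O.u.symm (O.u.symm (O.r (O.i (O.r (O.u.symm (O.i x)))))))
    have h1 := i_u_inv O (O.i x)
    change O.i (O.u.symm (O.i x)) = O.u (O.i (O.i x)) at h1
    rw [O.ir, O.r.apply_symm_apply, h1, O.u.symm_apply_apply]

theorem Chain.Ti {O : Org X} {c : C6} (h : Chain O (c.map shT)) : Chain O.Ti c := by
  have h5 := h.J.T.J.T.J
  have e := iso_S3 O.Ti
  rw [Ti_T] at e
  obtain ⟨a0, a1, a2, a3, a4, a5⟩ := c
  have h6 : Chain O.J.T.J.T.J (-a0, -a1, -a2, -a3, -a4, -a5) := by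
    have key : ∀ a : Z2, shJ (shT (shJ (shT (shJ (shT a))))) = -a := by
      intro a; ext <;> simp [shJ, shT]
    simp only [C6.map, key] at h5
    exact h5
  have h7 := chain_neg h6
  simp only [neg_neg] at h7
  exact h7.iso e.symm

/-! ## The main statements -/

theorem Chain.mv {O : Org X} {c c' : C6} (hc : Pos c) (h : Chain O c) (hm : Mv c c') :
    ∃ O' : Org X, (O' = O ∨ Step O O') ∧ Chain O' c' := by
  cases hm with
  | neg a0 a1 a2 a3 a4 a5 => exact ⟨O, Or.inl rfl, chain_neg h⟩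
  | rev a0 a1 a2 a3 a4 a5 => exact ⟨O, Or.inl rfl, chain_rev h⟩
  | end0 a0 a1 a2 a3 a4 a5 => exact ⟨O, Or.inl rfl, chain_end0 h⟩
  | flip1 a0 a1 a2 a3 a4 a5 h1 h2 =>
    refine ⟨O, Or.inl rfl, ?_⟩
    have k : Has O 0 a0 (fan a1 a2 a3 a4 a5) .leaf := h
    exact k.map1 fun f hf => flipA hf h1 h2
  | flip1' a0 a1 a2 a3 a4 a5 h1 h2 =>
    refine ⟨O, Or.inl rfl, ?_⟩
    have k : Has O 0 a0 (fan a1 a2 a3 a4 a5) .leaf := h
    exact k.map1 fun f hf => flipB hf h1 h2
  | flip2 a0 a1 a2 a3 a4 a5 h1 h2 =>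
    refine ⟨O, Or.inl rfl, ?_⟩
    have k : Has O 0 a0 (fan a1 a2 a3 a4 a5) .leaf := h
    exact k.map1 fun f hf => hf.mapr fun f hf => flipA hf h1 h2
  | flip2' a0 a1 a2 a3 a4 a5 h1 h2 =>
    refine ⟨O, Or.inl rfl, ?_⟩
    have k : Has O 0 a0 (fan a1 a2 a3 a4 a5) .leaf := h
    exact k.map1 fun f hf => hf.mapr fun f hf => flipB hf h1 h2
  | star a0 a1 a2 a3 a4 a5 h1 h2 h3 h4 => exact ⟨O, Or.inl rfl, chain_star h h1 h2 h3 h4⟩
  | star' a0 a1 a2 a3 a4 a5 h1 h2 h3 h4 => exact ⟨O, Or.inl rfl, chain_star' h h1 h2 h3 h4⟩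
  | T c => exact ⟨O.T, Or.inr (Step.T O), h.T⟩
  | J c => exact ⟨O.J, Or.inr (Step.J O), h.J⟩

theorem Chain.mv_symm {O : Org X} {c c' : C6} (hc : Pos c) (h : Chain O c') (hm : Mv c c') :
    ∃ O' : Org X, (O' = O ∨ Step O' O) ∧ Chain O' c := by
  cases hm with
  | neg a0 a1 a2 a3 a4 a5 =>
    refine ⟨O, Or.inl rfl, ?_⟩
    have k := chain_neg h
    simpa only [neg_neg] using k
  | rev a0 a1 a2 a3 a4 a5 =>
    refine ⟨O, Or.inl rfl, ?_⟩
    have k := chain_neg (chain_rev h)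
    simpa only [neg_neg] using k
  | end0 a0 a1 a2 a3 a4 a5 => exact ⟨O, Or.inl rfl, chain_end0' h⟩
  | flip1 a0 a1 a2 a3 a4 a5 h1 h2 =>
    refine ⟨O, Or.inl rfl, ?_⟩
    have k : Has O 0 a0 (fan (a1 + a0 - a2) a2 a3 a4 a5) .leaf := h
    have e : a1 + a0 - a2 - a0 + a2 = a1 := by abel
    have k2 : Has O 0 a0 (fan (a1 + a0 - a2 - a0 + a2) a2 a3 a4 a5) .leaf :=
      k.map1 fun f hf => flipB hf (by rw [e]; exact hc.1) (by rw [e]; exact hc.2.1)
    rw [e] at k2
    exact k2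
  | flip1' a0 a1 a2 a3 a4 a5 h1 h2 =>
    refine ⟨O, Or.inl rfl, ?_⟩
    have k : Has O 0 a0 (fan (a1 - a0 + a2) a2 a3 a4 a5) .leaf := h
    have e : a1 - a0 + a2 + a0 - a2 = a1 := by abel
    have k2 : Has O 0 a0 (fan (a1 - a0 + a2 + a0 - a2) a2 a3 a4 a5) .leaf :=
      k.map1 fun f hf => flipA hf (by rw [e]; exact hc.1) (by rw [e]; exact hc.2.1)
    rw [e] at k2
    exact k2
  | flip2 a0 a1 a2 a3 a4 a5 h1 h2 =>
    refine ⟨O, Or.inl rfl, ?_⟩
    have k : Has O 0 a0 (fan a1 (a2 + a1 - a3) a3 a4 a5) .leaf := h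
    have e : a2 + a1 - a3 - a1 + a3 = a2 := by abel
    have k2 : Has O 0 a0 (fan a1 (a2 + a1 - a3 - a1 + a3) a3 a4 a5) .leaf :=
      k.map1 fun f hf => hf.mapr fun f hf =>
        flipB hf (by rw [e]; exact hc.2.1) (by rw [e]; exact hc.2.2.1)
    rw [e] at k2
    exact k2
  | flip2' a0 a1 a2 a3 a4 a5 h1 h2 =>
    refine ⟨O, Or.inl rfl, ?_⟩
    have k : Has O 0 a0 (fan a1 (a2 - a1 + a3) a3 a4 a5) .leaf := h
    have e : a2 - a1 + a3 + a1 - a3 = a2 := by abel
    have k2 : Has O 0 a0 (fan a1 (a2 - a1 + a3 + a1 - a3) a3 a4 a5) .leaf :=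
      k.map1 fun f hf => hf.mapr fun f hf =>
        flipA hf (by rw [e]; exact hc.2.1) (by rw [e]; exact hc.2.2.1)
    rw [e] at k2
    exact k2
  | star a0 a1 a2 a3 a4 a5 h1 h2 h3 h4 =>
    exact ⟨O, Or.inl rfl, chain_star_inv h hc.1 hc.2.1 hc.2.2.1 h1⟩
  | star' a0 a1 a2 a3 a4 a5 h1 h2 h3 h4 =>
    exact ⟨O, Or.inl rfl, chain_star'_inv h hc.1 hc.2.1 hc.2.2.1 h1⟩
  | T c => exact ⟨O.Ti, Or.inr (by have := Step.T O.Ti; rwa [Ti_T] at this), h.Ti⟩
  | J c =>
    refine ⟨O.J.J.J, Or.inr (by have := Step.J O.J.J.J; rwa [J4] at this), ?_⟩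
    have k := h.J.J.J
    obtain ⟨a0, a1, a2, a3, a4, a5⟩ := c
    simp only [C6.map, shJ4] at k
    exact k

theorem Mv.pos {c c' : C6} (hc : Pos c) (hm : Mv c c') : Pos c' := by
  cases hm with
  | neg a0 a1 a2 a3 a4 a5 =>
    simp only [Pos, cr, Prod.fst_neg, Prod.snd_neg] at hc ⊢
    refine ⟨?_, ?_, ?_, ?_, ?_⟩ <;> linarith
  | rev a0 a1 a2 a3 a4 a5 =>
    simp only [Pos, cr, Prod.fst_neg, Prod.snd_neg] at hc ⊢
    refine ⟨?_, ?_, ?_, ?_, ?_⟩ <;> linarith
  | end0 a0 a1 a2 a3 a4 a5 =>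
    simp only [Pos, cr, Prod.fst_add, Prod.snd_add] at hc ⊢
    refine ⟨?_, ?_, ?_, ?_, ?_⟩ <;> linarith
  | flip1 a0 a1 a2 a3 a4 a5 h1 h2 => exact ⟨h1, h2, hc.2.2⟩
  | flip1' a0 a1 a2 a3 a4 a5 h1 h2 => exact ⟨h1, h2, hc.2.2⟩
  | flip2 a0 a1 a2 a3 a4 a5 h1 h2 => exact ⟨hc.1, h1, h2, hc.2.2.2⟩
  | flip2' a0 a1 a2 a3 a4 a5 h1 h2 => exact ⟨hc.1, h1, h2, hc.2.2.2⟩
  | star a0 a1 a2 a3 a4 a5 h1 h2 h3 h4 =>
    simp only [Pos, cr, Prod.fst_sub, Prod.snd_sub] at hc h1 h2 h3 h4 ⊢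
    refine ⟨?_, ?_, ?_, ?_, ?_⟩ <;> linarith
  | star' a0 a1 a2 a3 a4 a5 h1 h2 h3 h4 =>
    simp only [Pos, cr, Prod.fst_sub, Prod.snd_sub, Prod.fst_add, Prod.snd_add] at hc h1 h2 h3 h4 ⊢
    refine ⟨?_, ?_, ?_, ?_, ?_⟩ <;> linarith
  | T c =>
    obtain ⟨a0, a1, a2, a3, a4, a5⟩ := c
    simp only [Pos, C6.map, cr, shT] at hc ⊢
    refine ⟨?_, ?_, ?_, ?_, ?_⟩ <;> linarith
  | J c =>
    obtain ⟨a0, a1, a2, a3, a4, a5⟩ := c
    simp only [Pos, C6.map, cr, shJ] at hc ⊢
    refine ⟨?_, ?_, ?_, ?_, ?_⟩ <;> linarith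

theorem Mv.vol_eq {c c' : C6} (hm : Mv c c') : vol c' = vol c := by
  cases hm with
  | neg a0 a1 a2 a3 a4 a5 => simp only [vol, cr, Prod.fst_neg, Prod.snd_neg]; ring
  | rev a0 a1 a2 a3 a4 a5 => simp only [vol, cr, Prod.fst_neg, Prod.snd_neg]; ring
  | end0 a0 a1 a2 a3 a4 a5 => simp only [vol, cr, Prod.fst_add, Prod.snd_add]; ring
  | flip1 a0 a1 a2 a3 a4 a5 h1 h2 =>
    simp only [vol, cr, Prod.fst_sub, Prod.snd_sub, Prod.fst_add, Prod.snd_add]; ring
  | flip1' a0 a1 a2 a3 a4 a5 h1 h2 =>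
    simp only [vol, cr, Prod.fst_sub, Prod.snd_sub, Prod.fst_add, Prod.snd_add]; ring
  | flip2 a0 a1 a2 a3 a4 a5 h1 h2 =>
    simp only [vol, cr, Prod.fst_sub, Prod.snd_sub, Prod.fst_add, Prod.snd_add]; ring
  | flip2' a0 a1 a2 a3 a4 a5 h1 h2 =>
    simp only [vol, cr, Prod.fst_sub, Prod.snd_sub, Prod.fst_add, Prod.snd_add]; ring
  | star a0 a1 a2 a3 a4 a5 h1 h2 h3 h4 =>
    simp only [vol, cr, Prod.fst_sub, Prod.snd_sub]; ring
  | star' a0 a1 a2 a3 a4 a5 h1 h2 h3 h4 =>
    simp only [vol, cr, Prod.fst_sub, Prod.snd_sub, Prod.fst_add, Prod.snd_add]; ring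
  | T c =>
    obtain ⟨a0, a1, a2, a3, a4, a5⟩ := c
    simp only [vol, C6.map, cr, shT]; ring
  | J c =>
    obtain ⟨a0, a1, a2, a3, a4, a5⟩ := c
    simp only [vol, C6.map, cr, shJ]; ring

end Pool.Agent.H4G
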