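import Pool.Agent.H4G.Area

/-!
# Row C: the core theorem (helper19)

A folded polygon developed in an origami with anti-automorphism covers an invariant set of at most
`area` squares.
-/

set_option autoImplicit false

namespace Pool.Agent.H4G

open Set Topology MeasureTheory

variable {X : Type}

namespace Cov

/-- A triangle with a development. -/
structure Trg (X : Type) where
  a : Z2
  b : Z2
  c : Z2
  f : Z2 → X

/-- `P → Q` is a directed side of the triangle, `S` the third vertex. -/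
def Trg.Side (T : Trg X) (P Q S : Z2) : Prop :=
  (P = T.a ∧ Q = T.b ∧ S = T.c) ∨ (P = T.b ∧ Q = T.c ∧ S = T.a) ∨ (P = T.c ∧ Q = T.a ∧ S = T.b)

/-- The closed triangle. -/
def cTri (A B C : Z2) : Set V := {x | 0 ≤ ori A B x ∧ 0 ≤ ori B C x ∧ 0 ≤ ori C A x}

lemma ori_cont (A B : Z2) : Continuous (ori A B) := by
  unfold ori
  fun_prop

lemma ori_sum (A B C : Z2) (x : V) : ori A B x + ori B C x + ori C A x = (tri A B C : ℝ) := by
  simp only [ori, tri, cr, Prod.fst_sub, Prod.snd_sub]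
  push_cast
  ring

lemma bary1 (A B C : Z2) (x : V) :
    (tri A B C : ℝ) * x.1 = ori B C x * A.1 + ori C A x * B.1 + ori A B x * C.1 := by
  simp only [ori, tri, cr, Prod.fst_sub, Prod.snd_sub]
  push_cast
  ring

lemma bary2 (A B C : Z2) (x : V) :
    (tri A B C : ℝ) * x.2 = ori B C x * A.2 + ori C A x * B.2 + ori A B x * C.2 := by
  simp only [ori, tri, cr, Prod.fst_sub, Prod.snd_sub]
  push_cast
  ring

lemma ori_symm (A B : Z2) (x : V) : ori B A x = - ori A B x := by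
  simp only [ori]
  ring

lemma ori_refl (A B : Z2) (x : V) : ori A B (em (A + B) - x) = - ori A B x := by
  simp only [ori, em, Prod.fst_sub, Prod.snd_sub, Prod.fst_add, Prod.snd_add]
  push_cast
  ring

lemma seg_comm (A B : Z2) : Seg A B = Seg B A := by
  ext x
  constructor <;>
  · rintro ⟨t, h0, h1, rfl⟩
    refine ⟨1 - t, by linarith, by linarith, ?_⟩
    ext <;> simp <;> ring

lemma seg_refl {A B : Z2} {x : V} (hx : x ∈ Seg A B) : em (A + B) - x ∈ Seg A B := by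
  obtain ⟨t, h0, h1, rfl⟩ := hx
  refine ⟨1 - t, by linarith, by linarith, ?_⟩
  ext <;> simp [em] <;> ring

/-- Points of the open side. -/
lemma side_pos {A B C : Z2} {x : V} (hD : 0 < tri A B C) (hx : x ∈ Seg A B) :
    ori A B x = 0 ∧ 0 < ori B C x ∧ 0 < ori C A x := by
  obtain ⟨t, h0, h1, rfl⟩ := hx
  have hD' : (0 : ℝ) < tri A B C := by exact_mod_cast hD
  have e1 : ori B C ((1 - t) * A.1 + t * B.1, (1 - t) * A.2 + t * B.2) = (1 - t) * tri A B C := by
    simp only [ori, tri, cr, Prod.fst_sub, Prod.snd_sub]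
    push_cast
    ring
  have e2 : ori C A ((1 - t) * A.1 + t * B.1, (1 - t) * A.2 + t * B.2) = t * tri A B C := by
    simp only [ori, tri, cr, Prod.fst_sub, Prod.snd_sub]
    push_cast
    ring
  refine ⟨?_, ?_, ?_⟩
  · simp only [ori]; ring
  · rw [e1]; exact mul_pos (by linarith) hD'
  · rw [e2]; exact mul_pos h0 hD'

/-- A point of the triangle on the line of a side, not a vertex, lies in the open side. -/
lemma on_side {A B C : Z2} {x : V} (hD : 0 < tri A B C) (hx : x ∈ cTri A B C) (h0 : ori A B x = 0)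
    (hA : x ≠ em A) (hB : x ≠ em B) : x ∈ Seg A B := by
  have hD' : (0 : ℝ) < tri A B C := by exact_mod_cast hD
  obtain ⟨_, h2, h3⟩ := hx
  have hs := ori_sum A B C x
  have b1 := bary1 A B C x
  have b2 := bary2 A B C x
  rw [h0] at hs b1 b2
  have hne : (tri A B C : ℝ) ≠ 0 := ne_of_gt hD'
  have ht : ori B C x = tri A B C - ori C A x := by linarith
  refine ⟨ori C A x / tri A B C, ?_, ?_, ?_⟩
  · refine div_pos (lt_of_le_of_ne h3 (fun h => hA ?_)) hD'
    rw [ht, ← h] at b1 b2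
    refine Prod.ext ?_ ?_
    · apply mul_left_cancel₀ hne
      simp only [em]
      linarith
    · apply mul_left_cancel₀ hne
      simp only [em]
      linarith
  · rw [div_lt_one hD']
    have h4 : 0 < ori B C x := by
      refine lt_of_le_of_ne h2 (fun h => hB ?_)
      have h5 : ori C A x = tri A B C := by linarith
      rw [← h, h5] at b1 b2
      refine Prod.ext ?_ ?_
      · apply mul_left_cancel₀ hne
        simp only [em]
        linarith
      · apply mul_left_cancel₀ hne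
        simp only [em]
        linarith
    linarith
  · refine Prod.ext ?_ ?_
    · apply mul_left_cancel₀ hne
      rw [b1, ht]
      field_simp
      ring
    · apply mul_left_cancel₀ hne
      rw [b2, ht]
      field_simp
      ring

lemma cTri_rot (A B C : Z2) : cTri A B C = cTri B C A := by
  ext x
  simp only [cTri, mem_ofPred_eq]
  tauto

lemma tri_rot (A B C : Z2) : tri A B C = tri B C A := by
  simp only [tri, cr, Prod.fst_sub, Prod.snd_sub]
  ring

lemma Trg.side_cTri {T : Trg X} {P Q S : Z2} (h : T.Side P Q S) :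
    cTri P Q S = cTri T.a T.b T.c ∧ tri P Q S = tri T.a T.b T.c := by
  rcases h with ⟨rfl, rfl, rfl⟩ | ⟨rfl, rfl, rfl⟩ | ⟨rfl, rfl, rfl⟩
  · exact ⟨rfl, rfl⟩
  · exact ⟨(cTri_rot _ _ _).symm, (tri_rot _ _ _).symm⟩
  · exact ⟨cTri_rot _ _ _, tri_rot _ _ _⟩

/-! ### Flattening -/

lemma fold_symm {O : Org X} {A B : Z2} {g : Z2 → X} (h : Fold O A B g) : Fold O B A g := by
  intro x hx z hz
  rw [add_comm B A]
  exact h x (seg_comm B A ▸ hx) z hz

lemma nr_refl {x : V} {z c : Z2} (h : Nr x z) : Nr (em c - x) (rf c z) := by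
  obtain ⟨h1, h2, h3, h4⟩ := h
  simp only [Nr, rf, em, Prod.fst_sub, Prod.snd_sub]
  push_cast
  refine ⟨?_, ?_, ?_, ?_⟩ <;> linarith

lemma fold_congr {O : Org X} {A B : Z2} {f g : Z2 → X} (h : Fold O A B g)
    (hfg : Agree (Seg A B) f g) : Fold O A B f := by
  intro x hx z hz
  rw [hfg x hx z hz, h x hx z hz, hfg _ (seg_refl hx) _ (nr_refl hz)]

/-- Each side is folded or has a partner. -/
def Good (O : Org X) (L : List (Trg X)) (T : Trg X) (P Q : Z2) : Prop :=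
  Fold O P Q T.f ∨ ∃ T' ∈ L, ∃ S', T'.Side Q P S' ∧ Agree (Seg P Q) T'.f T.f

lemma Good.mono {O : Org X} {L L' : List (Trg X)} {T : Trg X} {P Q : Z2} (h : Good O L T P Q)
    (hL : ∀ T ∈ L, T ∈ L') : Good O L' T P Q := by
  rcases h with h | ⟨T', h1, S', h2, h3⟩
  · exact Or.inl h
  · exact Or.inr ⟨T', hL _ h1, S', h2, h3⟩

theorem flat {O : Org X} : ∀ (t : Tree) (A B : Z2) (g : Z2 → X), Fill O A B t g →
    ∃ L : List (Trg X), (L.map (fun T => tri T.a T.b T.c)).sum = t.area A B ∧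
      (∀ T ∈ L, 0 < tri T.a T.b T.c ∧ Dev O (Tri T.a T.b T.c) T.f) ∧
      (∀ T ∈ L, ∀ P Q S, T.Side P Q S →
        (P = A ∧ Q = B ∧ Agree (Seg A B) T.f g) ∨ Good O L T P Q) ∧
      (Fold O A B g ∨ ∃ T ∈ L, ∃ S, T.Side A B S ∧ Agree (Seg A B) T.f g) ∧
      (t ≠ .leaf → L ≠ [])
  | .leaf, A, B, g, h => ⟨[], by simp [Tree.area], by simp, by simp, Or.inl h, by simp⟩
  | .node C l r, A, B, g, h => by
    obtain ⟨hD, f, hdev, hag, hl, hr⟩ := h
    obtain ⟨L1, a1, b1, c1, d1, _⟩ := flat l C B f hl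
    obtain ⟨L2, a2, b2, c2, d2, _⟩ := flat r A C f hr
    set T0 : Trg X := ⟨A, B, C, f⟩ with hT0
    refine ⟨T0 :: (L1 ++ L2), ?_, ?_, ?_, ?_, ?_⟩
    · simp only [List.map_cons, List.map_append, List.sum_cons, List.sum_append, a1, a2,
        Tree.area, hT0]
      ring
    · intro T hT
      rcases List.mem_cons.1 hT with rfl | hT
      · exact ⟨hD, hdev⟩
      · rcases List.mem_append.1 hT with hT | hT
        · exact b1 T hT
        · exact b2 T hT
    · intro T hT P Q S hS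
      rcases List.mem_cons.1 hT with rfl | hT
      · rcases hS with ⟨rfl, rfl, rfl⟩ | ⟨rfl, rfl, rfl⟩ | ⟨rfl, rfl, rfl⟩
        · exact Or.inl ⟨rfl, rfl, hag⟩
        · right
          rcases d1 with h1 | ⟨T', h1, S', h2, h3⟩
          · exact Or.inl (fold_symm h1)
          · refine Or.inr ⟨T', ?_, S', h2, ?_⟩
            · exact List.mem_cons_of_mem _ (List.mem_append_left _ h1)
            · intro x hx z hz
              exact h3 x (seg_comm _ _ ▸ hx) z hz
        · right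
          rcases d2 with h1 | ⟨T', h1, S', h2, h3⟩
          · exact Or.inl (fold_symm h1)
          · refine Or.inr ⟨T', ?_, S', h2, ?_⟩
            · exact List.mem_cons_of_mem _ (List.mem_append_right _ h1)
            · intro x hx z hz
              exact h3 x (seg_comm _ _ ▸ hx) z hz
      · rcases List.mem_append.1 hT with hT | hT
        · rcases c1 T hT P Q S hS with ⟨rfl, rfl, h1⟩ | h1
          · right; right
            refine ⟨T0, List.mem_cons_self, A, Or.inr (Or.inl ⟨rfl, rfl, rfl⟩), ?_⟩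
            intro x hx z hz
            exact (h1 x hx z hz).symm
          · exact Or.inr (h1.mono (fun T hT => List.mem_cons_of_mem _ (List.mem_append_left _ hT)))
        · rcases c2 T hT P Q S hS with ⟨rfl, rfl, h1⟩ | h1
          · right; right
            refine ⟨T0, List.mem_cons_self, B, Or.inr (Or.inr ⟨rfl, rfl, rfl⟩), ?_⟩
            intro x hx z hz
            exact (h1 x hx z hz).symm
          · exact Or.inr (h1.mono (fun T hT => List.mem_cons_of_mem _ (List.mem_append_right _ hT)))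
    · right
      exact ⟨T0, List.mem_cons_self, C, Or.inl ⟨rfl, rfl, rfl⟩, hag⟩
    · simp

/-- The list of all triangles. -/
theorem flatten {O : Org X} {A B C : Z2} {l r t' : Tree} (h : Has O A B (.node C l r) t') :
    ∃ L : List (Trg X), (L.map (fun T => tri T.a T.b T.c)).sum =
        (Tree.node C l r).area A B + t'.area B A ∧ L ≠ [] ∧
      (∀ T ∈ L, 0 < tri T.a T.b T.c ∧ Dev O (Tri T.a T.b T.c) T.f) ∧
      (∀ T ∈ L, ∀ P Q S, T.Side P Q S → Good O L T P Q) := by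
  obtain ⟨g, _, h1, h2⟩ := h
  obtain ⟨L1, a1, b1, c1, d1, e1⟩ := flat _ A B g h1
  obtain ⟨L2, a2, b2, c2, d2, _⟩ := flat _ B A g h2
  refine ⟨L1 ++ L2, ?_, ?_, ?_, ?_⟩
  · rw [List.map_append, List.sum_append, a1, a2]
  · have := e1 (by simp)
    simp [this]
  · intro T hT
    rcases List.mem_append.1 hT with hT | hT
    · exact b1 T hT
    · exact b2 T hT
  · intro T hT P Q S hS
    rcases List.mem_append.1 hT with hT | hT
    · rcases c1 T hT P Q S hS with ⟨rfl, rfl, h3⟩ | h3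
      · rcases d2 with h4 | ⟨T', h4, S', h5, h6⟩
        · exact Or.inl (fold_congr (fold_symm h4) h3)
        · refine Or.inr ⟨T', List.mem_append_right _ h4, S', h5, ?_⟩
          intro x hx z hz
          rw [h3 x hx z hz]
          exact h6 x (seg_comm P Q ▸ hx) z hz
      · exact h3.mono (fun T hT => List.mem_append_left _ hT)
    · rcases c2 T hT P Q S hS with ⟨rfl, rfl, h3⟩ | h3
      · rcases d1 with h4 | ⟨T', h4, S', h5, h6⟩
        · exact Or.inl (fold_congr (fold_symm h4) h3)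
        · refine Or.inr ⟨T', List.mem_append_left _ h4, S', h5, ?_⟩
          intro x hx z hz
          rw [h3 x hx z hz]
          exact h6 x (seg_comm P Q ▸ hx) z hz
      · exact h3.mono (fun T hT => List.mem_append_right _ hT)

/-! ### Covering -/

/-- Local covering. -/
lemma local_cov {O : Org X} {L : List (Trg X)}
    (hL1 : ∀ T ∈ L, 0 < tri T.a T.b T.c ∧ Dev O (Tri T.a T.b T.c) T.f)
    (hL2 : ∀ T ∈ L, ∀ P Q S, T.Side P Q S → Good O L T P Q) {T : Trg X} (hT : T ∈ L) {x : V}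
    (hx : x ∈ cTri T.a T.b T.c) (hx' : ∀ w : Z2, x ≠ em w) {z : Z2} (hz : Nr x z) {s : X}
    (hs : T.f z = s) :
    ∀ᶠ y in 𝓝 x, (∃ T' ∈ L, y ∈ cTri T'.a T'.b T'.c ∧ T'.f z = s) ∨
      ∃ T' ∈ L, ∃ c : Z2, em c - y ∈ cTri T'.a T'.b T'.c ∧ T'.f (rf c z) = O.i s := by
  have key : ∀ P Q S, T.Side P Q S → ori P Q x = 0 →
      ∀ᶠ y in 𝓝 x, (∃ T' ∈ L, y ∈ cTri T'.a T'.b T'.c ∧ T'.f z = s) ∨
      ∃ T' ∈ L, ∃ c : Z2, em c - y ∈ cTri T'.a T'.b T'.c ∧ T'.f (rf c z) = O.i s := by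
    intro P Q S hS h0
    obtain ⟨e1, e2⟩ := Trg.side_cTri hS
    have hD : 0 < tri P Q S := by rw [e2]; exact (hL1 T hT).1
    rw [← e1] at hx
    have hseg : x ∈ Seg P Q := on_side hD hx h0 (hx' P) (hx' Q)
    obtain ⟨_, p1, p2⟩ := side_pos hD hseg
    have ev1 : ∀ᶠ y in 𝓝 x, 0 < ori Q S y :=
      (ori_cont Q S).continuousAt.eventually (lt_mem_nhds p1)
    have ev2 : ∀ᶠ y in 𝓝 x, 0 < ori S P y :=
      (ori_cont S P).continuousAt.eventually (lt_mem_nhds p2)
    rcases hL2 T hT P Q S hS with hf | ⟨T', hT', S', hS', hag⟩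
    · -- folded side
      obtain ⟨_, q1, q2⟩ := side_pos hD (seg_refl hseg)
      have cont : Continuous (fun y : V => em (P + Q) - y) := by fun_prop
      have ev3 : ∀ᶠ y in 𝓝 x, 0 < ori Q S (em (P + Q) - y) :=
        ((ori_cont Q S).comp cont).continuousAt.eventually (lt_mem_nhds q1)
      have ev4 : ∀ᶠ y in 𝓝 x, 0 < ori S P (em (P + Q) - y) :=
        ((ori_cont S P).comp cont).continuousAt.eventually (lt_mem_nhds q2)
      filter_upwards [ev1, ev2, ev3, ev4] with y h1 h2 h3 h4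
      rcases le_total 0 (ori P Q y) with h5 | h5
      · left
        refine ⟨T, hT, ?_, hs⟩
        rw [← e1]
        exact ⟨h5, h1.le, h2.le⟩
      · right
        refine ⟨T, hT, P + Q, ?_, ?_⟩
        · rw [← e1]
          refine ⟨?_, h3.le, h4.le⟩
          rw [ori_refl]
          linarith
        · have h6 := hf x hseg z hz
          rw [hs] at h6
          rw [h6, O.ii]
    · -- a partner
      obtain ⟨e3, e4⟩ := Trg.side_cTri hS'
      have hD' : 0 < tri Q P S' := by rw [e4]; exact (hL1 T' hT').1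
      obtain ⟨_, q1, q2⟩ := side_pos hD' (seg_comm P Q ▸ hseg)
      have ev3 : ∀ᶠ y in 𝓝 x, 0 < ori P S' y :=
        (ori_cont P S').continuousAt.eventually (lt_mem_nhds q1)
      have ev4 : ∀ᶠ y in 𝓝 x, 0 < ori S' Q y :=
        (ori_cont S' Q).continuousAt.eventually (lt_mem_nhds q2)
      filter_upwards [ev1, ev2, ev3, ev4] with y h1 h2 h3 h4
      left
      rcases le_total 0 (ori P Q y) with h5 | h5
      · refine ⟨T, hT, ?_, hs⟩
        rw [← e1]
        exact ⟨h5, h1.le, h2.le⟩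
      · refine ⟨T', hT', ?_, ?_⟩
        · rw [← e3]
          refine ⟨?_, h3.le, h4.le⟩
          rw [ori_symm]
          linarith
        · rw [hag x hseg z hz, hs]
  obtain ⟨h1, h2, h3⟩ := hx
  rcases h1.eq_or_lt with h1' | h1'
  · exact key _ _ _ (Or.inl ⟨rfl, rfl, rfl⟩) h1'.symm
  rcases h2.eq_or_lt with h2' | h2'
  · exact key _ _ _ (Or.inr (Or.inl ⟨rfl, rfl, rfl⟩)) h2'.symm
  rcases h3.eq_or_lt with h3' | h3'
  · exact key _ _ _ (Or.inr (Or.inr ⟨rfl, rfl, rfl⟩)) h3'.symm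
  filter_upwards [(ori_cont T.a T.b).continuousAt.eventually (lt_mem_nhds h1'),
    (ori_cont T.b T.c).continuousAt.eventually (lt_mem_nhds h2'),
    (ori_cont T.c T.a).continuousAt.eventually (lt_mem_nhds h3')] with y g1 g2 g3
  exact Or.inl ⟨T, hT, ⟨g1.le, g2.le, g3.le⟩, hs⟩

/-- The closed unit square without its corners. -/
def Qs : Set V := {c | 0 ≤ c.1 ∧ c.1 ≤ 1 ∧ 0 ≤ c.2 ∧ c.2 ≤ 1 ∧
  ((0 < c.1 ∧ c.1 < 1) ∨ (0 < c.2 ∧ c.2 < 1))}

lemma Qs_convex : Convex ℝ Qs := by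
  rw [convex_iff_forall_pos]
  rintro x ⟨h1, h2, h3, h4, h5⟩ y ⟨k1, k2, k3, k4, k5⟩ a b ha hb hab
  have hb' : b = 1 - a := by linarith
  refine ⟨?_, ?_, ?_, ?_, ?_⟩
  · simp only [Prod.fst_add, Prod.smul_fst, smul_eq_mul]; positivity
  · simp only [Prod.fst_add, Prod.smul_fst, smul_eq_mul]; nlinarith
  · simp only [Prod.snd_add, Prod.smul_snd, smul_eq_mul]; positivity
  · simp only [Prod.snd_add, Prod.smul_snd, smul_eq_mul]; nlinarith
  · simp only [Prod.fst_add, Prod.smul_fst, Prod.snd_add, Prod.smul_snd, smul_eq_mul]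
    rcases h5 with ⟨h5, h6⟩ | ⟨h5, h6⟩
    · left
      constructor
      · have := mul_pos ha h5
        have := mul_nonneg hb.le k1
        linarith
      · have := mul_lt_mul_of_pos_left h6 ha
        have := mul_le_mul_of_nonneg_left k2 hb.le
        linarith
    · right
      constructor
      · have := mul_pos ha h5
        have := mul_nonneg hb.le k3
        linarith
      · have := mul_lt_mul_of_pos_left h6 ha
        have := mul_le_mul_of_nonneg_left k4 hb.le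
        linarith

lemma Qs_refl {c : V} (h : c ∈ Qs) : ((1, 1) : V) - c ∈ Qs := by
  obtain ⟨h1, h2, h3, h4, h5⟩ := h
  refine ⟨?_, ?_, ?_, ?_, ?_⟩ <;> simp only [Prod.fst_sub, Prod.snd_sub] <;> try linarith
  rcases h5 with ⟨h5, h6⟩ | ⟨h5, h6⟩
  · left; constructor <;> linarith
  · right; constructor <;> linarith

lemma Qs_lattice {c : V} (h : c ∈ Qs) (z w : Z2) : em z + c ≠ em w := by
  obtain ⟨h1, h2, h3, h4, h5⟩ := h
  intro h
  have e1 : (z.1 : ℝ) + c.1 = w.1 := congrArg Prod.fst h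
  have e2 : (z.2 : ℝ) + c.2 = w.2 := congrArg Prod.snd h
  rcases h5 with ⟨h5, h6⟩ | ⟨h5, h6⟩
  · have e3 : (z.1 : ℝ) < w.1 := by linarith
    have e4 : (w.1 : ℝ) < z.1 + 1 := by linarith
    have e5 : z.1 < w.1 := by exact_mod_cast e3
    have e6 : w.1 < z.1 + 1 := by exact_mod_cast e4
    omega
  · have e3 : (z.2 : ℝ) < w.2 := by linarith
    have e4 : (w.2 : ℝ) < z.2 + 1 := by linarith
    have e5 : z.2 < w.2 := by exact_mod_cast e3
    have e6 : w.2 < z.2 + 1 := by exact_mod_cast e4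
    omega

lemma Qs_nr {c : V} (h : c ∈ Qs) (z : Z2) : Nr (em z + c) z := by
  obtain ⟨h1, h2, h3, h4, _⟩ := h
  refine ⟨?_, ?_, ?_, ?_⟩ <;> simp only [em, Prod.fst_add, Prod.snd_add] <;> linarith

/-- The point `c` of the square `s` is covered. -/
def Cv (O : Org X) (L : List (Trg X)) (s : X) (c : V) : Prop :=
  ∃ T ∈ L, ∃ z : Z2, (em z + c ∈ cTri T.a T.b T.c ∧ T.f z = s) ∨
    (em z + ((1, 1) - c) ∈ cTri T.a T.b T.c ∧ T.f z = O.i s)

lemma Cv.refl {O : Org X} {L : List (Trg X)} {s : X} {c : V} (h : Cv O L s c) :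
    Cv O L (O.i s) ((1, 1) - c) := by
  obtain ⟨T, hT, z, h | h⟩ := h
  · refine ⟨T, hT, z, Or.inr ?_⟩
    rw [sub_sub_cancel, O.ii]
    exact h
  · exact ⟨T, hT, z, Or.inl h⟩

lemma Cv.refl' {O : Org X} {L : List (Trg X)} {s : X} {c : V} (h : Cv O L (O.i s) ((1, 1) - c)) :
    Cv O L s c := by
  have h1 := h.refl
  rwa [O.ii, sub_sub_cancel] at h1

section

variable {O : Org X} {L : List (Trg X)}
    (hL1 : ∀ T ∈ L, 0 < tri T.a T.b T.c ∧ Dev O (Tri T.a T.b T.c) T.f)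
    (hL2 : ∀ T ∈ L, ∀ P Q S, T.Side P Q S → Good O L T P Q)

include hL1 hL2

/-- openness, first kind -/
lemma Cv.open1 {s : X} {c : V} (hc : c ∈ Qs) {T : Trg X} (hT : T ∈ L) {z : Z2}
    (h1 : em z + c ∈ cTri T.a T.b T.c) (h2 : T.f z = s) : ∀ᶠ c' in 𝓝 c, Cv O L s c' := by
  have h := local_cov hL1 hL2 hT h1 (fun w => Qs_lattice hc z w) (Qs_nr hc z) h2
  have cont : Continuous (fun c' : V => em z + c') := by fun_prop
  have h3 := (cont.tendsto c).eventually h
  filter_upwards [h3] with c' h4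
  rcases h4 with ⟨T', hT', h5, h6⟩ | ⟨T', hT', w, h5, h6⟩
  · exact ⟨T', hT', z, Or.inl ⟨h5, h6⟩⟩
  · refine ⟨T', hT', rf w z, Or.inr ⟨?_, h6⟩⟩
    have e : em (rf w z) + ((1, 1) - c') = em w - (em z + c') := by
      ext
      · simp only [em, rf, Prod.fst_add, Prod.fst_sub]
        push_cast
        ring
      · simp only [em, rf, Prod.snd_add, Prod.snd_sub]
        push_cast
        ring
    rw [e]
    exact h5

lemma Cv.open' {s : X} {c : V} (hc : c ∈ Qs) (h : Cv O L s c) : ∀ᶠ c' in 𝓝 c, Cv O L s c' := by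
  obtain ⟨T, hT, z, ⟨h1, h2⟩ | ⟨h1, h2⟩⟩ := h
  · exact Cv.open1 hL1 hL2 hc hT h1 h2
  · have h3 := Cv.open1 hL1 hL2 (Qs_refl hc) hT h1 h2
    have cont : Continuous (fun c' : V => ((1, 1) : V) - c') := by fun_prop
    have h4 := (cont.tendsto c).eventually h3
    filter_upwards [h4] with c' h5
    exact h5.refl'

end

/-- bounds of a triangle -/
lemma cTri_bound {A B C : Z2} (hD : 0 < tri A B C) {x : V} (hx : x ∈ cTri A B C) :
    ((min A.1 (min B.1 C.1) : ℤ) : ℝ) ≤ x.1 ∧ x.1 ≤ ((max A.1 (max B.1 C.1) : ℤ) : ℝ) ∧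
    ((min A.2 (min B.2 C.2) : ℤ) : ℝ) ≤ x.2 ∧ x.2 ≤ ((max A.2 (max B.2 C.2) : ℤ) : ℝ) := by
  have hD' : (0 : ℝ) < tri A B C := by exact_mod_cast hD
  obtain ⟨h1, h2, h3⟩ := hx
  have hs := ori_sum A B C x
  have b1 := bary1 A B C x
  have b2 := bary2 A B C x
  have low : ∀ a b c : ℤ, ((min a (min b c) : ℤ) : ℝ) ≤ a ∧ ((min a (min b c) : ℤ) : ℝ) ≤ b ∧
      ((min a (min b c) : ℤ) : ℝ) ≤ c := by
    intro a b c
    refine ⟨?_, ?_, ?_⟩ <;> exact_mod_cast (by omega)
  have up : ∀ a b c : ℤ, (a : ℝ) ≤ ((max a (max b c) : ℤ) : ℝ) ∧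
      (b : ℝ) ≤ ((max a (max b c) : ℤ) : ℝ) ∧ (c : ℝ) ≤ ((max a (max b c) : ℤ) : ℝ) := by
    intro a b c
    refine ⟨?_, ?_, ?_⟩ <;> exact_mod_cast (by omega)
  obtain ⟨l1, l2, l3⟩ := low A.1 B.1 C.1
  obtain ⟨m1, m2, m3⟩ := low A.2 B.2 C.2
  obtain ⟨u1, u2, u3⟩ := up A.1 B.1 C.1
  obtain ⟨v1, v2, v3⟩ := up A.2 B.2 C.2
  refine ⟨?_, ?_, ?_, ?_⟩
  · refine le_of_mul_le_mul_left (a := (tri A B C : ℝ)) ?_ hD'
    rw [b1, ← hs]
    nlinarith [mul_le_mul_of_nonneg_left l1 h2, mul_le_mul_of_nonneg_left l2 h3,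
      mul_le_mul_of_nonneg_left l3 h1]
  · refine le_of_mul_le_mul_left (a := (tri A B C : ℝ)) ?_ hD'
    rw [b1, ← hs]
    nlinarith [mul_le_mul_of_nonneg_left u1 h2, mul_le_mul_of_nonneg_left u2 h3,
      mul_le_mul_of_nonneg_left u3 h1]
  · refine le_of_mul_le_mul_left (a := (tri A B C : ℝ)) ?_ hD'
    rw [b2, ← hs]
    nlinarith [mul_le_mul_of_nonneg_left m1 h2, mul_le_mul_of_nonneg_left m2 h3,
      mul_le_mul_of_nonneg_left m3 h1]
  · refine le_of_mul_le_mul_left (a := (tri A B C : ℝ)) ?_ hD'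
    rw [b2, ← hs]
    nlinarith [mul_le_mul_of_nonneg_left v1 h2, mul_le_mul_of_nonneg_left v2 h3,
      mul_le_mul_of_nonneg_left v3 h1]

/-- The squares which may meet a triangle. -/
noncomputable def bx (T : Trg X) : Finset Z2 :=
  Finset.Icc (min T.a.1 (min T.b.1 T.c.1) - 1, min T.a.2 (min T.b.2 T.c.2) - 1)
    (max T.a.1 (max T.b.1 T.c.1), max T.a.2 (max T.b.2 T.c.2))

/-- the closed unit square -/
def Sq : Set V := {c | 0 ≤ c.1 ∧ c.1 ≤ 1 ∧ 0 ≤ c.2 ∧ c.2 ≤ 1}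

lemma mem_bx {T : Trg X} (hD : 0 < tri T.a T.b T.c) {z : Z2} {c : V} (hc : c ∈ Sq)
    (h : em z + c ∈ cTri T.a T.b T.c) : z ∈ bx T := by
  obtain ⟨h1, h2, h3, h4⟩ := cTri_bound hD h
  obtain ⟨k1, k2, k3, k4⟩ := hc
  simp only [em, Prod.fst_add, Prod.snd_add] at h1 h2 h3 h4
  have g1 : ((min T.a.1 (min T.b.1 T.c.1) : ℤ) : ℝ) ≤ ((z.1 + 1 : ℤ) : ℝ) := by
    push_cast at h1 ⊢; linarith
  have g2 : ((z.1 : ℤ) : ℝ) ≤ ((max T.a.1 (max T.b.1 T.c.1) : ℤ) : ℝ) := by linarith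
  have g3 : ((min T.a.2 (min T.b.2 T.c.2) : ℤ) : ℝ) ≤ ((z.2 + 1 : ℤ) : ℝ) := by
    push_cast at h3 ⊢; linarith
  have g4 : ((z.2 : ℤ) : ℝ) ≤ ((max T.a.2 (max T.b.2 T.c.2) : ℤ) : ℝ) := by linarith
  have g1' := Int.cast_le.1 g1
  have g2' := Int.cast_le.1 g2
  have g3' := Int.cast_le.1 g3
  have g4' := Int.cast_le.1 g4
  rw [bx, Finset.mem_Icc]
  refine ⟨⟨?_, ?_⟩, ⟨?_, ?_⟩⟩ <;> simp only <;> omega

lemma cTri_closed (A B C : Z2) : IsClosed (cTri A B C) := by
  have h1 : IsClosed {x : V | 0 ≤ ori A B x} := isClosed_le continuous_const (ori_cont A B)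
  have h2 : IsClosed {x : V | 0 ≤ ori B C x} := isClosed_le continuous_const (ori_cont B C)
  have h3 : IsClosed {x : V | 0 ≤ ori C A x} := isClosed_le continuous_const (ori_cont C A)
  have e : cTri A B C = {x : V | 0 ≤ ori A B x} ∩ ({x : V | 0 ≤ ori B C x} ∩
      {x : V | 0 ≤ ori C A x}) := by
    ext x
    simp only [cTri, mem_ofPred_eq, mem_inter_iff]
  rw [e]
  exact h1.inter (h2.inter h3)

lemma Sq_closed : IsClosed Sq := by
  have e : Sq = {c : V | 0 ≤ c.1} ∩ ({c : V | c.1 ≤ 1} ∩ ({c : V | 0 ≤ c.2} ∩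
      {c : V | c.2 ≤ 1})) := by
    ext x
    simp only [Sq, mem_ofPred_eq, mem_inter_iff]
  rw [e]
  exact (isClosed_le continuous_const continuous_fst).inter
    ((isClosed_le continuous_fst continuous_const).inter
    ((isClosed_le continuous_const continuous_snd).inter
    (isClosed_le continuous_snd continuous_const)))

lemma Sq_refl {c : V} (h : c ∈ Sq) : ((1, 1) : V) - c ∈ Sq := by
  obtain ⟨h1, h2, h3, h4⟩ := h
  refine ⟨?_, ?_, ?_, ?_⟩ <;> simp only [Prod.fst_sub, Prod.snd_sub] <;> linarith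

lemma Qs_sub_Sq : Qs ⊆ Sq := fun _ h => ⟨h.1, h.2.1, h.2.2.1, h.2.2.2.1⟩

/-- closedness -/
lemma Cv_closed {O : Org X} {L : List (Trg X)} (hL : ∀ T ∈ L, 0 < tri T.a T.b T.c) (s : X) :
    IsClosed {c : V | Cv O L s c ∧ c ∈ Sq} := by
  classical
  have e : {c : V | Cv O L s c ∧ c ∈ Sq} = Sq ∩ ⋃ T ∈ {T | T ∈ L}, ⋃ z ∈ (bx T : Set Z2),
      ({c : V | em z + c ∈ cTri T.a T.b T.c ∧ T.f z = s} ∪
        {c : V | em z + ((1, 1) - c) ∈ cTri T.a T.b T.c ∧ T.f z = O.i s}) := by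
    ext c
    simp only [mem_ofPred_eq, mem_inter_iff, mem_iUnion, mem_union, exists_prop]
    constructor
    · rintro ⟨⟨T, hT, z, h | h⟩, hc⟩
      · exact ⟨hc, T, hT, z, mem_bx (hL T hT) hc h.1, Or.inl h⟩
      · exact ⟨hc, T, hT, z, mem_bx (hL T hT) (Sq_refl hc) h.1, Or.inr h⟩
    · rintro ⟨hc, T, hT, z, _, h⟩
      exact ⟨⟨T, hT, z, h⟩, hc⟩
  rw [e]
  refine Sq_closed.inter ?_
  refine Set.Finite.isClosed_biUnion (List.finite_toSet L) ?_
  intro T _
  refine Set.Finite.isClosed_biUnion (Finset.finite_toSet _) ?_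
  intro z _
  refine IsClosed.union ?_ ?_
  · by_cases hs : T.f z = s
    · simp only [hs, and_true]
      exact (cTri_closed _ _ _).preimage (by fun_prop)
    · simp only [hs, and_false]
      exact isClosed_empty
  · by_cases hs : T.f z = O.i s
    · simp only [hs, and_true]
      exact (cTri_closed _ _ _).preimage (by fun_prop)
    · simp only [hs, and_false]
      exact isClosed_empty

/-- The dichotomy. -/
lemma Cv_all {O : Org X} {L : List (Trg X)}
    (hL1 : ∀ T ∈ L, 0 < tri T.a T.b T.c ∧ Dev O (Tri T.a T.b T.c) T.f)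
    (hL2 : ∀ T ∈ L, ∀ P Q S, T.Side P Q S → Good O L T P Q) {s : X} {c : V} (hc : c ∈ Qs)
    (h : Cv O L s c) : ∀ c' ∈ Qs, Cv O L s c' := by
  by_contra hcon
  push Not at hcon
  obtain ⟨c', hc', hn⟩ := hcon
  set U : Set V := {c | ∀ᶠ y in 𝓝 c, Cv O L s y} with hU
  set W : Set V := {c : V | Cv O L s c ∧ c ∈ Sq}ᶜ with hW
  have hUo : IsOpen U := isOpen_setOfPred_eventually_nhds
  have hWo : IsOpen W := (Cv_closed (fun T hT => (hL1 T hT).1) s).isOpen_compl
  have hcov : Qs ⊆ U ∪ W := by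
    intro y hy
    by_cases h1 : Cv O L s y
    · exact Or.inl (Cv.open' hL1 hL2 hy h1)
    · exact Or.inr (fun h2 => h1 h2.1)
  obtain ⟨y, hy, hyU, hyW⟩ := Qs_convex.isPreconnected U W hUo hWo hcov
    ⟨c, hc, Cv.open' hL1 hL2 hc h⟩ ⟨c', hc', fun h2 => hn h2.1⟩
  exact hyW ⟨Filter.Eventually.self_of_nhds hyU, Qs_sub_Sq hy⟩

/-! ### Neighbours -/

lemma mem_Tri {A B C : Z2} {x : V} (h : x ∈ cTri A B C) (hx : ∀ w : Z2, x ≠ em w) :
    x ∈ Tri A B C := ⟨h.1, h.2.1, h.2.2, hx A, hx B, hx C⟩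

lemma Cv.right {O : Org X} {L : List (Trg X)}
    (hL1 : ∀ T ∈ L, 0 < tri T.a T.b T.c ∧ Dev O (Tri T.a T.b T.c) T.f) {s : X}
    (h : Cv O L s (1, 1 / 2)) : Cv O L (O.r s) (0, 1 / 2) := by
  have q1 : ((1, 1 / 2) : V) ∈ Qs := by
    refine ⟨?_, ?_, ?_, ?_, Or.inr ⟨?_, ?_⟩⟩ <;> norm_num
  have q0 : ((0, 1 / 2) : V) ∈ Qs := by
    refine ⟨?_, ?_, ?_, ?_, Or.inr ⟨?_, ?_⟩⟩ <;> norm_num
  obtain ⟨T, hT, z, ⟨h1, h2⟩ | ⟨h1, h2⟩⟩ := h
  · have hd := (hL1 T hT).2 _ (mem_Tri h1 (fun w => Qs_lattice q1 z w))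
    have e : em z + ((1, 1 / 2) : V) = em (z + (1, 0)) + (0, 1 / 2) := by
      ext <;> simp [em]
    have n2 : Nr (em z + ((1, 1 / 2) : V)) (z + (1, 0)) := by
      rw [e]; exact Qs_nr q0 _
    refine ⟨T, hT, z + (1, 0), Or.inl ⟨?_, ?_⟩⟩
    · rw [← e]; exact h1
    · rw [hd.1 z (Qs_nr q1 z) n2, h2]
  · have e0 : ((1, 1) : V) - (1, 1 / 2) = (0, 1 / 2) := by ext <;> norm_num
    have e0' : ((1, 1) : V) - (0, 1 / 2) = (1, 1 / 2) := by ext <;> norm_num
    rw [e0] at h1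
    have hd := (hL1 T hT).2 _ (mem_Tri h1 (fun w => Qs_lattice q0 z w))
    have e : em z + ((0, 1 / 2) : V) = em (z - (1, 0)) + (1, 1 / 2) := by
      ext <;> simp [em]
    have n2 : Nr (em z + ((0, 1 / 2) : V)) (z - (1, 0)) := by
      rw [e]; exact Qs_nr q1 _
    have n1 : Nr (em z + ((0, 1 / 2) : V)) (z - (1, 0) + (1, 0)) := by
      rw [sub_add_cancel]; exact Qs_nr q0 _
    have h3 := hd.1 (z - (1, 0)) n2 n1
    rw [sub_add_cancel, h2] at h3
    refine ⟨T, hT, z - (1, 0), Or.inr ⟨?_, ?_⟩⟩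
    · rw [e0', ← e]; exact h1
    · rw [O.ir, h3, Equiv.symm_apply_apply]

lemma Cv.up {O : Org X} {L : List (Trg X)}
    (hL1 : ∀ T ∈ L, 0 < tri T.a T.b T.c ∧ Dev O (Tri T.a T.b T.c) T.f) {s : X}
    (h : Cv O L s (1 / 2, 1)) : Cv O L (O.u s) (1 / 2, 0) := by
  have q1 : ((1 / 2, 1) : V) ∈ Qs := by
    refine ⟨?_, ?_, ?_, ?_, Or.inl ⟨?_, ?_⟩⟩ <;> norm_num
  have q0 : ((1 / 2, 0) : V) ∈ Qs := by
    refine ⟨?_, ?_, ?_, ?_, Or.inl ⟨?_, ?_⟩⟩ <;> norm_num
  obtain ⟨T, hT, z, ⟨h1, h2⟩ | ⟨h1, h2⟩⟩ := h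
  · have hd := (hL1 T hT).2 _ (mem_Tri h1 (fun w => Qs_lattice q1 z w))
    have e : em z + ((1 / 2, 1) : V) = em (z + (0, 1)) + (1 / 2, 0) := by
      ext <;> simp [em]
    have n2 : Nr (em z + ((1 / 2, 1) : V)) (z + (0, 1)) := by
      rw [e]; exact Qs_nr q0 _
    refine ⟨T, hT, z + (0, 1), Or.inl ⟨?_, ?_⟩⟩
    · rw [← e]; exact h1
    · rw [hd.2 z (Qs_nr q1 z) n2, h2]
  · have e0 : ((1, 1) : V) - (1 / 2, 1) = (1 / 2, 0) := by ext <;> norm_num
    have e0' : ((1, 1) : V) - (1 / 2, 0) = (1 / 2, 1) := by ext <;> norm_num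
    rw [e0] at h1
    have hd := (hL1 T hT).2 _ (mem_Tri h1 (fun w => Qs_lattice q0 z w))
    have e : em z + ((1 / 2, 0) : V) = em (z - (0, 1)) + (1 / 2, 1) := by
      ext <;> simp [em]
    have n2 : Nr (em z + ((1 / 2, 0) : V)) (z - (0, 1)) := by
      rw [e]; exact Qs_nr q1 _
    have n1 : Nr (em z + ((1 / 2, 0) : V)) (z - (0, 1) + (0, 1)) := by
      rw [sub_add_cancel]; exact Qs_nr q0 _
    have h3 := hd.2 (z - (0, 1)) n2 n1
    rw [sub_add_cancel, h2] at h3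
    refine ⟨T, hT, z - (0, 1), Or.inr ⟨?_, ?_⟩⟩
    · rw [e0', ← e]; exact h1
    · rw [O.iu, h3, Equiv.symm_apply_apply]

/-- Some square is covered. -/
lemma Cv.exists {O : Org X} {L : List (Trg X)}
    (hL1 : ∀ T ∈ L, 0 < tri T.a T.b T.c ∧ Dev O (Tri T.a T.b T.c) T.f) (hne : L ≠ []) :
    ∃ s : X, ∃ c ∈ Qs, Cv O L s c := by
  obtain ⟨T, hT⟩ := List.exists_mem_of_ne_nil L hne
  obtain ⟨hD, _⟩ := hL1 T hT
  have hD' : (1 : ℝ) ≤ tri T.a T.b T.c := by exact_mod_cast hD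
  set A := T.a
  set B := T.b
  set C := T.c
  set D : ℝ := (tri A B C : ℝ) with hDdef
  have hD0 : D ≠ 0 := by
    intro h
    linarith
  set x : V := (A.1 + ((B.1 : ℝ) - A.1) / (2 * D) + ((C.1 : ℝ) - A.1) / 4,
    A.2 + ((B.2 : ℝ) - A.2) / (2 * D) + ((C.2 : ℝ) - A.2) / 4) with hx
  have hcr : D = ((B.1 : ℝ) - A.1) * (C.2 - A.2) - ((B.2 : ℝ) - A.2) * (C.1 - A.1) := by
    rw [hDdef]
    simp only [tri, cr, Prod.fst_sub, Prod.snd_sub]
    push_cast
    ring
  have o1 : ori A B x = D / 4 := by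
    rw [hcr, hx]
    simp only [ori]
    ring
  have o3 : ori C A x = 1 / 2 := by
    have h1 : ori C A x = (((B.1 : ℝ) - A.1) * (C.2 - A.2) -
        ((B.2 : ℝ) - A.2) * (C.1 - A.1)) / (2 * D) := by
      rw [hx]
      simp only [ori]
      ring
    rw [h1, ← hcr]
    field_simp
  have o2 : ori B C x = D - D / 4 - 1 / 2 := by
    have := ori_sum A B C x
    rw [o1, o3] at this
    linarith
  have hmem : x ∈ cTri A B C := ⟨by rw [o1]; linarith, by rw [o2]; linarith, by rw [o3]; norm_num⟩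
  have hlat : ∀ w : Z2, x ≠ em w := by
    intro w hw
    have h1 : ori C A (em w) = ((A.1 - C.1) * (w.2 - C.2) - (A.2 - C.2) * (w.1 - C.1) : ℤ) := by
      simp only [ori, em]
      push_cast
      ring
    rw [← hw, o3] at h1
    have h2 : (2 * ((A.1 - C.1) * (w.2 - C.2) - (A.2 - C.2) * (w.1 - C.1)) : ℤ) = 1 := by
      have h3 : (2 : ℝ) * (((A.1 - C.1) * (w.2 - C.2) - (A.2 - C.2) * (w.1 - C.1) : ℤ) : ℝ) = 1 := by
        rw [← h1]; norm_num
      exact_mod_cast h3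
    omega
  set z : Z2 := (⌊x.1⌋, ⌊x.2⌋) with hz
  have e : em z + (Int.fract x.1, Int.fract x.2) = x := by
    refine Prod.ext ?_ ?_
    · simp only [em, hz, Prod.fst_add]
      exact Int.floor_add_fract x.1
    · simp only [em, hz, Prod.snd_add]
      exact Int.floor_add_fract x.2
  refine ⟨T.f z, (Int.fract x.1, Int.fract x.2), ⟨?_, ?_, ?_, ?_, ?_⟩, T, hT, z, Or.inl ⟨?_, rfl⟩⟩
  · exact Int.fract_nonneg _
  · exact (Int.fract_lt_one _).le
  · exact Int.fract_nonneg _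
  · exact (Int.fract_lt_one _).le
  · by_cases h1 : Int.fract x.1 = 0
    · by_cases h2 : Int.fract x.2 = 0
      · exfalso
        apply hlat z
        rw [← e, h1, h2]
        ext <;> simp
      · exact Or.inr ⟨lt_of_le_of_ne (Int.fract_nonneg _) (Ne.symm h2), Int.fract_lt_one _⟩
    · exact Or.inl ⟨lt_of_le_of_ne (Int.fract_nonneg _) (Ne.symm h1), Int.fract_lt_one _⟩
  · rw [e]; exact hmem

/-- sums over lists -/
lemma sum_list {ι : Type} (L : List ι) (g : ι → ℤ) :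
    (L.map g).sum = ∑ j : Fin L.length, g (L.get j) := by
  rw [← List.sum_ofFn]
  congr 1
  apply List.ext_get
  · simp
  · intro n h1 h2
    simp

open Ar in
/-- The area bound. -/
lemma area_bound {O : Org X} {L : List (Trg X)} (hL : ∀ T ∈ L, 0 < tri T.a T.b T.c) (R : Finset X)
    (hR : ∀ s ∈ R, ∀ c ∈ Qs, Cv O L s c) :
    (R.card : ℤ) ≤ (L.map (fun T => tri T.a T.b T.c)).sum := by
  classical
  rw [sum_list L (fun T => tri T.a T.b T.c)]
  set K : Fin L.length → Set V := fun j => cTri (L.get j).a (L.get j).b (L.get j).c with hK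
  set F : Fin L.length → Z2 → X := fun j => (L.get j).f with hF
  set Bx : Fin L.length → Finset Z2 := fun j => bx (L.get j) with hB
  have hpos : ∀ j, 0 < tri (L.get j).a (L.get j).b (L.get j).c := fun j => hL _ (List.get_mem _ _)
  have hRoQs : Ro ⊆ Qs := fun c h => ⟨h.1.le, h.2.1.le, h.2.2.1.le, h.2.2.2.le,
    Or.inl ⟨h.1, h.2.1⟩⟩
  have hRoSq : Ro ⊆ Sq := fun c h => Qs_sub_Sq (hRoQs h)
  -- one square
  have h1 : ∀ s ∈ R, (1 : ENNReal) ≤ ∑ j, ∑ z ∈ Bx j,
      ((if F j z = s then ms (K j) z else 0) + (if F j z = O.i s then ms (K j) z else 0)) := by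
    intro s hs
    have hsub : Ro ⊆ ⋃ j ∈ (Finset.univ : Finset (Fin L.length)), ⋃ z ∈ Bx j,
        ({c | (c ∈ Ro ∧ em z + c ∈ K j) ∧ F j z = s} ∪
          {c | (c ∈ Ro ∧ em z + ((1, 1) - c) ∈ K j) ∧ F j z = O.i s}) := by
      intro c hc
      obtain ⟨T, hT, z, h⟩ := hR s hs c (hRoQs hc)
      obtain ⟨j, hj⟩ := List.mem_iff_get.1 hT
      simp only [mem_iUnion, mem_union, mem_ofPred_eq, exists_prop]
      refine ⟨j, Finset.mem_univ _, z, ?_, ?_⟩
      · rcases h with h | h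
        · refine mem_bx (hpos j) (hRoSq hc) ?_
          rw [hj]; exact h.1
        · refine mem_bx (hpos j) (Sq_refl (hRoSq hc)) ?_
          rw [hj]; exact h.1
      · rcases h with h | h
        · left
          exact ⟨⟨hc, by rw [hK]; simp only; rw [hj]; exact h.1⟩, by rw [hF]; simp only; rw [hj]; exact h.2⟩
        · right
          exact ⟨⟨hc, by rw [hK]; simp only; rw [hj]; exact h.1⟩, by rw [hF]; simp only; rw [hj]; exact h.2⟩
    rw [← vol_Ro]
    refine (measure_mono hsub).trans ?_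
    refine (measure_biUnion_finset_le _ _).trans (Finset.sum_le_sum fun j _ => ?_)
    refine (measure_biUnion_finset_le _ _).trans (Finset.sum_le_sum fun z _ => ?_)
    refine (measure_union_le _ _).trans (add_le_add ?_ ?_)
    · by_cases h : F j z = s
      · simp only [h, and_true, if_true]
        exact (ms_one (K j) z).le
      · simp [h]
    · by_cases h : F j z = O.i s
      · simp only [h, and_true, if_true]
        exact (ms_two (K j) z).le
      · simp [h]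
  have h2 : (R.card : ENNReal) ≤ ∑ j, ENNReal.ofReal (tri (L.get j).a (L.get j).b (L.get j).c : ℝ) := by
    calc (R.card : ENNReal) = ∑ s ∈ R, (1 : ENNReal) := by simp
      _ ≤ ∑ s ∈ R, ∑ j, ∑ z ∈ Bx j,
          ((if F j z = s then ms (K j) z else 0) + (if F j z = O.i s then ms (K j) z else 0)) :=
        Finset.sum_le_sum h1
      _ = ∑ j, ∑ z ∈ Bx j, ∑ s ∈ R,
          ((if F j z = s then ms (K j) z else 0) + (if F j z = O.i s then ms (K j) z else 0)) := by
        rw [Finset.sum_comm]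
        refine Finset.sum_congr rfl fun j _ => ?_
        rw [Finset.sum_comm]
      _ ≤ ∑ j, ∑ z ∈ Bx j, (ms (K j) z + ms (K j) z) := by
        refine Finset.sum_le_sum fun j _ => Finset.sum_le_sum fun z _ => ?_
        rw [Finset.sum_add_distrib]
        refine add_le_add ?_ ?_
        · rw [Finset.sum_ite_eq]
          split_ifs
          · exact le_rfl
          · exact zero_le
        · have e : ∀ s ∈ R, (if F j z = O.i s then ms (K j) z else 0) =
              (if O.i (F j z) = s then ms (K j) z else 0) := by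
            intro s _
            have : (F j z = O.i s) ↔ (O.i (F j z) = s) := by
              constructor
              · intro h; rw [h, O.ii]
              · intro h; rw [← h, O.ii]
            simp only [this]
          rw [Finset.sum_congr rfl e, Finset.sum_ite_eq]
          split_ifs
          · exact le_rfl
          · exact zero_le
      _ ≤ ∑ j, ENNReal.ofReal (tri (L.get j).a (L.get j).b (L.get j).c : ℝ) := by
        refine Finset.sum_le_sum fun j _ => ?_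
        rw [Finset.sum_add_distrib]
        have h3 : ∑ z ∈ Bx j, ms (K j) z ≤
            ENNReal.ofReal ((tri (L.get j).a (L.get j).b (L.get j).c : ℝ) / 2) :=
          (ms_sum (cTri_closed _ _ _).measurableSet (Bx j)).trans (vol_tri (hpos j))
        refine (add_le_add h3 h3).trans ?_
        have h4 : (0 : ℝ) < (tri (L.get j).a (L.get j).b (L.get j).c : ℝ) := by
          exact_mod_cast hpos j
        rw [← ENNReal.ofReal_add (by linarith) (by linarith)]
        exact ENNReal.ofReal_le_ofReal (by linarith)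
  rw [← ENNReal.ofReal_sum_of_nonneg (fun j _ => by
    have h4 : (0 : ℝ) < (tri (L.get j).a (L.get j).b (L.get j).c : ℝ) := by
      exact_mod_cast hpos j
    exact h4.le)] at h2
  have h5 : (R.card : ENNReal) = ENNReal.ofReal (R.card : ℝ) := by simp
  rw [h5, ENNReal.ofReal_le_ofReal_iff (Finset.sum_nonneg fun j _ => by
    have h4 : (0 : ℝ) < (tri (L.get j).a (L.get j).b (L.get j).c : ℝ) := by
      exact_mod_cast hpos j
    exact h4.le)] at h2
  have h6 : ((R.card : ℤ) : ℝ) ≤ ((∑ j, tri (L.get j).a (L.get j).b (L.get j).c : ℤ) : ℝ) := by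
    push_cast
    exact h2
  exact_mod_cast h6

end Cov

open Cov in
/-- **The core theorem.** -/
theorem core [Finite X] {O : Org X} {A B C : Z2} {l r t' : Tree}
    (h : Has O A B (.node C l r) t') :
    ∃ R : Set X, R.Nonempty ∧ (∀ x ∈ R, O.r x ∈ R) ∧ (∀ x ∈ R, O.u x ∈ R) ∧ (∀ x ∈ R, O.i x ∈ R) ∧
      (R.ncard : ℤ) ≤ (Tree.node C l r).area A B + t'.area B A := by
  classical
  obtain ⟨L, hsum, hne, hL1, hL2⟩ := flatten h
  have hall : ∀ {s : X} {c : V}, c ∈ Qs → Cv O L s c → ∀ c' ∈ Qs, Cv O L s c' :=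
    fun hc h => Cv_all hL1 hL2 hc h
  refine ⟨{s | ∀ c ∈ Qs, Cv O L s c}, ?_, ?_, ?_, ?_, ?_⟩
  · obtain ⟨s, c, hc, h⟩ := Cv.exists (O := O) hL1 hne
    exact ⟨s, hall hc h⟩
  · intro s hs
    have q1 : ((1, 1 / 2) : V) ∈ Qs := by
      refine ⟨?_, ?_, ?_, ?_, Or.inr ⟨?_, ?_⟩⟩ <;> norm_num
    have q0 : ((0, 1 / 2) : V) ∈ Qs := by
      refine ⟨?_, ?_, ?_, ?_, Or.inr ⟨?_, ?_⟩⟩ <;> norm_num
    exact hall q0 (Cv.right hL1 (hs _ q1))
  · intro s hs
    have q1 : ((1 / 2, 1) : V) ∈ Qs := by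
      refine ⟨?_, ?_, ?_, ?_, Or.inl ⟨?_, ?_⟩⟩ <;> norm_num
    have q0 : ((1 / 2, 0) : V) ∈ Qs := by
      refine ⟨?_, ?_, ?_, ?_, Or.inl ⟨?_, ?_⟩⟩ <;> norm_num
    exact hall q0 (Cv.up hL1 (hs _ q1))
  · intro s hs c hc
    have h1 := (hs _ (Qs_refl hc)).refl
    rwa [sub_sub_cancel] at h1
  · rw [← hsum]
    have hfin : ({s | ∀ c ∈ Qs, Cv O L s c} : Set X).Finite := Set.toFinite _
    rw [Set.ncard_eq_toFinset_card _ hfin]
    refine area_bound (O := O) (fun T hT => (hL1 T hT).1) hfin.toFinset ?_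
    intro s hs
    rw [Set.Finite.mem_toFinset] at hs
    exact hs

end Pool.Agent.H4G
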