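import Pool.Agent.H4G.SadDefs

/-!
# Counting the fixed points of the anti-automorphism (row E1 (b) of MP_4f7c28 GEOM)
-/

set_option autoImplicit false

namespace Pool.Agent.H4G

variable {X : Type}

/-! ## The smallest index of a row -/

/-- the next saddle -/
def nx (t : Fin 5 → Fin 5) (j : Fin 5) : Fin 5 := t j - 1

lemma rep_eq (t : Fin 5 → Fin 5) (j : Fin 5) : rep t j = min j (min (nx t j) (min (nx t (nx t j))
    (min (nx t (nx t (nx t j))) (nx t (nx t (nx t (nx t j))))))) := rfl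

lemma rep_le (t : Fin 5 → Fin 5) (j : Fin 5) {i : ℕ} (hi : i < 5) : rep t j ≤ (nx t)^[i] j := by
  rw [rep_eq]
  interval_cases i <;> simp [Function.iterate_succ]

lemma rep_mem (t : Fin 5 → Fin 5) (j : Fin 5) : ∃ i < 5, rep t j = (nx t)^[i] j := by
  rw [rep_eq]
  rcases min_choice j (min (nx t j) (min (nx t (nx t j))
    (min (nx t (nx t (nx t j))) (nx t (nx t (nx t (nx t j))))))) with e | e
  · exact ⟨0, by norm_num, e⟩
  rcases min_choice (nx t j) (min (nx t (nx t j))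
    (min (nx t (nx t (nx t j))) (nx t (nx t (nx t (nx t j)))))) with e1 | e1
  · exact ⟨1, by norm_num, e.trans e1⟩
  rcases min_choice (nx t (nx t j))
    (min (nx t (nx t (nx t j))) (nx t (nx t (nx t (nx t j))))) with e2 | e2
  · exact ⟨2, by norm_num, e.trans (e1.trans e2)⟩
  rcases min_choice (nx t (nx t (nx t j))) (nx t (nx t (nx t (nx t j)))) with e3 | e3
  · exact ⟨3, by norm_num, e.trans (e1.trans (e2.trans e3))⟩
  · exact ⟨4, by norm_num, e.trans (e1.trans (e2.trans e3))⟩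

lemma nx_per {t : Fin 5 → Fin 5} (ht : ∀ j, t (t j) = j) (j : Fin 5) :
    ∃ d, 1 ≤ d ∧ d ≤ 5 ∧ (nx t)^[d] j = j := by
  have hinj : Function.Injective (nx t) := by
    intro a b hab
    have h1 : t a = t b := sub_left_injective hab
    rw [← ht a, ← ht b, h1]
  obtain ⟨x, y, hxy, he⟩ := Fintype.exists_ne_map_eq_of_card_lt
    (fun i : Fin 6 => (nx t)^[(i : ℕ)] j) (by simp)
  have key : ∀ p q : ℕ, p < q → q ≤ 5 → (nx t)^[p] j = (nx t)^[q] j →
      ∃ d, 1 ≤ d ∧ d ≤ 5 ∧ (nx t)^[d] j = j := by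
    intro p q hpq hq e
    refine ⟨q - p, by omega, by omega, ?_⟩
    have e1 : (nx t)^[p] ((nx t)^[q - p] j) = (nx t)^[p] j := by
      rw [← Function.iterate_add_apply, show p + (q - p) = q by omega, e]
    exact hinj.iterate p e1
  have hx := x.2
  have hy := y.2
  rcases lt_or_gt_of_ne (fun e => hxy (Fin.ext e) : (x : ℕ) ≠ y) with h1 | h1
  · exact key _ _ h1 (by omega) he
  · exact key _ _ h1 (by omega) he.symm

lemma rep_nx {t : Fin 5 → Fin 5} (ht : ∀ j, t (t j) = j) (j : Fin 5) :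
    rep t (nx t j) = rep t j := by
  obtain ⟨d, hd1, hd5, hd⟩ := nx_per ht j
  apply le_antisymm
  · obtain ⟨i, hi, e⟩ := rep_mem t j
    rw [e]
    rcases Nat.eq_zero_or_pos i with h0 | h0
    · subst h0
      have h1 := rep_le t (nx t j) (i := d - 1) (by omega)
      rw [← Function.iterate_succ_apply, show (d - 1).succ = d by omega, hd] at h1
      exact h1
    · have h1 := rep_le t (nx t j) (i := i - 1) (by omega)
      rw [← Function.iterate_succ_apply, show (i - 1).succ = i by omega] at h1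
      exact h1
  · obtain ⟨i, hi, e⟩ := rep_mem t (nx t j)
    rw [e, ← Function.iterate_succ_apply]
    by_cases h5 : i.succ < 5
    · exact rep_le t j h5
    · have h1 : i.succ = (5 - d) + d := by omega
      rw [h1, Function.iterate_add_apply, hd]
      exact rep_le t j (by omega)

lemma rep_iter {t : Fin 5 → Fin 5} (ht : ∀ j, t (t j) = j) (i : ℕ) (j : Fin 5) :
    rep t ((nx t)^[i] j) = rep t j := by
  induction i with
  | zero => rfl
  | succ i ih => rw [Function.iterate_succ_apply', rep_nx ht, ih]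

lemma rep_idem {t : Fin 5 → Fin 5} (ht : ∀ j, t (t j) = j) (j : Fin 5) :
    rep t (rep t j) = rep t j := by
  obtain ⟨i, _, e⟩ := rep_mem t j
  rw [e, rep_iter ht, ← e]

/-! ## Coordinates in cylinders -/

section

variable {O : Org X} {z : Fin 5 → X} {l h : Fin 5 → ℕ} {t : Fin 5 → Fin 5}

lemma zpa (σ : Equiv.Perm X) (m n : ℤ) (x : X) : (σ ^ m) ((σ ^ n) x) = (σ ^ (m + n)) x := by
  rw [zpow_add, Equiv.Perm.mul_apply]

lemma SD.z_iter (D : SD O z l h t) (j : Fin 5) (i : ℕ) :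
    ∃ s : ℤ, z ((nx t)^[i] j) = (O.r ^ s) (z j) ∧ h ((nx t)^[i] j) = h j := by
  induction i with
  | zero => exact ⟨0, by simp, rfl⟩
  | succ i ih =>
    obtain ⟨s, hs, hh⟩ := ih
    rw [Function.iterate_succ_apply']
    refine ⟨(l ((nx t)^[i] j) : ℤ) + s, ?_, ?_⟩
    · have := D.next ((nx t)^[i] j)
      rw [← zpow_natCast, hs, zpa] at this
      exact this.symm
    · exact (D.hnext _).trans hh

lemma SD.z_rep (D : SD O z l h t) (j : Fin 5) :
    ∃ s : ℤ, z j = (O.r ^ s) (z (rep t j)) ∧ h (rep t j) = h j := by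
  obtain ⟨i, _, e⟩ := rep_mem t j
  obtain ⟨s, hs, hh⟩ := D.z_iter j i
  rw [e]
  refine ⟨-s, ?_, hh⟩
  rw [hs, zpa, neg_add_cancel, zpow_zero]
  rfl

lemma SD.norm [Finite X] (D : SD O z l h t) (j : Fin 5) (a : ℤ) :
    ∃ (i k : ℕ), k < l ((nx t)^[i] j) ∧ (O.r ^ a) (z j) = (O.r ^ k) (z ((nx t)^[i] j)) := by
  have hnat : ∀ m : ℕ, ∃ (i k : ℕ), k < l ((nx t)^[i] j) ∧
      (O.r ^ m) (z j) = (O.r ^ k) (z ((nx t)^[i] j)) := by
    intro m
    induction m with
    | zero => exact ⟨0, 0, (D.sad j).pos, rfl⟩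
    | succ m ih =>
      obtain ⟨i, k, hk, e⟩ := ih
      have e1 : (O.r ^ (m + 1)) (z j) = (O.r ^ (k + 1)) (z ((nx t)^[i] j)) := by
        rw [pow_succ', pow_succ', Equiv.Perm.mul_apply, Equiv.Perm.mul_apply, e]
      by_cases h1 : k + 1 < l ((nx t)^[i] j)
      · exact ⟨i, k + 1, h1, e1⟩
      · have h2 : k + 1 = l ((nx t)^[i] j) := by omega
        refine ⟨i + 1, 0, (D.sad _).pos, ?_⟩
        rw [e1, h2, D.next, Function.iterate_succ_apply']
        rfl
  have ho : 0 < orderOf O.r := orderOf_pos O.r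
  obtain ⟨i, k, hk, e⟩ := hnat (a % (orderOf O.r : ℤ)).toNat
  refine ⟨i, k, hk, ?_⟩
  rw [← e, ← zpow_natCast, Int.toNat_of_nonneg (Int.emod_nonneg _ (by exact_mod_cast ho.ne')),
    zpow_mod_orderOf]

lemma SD.same [Finite X] (D : SD O z l h t) {j1 j2 : Fin 5} {a1 a2 : ℤ} {b1 b2 : ℕ}
    (h1 : b1 < h j1) (h2 : b2 < h j2)
    (e : (O.r ^ a1) ((O.u ^ b1) (z j1)) = (O.r ^ a2) ((O.u ^ b2) (z j2))) :
    rep t j1 = rep t j2 ∧ b1 = b2 := by
  obtain ⟨i1, k1, hk1, e1⟩ := D.norm j1 a1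
  obtain ⟨i2, k2, hk2, e2⟩ := D.norm j2 a2
  obtain ⟨_, _, hh1⟩ := D.z_iter j1 i1
  obtain ⟨_, _, hh2⟩ := D.z_iter j2 i2
  have hb1 : b1 < h ((nx t)^[i1] j1) := by rw [hh1]; exact h1
  have hb2 : b2 < h ((nx t)^[i2] j2) := by rw [hh2]; exact h2
  rw [← D.strip _ _ _ h1, ← D.strip _ _ _ h2, e1, e2, ← zpow_natCast O.r, ← zpow_natCast O.r,
    D.strip _ _ _ hb1, D.strip _ _ _ hb2, zpow_natCast, zpow_natCast] at e
  obtain ⟨h3, _, h5⟩ := D.uniq _ _ _ _ _ _ hk1 hb1 hk2 hb2 e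
  refine ⟨?_, h5⟩
  rw [← rep_iter D.tt i1 j1, h3, rep_iter D.tt i2 j2]

lemma SD.to_rep (D : SD O z l h t) (y : X) : ∃ (j : Fin 5) (a : ℤ) (b : ℕ), rep t j = j ∧
    b < h j ∧ y = (O.r ^ a) ((O.u ^ b) (z j)) := by
  obtain ⟨j, k, b, _, hb, e⟩ := D.cover y
  obtain ⟨s, hs, hh⟩ := D.z_rep j
  refine ⟨rep t j, (k : ℤ) + s, b, rep_idem D.tt j, by rw [hh]; exact hb, ?_⟩
  rw [e, hs, D.strip _ _ _ (by rw [hh]; exact hb), ← zpow_natCast, zpa]

/-- the anti-automorphism on a fixed cylinder -/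
lemma SD.full [Finite X] (D : SD O z l h t) {j : Fin 5} (hj : rep t j = j) {a a' : ℤ} {b b' : ℕ}
    (hb : b < h j) (hb' : b' < h j)
    (e : O.i ((O.r ^ a) ((O.u ^ b) (z j))) = (O.r ^ a') ((O.u ^ b') (z j))) :
    ∃ c : ℤ, ∀ (a : ℤ) (b : ℕ), b < h j →
      O.i ((O.r ^ a) ((O.u ^ b) (z j))) = (O.r ^ (c - 1 - a)) ((O.u ^ (h j - 1 - b)) (z j)) := by
  obtain ⟨j', c, hh, hi⟩ := D.img j
  have e1 := hi a b hb
  rw [e] at e1
  have h1 := (D.same hb' (by omega) e1).1
  rw [hj] at h1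
  obtain ⟨s, hs, _⟩ := D.z_rep j'
  rw [← h1] at hs
  refine ⟨c + s, fun a b hb => ?_⟩
  rw [hi a b hb, hs, D.strip _ _ _ (by omega), zpa]
  congr 2
  ring

/-- the length of a row -/
noncomputable def rw' (O : Org X) (x : X) : ℕ := Function.minimalPeriod (O.r • ·) x

lemma per_iff (O : Org X) (x : X) (n : ℤ) : (O.r ^ n) x = x ↔ (rw' O x : ℤ) ∣ n :=
  MulAction.zpow_smul_eq_iff_minimalPeriod_dvd (a := O.r) (b := x)

lemma SD.row_iff (D : SD O z l h t) {j : Fin 5} {b : ℕ} (hb : b < h j) (m n : ℤ) :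
    (O.r ^ m) ((O.u ^ b) (z j)) = (O.r ^ n) ((O.u ^ b) (z j)) ↔ (rw' O (z j) : ℤ) ∣ m - n := by
  rw [← per_iff, ← D.strip _ _ _ hb, ← D.strip _ _ _ hb, (O.u ^ b).injective.eq_iff]
  constructor
  · intro e
    have := congrArg (fun x => (O.r ^ (-n)) x) e
    simp only [zpa] at this
    rw [neg_add_cancel, zpow_zero, show -n + m = m - n by ring] at this
    exact this
  · intro e
    have := congrArg (fun x => (O.r ^ n) x) e
    simp only [zpa] at this
    rwa [show n + (m - n) = m by ring] at this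

/-! ## The fixed points -/

/-- the four kinds of fixed points -/
def FP (O : Org X) (p : Fin 4 × X) : Prop :=
  (p.1 = 0 ∧ O.i p.2 = p.2) ∨ (p.1 = 1 ∧ O.i p.2 = O.r p.2) ∨ (p.1 = 2 ∧ O.i p.2 = O.u p.2) ∨
    (p.1 = 3 ∧ O.i p.2 = O.u (O.r p.2) ∧ O.r (O.u p.2) = O.u (O.r p.2))

/-- a possible fixed point of a cylinder -/
noncomputable def cpt (O : Org X) (z : Fin 5 → X) (h : Fin 5 → ℕ) (j : Fin 5) (m : ℤ) : Fin 4 × X :=
  (if h j % 2 = 1 then (if m % 2 = 1 then 0 else 1) else (if m % 2 = 1 then 2 else 3),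
    (O.r ^ ((m - 1) / 2)) ((O.u ^ ((h j - 1) / 2)) (z j)))

/-- the possible fixed point of a saddle -/
noncomputable def spt (O : Org X) (z : Fin 5 → X) (l : Fin 5 → ℕ) (j : Fin 5) : Fin 4 × X :=
  (if l j % 2 = 1 then 2 else 3, O.u.symm ((O.r ^ ((l j - 1) / 2)) (z j)))

/-- the fixed points inside a cylinder -/
def CP (O : Org X) (z : Fin 5 → X) (h : Fin 5 → ℕ) (j : Fin 5) : Set (Fin 4 × X) :=
  {p | FP O p ∧ ∃ (a : ℤ) (b : ℕ), b < h j ∧ p.2 = (O.r ^ a) ((O.u ^ b) (z j)) ∧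
    (p.1 = 0 ∨ p.1 = 1 ∨ b + 1 < h j)}

lemma SD.cpt_shift (D : SD O z l h t) (j : Fin 5) (hj : 0 < h j) (m q : ℤ) :
    cpt O z h j (m - 2 * ((rw' O (z j) : ℤ) * q)) = cpt O z h j m := by
  have h1 : (m - 2 * ((rw' O (z j) : ℤ) * q)) % 2 = m % 2 := by
    rw [Int.sub_mul_emod_self_left]
  have h2 : (m - 2 * ((rw' O (z j) : ℤ) * q) - 1) / 2 = (m - 1) / 2 - (rw' O (z j) : ℤ) * q := by
    generalize (rw' O (z j) : ℤ) * q = k
    omega
  unfold cpt
  rw [h1, h2]
  congr 1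
  rw [D.row_iff (by omega)]
  exact ⟨-q, by ring⟩

lemma SD.cpt_of (D : SD O z l h t) (j : Fin 5) (hj : 0 < h j) {c m : ℤ}
    (hd : (rw' O (z j) : ℤ) ∣ c - m) :
    cpt O z h j m = cpt O z h j c ∨ cpt O z h j m = cpt O z h j (c + rw' O (z j)) := by
  obtain ⟨q, hq⟩ := hd
  rcases Int.even_or_odd q with ⟨k, hk⟩ | ⟨k, hk⟩
  · left
    rw [← D.cpt_shift j hj c k]
    congr 1
    rw [hk] at hq
    linear_combination -hq
  · right
    rw [← D.cpt_shift j hj (c + rw' O (z j)) (k + 1)]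
    congr 1
    rw [hk] at hq
    linear_combination -hq

lemma SD.CP_sub [Finite X] (D : SD O z l h t) {j : Fin 5} (hj : rep t j = j) {p : Fin 4 × X}
    (hp : p ∈ CP O z h j) : ∃ c : ℤ, (∀ (a : ℤ) (b : ℕ), b < h j →
      O.i ((O.r ^ a) ((O.u ^ b) (z j))) = (O.r ^ (c - 1 - a)) ((O.u ^ (h j - 1 - b)) (z j))) := by
  obtain ⟨hfp, a, b, hb, e, hk⟩ := hp
  rcases hfp with ⟨_, h2⟩ | ⟨_, h2⟩ | ⟨h1, h2⟩ | ⟨h1, h2, h3⟩
  · rw [e] at h2
    exact D.full hj hb hb h2
  · rw [e] at h2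
    refine D.full hj (a := a) (a' := 1 + a) hb hb ?_
    rw [h2, ← zpa, zpow_one]
  · have hb1 : b + 1 < h j := by
      rcases hk with h | h | h
      · rw [h1] at h; exact absurd h (by decide)
      · rw [h1] at h; exact absurd h (by decide)
      · exact h
    rw [e] at h2
    refine D.full hj (a := a) (a' := a) hb hb1 ?_
    rw [h2, ← D.strip _ _ _ hb, ← D.strip _ _ _ hb1, pow_succ', Equiv.Perm.mul_apply]
  · have hb1 : b + 1 < h j := by
      rcases hk with h | h | h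
      · rw [h1] at h; exact absurd h (by decide)
      · rw [h1] at h; exact absurd h (by decide)
      · exact h
    rw [e] at h2
    refine D.full hj (a := a) (a' := 1 + a) hb hb1 ?_
    have e1 : O.r ((O.r ^ a) ((O.u ^ b) (z j))) = (O.r ^ (1 + a)) ((O.u ^ b) (z j)) := by
      rw [← zpa, zpow_one]
    rw [h2, e1, ← D.strip _ _ _ hb, ← D.strip _ _ _ hb1, pow_succ', Equiv.Perm.mul_apply]

lemma SD.CP_cpt [Finite X] (D : SD O z l h t) {j : Fin 5} {c : ℤ}
    (hc : ∀ (a : ℤ) (b : ℕ), b < h j →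
      O.i ((O.r ^ a) ((O.u ^ b) (z j))) = (O.r ^ (c - 1 - a)) ((O.u ^ (h j - 1 - b)) (z j)))
    {p : Fin 4 × X} (hp : p ∈ CP O z h j) :
    ∃ m : ℤ, (rw' O (z j) : ℤ) ∣ c - m ∧ p = cpt O z h j m := by
  obtain ⟨hfp, a, b, hb, e, hk⟩ := hp
  have hi := hc a b hb
  rcases hfp with ⟨h1, h2⟩ | ⟨h1, h2⟩ | ⟨h1, h2⟩ | ⟨h1, h2, h3⟩
  · -- centre of a square
    rw [e, hi] at h2
    have h3 := (D.same (by omega) hb h2).2
    have h4 : (h j - 1) / 2 = b := by omega
    rw [h3, D.row_iff hb] at h2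
    refine ⟨2 * a + 1, ?_, ?_⟩
    · rw [show c - (2 * a + 1) = c - 1 - a - a by ring]; exact h2
    · refine Prod.ext ?_ ?_
      · rw [h1]
        show (0 : Fin 4) = if h j % 2 = 1 then (if (2 * a + 1) % 2 = 1 then 0 else 1) else _
        rw [if_pos (by omega), if_pos (by omega)]
      · rw [e]
        show _ = (O.r ^ ((2 * a + 1 - 1) / 2)) ((O.u ^ ((h j - 1) / 2)) (z j))
        rw [h4, show (2 * a + 1 - 1) / 2 = a by omega]
  · -- midpoint of a vertical side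
    have e1 : O.r ((O.r ^ a) ((O.u ^ b) (z j))) = (O.r ^ (1 + a)) ((O.u ^ b) (z j)) := by
      rw [← zpa, zpow_one]
    rw [e, hi, e1] at h2
    have h3 := (D.same (by omega) hb h2).2
    have h4 : (h j - 1) / 2 = b := by omega
    rw [h3, D.row_iff hb] at h2
    refine ⟨2 * a + 2, ?_, ?_⟩
    · rw [show c - (2 * a + 2) = c - 1 - a - (1 + a) by ring]; exact h2
    · refine Prod.ext ?_ ?_
      · rw [h1]
        show (1 : Fin 4) = if h j % 2 = 1 then (if (2 * a + 2) % 2 = 1 then 0 else 1) else _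
        rw [if_pos (by omega), if_neg (by omega)]
      · rw [e]
        show _ = (O.r ^ ((2 * a + 2 - 1) / 2)) ((O.u ^ ((h j - 1) / 2)) (z j))
        rw [h4, show (2 * a + 2 - 1) / 2 = a by omega]
  · -- midpoint of a horizontal side
    have hb1 : b + 1 < h j := by
      rcases hk with h | h | h
      · rw [h1] at h; exact absurd h (by decide)
      · rw [h1] at h; exact absurd h (by decide)
      · exact h
    have e1 : O.u ((O.r ^ a) ((O.u ^ b) (z j))) = (O.r ^ a) ((O.u ^ (b + 1)) (z j)) := by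
      rw [← D.strip _ _ _ hb, ← D.strip _ _ _ hb1, pow_succ', Equiv.Perm.mul_apply]
    rw [e, hi, e1] at h2
    have h3 := (D.same (by omega) hb1 h2).2
    have h4 : (h j - 1) / 2 = b := by omega
    rw [h3, D.row_iff hb1] at h2
    refine ⟨2 * a + 1, ?_, ?_⟩
    · rw [show c - (2 * a + 1) = c - 1 - a - a by ring]; exact h2
    · refine Prod.ext ?_ ?_
      · rw [h1]
        show (2 : Fin 4) = if h j % 2 = 1 then _ else (if (2 * a + 1) % 2 = 1 then 2 else 3)
        rw [if_neg (by omega), if_pos (by omega)]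
      · rw [e]
        show _ = (O.r ^ ((2 * a + 1 - 1) / 2)) ((O.u ^ ((h j - 1) / 2)) (z j))
        rw [h4, show (2 * a + 1 - 1) / 2 = a by omega]
  · -- regular vertex
    have hb1 : b + 1 < h j := by
      rcases hk with h | h | h
      · rw [h1] at h; exact absurd h (by decide)
      · rw [h1] at h; exact absurd h (by decide)
      · exact h
    have e1 : O.u (O.r ((O.r ^ a) ((O.u ^ b) (z j)))) = (O.r ^ (1 + a)) ((O.u ^ (b + 1)) (z j)) := by
      have e2 : O.r ((O.r ^ a) ((O.u ^ b) (z j))) = (O.r ^ (1 + a)) ((O.u ^ b) (z j)) := by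
        rw [← zpa, zpow_one]
      rw [e2, ← D.strip _ _ _ hb, ← D.strip _ _ _ hb1, pow_succ', Equiv.Perm.mul_apply]
    rw [e, hi, e1] at h2
    have h5 := (D.same (by omega) hb1 h2).2
    have h4 : (h j - 1) / 2 = b := by omega
    rw [h5, D.row_iff hb1] at h2
    refine ⟨2 * a + 2, ?_, ?_⟩
    · rw [show c - (2 * a + 2) = c - 1 - a - (1 + a) by ring]; exact h2
    · refine Prod.ext ?_ ?_
      · rw [h1]
        show (3 : Fin 4) = if h j % 2 = 1 then _ else (if (2 * a + 2) % 2 = 1 then 2 else 3)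
        rw [if_neg (by omega), if_neg (by omega)]
      · rw [e]
        show _ = (O.r ^ ((2 * a + 2 - 1) / 2)) ((O.u ^ ((h j - 1) / 2)) (z j))
        rw [h4, show (2 * a + 2 - 1) / 2 = a by omega]

/-- fixed points on the top of a cylinder lie on fixed saddles -/
lemma SD.top_spt (D : SD O z l h t) {j : Fin 5} {a : ℤ} {p : Fin 4 × X} (hp : FP O p)
    (h01 : p.1 ≠ 0) (h02 : p.1 ≠ 1) (e : p.2 = (O.r ^ a) ((O.u ^ (h j - 1)) (z j))) :
    ∃ j', t j' = j' ∧ p = spt O z l j' := by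
  rcases hp with ⟨h1, _⟩ | ⟨h1, _⟩ | ⟨h1, h2⟩ | ⟨h1, h2, h3⟩
  · exact absurd h1 h01
  · exact absurd h1 h02
  · obtain ⟨j', k', hk', e1⟩ := D.top j a
    rw [← e] at e1
    have e2 : O.i ((O.r ^ k') (z j')) = p.2 := by rw [← e1, ← h2, O.ii]
    rw [D.half j' k' hk'] at e2
    have e3 : (O.r ^ (l j' - 1 - k')) (z (t j')) = O.u p.2 := by
      rw [← e2, Equiv.apply_symm_apply]
    rw [e1] at e3
    have hlt := D.lt j'
    have e4 : (O.r ^ (l j' - 1 - k')) ((O.u ^ 0) (z (t j'))) = (O.r ^ k') ((O.u ^ 0) (z j')) := e3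
    obtain ⟨h4, h5, _⟩ := D.uniq _ _ _ _ _ _ (by omega) (D.hpos _) hk' (D.hpos _) e4
    refine ⟨j', h4, Prod.ext ?_ ?_⟩
    · rw [h1]
      show (2 : Fin 4) = if l j' % 2 = 1 then 2 else 3
      rw [if_pos (by omega)]
    · show p.2 = O.u.symm ((O.r ^ ((l j' - 1) / 2)) (z j'))
      rw [Equiv.eq_symm_apply, e1, show (l j' - 1) / 2 = k' by omega]
  · obtain ⟨j', k', hk', e1⟩ := D.top j (1 + a)
    have e0 : O.r p.2 = (O.r ^ (1 + a)) ((O.u ^ (h j - 1)) (z j)) := by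
      rw [← zpa, zpow_one, ← e]
    rw [← e0] at e1
    have e2 : O.i ((O.r ^ k') (z j')) = p.2 := by rw [← e1, ← h2, O.ii]
    rw [D.half j' k' hk'] at e2
    have e3 : O.u p.2 = (O.r ^ (l j' - 1 - k')) (z (t j')) := by
      rw [← e2, Equiv.apply_symm_apply]
    have hlt := D.lt j'
    have e5 : (O.r ^ (l j' - k')) (z (t j')) = (O.r ^ k') (z j') := by
      rw [← e1, ← h3, e3, show l j' - k' = (l j' - 1 - k') + 1 by omega, pow_succ',
        Equiv.Perm.mul_apply]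
    rcases Nat.eq_zero_or_pos k' with h0 | h0
    · exfalso
      rw [h0, Nat.sub_zero, ← hlt, D.next, D.tt, pow_zero] at e5
      have h6 : j' - 1 = j' := D.inj e5
      have h7 : ∀ i : Fin 5, i - 1 ≠ i := by decide
      exact h7 j' h6
    · have e4 : (O.r ^ (l j' - k')) ((O.u ^ 0) (z (t j'))) = (O.r ^ k') ((O.u ^ 0) (z j')) := e5
      obtain ⟨h4, h5, _⟩ := D.uniq _ _ _ _ _ _ (by omega) (D.hpos _) hk' (D.hpos _) e4
      refine ⟨j', h4, Prod.ext ?_ ?_⟩
      · rw [h1]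
        show (3 : Fin 4) = if l j' % 2 = 1 then 2 else 3
        rw [if_neg (by omega)]
      · show p.2 = O.u.symm ((O.r ^ ((l j' - 1) / 2)) (z j'))
        rw [Equiv.eq_symm_apply, e3, h4, show (l j' - 1) / 2 = l j' - 1 - k' by omega]

/-- every fixed point is in a cylinder or on a saddle -/
lemma SD.FP_cases (D : SD O z l h t) {p : Fin 4 × X} (hp : FP O p) :
    (∃ j, rep t j = j ∧ p ∈ CP O z h j) ∨ ∃ j', t j' = j' ∧ p = spt O z l j' := by
  obtain ⟨j, a, b, hj, hb, e⟩ := D.to_rep p.2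
  by_cases h1 : p.1 = 0 ∨ p.1 = 1 ∨ b + 1 < h j
  · exact Or.inl ⟨j, hj, hp, a, b, hb, e, h1⟩
  · right
    push Not at h1
    obtain ⟨h2, h3, h4⟩ := h1
    have h5 : b = h j - 1 := by omega
    subst h5
    exact D.top_spt hp h2 h3 e

lemma ncard_four [Finite X] (q : Fin 4 × X → Prop) :
    {x | q (0, x)}.ncard + {x | q (1, x)}.ncard + {x | q (2, x)}.ncard + {x | q (3, x)}.ncard =
      {p | q p}.ncard := by
  classical
  have : Fintype X := Fintype.ofFinite X
  have h1 : ∀ s : Fin 4, {x | q (s, x)}.ncard = ∑ x : X, if q (s, x) then 1 else 0 := by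
    intro s
    rw [← Finset.card_filter, ← Set.ncard_coe_finset]
    congr 1
    ext x
    simp
  have h2 : {p | q p}.ncard = ∑ p : Fin 4 × X, if q p then 1 else 0 := by
    rw [← Finset.card_filter, ← Set.ncard_coe_finset]
    congr 1
    ext x
    simp
  rw [h1, h1, h1, h1, h2, Fintype.sum_prod_type, Fin.sum_univ_four]

theorem SD.count [Finite X] (D : SD O z l h t)
    (h7 : {x | O.i x = x}.ncard + {x | O.i x = O.r x}.ncard + {x | O.i x = O.u x}.ncard +
      {x | O.i x = O.u (O.r x) ∧ O.r (O.u x) = O.u (O.r x)}.ncard = 7) :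
    7 ≤ 2 * {j | rep t j = j ∧ FixC O z h j}.ncard + {j | t j = j}.ncard := by
  classical
  have hP : {p | FP O p}.ncard = 7 := by
    rw [← ncard_four (FP O), ← h7]
    simp [FP]
  set R : Finset (Fin 5) := Finset.univ.filter (fun j => rep t j = j ∧ FixC O z h j) with hR
  set T : Finset (Fin 5) := Finset.univ.filter (fun j => t j = j) with hT
  have hRc : {j | rep t j = j ∧ FixC O z h j}.ncard = R.card := by
    rw [← Set.ncard_coe_finset]
    congr 1
    ext j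
    simp [hR]
  have hTc : {j | t j = j}.ncard = T.card := by
    rw [← Set.ncard_coe_finset]
    congr 1
    ext j
    simp [hT]
  -- at most two points in each cylinder
  have hC : ∀ j, rep t j = j → ∃ A : Finset (Fin 4 × X), A.card ≤ 2 ∧ CP O z h j ⊆ A := by
    intro j hj
    rcases (CP O z h j).eq_empty_or_nonempty with h0 | ⟨p, hp⟩
    · exact ⟨∅, by simp, by rw [h0]; simp⟩
    · obtain ⟨c, hc⟩ := D.CP_sub hj hp
      refine ⟨{cpt O z h j c, cpt O z h j (c + rw' O (z j))}, Finset.card_le_two, ?_⟩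
      intro q hq
      obtain ⟨m, hm, e⟩ := D.CP_cpt hc hq
      rw [Finset.mem_coe, Finset.mem_insert, Finset.mem_singleton, e]
      exact D.cpt_of j (D.hpos j) hm
  choose! A hA1 hA2 using hC
  have hsub : {p | FP O p} ⊆ ((R.biUnion A ∪ T.image (spt O z l) : Finset (Fin 4 × X)) :
      Set (Fin 4 × X)) := by
    intro p hp
    rw [Finset.coe_union, Set.mem_union, Finset.mem_coe, Finset.mem_coe]
    rcases D.FP_cases hp with ⟨j, hj, hpj⟩ | ⟨j, hj, e⟩
    · left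
      rw [Finset.mem_biUnion]
      refine ⟨j, ?_, hA2 j hj hpj⟩
      rw [hR, Finset.mem_filter]
      refine ⟨Finset.mem_univ _, hj, ?_⟩
      obtain ⟨c, hc⟩ := D.CP_sub hj hpj
      refine ⟨c, ?_⟩
      have := hc 0 0 (D.hpos j)
      simpa using this
    · right
      rw [Finset.mem_image]
      exact ⟨j, by rw [hT, Finset.mem_filter]; exact ⟨Finset.mem_univ _, hj⟩, e.symm⟩
  have h1 : 7 ≤ (R.biUnion A ∪ T.image (spt O z l)).card := by
    rw [← hP, ← Set.ncard_coe_finset]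
    exact Set.ncard_le_ncard hsub (Finset.finite_toSet _)
  rw [hRc, hTc]
  refine h1.trans ((Finset.card_union_le _ _).trans ?_)
  refine add_le_add ?_ Finset.card_image_le
  refine (Finset.card_biUnion_le).trans ?_
  calc ∑ j ∈ R, (A j).card ≤ ∑ _j ∈ R, 2 := Finset.sum_le_sum fun j hj =>
        hA1 j (Finset.mem_filter.1 hj).2.1
    _ = 2 * R.card := by rw [Finset.sum_const, smul_eq_mul, mul_comm]

end

end Pool.Agent.H4G
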