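import Pool.Agent.H4G.SadDefs

/-!
# Row E1, part (c): from the five saddles and the count to the three types (helper19)
-/

set_option autoImplicit false

namespace Pool.Agent.H4G

variable {X : Type}

namespace CB

/-! ### The 26 involutions of `Fin 5` -/

/-- a function given by its five values -/
def ff (a b c d e : Fin 5) : Fin 5 → Fin 5 := ![a, b, c, d, e]

lemma ff_eq (t : Fin 5 → Fin 5) : t = ff (t 0) (t 1) (t 2) (t 3) (t 4) := by
  funext j
  fin_cases j <;> rfl

/-- the number of rows, twice, plus the number of folded saddles -/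
def cnt (t : Fin 5 → Fin 5) : ℕ :=
  2 * (Finset.univ.filter (fun j => rep t j = j)).card +
    (Finset.univ.filter (fun j => t j = j)).card

/-- the five cases, up to rotation -/
def Cases (t : Fin 5 → Fin 5) : Prop :=
  (∀ s, t s = s) ∨
  (∃ s, t s = s + 1 ∧ t (s + 1) = s ∧ t (s + 2) = s + 2 ∧ t (s + 3) = s + 3 ∧ t (s + 4) = s + 4) ∨
  (∃ s, t s = s + 2 ∧ t (s + 1) = s + 1 ∧ t (s + 2) = s ∧ t (s + 3) = s + 3 ∧ t (s + 4) = s + 4) ∨
  (∃ s, t s = s + 1 ∧ t (s + 1) = s ∧ t (s + 2) = s + 3 ∧ t (s + 3) = s + 2 ∧ t (s + 4) = s + 4) ∨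
  (∃ s, t s = s + 3 ∧ t (s + 1) = s + 2 ∧ t (s + 2) = s + 1 ∧ t (s + 3) = s ∧ t (s + 4) = s + 4)

instance (t : Fin 5 → Fin 5) : Decidable (Cases t) := by
  unfold Cases
  infer_instance

/-- `j` is reached from `rep t j` by at most four steps in its row -/
def Reach (t : Fin 5 → Fin 5) (j : Fin 5) : Prop :=
  let n : Fin 5 → Fin 5 := fun i => t i - 1
  rep t (rep t j) = rep t j ∧
    (j = rep t j ∨ j = n (rep t j) ∨ j = n (n (rep t j)) ∨ j = n (n (n (rep t j))) ∨
      j = n (n (n (n (rep t j)))))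

instance (t : Fin 5 → Fin 5) (j : Fin 5) : Decidable (Reach t j) := by
  unfold Reach
  infer_instance

lemma comb_dec : ∀ a b c d e : Fin 5, (∀ j, ff a b c d e (ff a b c d e j) = j) →
    cnt (ff a b c d e) ≤ 7 ∧ (cnt (ff a b c d e) = 7 → Cases (ff a b c d e)) ∧
      ∀ j, Reach (ff a b c d e) j := by
  decide +kernel

lemma comb (t : Fin 5 → Fin 5) (ht : ∀ j, t (t j) = j) :
    cnt t ≤ 7 ∧ (cnt t = 7 → Cases t) ∧ ∀ j, Reach t j := by
  have h := comb_dec (t 0) (t 1) (t 2) (t 3) (t 4)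
  rw [← ff_eq t] at h
  exact h ht

lemma sum_rot (f : Fin 5 → ℕ) (s : Fin 5) :
    ∑ j, f j = f s + f (s + 1) + f (s + 2) + f (s + 3) + f (s + 4) := by
  rw [← Equiv.sum_comp (Equiv.addLeft s) f, Fin.sum_univ_five]
  simp

/-! ### Local facts -/

variable {O : Org X} {z : Fin 5 → X} {l h : Fin 5 → ℕ} {t : Fin 5 → Fin 5}

lemma i_rpow (O : Org X) (k : ℕ) (x : X) : O.i ((O.r ^ k) x) = (O.r ^ (-(k : ℤ))) (O.i x) := by
  induction k generalizing x with
  | zero => simp
  | succ k ih =>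
    rw [pow_succ, Equiv.Perm.mul_apply, ih, O.ir]
    have e : (-((k + 1 : ℕ) : ℤ)) = -(k : ℤ) + -1 := by push_cast; ring
    rw [e, zpow_add, Equiv.Perm.mul_apply, zpow_neg_one]
    rfl

lemma fnext (D : SD O z l h t) {j : Fin 5} (hf : FixC O z h j) : FixC O z h (t j - 1) := by
  obtain ⟨c, hc⟩ := hf
  refine ⟨c - 2 * l j, ?_⟩
  rw [← D.next j, D.hnext j, i_rpow, hc]
  have h1 := D.strip j (l j : ℤ) (h j - 1) (by have := D.hpos j; omega)
  have h2 : ∀ (a b : ℤ) (y : X), (O.r ^ a) ((O.r ^ b) y) = (O.r ^ (a + b)) y := by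
    intro a b y
    rw [zpow_add]
    rfl
  rw [zpow_natCast] at h1
  rw [h1, ← zpow_natCast O.r (l j), h2, h2]
  congr 2
  ring

lemma fo (D : SD O z l h t) {j : Fin 5} (hj : t j = j) : Fo O (z j) (l j) := by
  have h1 := D.half j 0 (D.sad j).pos
  rw [hj] at h1
  simpa [Fo] using h1

lemma pa (D : SD O z l h t) {j j' : Fin 5} (hj : t j = j') : Pa O (z j) (l j) (z j') := by
  have h1 := D.half j (l j - 1) (by have := (D.sad j).pos; omega)
  rw [hj] at h1
  unfold Pa
  rw [h1]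
  simp

lemma cy (D : SD O z l h t) {j : Fin 5} (hf : FixC O z h j) {w : ℕ} (hw : 0 < w)
    (hr : (O.r ^ w) (z j) = z j) : ∃ c, Cy O (z j) w (h j) c := by
  obtain ⟨c, hc⟩ := hf
  refine ⟨c, hw, D.hpos j, hr, ?_, hc⟩
  intro a b hb
  have e1 := D.strip j a b (by omega)
  have e2 := D.strip j (a + 1) b (by omega)
  have e3 := D.strip j (a + 1) (b + 1) hb
  have e4 := D.strip j a (b + 1) hb
  have e5 : O.r ((O.r ^ a) ((O.u ^ b) (z j))) = (O.r ^ (a + 1)) ((O.u ^ b) (z j)) := by
    rw [add_comm, zpow_add, zpow_one]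
    rfl
  have e6 : O.r ((O.r ^ a) ((O.u ^ (b + 1)) (z j))) = (O.r ^ (a + 1)) ((O.u ^ (b + 1)) (z j)) := by
    rw [add_comm a, zpow_add, zpow_one]
    rfl
  have e7 : ∀ y, O.u ((O.u ^ b) y) = (O.u ^ (b + 1)) y := by
    intro y
    rw [pow_succ']
    rfl
  rw [e5, ← e2, e7, e3, ← e1, e7, e4, e6]

/-- all squares are counted once -/
lemma card_eq (D : SD O z l h t) : Nat.card X = ∑ j, l j * h j := by
  have h1 : Function.Bijective (fun p : (Σ j : Fin 5, Fin (l j) × Fin (h j)) =>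
      (O.r ^ (p.2.1 : ℕ)) ((O.u ^ (p.2.2 : ℕ)) (z p.1))) := by
    constructor
    · rintro ⟨j, k, b⟩ ⟨j', k', b'⟩ e
      obtain ⟨rfl, e2, e3⟩ := D.uniq j j' k k' b b' k.2 b.2 k'.2 b'.2 e
      have e2' : k = k' := Fin.ext e2
      have e3' : b = b' := Fin.ext e3
      rw [e2', e3']
    · intro y
      obtain ⟨j, k, b, hk, hb, e⟩ := D.cover y
      exact ⟨⟨j, ⟨k, hk⟩, ⟨b, hb⟩⟩, e.symm⟩
  rw [← Nat.card_congr (Equiv.ofBijective _ h1), Nat.card_eq_fintype_card, Fintype.card_sigma]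
  simp

lemma pow_add_apply (O : Org X) (a b : ℕ) (y : X) :
    (O.r ^ (a + b)) y = (O.r ^ b) ((O.r ^ a) y) := by
  rw [add_comm, pow_add]
  rfl

lemma run_nil (O : Org X) (x : X) : FRun O x [] := trivial

lemma run_cons (D : SD O z l h t) {j j' : Fin 5} (hj : t j = j) (hn : t j - 1 = j') {L : List ℕ}
    (hL : FRun O (z j') L) : FRun O (z j) (l j :: L) := by
  refine ⟨D.sad j, fo D hj, ?_⟩
  rw [D.next j, hn]
  exact hL

lemma fixC_all (D : SD O z l h t)
    (hR : ∀ j, rep t j = j → FixC O z h j) (j : Fin 5) : FixC O z h j := by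
  obtain ⟨h1, h2⟩ := (comb t D.tt).2.2 j
  have h3 := hR _ h1
  rcases h2 with h2 | h2 | h2 | h2 | h2
  · rw [h2]; exact h3
  · rw [h2]; exact fnext D h3
  · rw [h2]; exact fnext D (fnext D h3)
  · rw [h2]; exact fnext D (fnext D (fnext D h3))
  · rw [h2]; exact fnext D (fnext D (fnext D (fnext D h3)))

/-! ### The types -/

/-- five distinct indices -/
def Five (a b c d e : Fin 5) : Prop := ∀ f : Fin 5 → ℕ, ∑ j, f j = f a + f b + f c + f d + f e

lemma type0 (D : SD O z l h t) (hF : ∀ j, FixC O z h j) {a b c d e : Fin 5}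
    (h5 : Five a b c d e) (ta : t a = a) (tb : t b = b) (tc : t c = c) (td : t d = d)
    (te : t e = e) (na : t a - 1 = b) (nb : t b - 1 = c) (nc : t c - 1 = d) (nd : t d - 1 = e)
    (ne : t e - 1 = a) : Ty0 O (Nat.card X) := by
  have ha := (D.sad a).pos
  have hh1 : h b = h a := by rw [← na]; exact D.hnext a
  have hh2 : h c = h b := by rw [← nb]; exact D.hnext b
  have hh3 : h d = h c := by rw [← nc]; exact D.hnext c
  have hh4 : h e = h d := by rw [← nd]; exact D.hnext d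
  obtain ⟨cc, hc⟩ := cy D (hF a) (w := [l a, l b, l c, l d, l e].sum) (by simp; omega) (by
    simp only [List.sum_cons, List.sum_nil, add_zero]
    rw [pow_add_apply, D.next, na, pow_add_apply, D.next, nb, pow_add_apply, D.next, nc,
      pow_add_apply, D.next, nd, D.next, ne])
  refine ⟨z a, h a, cc, [l a, l b, l c, l d, l e], rfl, hc, ?_, ?_⟩
  · exact run_cons D ta na (run_cons D tb nb (run_cons D tc nc (run_cons D td nd
      (run_cons D te ne (run_nil _ _)))))
  · rw [card_eq D, h5 (fun j => l j * h j)]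
    simp only [List.sum_cons, List.sum_nil, add_zero]
    rw [hh4, hh3, hh2, hh1]
    ring

/-- a row consisting of one saddle -/
lemma row1 (D : SD O z l h t) {a : Fin 5} (na : t a - 1 = a) : (O.r ^ (l a)) (z a) = z a := by
  rw [D.next, na]

lemma row2 (D : SD O z l h t) {a b : Fin 5} (na : t a - 1 = b) (nb : t b - 1 = a) :
    (O.r ^ (l a + l b)) (z a) = z a := by
  rw [pow_add_apply, D.next, na, D.next, nb]

lemma row3 (D : SD O z l h t) {a b c : Fin 5} (na : t a - 1 = b) (nb : t b - 1 = c)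
    (nc : t c - 1 = a) : (O.r ^ (l a + l b + l c)) (z a) = z a := by
  rw [pow_add_apply, pow_add_apply, D.next, na, D.next, nb, D.next, nc]

lemma row4 (D : SD O z l h t) {a b c d : Fin 5} (na : t a - 1 = b) (nb : t b - 1 = c)
    (nc : t c - 1 = d) (nd : t d - 1 = a) : (O.r ^ (l a + l b + l c + l d)) (z a) = z a := by
  rw [pow_add_apply, pow_add_apply, pow_add_apply, D.next, na, D.next, nb, D.next, nc, D.next, nd]

lemma hn (D : SD O z l h t) {a b : Fin 5} (na : t a - 1 = b) : h b = h a := by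
  rw [← na]; exact D.hnext a

lemma lp (D : SD O z l h t) {a b : Fin 5} (na : t a = b) : l b = l a := by
  rw [← na]; exact D.lt a

/-- attached cylinder whose bottom row consists of the saddle `b` and of folded saddles -/
lemma att0 (D : SD O z l h t) (hF : ∀ j, FixC O z h j) {a b : Fin 5} (ta : t a = b)
    (tb : t b = a) (nb : t b - 1 = b) : Att O (z a) (l a) [] (l b * h b) := by
  have e := lp D ta
  obtain ⟨cc, hc⟩ := cy D (hF b) (w := l a + ([] : List ℕ).sum)
    (by simpa using (D.sad a).pos) (by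
      simp only [List.sum_nil, add_zero]; rw [← e]; exact row1 D nb)
  refine ⟨z b, h b, cc, pa D ta, ?_, ?_, hc, trivial, ?_⟩
  · rw [← e]; exact pa D tb
  · rw [← e]; exact D.sad b
  · simp [e]

lemma att1 (D : SD O z l h t) (hF : ∀ j, FixC O z h j) {a b c : Fin 5} (ta : t a = b)
    (tb : t b = a) (tc : t c = c) (nb : t b - 1 = c) (nc : t c - 1 = b) :
    Att O (z a) (l a) [l c] ((l b + l c) * h b) := by
  have e := lp D ta
  obtain ⟨cc, hc⟩ := cy D (hF b) (w := l a + [l c].sum)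
    (by have := (D.sad a).pos; omega) (by
      simp only [List.sum_cons, List.sum_nil, add_zero]; rw [← e]; exact row2 D nb nc)
  refine ⟨z b, h b, cc, pa D ta, ?_, ?_, hc, ?_, ?_⟩
  · rw [← e]; exact pa D tb
  · rw [← e]; exact D.sad b
  · rw [← e, D.next, nb]
    exact run_cons D tc nc (run_nil _ _)
  · simp [e]

lemma att2 (D : SD O z l h t) (hF : ∀ j, FixC O z h j) {a b c d : Fin 5} (ta : t a = b)
    (tb : t b = a) (tc : t c = c) (td : t d = d) (nb : t b - 1 = c) (nc : t c - 1 = d)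
    (nd : t d - 1 = b) : Att O (z a) (l a) [l c, l d] ((l b + l c + l d) * h b) := by
  have e := lp D ta
  obtain ⟨cc, hc⟩ := cy D (hF b) (w := l a + [l c, l d].sum)
    (by have := (D.sad a).pos; omega) (by
      simp only [List.sum_cons, List.sum_nil, add_zero]; rw [← e, ← add_assoc]
      exact row3 D nb nc nd)
  refine ⟨z b, h b, cc, pa D ta, ?_, ?_, hc, ?_, ?_⟩
  · rw [← e]; exact pa D tb
  · rw [← e]; exact D.sad b
  · rw [← e, D.next, nb]
    exact run_cons D tc nc (run_cons D td nd (run_nil _ _))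
  · simp [e, add_assoc]

lemma att3 (D : SD O z l h t) (hF : ∀ j, FixC O z h j) {a b c d f : Fin 5} (ta : t a = b)
    (tb : t b = a) (tc : t c = c) (td : t d = d) (tf : t f = f) (nb : t b - 1 = c)
    (nc : t c - 1 = d) (nd : t d - 1 = f) (nf : t f - 1 = b) :
    Att O (z a) (l a) [l c, l d, l f] ((l b + l c + l d + l f) * h b) := by
  have e := lp D ta
  obtain ⟨cc, hc⟩ := cy D (hF b) (w := l a + [l c, l d, l f].sum)
    (by have := (D.sad a).pos; omega) (by
      simp only [List.sum_cons, List.sum_nil, add_zero]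
      rw [← e, ← add_assoc, ← add_assoc]
      exact row4 D nb nc nd nf)
  refine ⟨z b, h b, cc, pa D ta, ?_, ?_, hc, ?_, ?_⟩
  · rw [← e]; exact pa D tb
  · rw [← e]; exact D.sad b
  · rw [← e, D.next, nb]
    exact run_cons D tc nc (run_cons D td nd (run_cons D tf nf (run_nil _ _)))
  · simp [e, add_assoc]

/-- `t = (a b)`, rows `{a}`, `{b, c, d, e}` -/
lemma type1a (D : SD O z l h t) (hF : ∀ j, FixC O z h j) {a b c d e : Fin 5}
    (h5 : Five a b c d e) (ta : t a = b) (tb : t b = a) (tc : t c = c) (td : t d = d)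
    (te : t e = e) (na : t a - 1 = a) (nb : t b - 1 = c) (nc : t c - 1 = d) (nd : t d - 1 = e)
    (ne : t e - 1 = b) : Ty1 O (Nat.card X) := by
  obtain ⟨cc, hc⟩ := cy D (hF a) (w := l a + ([] : List ℕ).sum)
    (by simpa using (D.sad a).pos) (by
      simp only [List.sum_nil, add_zero]; exact row1 D na)
  refine ⟨z a, h a, cc, l a, [], [l c, l d, l e], (l b + l c + l d + l e) * h b, rfl, hc,
    D.sad a, att3 D hF ta tb tc td te nb nc nd ne, trivial, ?_⟩
  rw [card_eq D, h5 (fun j => l j * h j)]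
  have e1 := hn D nb
  have e2 := hn D nc
  have e3 := hn D nd
  simp only [List.sum_nil, add_zero]
  rw [e3, e2, e1]
  ring

/-- `t = (a c)`, rows `{a, b}`, `{c, d, e}` -/
lemma type1b (D : SD O z l h t) (hF : ∀ j, FixC O z h j) {a b c d e : Fin 5}
    (h5 : Five a b c d e) (ta : t a = c) (tb : t b = b) (tc : t c = a) (td : t d = d)
    (te : t e = e) (na : t a - 1 = b) (nb : t b - 1 = a) (nc : t c - 1 = d) (nd : t d - 1 = e)
    (ne : t e - 1 = c) : Ty1 O (Nat.card X) := by
  obtain ⟨cc, hc⟩ := cy D (hF a) (w := l a + [l b].sum)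
    (by have := (D.sad a).pos; omega) (by
      simp only [List.sum_cons, List.sum_nil, add_zero]; exact row2 D na nb)
  refine ⟨z a, h a, cc, l a, [l b], [l d, l e], (l c + l d + l e) * h c, rfl, hc,
    D.sad a, att2 D hF ta tc td te nc nd ne, ?_, ?_⟩
  · rw [D.next, na]
    exact run_cons D tb nb (run_nil _ _)
  rw [card_eq D, h5 (fun j => l j * h j)]
  have e1 := hn D na
  have e2 := hn D nc
  have e3 := hn D nd
  simp only [List.sum_cons, List.sum_nil, add_zero]
  rw [e3, e2, e1]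
  ring

/-- `t = (a b) (c d)`, rows `{a}`, `{b, e, d}`, `{c}` -/
lemma type2a (D : SD O z l h t) (hF : ∀ j, FixC O z h j) {a b c d e : Fin 5}
    (h5 : Five a b c d e) (ta : t a = b) (tb : t b = a) (tc : t c = d) (td : t d = c)
    (te : t e = e) (na : t a - 1 = a) (nb : t b - 1 = e) (ne : t e - 1 = d) (nd : t d - 1 = b)
    (nc : t c - 1 = c) : Ty2 O (Nat.card X) := by
  obtain ⟨cc, hc⟩ := cy D (hF b) (w := l b + [l e].sum + l d)
    (by have := (D.sad b).pos; omega) (by
      simp only [List.sum_cons, List.sum_nil, add_zero]; exact row3 D nb ne nd)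
  have hm : (O.r ^ (l b + [l e].sum)) (z b) = z d := by
    simp only [List.sum_cons, List.sum_nil, add_zero]
    rw [pow_add_apply, D.next, nb, D.next, ne]
  refine ⟨z b, h b, cc, l b, l d, [l e], [], [], l a * h a, l c * h c, rfl, hc,
    D.sad b, att0 D hF tb ta na, ?_, ?_, ?_, ?_⟩
  · rw [D.next, nb]
    exact run_cons D te ne (run_nil _ _)
  · rw [hm]; exact D.sad d
  · rw [hm]; exact att0 D hF td tc nc
  rw [card_eq D, h5 (fun j => l j * h j)]
  have e1 := hn D nb
  have e2 := hn D ne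
  simp only [List.sum_cons, List.sum_nil, add_zero]
  rw [e2, e1]
  ring

/-- `t = (a d) (b c)`, rows `{a, c}`, `{b}`, `{d, e}` -/
lemma type2b (D : SD O z l h t) (hF : ∀ j, FixC O z h j) {a b c d e : Fin 5}
    (h5 : Five a b c d e) (ta : t a = d) (tb : t b = c) (tc : t c = b) (td : t d = a)
    (te : t e = e) (na : t a - 1 = c) (nc : t c - 1 = a) (nb : t b - 1 = b) (nd : t d - 1 = e)
    (ne : t e - 1 = d) : Ty2 O (Nat.card X) := by
  obtain ⟨cc, hc⟩ := cy D (hF a) (w := l a + ([] : List ℕ).sum + l c)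
    (by have := (D.sad a).pos; omega) (by
      simp only [List.sum_nil, add_zero]; exact row2 D na nc)
  have hm : (O.r ^ (l a + ([] : List ℕ).sum)) (z a) = z c := by
    simp only [List.sum_nil, add_zero]
    rw [D.next, na]
  refine ⟨z a, h a, cc, l a, l c, [], [l e], [], (l d + l e) * h d, l b * h b, rfl, hc,
    D.sad a, att1 D hF ta td te nd ne, trivial, ?_, ?_, ?_⟩
  · rw [hm]; exact D.sad c
  · rw [hm]; exact att0 D hF tc tb nb
  rw [card_eq D, h5 (fun j => l j * h j)]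
  have e1 := hn D na
  have e2 := hn D nd
  simp only [List.sum_nil, add_zero]
  rw [e2, e1]
  ring

end CB

open CB in
open Classical in
/-- Row E1, part (c). -/
theorem SD.types [Finite X] {O : Org X} {z : Fin 5 → X} {l h : Fin 5 → ℕ} {t : Fin 5 → Fin 5}
    (D : SD O z l h t)
    (h7 : 7 ≤ 2 * {j | rep t j = j ∧ FixC O z h j}.ncard + {j | t j = j}.ncard) :
    Ty0 O (Nat.card X) ∨ Ty1 O (Nat.card X) ∨ Ty2 O (Nat.card X) := by
  obtain ⟨c1, c2, -⟩ := comb t D.tt
  have n1 : {j | rep t j = j}.ncard = (Finset.univ.filter (fun j => rep t j = j)).card := by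
    rw [← Set.ncard_coe_finset]
    congr 1
    ext j
    simp
  have n2 : {j | t j = j}.ncard = (Finset.univ.filter (fun j => t j = j)).card := by
    rw [← Set.ncard_coe_finset]
    congr 1
    ext j
    simp
  have hsub : {j | rep t j = j ∧ FixC O z h j} ⊆ {j | rep t j = j} := fun j hj => hj.1
  have hle := Set.ncard_le_ncard hsub (Set.toFinite _)
  unfold cnt at c1 c2
  rw [← n1, ← n2] at c1 c2
  have heq : {j | rep t j = j ∧ FixC O z h j} = {j | rep t j = j} :=
    Set.eq_of_subset_of_ncard_le hsub (by omega) (Set.toFinite _)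
  have hR : ∀ j, rep t j = j → FixC O z h j := by
    intro j hj
    have : j ∈ {j | rep t j = j ∧ FixC O z h j} := by
      rw [heq]; exact hj
    exact this.2
  have hF := fixC_all D hR
  have hcases := c2 (by omega)
  have s5 : ∀ s : Fin 5, s + 1 - 1 = s := by decide
  rcases hcases with hs | ⟨s, h0, h1, h2, h3, h4⟩ | ⟨s, h0, h1, h2, h3, h4⟩ |
    ⟨s, h0, h1, h2, h3, h4⟩ | ⟨s, h0, h1, h2, h3, h4⟩
  · left
    refine type0 D hF (a := 0) (b := 4) (c := 3) (d := 2) (e := 1) ?_ (hs _) (hs _) (hs _) (hs _)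
      (hs _) ?_ ?_ ?_ ?_ ?_
    · intro f; rw [Fin.sum_univ_five]; ring
    all_goals rw [hs]; decide
  · right; left
    refine type1a D hF (a := s) (b := s + 1) (c := s + 4) (d := s + 3) (e := s + 2) ?_ h0 h1 h4 h3
      h2 ?_ ?_ ?_ ?_ ?_
    · intro f; rw [sum_rot f s]; ring
    · rw [h0]; exact (by decide : ∀ s : Fin 5, s + 1 - 1 = s) s
    · rw [h1]; exact (by decide : ∀ s : Fin 5, s - 1 = s + 4) s
    · rw [h4]; exact (by decide : ∀ s : Fin 5, s + 4 - 1 = s + 3) s
    · rw [h3]; exact (by decide : ∀ s : Fin 5, s + 3 - 1 = s + 2) s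
    · rw [h2]; exact (by decide : ∀ s : Fin 5, s + 2 - 1 = s + 1) s
  · right; left
    refine type1b D hF (a := s) (b := s + 1) (c := s + 2) (d := s + 4) (e := s + 3) ?_ h0 h1 h2 h4
      h3 ?_ ?_ ?_ ?_ ?_
    · intro f; rw [sum_rot f s]; ring
    · rw [h0]; exact (by decide : ∀ s : Fin 5, s + 2 - 1 = s + 1) s
    · rw [h1]; exact (by decide : ∀ s : Fin 5, s + 1 - 1 = s) s
    · rw [h2]; exact (by decide : ∀ s : Fin 5, s - 1 = s + 4) s
    · rw [h4]; exact (by decide : ∀ s : Fin 5, s + 4 - 1 = s + 3) s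
    · rw [h3]; exact (by decide : ∀ s : Fin 5, s + 3 - 1 = s + 2) s
  · right; right
    refine type2a D hF (a := s) (b := s + 1) (c := s + 2) (d := s + 3) (e := s + 4) ?_ h0 h1 h2 h3
      h4 ?_ ?_ ?_ ?_ ?_
    · intro f; rw [sum_rot f s]
    · rw [h0]; exact (by decide : ∀ s : Fin 5, s + 1 - 1 = s) s
    · rw [h1]; exact (by decide : ∀ s : Fin 5, s - 1 = s + 4) s
    · rw [h4]; exact (by decide : ∀ s : Fin 5, s + 4 - 1 = s + 3) s
    · rw [h3]; exact (by decide : ∀ s : Fin 5, s + 2 - 1 = s + 1) s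
    · rw [h2]; exact (by decide : ∀ s : Fin 5, s + 3 - 1 = s + 2) s
  · right; right
    refine type2b D hF (a := s) (b := s + 1) (c := s + 2) (d := s + 3) (e := s + 4) ?_ h0 h1 h2 h3
      h4 ?_ ?_ ?_ ?_ ?_
    · intro f; rw [sum_rot f s]
    · rw [h0]; exact (by decide : ∀ s : Fin 5, s + 3 - 1 = s + 2) s
    · rw [h2]; exact (by decide : ∀ s : Fin 5, s + 1 - 1 = s) s
    · rw [h1]; exact (by decide : ∀ s : Fin 5, s + 2 - 1 = s + 1) s
    · rw [h3]; exact (by decide : ∀ s : Fin 5, s - 1 = s + 4) s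
    · rw [h4]; exact (by decide : ∀ s : Fin 5, s + 4 - 1 = s + 3) s

end Pool.Agent.H4G
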