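import Pool.Agent.H4G.CylDefs
import Pool.Agent.H4G.Fold

/-!
# GEOM row E2 (helper96): from cylinders to chains
-/

set_option autoImplicit false

namespace Pool.Agent.H4G

variable {X : Type}

/-! ## Powers -/

theorem Org.i_r_zpow (O : Org X) (k : ℤ) (x : X) : O.i ((O.r ^ k) x) = (O.r ^ (-k)) (O.i x) := by
  have h : SemiconjBy O.i O.r O.r⁻¹ := by
    ext y
    simp only [Equiv.Perm.mul_apply]
    exact O.ir y
  have h2 := h.zpow_right k
  rw [inv_zpow, ← zpow_neg] at h2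
  have := congrArg (fun e : Equiv.Perm X => e x) h2.eq
  simpa [Equiv.Perm.mul_apply] using this

theorem Org.i_u_zpow (O : Org X) (k : ℤ) (x : X) : O.i ((O.u ^ k) x) = (O.u ^ (-k)) (O.i x) := by
  have h : SemiconjBy O.i O.u O.u⁻¹ := by
    ext y
    simp only [Equiv.Perm.mul_apply]
    exact O.iu y
  have h2 := h.zpow_right k
  rw [inv_zpow, ← zpow_neg] at h2
  have := congrArg (fun e : Equiv.Perm X => e x) h2.eq
  simpa [Equiv.Perm.mul_apply] using this

theorem r_zpow_add (O : Org X) (a b : ℤ) (x : X) :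
    (O.r ^ (a + b)) x = (O.r ^ a) ((O.r ^ b) x) := by rw [zpow_add]; rfl

theorem r_zpow_succ (O : Org X) (a : ℤ) (x : X) : (O.r ^ (a + 1)) x = O.r ((O.r ^ a) x) := by
  rw [add_comm, r_zpow_add]; rfl

theorem u_pow_succ (O : Org X) (b : ℕ) (x : X) : (O.u ^ (b + 1)) x = O.u ((O.u ^ b) x) := by
  rw [pow_succ']; rfl

theorem Cy.comm1 {O : Org X} {x : X} {w h : ℕ} {c : ℤ} (H : Cy O x w h c) (a : ℤ) (b : ℕ)
    (hb : b + 1 < h) : O.u ((O.r ^ a) ((O.u ^ b) x)) = (O.r ^ a) ((O.u ^ (b + 1)) x) := by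
  induction a using Int.induction_on with
  | zero => simp [u_pow_succ]
  | succ n ih => rw [r_zpow_succ, H.reg _ _ hb, ih, r_zpow_succ]
  | pred n ih =>
    have h1 := H.reg (-(n : ℤ) - 1) b hb
    rw [← r_zpow_succ, sub_add_cancel, ih] at h1
    have h2 : (O.r ^ (-(n : ℤ))) ((O.u ^ (b + 1)) x) =
        O.r ((O.r ^ (-(n : ℤ) - 1)) ((O.u ^ (b + 1)) x)) := by
      rw [← r_zpow_succ, sub_add_cancel]
    rw [h2] at h1
    exact (O.r.injective h1).symm

theorem Cy.commk {O : Org X} {x : X} {w h : ℕ} {c : ℤ} (H : Cy O x w h c) (a : ℤ) (b k : ℕ)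
    (hb : b + k < h) : (O.u ^ k) ((O.r ^ a) ((O.u ^ b) x)) = (O.r ^ a) ((O.u ^ (b + k)) x) := by
  induction k with
  | zero => simp
  | succ k ih =>
    rw [u_pow_succ, ih (by omega), H.comm1 a (b + k) (by omega)]
    rfl

theorem Cy.per {O : Org X} {x : X} {w h : ℕ} {c : ℤ} (H : Cy O x w h c) (b : ℕ) (hb : b < h) :
    (O.r ^ (w : ℤ)) ((O.u ^ b) x) = (O.u ^ b) x := by
  induction b with
  | zero => simpa using H.row
  | succ b ih =>
    rw [← H.comm1 w b hb, ih (by omega), u_pow_succ]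

theorem Sad.belowE {O : Org X} {y : X} {l : ℕ} (H : Sad O y l) (k : ℕ) (hk : k < l) :
    O.u.symm ((O.r ^ (k : ℤ)) y) = (O.r ^ (k : ℤ)) (O.u.symm y) := by
  induction k with
  | zero => simp
  | succ k ih =>
    have h1 := H.mid (k + 1) (by omega) hk
    unfold Org.Sing at h1
    rw [not_not] at h1
    have e : (O.r ^ (k + 1)) y = O.r ((O.r ^ (k : ℤ)) y) := by
      rw [pow_succ']; rfl
    rw [e, Equiv.symm_apply_apply, ih (by omega)] at h1
    push_cast
    rw [r_zpow_succ, r_zpow_succ, h1, Equiv.apply_symm_apply]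

/-! ## The development of a strip -/

/-- the development of the strip above the row of `x` (and of the squares just below it) -/
def strip (O : Org X) (x : X) (z : Z2) : X :=
  if 0 ≤ z.2 then (O.r ^ z.1) ((O.u ^ z.2.toNat) x) else O.u.symm ((O.r ^ z.1) x)

theorem strip_dev {O : Org X} {x : X} {w h : ℕ} {c : ℤ} (H : Cy O x w h c) {p : V}
    (h0 : 0 < p.2) (h1 : p.2 < h) : DevAt O p (strip O x) := by
  constructor
  · intro z hz hz'
    have hz2 : 0 ≤ z.2 := by
      have := hz.2.2.2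
      have : (-1 : ℝ) < z.2 := by linarith
      have : (-1 : ℤ) < z.2 := by exact_mod_cast this
      omega
    have hz2' : 0 ≤ (z + (1, 0)).2 := by simpa using hz2
    unfold strip
    rw [if_pos hz2, if_pos hz2']
    have e1 : (z + (1, 0)).1 = z.1 + 1 := rfl
    have e2 : (z + (1, 0)).2 = z.2 := by simp
    rw [e1, e2, r_zpow_succ]
  · intro z hz hz'
    have hz2 : 0 ≤ z.2 := by
      have := hz.2.2.2
      have : (-1 : ℝ) < z.2 := by linarith
      have : (-1 : ℤ) < z.2 := by exact_mod_cast this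
      omega
    have hzh : z.2 + 1 < h := by
      have := hz'.2.2.1
      have e : ((z + (0, 1)).2 : ℝ) = (z.2 : ℝ) + 1 := by simp
      rw [e] at this
      have : ((z.2 + 1 : ℤ) : ℝ) < h := by push_cast; linarith
      exact_mod_cast this
    have e1 : (z + (0, 1)).1 = z.1 := by simp
    have e2 : (z + (0, 1)).2 = z.2 + 1 := rfl
    unfold strip
    rw [if_pos hz2, if_pos (by rw [e2]; omega), e1, e2]
    have e3 : (z.2 + 1).toNat = z.2.toNat + 1 := by omega
    rw [e3, H.comm1 z.1 z.2.toNat (by omega)]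

theorem strip_dev_bot {O : Org X} {x : X} {s : ℤ} {l : ℕ} (H : Sad O ((O.r ^ s) x) l) {p : V}
    (h0 : p.2 = 0) (h1 : (s : ℝ) < p.1) (h2 : p.1 < s + l) : DevAt O p (strip O x) := by
  constructor
  · intro z hz hz'
    have e1 : (z + (1, 0)).1 = z.1 + 1 := rfl
    have e2 : (z + (1, 0)).2 = z.2 := by simp
    unfold strip
    rw [e1, e2]
    by_cases hz2 : 0 ≤ z.2
    · rw [if_pos hz2, if_pos hz2, r_zpow_succ]
    · rw [if_neg hz2, if_neg hz2]
      -- the abscissa of `p` is `z.1 + 1`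
      have h3 := hz.2.1
      have h4 := hz'.1
      rw [e1] at h4
      push_cast at h4
      have h5 : p.1 = z.1 + 1 := le_antisymm h3 h4
      have h6 : s < z.1 + 1 := by
        have : (s : ℝ) < ((z.1 + 1 : ℤ) : ℝ) := by push_cast; linarith
        exact_mod_cast this
      have h7 : z.1 + 1 < s + l := by
        have : ((z.1 + 1 : ℤ) : ℝ) < ((s + l : ℤ) : ℝ) := by push_cast; linarith
        exact_mod_cast this
      obtain ⟨k, hk⟩ : ∃ k : ℕ, z.1 = s + k := ⟨(z.1 - s).toNat, by omega⟩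
      have b1 := H.belowE k (by omega)
      have b2 := H.belowE (k + 1) (by omega)
      have c1 : (O.r ^ z.1) x = (O.r ^ (k : ℤ)) ((O.r ^ s) x) := by
        rw [← r_zpow_add, hk, add_comm]
      have c2 : (O.r ^ (z.1 + 1)) x = (O.r ^ ((k + 1 : ℕ) : ℤ)) ((O.r ^ s) x) := by
        rw [← r_zpow_add, hk]; congr 2; push_cast; ring
      rw [c1, c2, b1, b2]
      push_cast
      rw [r_zpow_succ]
  · intro z hz hz'
    have e1 : (z + (0, 1)).1 = z.1 := by simp
    have e2 : (z + (0, 1)).2 = z.2 + 1 := rfl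
    have h3 := hz.2.2.2
    have h4 := hz'.2.2.1
    rw [e2] at h4
    push_cast at h4
    have h5 : z.2 = -1 := by
      have : (z.2 : ℝ) = -1 := by linarith
      exact_mod_cast this
    unfold strip
    rw [e1, e2, h5]
    simp

theorem mem_tri_strip {c h s : ℤ} {l : ℕ} (hh : 0 < h) (hl : 0 < l) {p : V}
    (hp : p ∈ Tri (c, h) (s, 0) (s + l, 0)) :
    (0 < p.2 ∧ p.2 < h) ∨ (p.2 = 0 ∧ (s : ℝ) < p.1 ∧ p.1 < s + l) := by
  have hh' : (0 : ℝ) < h := by exact_mod_cast hh
  have hl' : (0 : ℝ) < l := by exact_mod_cast hl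
  obtain ⟨h1, h2, h3, h4, h5, h6⟩ := hp
  simp only [ori] at h1 h2 h3
  push_cast at h1 h2 h3
  have hy : 0 ≤ p.2 := by
    have : 0 ≤ (l : ℝ) * p.2 := by nlinarith
    exact nonneg_of_mul_nonneg_right this hl'
  rcases eq_or_lt_of_le hy with hy0 | hy0
  · right
    have hy1 : p.2 = 0 := hy0.symm
    rw [hy1] at h1 h3
    have k1 : (s : ℝ) ≤ p.1 := by
      have : 0 ≤ (h : ℝ) * (p.1 - s) := by nlinarith
      have := nonneg_of_mul_nonneg_right this hh'
      linarith
    have k2 : p.1 ≤ s + l := by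
      have : 0 ≤ (h : ℝ) * (s + l - p.1) := by nlinarith
      have := nonneg_of_mul_nonneg_right this hh'
      linarith
    refine ⟨hy1, lt_of_le_of_ne k1 ?_, lt_of_le_of_ne k2 ?_⟩
    · intro h; apply h5
      ext
      · simp [em, h]
      · simp [em, hy1]
    · intro h; apply h6
      ext
      · simp [em, h]
      · simp [em, hy1]
  · left
    refine ⟨hy0, ?_⟩
    have hle : p.2 ≤ h := by
      have : 0 ≤ (l : ℝ) * (h - p.2) := by nlinarith
      have := nonneg_of_mul_nonneg_right this hl'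
      linarith
    refine lt_of_le_of_ne hle ?_
    intro hph
    apply h4
    rw [hph] at h1 h3
    ext
    · simp only [em]
      have k1 : 0 ≤ (h : ℝ) * (p.1 - c) := by nlinarith
      have k2 : 0 ≤ (h : ℝ) * (c - p.1) := by nlinarith
      have := nonneg_of_mul_nonneg_right k1 hh'
      have := nonneg_of_mul_nonneg_right k2 hh'
      linarith
    · simp [em, hph]

theorem tri_strip (c h s : ℤ) (l : ℕ) : tri (c, h) (s, 0) (s + l, 0) = l * h := by
  simp [tri, cr]; ring

theorem strip_tri {O : Org X} {x : X} {w h : ℕ} {c : ℤ} (H : Cy O x w h c) {s : ℤ} {l : ℕ}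
    (hs : Sad O ((O.r ^ s) x) l) : Dev O (Tri (c, h) (s, 0) (s + l, 0)) (strip O x) := by
  intro p hp
  rcases mem_tri_strip (by exact_mod_cast H.hpos) hs.pos hp with ⟨h1, h2⟩ | ⟨h1, h2, h3⟩
  · exact strip_dev H h1 (by exact_mod_cast h2)
  · exact strip_dev_bot hs h1 h2 h3

/-! ## Folded sides -/

/-- squares near the open saddle -/
theorem near_saddle {s : ℤ} {l : ℕ} (hl : 0 < l) {p : V} (hp : p ∈ Seg (s + l, 0) (s, 0)) {z : Z2}
    (hz : Nr p z) : ∃ k : ℕ, k < l ∧ z.1 = s + k ∧ (z.2 = 0 ∨ z.2 = -1) := by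
  obtain ⟨t, h0, h1, rfl⟩ := hp
  obtain ⟨k1, k2, k3, k4⟩ := hz
  simp only at k1 k2 k3 k4
  push_cast at k1 k2 k3 k4
  have hl' : (0 : ℝ) < l := by exact_mod_cast hl
  have a1 : z.1 < s + l := by
    have : (z.1 : ℝ) < ((s + l : ℤ) : ℝ) := by push_cast; nlinarith
    exact_mod_cast this
  have a2 : s < z.1 + 1 := by
    have : (s : ℝ) < ((z.1 + 1 : ℤ) : ℝ) := by push_cast; nlinarith
    exact_mod_cast this
  have a3 : z.2 ≤ 0 := by
    have : (z.2 : ℝ) ≤ ((0 : ℤ) : ℝ) := by push_cast; linarith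
    exact_mod_cast this
  have a4 : -1 ≤ z.2 := by
    have : ((-1 : ℤ) : ℝ) ≤ (z.2 : ℝ) := by push_cast; linarith
    exact_mod_cast this
  exact ⟨(z.1 - s).toNat, by omega, by omega, by omega⟩

theorem near_cross {a c : ℤ} {h : ℕ} (hh : 0 < h) {p : V} (hp : p ∈ Seg (c, (h : ℤ)) (a, 0))
    {z : Z2} (hz : Nr p z) : 0 ≤ z.2 ∧ z.2 < h := by
  obtain ⟨t, h0, h1, rfl⟩ := hp
  obtain ⟨k1, k2, k3, k4⟩ := hz
  simp only at k1 k2 k3 k4
  push_cast at k1 k2 k3 k4
  have hh' : (0 : ℝ) < h := by exact_mod_cast hh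
  constructor
  · have : ((-1 : ℤ) : ℝ) < (z.2 : ℝ) := by push_cast; nlinarith
    have : (-1 : ℤ) < z.2 := by exact_mod_cast this
    omega
  · have : (z.2 : ℝ) < ((h : ℤ) : ℝ) := by push_cast; nlinarith
    exact_mod_cast this

theorem Cy.half {O : Org X} {x : X} {w h : ℕ} {c : ℤ} (H : Cy O x w h c) (a : ℤ) (b : ℕ)
    (hb : b < h) : O.i ((O.r ^ (c - 1 - a)) ((O.u ^ (h - 1 - b)) x)) = (O.r ^ a) ((O.u ^ b) x) := by
  have h1 := H.commk (c - 1) b (h - 1 - b) (by omega)
  have h2 : b + (h - 1 - b) = h - 1 := by omega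
  rw [h2, ← H.fix] at h1
  -- `u ^ k (r ^ (c - 1) (u ^ b x)) = i x`
  have h3 : O.i ((O.u ^ ((h - 1 - b : ℕ) : ℤ)) x) = (O.r ^ (c - 1)) ((O.u ^ b) x) := by
    rw [O.i_u_zpow, ← h1, ← zpow_natCast, ← Equiv.Perm.mul_apply, ← zpow_add]
    simp
  rw [O.i_r_zpow, ← zpow_natCast, h3, ← r_zpow_add]
  congr 2
  ring

theorem strip_cross0 {O : Org X} {x : X} {w h : ℕ} {c : ℤ} (H : Cy O x w h c) :
    Fold O (c, (h : ℤ)) (0, 0) (strip O x) := by
  intro p hp z hz
  obtain ⟨h1, h2⟩ := near_cross H.hpos hp hz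
  obtain ⟨b, hb⟩ : ∃ b : ℕ, z.2 = b := ⟨z.2.toNat, by omega⟩
  have e : rf ((c, (h : ℤ)) + (0, 0)) z = (c - 1 - z.1, ((h - 1 - b : ℕ) : ℤ)) := by
    ext
    · simp [rf]
    · simp only [rf, Prod.snd_add]; omega
  rw [e]
  have := H.half z.1 b (by omega)
  unfold strip
  rw [if_pos h1, if_pos (by simp), hb]
  simp only [Int.toNat_natCast]
  exact this.symm

theorem strip_cross1 {O : Org X} {x : X} {w h : ℕ} {c : ℤ} (H : Cy O x w h c) {w' : ℤ}
    (hw : w' = w) : Fold O (c, (h : ℤ)) (w', 0) (strip O x) := by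
  subst hw
  intro p hp z hz
  obtain ⟨h1, h2⟩ := near_cross H.hpos hp hz
  obtain ⟨b, hb⟩ : ∃ b : ℕ, z.2 = b := ⟨z.2.toNat, by omega⟩
  have e : rf ((c, (h : ℤ)) + ((w : ℤ), 0)) z = (c + w - 1 - z.1, ((h - 1 - b : ℕ) : ℤ)) := by
    ext
    · simp [rf]
    · simp only [rf, Prod.snd_add]; omega
  rw [e]
  have h3 := H.half (z.1 - w) b (by omega)
  have h4 : (O.r ^ (z.1 - w)) ((O.u ^ b) x) = (O.r ^ z.1) ((O.u ^ b) x) := by
    conv_lhs => rw [← H.per b (by omega), ← r_zpow_add]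
    congr 2
    ring
  have h5 : c - 1 - (z.1 - w) = c + w - 1 - z.1 := by ring
  rw [h4, h5] at h3
  unfold strip
  rw [if_pos h1, if_pos (by simp), hb]
  simp only [Int.toNat_natCast]
  exact h3.symm

theorem u_i_symm (O : Org X) (x : X) : O.i (O.u.symm x) = O.u (O.i x) := by
  have := O.iu (O.u.symm x)
  rw [Equiv.apply_symm_apply] at this
  rw [this, Equiv.apply_symm_apply]

/-- the reflected strip of `y'` agrees with the strip of `x` on the saddle -/
theorem att_agree {O : Org X} {x y' : X} {s : ℤ} {l : ℕ} (H : Sad O ((O.r ^ s) x) l)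
    (hy : O.i y' = (O.r ^ ((l : ℤ) - 1)) (O.u.symm ((O.r ^ s) x))) :
    Agree (Seg (s + l, 0) (s, 0)) (fun z => O.i (strip O y' (rf (s + l, 0) z))) (strip O x) := by
  intro p hp z hz
  obtain ⟨k, hk, h1, h2⟩ := near_saddle H.pos hp hz
  have hb := H.belowE k hk
  have e1 : O.i ((O.r ^ ((l : ℤ) - 1 - k)) y') = O.u.symm ((O.r ^ z.1) x) := by
    rw [O.i_r_zpow, hy, ← r_zpow_add]
    have : -((l : ℤ) - 1 - k) + ((l : ℤ) - 1) = k := by ring
    rw [this, ← hb, ← r_zpow_add, h1, add_comm]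
  rcases h2 with h2 | h2
  · have e : rf (s + l, 0) z = ((l : ℤ) - 1 - k, -1) := by
      ext
      · simp only [rf, h1]; ring
      · simp only [rf, h2]; ring
    simp only [e]
    unfold strip
    rw [if_neg (by simp), if_pos (by omega), h2, u_i_symm, e1]
    simp
  · have e : rf (s + l, 0) z = ((l : ℤ) - 1 - k, 0) := by
      ext
      · simp only [rf, h1]; ring
      · simp only [rf, h2]; ring
    simp only [e]
    unfold strip
    rw [if_pos (by simp), if_neg (by omega)]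
    simpa using e1

theorem strip_fold {O : Org X} {x : X} {s : ℤ} {l : ℕ} (H : Sad O ((O.r ^ s) x) l)
    (hF : Fo O ((O.r ^ s) x) l) : Fold O (s + l, 0) (s, 0) (strip O x) := by
  have hl := H.pos
  have hb := H.belowE (l - 1) (by omega)
  have hy : O.i ((O.r ^ s) x) = (O.r ^ ((l : ℤ) - 1)) (O.u.symm ((O.r ^ s) x)) := by
    have e : (((l - 1 : ℕ)) : ℤ) = (l : ℤ) - 1 := by omega
    rw [e] at hb
    rw [← hb, hF, ← zpow_natCast, e]
  intro p hp z hz
  have h1 := att_agree H hy p hp z hz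
  rw [← h1]
  obtain ⟨k, hk, h3, h4⟩ := near_saddle H.pos hp hz
  have e : rf ((s + (l : ℤ), 0) + (s, 0)) z = rf (s + l, 0) z + (s, 0) := by
    ext
    · simp only [rf, Prod.fst_add]; ring
    · simp [rf]
  rw [e]
  have hq : (rf (s + (l : ℤ), 0) z).2 = -1 ∨ (rf (s + (l : ℤ), 0) z).2 = 0 := by
    rcases h4 with h4 | h4
    · left; simp [rf, h4]
    · right; simp [rf, h4]
  show O.i (strip O ((O.r ^ s) x) (rf (s + (l : ℤ), 0) z)) = _
  congr 1
  generalize rf (s + (l : ℤ), 0) z = q at hq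
  unfold strip
  have e1 : (q + (s, 0)).1 = q.1 + s := rfl
  have e2 : (q + (s, 0)).2 = q.2 := by simp
  rw [e1, e2]
  rcases hq with hq | hq
  · rw [if_neg (by omega), if_neg (by omega), r_zpow_add]
  · rw [if_pos (by omega), if_pos (by omega), hq]
    simp [r_zpow_add]

/-! ## Fans -/

/-- a fan over folded saddles, continued by `E` -/
def fl (s : ℤ) : List ℕ → Tree → Tree
  | [], E => E
  | l :: L, E => .node (s + l, 0) .leaf (fl (s + l) L E)

theorem fill_node {O : Org X} {x : X} {w h : ℕ} {c : ℤ} (H : Cy O x w h c) {s : ℤ} {l : ℕ}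
    (hs : Sad O ((O.r ^ s) x) l) {t E : Tree} (ht : Fill O (s + l, 0) (s, 0) t (strip O x))
    (hE : Fill O (c, (h : ℤ)) (s + l, 0) E (strip O x)) :
    Fill O (c, (h : ℤ)) (s, 0) (.node (s + l, 0) t E) (strip O x) := by
  refine ⟨?_, strip O x, strip_tri H hs, Agree.refl _ _, ht, hE⟩
  rw [tri_strip]
  have := H.hpos
  have := hs.pos
  positivity

theorem fill_fl {O : Org X} {x : X} {w h : ℕ} {c : ℤ} (H : Cy O x w h c) (L : List ℕ) :
    ∀ (s : ℤ), FRun O ((O.r ^ s) x) L → ∀ {E : Tree},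
      Fill O (c, (h : ℤ)) (s + L.sum, 0) E (strip O x) →
      Fill O (c, (h : ℤ)) (s, 0) (fl s L E) (strip O x) := by
  induction L with
  | nil => intro s _ E hE; simpa [fl] using hE
  | cons l L ih =>
    intro s hF E hE
    obtain ⟨h1, h2, h3⟩ := hF
    refine fill_node H h1 (strip_fold h1 h2) (ih (s + l) ?_ ?_)
    · rw [add_comm, r_zpow_add, zpow_natCast]; exact h3
    · have : s + l + ((L.sum : ℕ) : ℤ) = s + (((l :: L).sum : ℕ) : ℤ) := by
        rw [List.sum_cons]; push_cast; ring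
      rw [this]; exact hE

theorem area_fl (c h : ℤ) (L : List ℕ) : ∀ (s : ℤ) (E : Tree),
    (fl s L E).area (c, h) (s, 0) = h * L.sum + E.area (c, h) (s + L.sum, 0) := by
  induction L with
  | nil => intro s E; simp [fl]
  | cons l L ih =>
    intro s E
    have : s + (((l :: L).sum : ℕ) : ℤ) = s + l + ((L.sum : ℕ) : ℤ) := by
      rw [List.sum_cons]; push_cast; ring
    rw [this, List.sum_cons]
    simp only [fl, Tree.area, tri_strip, ih]
    push_cast; ring

theorem area_rp (c : Z2) (t : Tree) : ∀ A B : Z2,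
    (t.map (rp c)).area (rp c A) (rp c B) = t.area A B := by
  induction t with
  | leaf => intro A B; rfl
  | node C l r ihl ihr =>
    intro A B
    simp only [Tree.map, Tree.area, tri_rp, ihl, ihr]

theorem area_shift (c : Z2) (t : Tree) : ∀ A B : Z2,
    (t.map (fun p => p + c)).area (A + c) (B + c) = t.area A B := by
  induction t with
  | leaf => intro A B; rfl
  | node C l r ihl ihr =>
    intro A B
    simp only [Tree.map, Tree.area, ihl, ihr]
    congr 2
    simp [tri]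

/-! ## Path trees -/

/-- Path trees with `n` triangles. -/
inductive Pathy : ℕ → Tree → Prop
  | leaf : Pathy 0 .leaf
  | r {n : ℕ} (C : Z2) {t : Tree} : Pathy n t → Pathy (n + 1) (.node C .leaf t)
  | l {n : ℕ} (C : Z2) {t : Tree} : Pathy n t → Pathy (n + 1) (.node C t .leaf)

theorem Pathy.map (φ : Z2 → Z2) {n : ℕ} {t : Tree} (h : Pathy n t) : Pathy n (t.map φ) := by
  induction h with
  | leaf => exact .leaf
  | r C _ ih => exact .r _ ih
  | l C _ ih => exact .l _ ih

theorem Pathy.fl {n : ℕ} {E : Tree} (hE : Pathy n E) (L : List ℕ) :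
    ∀ s : ℤ, Pathy (L.length + n) (fl s L E) := by
  induction L with
  | nil => intro s; simpa [H4G.fl] using hE
  | cons l L ih =>
    intro s
    have := Pathy.r (s + l, 0) (ih (s + l))
    have e : (l :: L).length + n = L.length + n + 1 := by simp; omega
    rw [e]
    exact this

/-- right paths -/
def pr : List Z2 → Tree
  | [] => .leaf
  | C :: L => .node C .leaf (pr L)

theorem pr_map (φ : Z2 → Z2) (L : List Z2) : (pr L).map φ = pr (L.map φ) := by
  induction L with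
  | nil => rfl
  | cons C L ih => simp [pr, Tree.map, ih]

theorem Pathy.straight {O : Org X} : ∀ (n : ℕ) {t : Tree} (_ : Pathy n t) {A B : Z2}
    {g : Z2 → X} (_ : Fill O A B t g),
    ∃ L : List Z2, L.length = n ∧ Fill O A B (pr L) g ∧ (pr L).area A B = t.area A B := by
  intro n
  induction n with
  | zero =>
    intro t ht A B g h
    cases ht
    exact ⟨[], rfl, h, rfl⟩
  | succ n ih =>
    have key : ∀ {C : Z2} {t : Tree} (_ : Pathy n t) {A B : Z2} {g : Z2 → X}
        (_ : Fill O A B (.node C .leaf t) g),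
        ∃ L : List Z2, L.length = n + 1 ∧ Fill O A B (pr L) g ∧
          (pr L).area A B = (Tree.node C .leaf t).area A B := by
      intro C t ht A B g h
      obtain ⟨h0, f, h1, h2, h3, h4⟩ := h
      obtain ⟨L, hL, h5, h6⟩ := ih ht h4
      refine ⟨C :: L, by simp [hL], ⟨h0, f, h1, h2, h3, h5⟩, ?_⟩
      simp only [pr, Tree.area, h6]
    intro t ht A B g h
    cases ht with
    | r C ht => exact key ht h
    | l C ht =>
      rename_i t
      obtain ⟨L, hL, h5, h6⟩ := key (ht.map (rp (A + C))) h.foldr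
      refine ⟨L, hL, h5, ?_⟩
      rw [h6]
      have := area_rp (A + C) t C B
      have e1 : rp (A + C) C = A := by simp [rp]
      have e2 : rp (A + C) B = A + C - B := rfl
      rw [e1, e2] at this
      simp only [Tree.area, this]
      have : tri A B (A + C - B) = tri A B C := by simp [tri, cr]; ring
      rw [this]; ring

theorem merge {O : Org X} (M : ℕ) : ∀ (L' : List Z2) (_ : L'.length = M) (L : List Z2) (A B : Z2)
    (_ : Has O A B (pr L) (pr L')), ∃ (A' B' : Z2) (L'' : List Z2),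
      L''.length = L.length + L'.length ∧ Has O A' B' (pr L'') .leaf ∧
      (pr L'').area A' B' = (pr L).area A B + (pr L').area B A := by
  induction M with
  | zero =>
    intro L' hL' L A B h
    have : L' = [] := List.length_eq_zero_iff.mp hL'
    subst this
    exact ⟨A, B, L, rfl, h, by simp [pr, Tree.area]⟩
  | succ M ih =>
    intro L' hL' L A B h
    obtain ⟨C, K, rfl⟩ : ∃ C K, L' = C :: K := by
      cases L' with
      | nil => simp at hL'
      | cons C K => exact ⟨C, K, rfl⟩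
    have hK : K.length = M := by simpa using hL'
    obtain ⟨g, h1, h2, h3⟩ := h
    have h4 : Has O B A (.node (A + C - B) ((pr K).map (rp (A + C))) .leaf) (pr L) :=
      Has.symm ⟨g, h1, h2, Fill.foldl h3⟩
    have h5 := h4.left.symm
    rw [pr_map] at h5
    obtain ⟨A', B', L'', k1, k2, k3⟩ := ih (K.map (rp (A + C))) (by simpa using hK) (B :: L) A
      (A + C - B) h5
    refine ⟨A', B', L'', ?_, k2, ?_⟩
    · rw [k1]; simp; omega
    · rw [k3, ← pr_map]
      have := area_rp (A + C) (pr K) B C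
      have e1 : rp (A + C) C = A := by simp [rp]
      have e2 : rp (A + C) B = A + C - B := rfl
      rw [e1, e2] at this
      rw [this]
      simp only [pr, Tree.area]
      have : tri A (A + C - B) B = tri B A C := by simp [tri, cr]; ring
      rw [this]; ring

theorem chain_of_pr {O : Org X} {A B : Z2} {L : List Z2} (hL : L.length = 5)
    (h : Has O A B (pr L) .leaf) : ∃ c : C6, Pos c ∧ vol c = (pr L).area A B ∧ Chain O c := by
  obtain ⟨a1, a2, a3, a4, a5, rfl⟩ : ∃ a1 a2 a3 a4 a5, L = [a1, a2, a3, a4, a5] := by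
    match L, hL with
    | [a1, a2, a3, a4, a5], _ => exact ⟨a1, a2, a3, a4, a5, rfl⟩
  have h1 := h.shift (-A)
  rw [add_neg_cancel] at h1
  refine ⟨(B + -A, a1 + -A, a2 + -A, a3 + -A, a4 + -A, a5 + -A), ?_, ?_, h1⟩
  · obtain ⟨g, _, h2, _⟩ := h1
    obtain ⟨p1, f1, _, _, _, p2, f2, _, _, _, p3, f3, _, _, _, p4, f4, _, _, _, p5, f5, _⟩ := h2
    simp only [tri, sub_zero] at p1 p2 p3 p4 p5
    exact ⟨p1, p2, p3, p4, p5⟩
  · simp only [vol, pr, Tree.area, tri, sub_eq_add_neg]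
    ring

theorem chain_of_pathy {O : Org X} {A B : Z2} {n m : ℕ} {t t' : Tree} (hn : Pathy n t)
    (hm : Pathy m t') (hnm : n + m = 5) (h : Has O A B t t') :
    ∃ c : C6, Pos c ∧ vol c = t.area A B + t'.area B A ∧ Chain O c := by
  obtain ⟨g, h1, h2, h3⟩ := h
  obtain ⟨L, k1, k2, k3⟩ := Pathy.straight n hn h2
  obtain ⟨L', k1', k2', k3'⟩ := Pathy.straight m hm h3
  obtain ⟨A', B', L'', e1, e2, e3⟩ := merge m L' k1' L A B ⟨g, h1, k2, k2'⟩
  obtain ⟨c, c1, c2, c3⟩ := chain_of_pr (by rw [e1, k1, k1', hnm]) e2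
  exact ⟨c, c1, by rw [c2, e3, k3, k3'], c3⟩

/-! ## The cross side -/

theorem cross_dev {O : Org X} {x : X} {w h : ℕ} {c : ℤ} (H : Cy O x w h c) :
    Dev O (Seg (c, (h : ℤ)) (0, 0)) (strip O x) := by
  intro p hp
  obtain ⟨t, h0, h1, rfl⟩ := hp
  have hh' : (0 : ℝ) < h := by exact_mod_cast H.hpos
  refine strip_dev H ?_ ?_ <;> simp only <;> push_cast <;> nlinarith

theorem has_of {O : Org X} {x : X} {w h : ℕ} {c : ℤ} (H : Cy O x w h c) {t : Tree}
    (ht : Fill O (c, (h : ℤ)) (0, 0) t (strip O x)) : Has O (c, (h : ℤ)) (0, 0) t .leaf :=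
  ⟨strip O x, cross_dev H, ht, (strip_cross0 H).symm⟩

/-- an attached cylinder as a tree -/
theorem Att.fill {O : Org X} {x : X} {s : ℤ} {e n : ℕ} {L : List ℕ}
    (hs : Sad O ((O.r ^ s) x) e) (h : Att O ((O.r ^ s) x) e L n) :
    ∃ t : Tree, Fill O (s + e, 0) (s, 0) t (strip O x) ∧ Pathy (L.length + 1) t ∧
      t.area (s + e, 0) (s, 0) = n := by
  obtain ⟨y, h, c, hP, hP', hS, hC, hF, hn⟩ := h
  have hy : O.i y = (O.r ^ ((e : ℤ) - 1)) (O.u.symm ((O.r ^ s) x)) := by
    have he := hs.pos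
    have e1 : (((e - 1 : ℕ)) : ℤ) = (e : ℤ) - 1 := by omega
    unfold Pa at hP'
    rw [hP', Equiv.symm_apply_apply, ← zpow_natCast, O.i_r_zpow, ← r_zpow_add, e1]
    simp
  have hS0 : Sad O ((O.r ^ (0 : ℤ)) y) e := by simpa using hS
  have hE : Fill O (c, (h : ℤ)) (0 + e, 0) (fl (0 + e) L .leaf) (strip O y) := by
    refine fill_fl hC L _ (by simpa using hF) ?_
    exact strip_cross1 hC (by push_cast; ring)
  have h1 : Fill O (0, 0) ((e : ℤ), 0) (.node (c, (h : ℤ)) (fl (0 + e) L .leaf) .leaf)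
      (strip O y) := by
    refine ⟨?_, strip O y, ?_, Agree.refl _ _, by simpa using hE, (strip_cross0 hC).symm⟩
    · have := hC.hpos
      have := hs.pos
      simp only [tri, cr, Prod.fst_sub, Prod.snd_sub]
      have : (0 : ℤ) < (e : ℤ) * h := by positivity
      linarith
    · have := strip_tri hC hS0
      rw [← Tri_rot] at this
      simpa using this
  have h2 := h1.refl (s + e, 0)
  have e1 : rp (s + (e : ℤ), 0) (0, 0) = (s + e, 0) := by simp [rp]
  have e2 : rp (s + (e : ℤ), 0) ((e : ℤ), 0) = (s, 0) := by simp [rp]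
  refine ⟨(Tree.node (c, (h : ℤ)) (fl (0 + e) L .leaf) .leaf).map (rp (s + e, 0)), ?_, ?_, ?_⟩
  · rw [e1, e2] at h2
    exact h2.congr (att_agree hs hy)
  · exact (Pathy.l _ ((Pathy.leaf.fl L _))).map _
  · have := area_rp (s + e, 0) (.node (c, (h : ℤ)) (fl (0 + e) L .leaf) .leaf) (0, 0) ((e : ℤ), 0)
    rw [e1, e2] at this
    rw [this]
    simp only [Tree.area]
    have := area_fl c h L (0 + e) .leaf
    rw [zero_add] at this ⊢
    rw [this, hn]
    simp only [tri, cr, Prod.fst_sub, Prod.snd_sub, Tree.area]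
    push_cast
    ring

/-! ## The five types -/

theorem chain_of_Ty0 {O : Org X} {N : ℕ} (h : Ty0 O N) :
    ∃ c : C6, Pos c ∧ vol c = N ∧ Chain O c := by
  obtain ⟨x, h, c, L, hL, hC, hF, hN⟩ := h
  have h1 : Fill O (c, (h : ℤ)) (0, 0) (fl 0 L .leaf) (strip O x) := by
    refine fill_fl hC L _ (by simpa using hF) ?_
    exact strip_cross1 hC (by push_cast; ring)
  obtain ⟨d, d1, d2, d3⟩ := chain_of_pathy (Pathy.leaf.fl L 0) Pathy.leaf (by omega) (has_of hC h1)
  refine ⟨d, d1, ?_, d3⟩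
  rw [d2]
  have := area_fl c h L 0 .leaf
  rw [this, hN]
  simp only [Tree.area]
  push_cast
  ring

theorem chain_of_Ty1 {O : Org X} {N : ℕ} (h : Ty1 O N) :
    ∃ c : C6, Pos c ∧ vol c = N ∧ Chain O c := by
  obtain ⟨x, h, c, e, M, L, n, hML, hC, hS, hA, hF, hN⟩ := h
  have hS0 : Sad O ((O.r ^ (0 : ℤ)) x) e := by simpa using hS
  have hA0 : Att O ((O.r ^ (0 : ℤ)) x) e L n := by simpa using hA
  obtain ⟨t, t1, t2, t3⟩ := Att.fill hS0 hA0
  have h1 : Fill O (c, (h : ℤ)) (0 + e, 0) (fl (0 + e) M .leaf) (strip O x) := by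
    refine fill_fl hC M _ (by simpa using hF) ?_
    exact strip_cross1 hC (by push_cast; ring)
  have h2 := (has_of hC (fill_node hC hS0 t1 h1)).right
  obtain ⟨d, d1, d2, d3⟩ := chain_of_pathy (Pathy.leaf.fl M _) (Pathy.r _ t2) (by omega) h2
  refine ⟨d, d1, ?_, d3⟩
  rw [d2]
  have := area_fl c h M (0 + e) .leaf
  rw [this, hN]
  simp only [Tree.area, t3]
  simp only [tri, cr, Prod.fst_sub, Prod.snd_sub]
  push_cast
  ring

theorem chain_of_Ty2 {O : Org X} {N : ℕ} (h : Ty2 O N) :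
    ∃ c : C6, Pos c ∧ vol c = N ∧ Chain O c := by
  obtain ⟨x, h, c, e, e', M, L, L', n, n', hML, hC, hS, hA, hF, hS', hA', hN⟩ := h
  have hS0 : Sad O ((O.r ^ (0 : ℤ)) x) e := by simpa using hS
  have hA0 : Att O ((O.r ^ (0 : ℤ)) x) e L n := by simpa using hA
  obtain ⟨t, t1, t2, t3⟩ := Att.fill hS0 hA0
  have ee : (O.r ^ (e + M.sum)) x = (O.r ^ ((0 : ℤ) + e + ((M.sum : ℕ) : ℤ))) x := by
    rw [zero_add, ← Nat.cast_add, zpow_natCast]
  rw [ee] at hS' hA'
  obtain ⟨t', t1', t2', t3'⟩ := Att.fill hS' hA'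
  have h0 : Fill O (c, (h : ℤ)) (0 + e + ((M.sum : ℕ) : ℤ), 0)
      (.node (0 + e + ((M.sum : ℕ) : ℤ) + e', 0) t' .leaf) (strip O x) := by
    refine fill_node hC hS' t1' ?_
    exact strip_cross1 hC (by push_cast; ring)
  have h1 : Fill O (c, (h : ℤ)) (0 + e, 0) (fl (0 + e) M
      (.node (0 + e + ((M.sum : ℕ) : ℤ) + e', 0) t' .leaf)) (strip O x) :=
    fill_fl hC M _ (by simpa using hF) h0
  have h2 := (has_of hC (fill_node hC hS0 t1 h1)).right
  obtain ⟨d, d1, d2, d3⟩ := chain_of_pathy ((Pathy.l _ t2').fl M _) (Pathy.r _ t2) (by omega) h2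
  refine ⟨d, d1, ?_, d3⟩
  rw [d2]
  have := area_fl c h M (0 + e) (.node (0 + e + ((M.sum : ℕ) : ℤ) + e', 0) t' .leaf)
  rw [this, hN]
  simp only [Tree.area, t3, t3', tri_strip]
  simp only [tri, cr, Prod.fst_sub, Prod.snd_sub]
  push_cast
  ring

end Pool.Agent.H4G
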