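import Pool.Agent.H4G.Sad
import Pool.Agent.H4G.Count
import Pool.Agent.H4G.CylB
import Pool.Agent.H4G.Exist

/-!
# Row E1: every hyperelliptic origami is of one of the three types (helper40, helper65, helper19)
-/

set_option autoImplicit false

namespace Pool.Agent.H4G

variable {X : Type}

theorem cyl_types [Finite X] {O : Org X} (hO : Hyp O) :
    Ty0 O (Nat.card X) ∨ Ty1 O (Nat.card X) ∨ Ty2 O (Nat.card X) := by
  obtain ⟨z, l, h, t, D⟩ := exists_SD hO
  exact D.types (D.count hO.seven)

theorem exists_chain [Finite X] {O : Org X} (hO : Hyp O) :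
    ∃ c : C6, Pos c ∧ vol c = Nat.card X ∧ Chain O c := by
  rcases cyl_types hO with h | h | h
  · exact chain_of_Ty0 h
  · exact chain_of_Ty1 h
  · exact chain_of_Ty2 h

end Pool.Agent.H4G
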