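import Pool.Agent.H4G.Sad

/-!
# Row E1 (c), first part: number of squares, cylinders (helper40)
-/

set_option autoImplicit false

namespace Pool.Agent.H4G

variable {X : Type} {O : Org X} {z : Fin 5 → X} {l h : Fin 5 → ℕ} {t : Fin 5 → Fin 5}

theorem SD.card (D : SD O z l h t) : Nat.card X = ∑ j, l j * h j := by
  have hb : Function.Bijective (fun p : (Σ j : Fin 5, Fin (l j) × Fin (h j)) =>
      (O.r ^ (p.2.1 : ℕ)) ((O.u ^ (p.2.2 : ℕ)) (z p.1))) := by
    constructor
    · rintro ⟨j, k, b⟩ ⟨j', k', b'⟩ e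
      obtain ⟨h1, h2, h3⟩ := D.uniq j j' k k' b b' k.isLt b.isLt k'.isLt b'.isLt e
      subst h1
      have h2' : k = k' := Fin.ext h2
      have h3' : b = b' := Fin.ext h3
      rw [h2', h3']
    · intro y
      obtain ⟨j, k, b, hk, hb, e⟩ := D.cover y
      exact ⟨⟨j, ⟨k, hk⟩, ⟨b, hb⟩⟩, e.symm⟩
  rw [← Nat.card_congr (Equiv.ofBijective _ hb), Nat.card_eq_fintype_card, Fintype.card_sigma]
  simp

theorem SD.cy (D : SD O z l h t) {j : Fin 5} {w : ℕ} (hw : 0 < w) (hr : (O.r ^ w) (z j) = z j)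
    (hf : FixC O z h j) : ∃ c : ℤ, Cy O (z j) w (h j) c := by
  obtain ⟨c, hc⟩ := hf
  refine ⟨c, hw, D.hpos j, hr, ?_, hc⟩
  intro a b hb
  have e : ∀ a : ℤ, O.u ((O.r ^ a) ((O.u ^ b) (z j))) = (O.r ^ a) ((O.u ^ (b + 1)) (z j)) := by
    intro a
    rw [← D.strip j a b (by omega), ← D.strip j a (b + 1) hb, pz_nat, p_pz, pz_nat, Nat.cast_add,
      Nat.cast_one]
  rw [p_pz, e, e, p_pz]

theorem SD.fo (D : SD O z l h t) {j : Fin 5} (hj : t j = j) : Fo O (z j) (l j) := by
  have h1 := D.half j 0 (D.sad j).pos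
  rw [hj, pow_zero, Nat.sub_zero] at h1
  exact h1

theorem SD.pa (D : SD O z l h t) (j : Fin 5) : Pa O (z j) (l j) (z (t j)) := by
  have hp := (D.sad j).pos
  have h1 := D.half j (l j - 1) (by omega)
  rw [Nat.sub_self, pow_zero] at h1
  unfold Pa
  rw [h1]
  exact (O.u.apply_symm_apply _).symm

/-- rotation of the numbering -/
theorem SD.rot (D : SD O z l h t) (m : Fin 5) :
    SD O (fun j => z (j + m)) (fun j => l (j + m)) (fun j => h (j + m))
      (fun j => t (j + m) - m) where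
  inj i j e := by
    have := D.inj e
    exact add_right_cancel this
  sing x := by
    rw [D.sing]
    constructor
    · rintro ⟨j, hj⟩; exact ⟨j - m, by rw [sub_add_cancel]; exact hj⟩
    · rintro ⟨j, hj⟩; exact ⟨j + m, hj⟩
  sad j := D.sad _
  next j := by
    have : t (j + m) - m - 1 + m = t (j + m) - 1 := by abel
    rw [this]; exact D.next _
  tt j := by
    rw [sub_add_cancel, D.tt, add_sub_cancel_right]
  lt j := by
    rw [sub_add_cancel, D.lt]
  half j k hk := by
    rw [sub_add_cancel]; exact D.half _ k hk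
  hpos j := D.hpos _
  hnext j := by
    have : t (j + m) - m - 1 + m = t (j + m) - 1 := by abel
    rw [this]; exact D.hnext _
  strip j := D.strip _
  inner j := D.inner _
  cover y := by
    obtain ⟨j, k, b, hk, hb, e⟩ := D.cover y
    exact ⟨j - m, k, b, by rw [sub_add_cancel]; exact hk, by rw [sub_add_cancel]; exact hb,
      by rw [sub_add_cancel]; exact e⟩
  uniq j j' k k' b b' h1 h2 h3 h4 e := by
    obtain ⟨h5, h6⟩ := D.uniq _ _ k k' b b' h1 h2 h3 h4 e
    exact ⟨add_right_cancel h5, h6⟩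
  top j a := by
    obtain ⟨j', k', hk', e⟩ := D.top (j + m) a
    exact ⟨j' - m, k', by rw [sub_add_cancel]; exact hk', by rw [sub_add_cancel]; exact e⟩
  img j := by
    obtain ⟨j', c, h1, h2⟩ := D.img (j + m)
    exact ⟨j' - m, c, by rw [sub_add_cancel]; exact h1, by rw [sub_add_cancel]; exact h2⟩

/-- the property of being fixed only depends on the row -/
theorem SD.fixC_row (D : SD O z l h t) {j j' : Fin 5} {a : ℤ} (e : z j' = (O.r ^ a) (z j))
    (hh : h j' = h j) (hf : FixC O z h j) : FixC O z h j' := by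
  obtain ⟨c, hc⟩ := hf
  have hp := D.hpos j
  refine ⟨c - a - a, ?_⟩
  rw [e, hh, O.irz, hc, pz_add, D.strip j a (h j - 1) (by omega), pz_add]
  congr 2; ring

end Pool.Agent.H4G
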