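import Pool.Agent.H4G.Defs

/-!
# GEOM rows E1 / E2: interface between the combinatorics of cylinders and chains (helper96)
-/

set_option autoImplicit false

namespace Pool.Agent.H4G

variable {X : Type}

/-- The lower left corner of the square `x` is singular. -/
def Org.Sing (O : Org X) (x : X) : Prop := O.u.symm (O.r.symm x) ≠ O.r.symm (O.u.symm x)

/-- A horizontal saddle of length `l` starts at the lower left corner of `x` (it consists of the
bottom edges of `x, r x, ..., r ^ (l - 1) x`). -/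
structure Sad (O : Org X) (x : X) (l : ℕ) : Prop where
  pos : 0 < l
  start : O.Sing x
  stop : O.Sing ((O.r ^ l) x)
  mid : ∀ a : ℕ, 0 < a → a < l → ¬ O.Sing ((O.r ^ a) x)

/-- The saddle of length `l` at `x` is folded: the half turn about its midpoint is `i`. -/
def Fo (O : Org X) (x : X) (l : ℕ) : Prop := O.i x = O.u.symm ((O.r ^ (l - 1)) x)

/-- The image under `i` of the saddle of length `l` at `x` is the saddle at `y`. -/
def Pa (O : Org X) (x : X) (l : ℕ) (y : X) : Prop := y = O.u (O.i ((O.r ^ (l - 1)) x))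

/-- The row of `x` is the bottom row of a horizontal cylinder of circumference `w` and height `h`
which is mapped to itself by `i`; the half turn about `(c / 2, h / 2)` is `i`
(the lower left corner of `x` being the origin). -/
structure Cy (O : Org X) (x : X) (w h : ℕ) (c : ℤ) : Prop where
  wpos : 0 < w
  hpos : 0 < h
  row : (O.r ^ w) x = x
  reg : ∀ (a : ℤ) (b : ℕ), b + 1 < h →
    O.u (O.r ((O.r ^ a) ((O.u ^ b) x))) = O.r (O.u ((O.r ^ a) ((O.u ^ b) x)))
  fix : O.i x = (O.r ^ (c - 1)) ((O.u ^ (h - 1)) x)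

/-- Consecutive folded saddles of lengths `L`, the first one at `x`. -/
def FRun (O : Org X) : X → List ℕ → Prop
  | _, [] => True
  | x, l :: L => Sad O x l ∧ Fo O x l ∧ FRun O ((O.r ^ l) x) L

/-- The saddle of length `e` at `x` is not folded; its image is the saddle at `y`, the first bottom
saddle of a cylinder with `n` squares whose other bottom saddles are folded and have lengths `L`. -/
def Att (O : Org X) (x : X) (e : ℕ) (L : List ℕ) (n : ℕ) : Prop :=
  ∃ (y : X) (h : ℕ) (c : ℤ), Pa O x e y ∧ Pa O y e x ∧ Sad O y e ∧ Cy O y (e + L.sum) h c ∧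
    FRun O ((O.r ^ e) y) L ∧ n = (e + L.sum) * h

/-- One cylinder, five folded saddles. -/
def Ty0 (O : Org X) (N : ℕ) : Prop :=
  ∃ (x : X) (h : ℕ) (c : ℤ) (L : List ℕ), L.length = 5 ∧ Cy O x L.sum h c ∧ FRun O x L ∧
    N = L.sum * h

/-- Two cylinders, joined along one pair of saddles. -/
def Ty1 (O : Org X) (N : ℕ) : Prop :=
  ∃ (x : X) (h : ℕ) (c : ℤ) (e : ℕ) (M L : List ℕ) (n : ℕ), M.length + L.length = 3 ∧
    Cy O x (e + M.sum) h c ∧ Sad O x e ∧ Att O x e L n ∧ FRun O ((O.r ^ e) x) M ∧
    N = (e + M.sum) * h + n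

/-- Three cylinders, the one at `x` in the middle. -/
def Ty2 (O : Org X) (N : ℕ) : Prop :=
  ∃ (x : X) (h : ℕ) (c : ℤ) (e e' : ℕ) (M L L' : List ℕ) (n n' : ℕ),
    M.length + L.length + L'.length = 1 ∧
    Cy O x (e + M.sum + e') h c ∧ Sad O x e ∧ Att O x e L n ∧ FRun O ((O.r ^ e) x) M ∧
    Sad O ((O.r ^ (e + M.sum)) x) e' ∧ Att O ((O.r ^ (e + M.sum)) x) e' L' n' ∧
    N = (e + M.sum + e') * h + n + n'

end Pool.Agent.H4G
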