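import Mathlib

/-!
# Hyperelliptic origamis: developments and folded polygons (MP_4f7c28, GEOM part, helper96)

The plane is `V = ℝ × ℝ`, lattice points are `Z2 = ℤ × ℤ`, the unit square `z` is
`[z.1, z.1 + 1] × [z.2, z.2 + 1]`. An origami with anti-automorphism is a structure `Org X`.
A *development* on a set `K` of the plane is a map `f` from squares to `X` such that for every
point `x ∈ K` the values of `f` on the (one, two or four) closed squares containing `x` fit together.
A triangulated polygon lying on the left of a directed side is a binary tree `Tree`; the predicate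
`Fill` says that the polygon is developed in the origami, all its other sides being folded.
-/

set_option autoImplicit false

namespace Pool.Agent.H4G

/-- The plane. -/
abbrev V : Type := ℝ × ℝ

/-- Lattice points, and unit squares (named by their lower left corner). -/
abbrev Z2 : Type := ℤ × ℤ

/-- The inclusion of the lattice in the plane. -/
def em (z : Z2) : V := ((z.1 : ℝ), (z.2 : ℝ))

/-- The closed unit square `z` contains the point `x`. -/
def Nr (x : V) (z : Z2) : Prop :=
  (z.1 : ℝ) ≤ x.1 ∧ x.1 ≤ (z.1 : ℝ) + 1 ∧ (z.2 : ℝ) ≤ x.2 ∧ x.2 ≤ (z.2 : ℝ) + 1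

/-- An origami (right neighbour `r`, upper neighbour `u`) with an anti-automorphism `i` which is an
involution. -/
structure Org (X : Type) where
  r : Equiv.Perm X
  u : Equiv.Perm X
  i : Equiv.Perm X
  ii : ∀ x, i (i x) = x
  ir : ∀ x, i (r x) = r.symm (i x)
  iu : ∀ x, i (u x) = u.symm (i x)

/-- The exterior product of lattice vectors. -/
def cr (a b : Z2) : ℤ := a.1 * b.2 - a.2 * b.1

/-- Twice the signed area of the triangle `A B C`. -/
def tri (A B C : Z2) : ℤ := cr (B - A) (C - A)

/-- The signed area function of the directed line `A → B`: positive on the left. -/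
def ori (A B : Z2) (x : V) : ℝ :=
  ((B.1 : ℝ) - A.1) * (x.2 - A.2) - ((B.2 : ℝ) - A.2) * (x.1 - A.1)

/-- The closed triangle without its three vertices. -/
def Tri (A B C : Z2) : Set V :=
  {x | 0 ≤ ori A B x ∧ 0 ≤ ori B C x ∧ 0 ≤ ori C A x ∧ x ≠ em A ∧ x ≠ em B ∧ x ≠ em C}

/-- The open segment. -/
def Seg (A B : Z2) : Set V :=
  {x | ∃ t : ℝ, 0 < t ∧ t < 1 ∧ x = ((1 - t) * A.1 + t * B.1, (1 - t) * A.2 + t * B.2)}

variable {X : Type}

/-- The values of `f` on the closed squares containing `x` fit together. -/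
def DevAt (O : Org X) (x : V) (f : Z2 → X) : Prop :=
  (∀ z : Z2, Nr x z → Nr x (z + (1, 0)) → f (z + (1, 0)) = O.r (f z)) ∧
  (∀ z : Z2, Nr x z → Nr x (z + (0, 1)) → f (z + (0, 1)) = O.u (f z))

/-- `f` is a development on the set `K`. -/
def Dev (O : Org X) (K : Set V) (f : Z2 → X) : Prop := ∀ x ∈ K, DevAt O x f

/-- `f` and `g` have the same values on all closed squares meeting `K`. -/
def Agree (K : Set V) (f g : Z2 → X) : Prop := ∀ x ∈ K, ∀ z : Z2, Nr x z → f z = g z

/-- The point reflection `z ↦ c - 1 - z` on squares (it is `p ↦ c - p` on points). -/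
def rf (c z : Z2) : Z2 := (c.1 - 1 - z.1, c.2 - 1 - z.2)

/-- The side `A B` is folded: `f` is invariant under the half turn about its midpoint. -/
def Fold (O : Org X) (A B : Z2) (f : Z2 → X) : Prop :=
  ∀ x ∈ Seg A B, ∀ z : Z2, Nr x z → f z = O.i (f (rf (A + B) z))

/-- Triangulated polygons lying on the left of a directed side: `leaf` means that there is nothing
(the side is folded); `node C l r` on the side `A → B` is the triangle `A B C`, with `l` on the left
of `C → B` and `r` on the left of `A → C`. -/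
inductive Tree : Type
  | leaf : Tree
  | node : Z2 → Tree → Tree → Tree

/-- The polygon `t` on the left of `A → B` is developed in `O`, its values near `A → B` are those
of `g`, and all its other sides are folded. -/
def Fill (O : Org X) : Z2 → Z2 → Tree → (Z2 → X) → Prop
  | A, B, .leaf, g => Fold O A B g
  | A, B, .node C l r, g => 0 < tri A B C ∧ ∃ f : Z2 → X, Dev O (Tri A B C) f ∧
      Agree (Seg A B) f g ∧ Fill O C B l f ∧ Fill O A C r f

/-- The surface of `O` contains the folded polygon consisting of `t` on the left of `A → B` and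
`t'` on the left of `B → A`. -/
def Has (O : Org X) (A B : Z2) (t t' : Tree) : Prop :=
  ∃ g : Z2 → X, Dev O (Seg A B) g ∧ Fill O A B t g ∧ Fill O B A t' g

/-- The total area (of the polygon and its image under the anti-automorphism). -/
def Tree.area : Z2 → Z2 → Tree → ℤ
  | _, _, .leaf => 0
  | A, B, .node C l r => tri A B C + Tree.area C B l + Tree.area A C r

/-- Apply a map to all vertices. -/
def Tree.map (φ : Z2 → Z2) : Tree → Tree
  | .leaf => .leaf
  | .node C l r => .node (φ C) (l.map φ) (r.map φ)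

/-- The point reflection `p ↦ c - p` on lattice points. -/
def rp (c p : Z2) : Z2 := c - p

/-! ## The action of `SL₂(ℤ)` -/

/-- The shear `(x, y) ↦ (x + y, y)` on lattice points. -/
def shT (p : Z2) : Z2 := (p.1 + p.2, p.2)

/-- The rotation `(x, y) ↦ (-y, x)` on lattice points. -/
def shJ (p : Z2) : Z2 := (-p.2, p.1)

/-- The origami sheared by `(x, y) ↦ (x + y, y)`. -/
def Org.T (O : Org X) : Org X where
  r := O.r
  u := O.u * O.r⁻¹
  i := O.r * O.i
  ii x := by
    change O.r (O.i (O.r (O.i x))) = x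
    rw [O.ir, O.ii]; exact O.r.apply_symm_apply x
  ir x := by
    change O.r (O.i (O.r x)) = O.r.symm (O.r (O.i x))
    rw [O.ir, O.r.symm_apply_apply]; exact O.r.apply_symm_apply _
  iu x := by
    have h : ∀ y, O.i (O.r.symm y) = O.r (O.i y) := by
      intro y
      have := O.ir (O.r.symm y)
      rw [O.r.apply_symm_apply] at this
      rw [this]; exact (O.r.apply_symm_apply _).symm
    change O.r (O.i (O.u (O.r.symm x))) = (O.u * O.r⁻¹).symm (O.r (O.i x))
    rw [O.iu, h]
    rfl

/-- The origami rotated by a quarter turn. -/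
def Org.J (O : Org X) : Org X where
  r := O.u⁻¹
  u := O.r
  i := O.i
  ii := O.ii
  ir x := by
    have := O.iu (O.u.symm x)
    rw [O.u.apply_symm_apply] at this
    change O.i (O.u.symm x) = O.u (O.i x)
    rw [this]; exact (O.u.apply_symm_apply _).symm
  iu x := O.ir x

/-- The product of two origamis. -/
def Org.prod {X' : Type} (O : Org X) (O' : Org X') : Org (X × X') where
  r := O.r.prodCongr O'.r
  u := O.u.prodCongr O'.u
  i := O.i.prodCongr O'.i
  ii x := Prod.ext (O.ii x.1) (O'.ii x.2)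
  ir x := by
    ext
    · exact O.ir x.1
    · exact O'.ir x.2
  iu x := by
    ext
    · exact O.iu x.1
    · exact O'.iu x.2

/-- An isomorphism of origamis (with anti-automorphism). -/
structure Iso {X' : Type} (O : Org X) (O' : Org X') (e : X ≃ X') : Prop where
  r : ∀ x, e (O.r x) = O'.r (e x)
  u : ∀ x, e (O.u x) = O'.u (e x)
  i : ∀ x, e (O.i x) = O'.i (e x)

/-- Transitivity. -/
def Org.Trans (O : Org X) : Prop :=
  ∀ S : Set X, S.Nonempty → (∀ x ∈ S, O.r x ∈ S) → (∀ x ∈ S, O.u x ∈ S) → S = Set.univ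

/-- `Path O x w y`: some path of unit steps leads from `x` to `y`, with holonomy `w`. -/
inductive Path (O : Org X) : X → Z2 → X → Prop
  | refl (x : X) : Path O x 0 x
  | right {x y : X} {w : Z2} : Path O x w y → Path O x (w + (1, 0)) (O.r y)
  | left {x y : X} {w : Z2} : Path O x w y → Path O x (w - (1, 0)) (O.r.symm y)
  | up {x y : X} {w : Z2} : Path O x w y → Path O x (w + (0, 1)) (O.u y)
  | down {x y : X} {w : Z2} : Path O x w y → Path O x (w - (0, 1)) (O.u.symm y)

/-- The origami is primitive (reduced): the holonomies of closed paths form all of `ℤ²`. -/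
def Org.Prim (O : Org X) : Prop := ∀ (x : X) (w : Z2), Path O x w x

/-- The origami is in the hyperelliptic component of `H(4)`: it is connected, the commutator of `r`
and `u` is a `5`-cycle, and the anti-automorphism has `8` fixed points (the zero and seven others:
centres of squares, midpoints of vertical and of horizontal edges, regular vertices). -/
structure Hyp (O : Org X) : Prop where
  trans : O.Trans
  cyc : (O.r * O.u * O.r⁻¹ * O.u⁻¹).IsCycle
  five : {x | (O.r * O.u * O.r⁻¹ * O.u⁻¹) x ≠ x}.ncard = 5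
  seven : {x | O.i x = x}.ncard + {x | O.i x = O.r x}.ncard + {x | O.i x = O.u x}.ncard +
    {x | O.i x = O.u (O.r x) ∧ O.r (O.u x) = O.u (O.r x)}.ncard = 7

/-- One step of the `SL₂(ℤ)` action. -/
inductive Step : Org X → Org X → Prop
  | T (O : Org X) : Step O O.T
  | J (O : Org X) : Step O O.J

/-- The same `SL₂(ℤ)`-orbit (labelled squares). -/
def SLE : Org X → Org X → Prop := Relation.EqvGen Step

/-! ## Chains -/

/-- Six lattice vectors. -/
abbrev C6 : Type := Z2 × Z2 × Z2 × Z2 × Z2 × Z2

/-- The fan of the triangles `(0, a i, a (i + 1))`, `i < 5`, on the left of `0 → a 0`. -/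
def fan (a1 a2 a3 a4 a5 : Z2) : Tree :=
  .node a1 .leaf (.node a2 .leaf (.node a3 .leaf (.node a4 .leaf (.node a5 .leaf .leaf))))

/-- The surface of `O` is the chain with the six vectors `c`. -/
def Chain (O : Org X) : C6 → Prop
  | (a0, a1, a2, a3, a4, a5) => Has O 0 a0 (fan a1 a2 a3 a4 a5) .leaf

/-- Consecutive products are positive. -/
def Pos : C6 → Prop
  | (a0, a1, a2, a3, a4, a5) => 0 < cr a0 a1 ∧ 0 < cr a1 a2 ∧ 0 < cr a2 a3 ∧ 0 < cr a3 a4 ∧
      0 < cr a4 a5

/-- The number of squares. -/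
def vol : C6 → ℤ
  | (a0, a1, a2, a3, a4, a5) => cr a0 a1 + cr a1 a2 + cr a2 a3 + cr a3 a4 + cr a4 a5

/-- The group generated by the six vectors. -/
def span : C6 → AddSubgroup Z2
  | (a0, a1, a2, a3, a4, a5) => AddSubgroup.closure {a0, a1, a2, a3, a4, a5}

/-- Apply a map to all six vectors. -/
def C6.map (φ : Z2 → Z2) : C6 → C6
  | (a0, a1, a2, a3, a4, a5) => (φ a0, φ a1, φ a2, φ a3, φ a4, φ a5)

/-- The elementary moves between chains (all chains are positive). -/
inductive Mv : C6 → C6 → Prop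
  /-- the half turn -/
  | neg (a0 a1 a2 a3 a4 a5 : Z2) : Mv (a0, a1, a2, a3, a4, a5) (-a0, -a1, -a2, -a3, -a4, -a5)
  /-- reading the chain backwards -/
  | rev (a0 a1 a2 a3 a4 a5 : Z2) : Mv (a0, a1, a2, a3, a4, a5) (a5, -a4, a3, -a2, a1, -a0)
  /-- flips of the first vector -/
  | end0 (a0 a1 a2 a3 a4 a5 : Z2) : Mv (a0, a1, a2, a3, a4, a5) (a0 + a1, a1, a2, a3, a4, a5)
  | flip1 (a0 a1 a2 a3 a4 a5 : Z2) : 0 < cr a0 (a1 + a0 - a2) → 0 < cr (a1 + a0 - a2) a2 →
      Mv (a0, a1, a2, a3, a4, a5) (a0, a1 + a0 - a2, a2, a3, a4, a5)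
  | flip1' (a0 a1 a2 a3 a4 a5 : Z2) : 0 < cr a0 (a1 - a0 + a2) → 0 < cr (a1 - a0 + a2) a2 →
      Mv (a0, a1, a2, a3, a4, a5) (a0, a1 - a0 + a2, a2, a3, a4, a5)
  | flip2 (a0 a1 a2 a3 a4 a5 : Z2) : 0 < cr a1 (a2 + a1 - a3) → 0 < cr (a2 + a1 - a3) a3 →
      Mv (a0, a1, a2, a3, a4, a5) (a0, a1, a2 + a1 - a3, a3, a4, a5)
  | flip2' (a0 a1 a2 a3 a4 a5 : Z2) : 0 < cr a1 (a2 - a1 + a3) → 0 < cr (a2 - a1 + a3) a3 →
      Mv (a0, a1, a2, a3, a4, a5) (a0, a1, a2 - a1 + a3, a3, a4, a5)
  /-- the two flips through the triangulation with a trivalent dual tree -/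
  | star (a0 a1 a2 a3 a4 a5 : Z2) : 0 < cr a1 a3 → cr a1 a3 < cr a1 a2 + cr a2 a3 →
      0 < cr a0 a3 → cr a0 a3 < cr a0 a1 + cr a1 a3 →
      Mv (a0, a1, a2, a3, a4, a5) (a2 - a3, a3 - a1, a0 - a3, a3, a4, a5)
  | star' (a0 a1 a2 a3 a4 a5 : Z2) : cr a1 a3 < 0 → 0 < cr a1 a3 + cr a1 a2 + cr a2 a3 →
      cr a1 a3 < cr a0 a3 → cr a0 a3 < cr a0 a1 →
      Mv (a0, a1, a2, a3, a4, a5) (a2 + a3, a3 - a1, a0 - a1 + a3, a3, a4, a5)
  /-- the action of the generators of `SL₂(ℤ)` -/
  | T (c : C6) : Mv c (c.map shT)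
  | J (c : C6) : Mv c (c.map shJ)

/-- Equivalence of positive chains. -/
def CEq (c c' : C6) : Prop := Relation.EqvGen (fun c c' => Pos c ∧ Mv c c') c c'

end Pool.Agent.H4G
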