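import Pool.Agent.H4G.Defs

/-!
# MP_4f7c28: HLK invariant, and origamis as pairs of permutations (helper96)
-/

set_option autoImplicit false

namespace Pool.Agent.H4G

variable {X : Type}

/-! ## HLK invariant of an origami with involution -/

/-- fixed points of `i` which are regular vertices -/
noncomputable def Org.n0 (O : Org X) : ℕ :=
  {x | O.i x = O.u (O.r x) ∧ O.r (O.u x) = O.u (O.r x)}.ncard

/-- fixed points of `i` which are centres of squares -/
noncomputable def Org.nC (O : Org X) : ℕ := {x | O.i x = x}.ncard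

/-- fixed points of `i` which are midpoints of vertical edges -/
noncomputable def Org.nV (O : Org X) : ℕ := {x | O.i x = O.r x}.ncard

/-- fixed points of `i` which are midpoints of horizontal edges -/
noncomputable def Org.nH (O : Org X) : ℕ := {x | O.i x = O.u x}.ncard

/-- The HLK invariant `(n₀, [n₁, n₂, n₃])`. -/
noncomputable def Org.hlk (O : Org X) : ℕ × Multiset ℕ := (O.n0, {O.nC, O.nV, O.nH})

/-- the four values for an odd number of squares -/
def valO : Fin 4 → ℕ × Multiset ℕ
  | 0 => (4, {1, 1, 1})
  | 1 => (2, {3, 1, 1})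
  | 2 => (0, {5, 1, 1})
  | 3 => (0, {3, 3, 1})

/-- the three values for an even number of squares -/
def valE : Fin 3 → ℕ × Multiset ℕ
  | 0 => (3, {2, 2, 0})
  | 1 => (1, {4, 2, 0})
  | 2 => (1, {2, 2, 2})

theorem valO_inj : Function.Injective valO := by
  intro a b h
  revert a b
  decide

theorem valE_inj : Function.Injective valE := by
  intro a b h
  revert a b
  decide

/-! ## Pairs of permutations -/

/-- An origami with `N` squares: right and upper neighbours. -/
abbrev Ori (N : ℕ) : Type := Equiv.Perm (Fin N) × Equiv.Perm (Fin N)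

/-- The origami is connected: the group generated by the two permutations is transitive. -/
def Ori.Conn {N : ℕ} (p : Ori N) : Prop :=
  MulAction.IsPretransitive (Subgroup.closure {p.1, p.2}) (Fin N)

/-- The origami is connected and lies in `H(4)`: its only zero has cone angle `10 π`, that is, the
commutator of `r` and `u` is a `5`-cycle. -/
def Ori.InH4 {N : ℕ} (p : Ori N) : Prop :=
  p.Conn ∧ (p.1 * p.2 * p.1⁻¹ * p.2⁻¹).IsCycle ∧ (p.1 * p.2 * p.1⁻¹ * p.2⁻¹).support.card = 5

/-- `p.Walk x w y`: some path of unit steps leads from the square `x` to the square `y`, with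
holonomy `w`. -/
inductive Ori.Walk {N : ℕ} (p : Ori N) : Fin N → ℤ × ℤ → Fin N → Prop
  | nil (x : Fin N) : p.Walk x 0 x
  | right {x y : Fin N} {w : ℤ × ℤ} : p.Walk x w y → p.Walk x (w + (1, 0)) (p.1 y)
  | left {x y : Fin N} {w : ℤ × ℤ} : p.Walk x w y → p.Walk x (w - (1, 0)) (p.1⁻¹ y)
  | up {x y : Fin N} {w : ℤ × ℤ} : p.Walk x w y → p.Walk x (w + (0, 1)) (p.2 y)
  | down {x y : Fin N} {w : ℤ × ℤ} : p.Walk x w y → p.Walk x (w - (0, 1)) (p.2⁻¹ y)

/-- The origami is primitive (reduced): the periods, i.e. the holonomies of the closed paths,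
generate the lattice. -/
def Ori.Primitive {N : ℕ} (p : Ori N) : Prop :=
  AddSubgroup.closure {w : ℤ × ℤ | ∃ x : Fin N, p.Walk x w x} = ⊤

/-- `i` is an anti-automorphism (it maps right neighbours to left neighbours and upper neighbours
to lower neighbours). -/
def Ori.Anti {N : ℕ} (p : Ori N) (i : Equiv.Perm (Fin N)) : Prop :=
  i * p.1 * i⁻¹ = p.1⁻¹ ∧ i * p.2 * i⁻¹ = p.2⁻¹

/-- The number of the fixed points of `i`, other than the zero, which project to `0`: regular
vertices; the vertex meant is the upper right corner of the square `x`. -/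
def Ori.f0 {N : ℕ} (p : Ori N) (i : Equiv.Perm (Fin N)) : ℕ :=
  (Finset.univ.filter fun x => i x = p.2 (p.1 x) ∧ p.1 (p.2 x) = p.2 (p.1 x)).card

/-- The number of the fixed points of `i` which project to `(1/2, 1/2)`: centres of squares. -/
def Ori.fC {N : ℕ} (_ : Ori N) (i : Equiv.Perm (Fin N)) : ℕ :=
  (Finset.univ.filter fun x => i x = x).card

/-- The number of the fixed points of `i` which project to `(0, 1/2)`: midpoints of right edges. -/
def Ori.fV {N : ℕ} (p : Ori N) (i : Equiv.Perm (Fin N)) : ℕ :=
  (Finset.univ.filter fun x => i x = p.1 x).card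

/-- The number of the fixed points of `i` which project to `(1/2, 0)`: midpoints of upper edges. -/
def Ori.fH {N : ℕ} (p : Ori N) (i : Equiv.Perm (Fin N)) : ℕ :=
  (Finset.univ.filter fun x => i x = p.2 x).card

/-- The origami is of hyperelliptic type, with HLK invariant `v`: it has an anti-automorphism with
`8` fixed points (the zero and seven others). -/
def Ori.HLK {N : ℕ} (p : Ori N) (v : ℕ × Multiset ℕ) : Prop :=
  ∃ i : Equiv.Perm (Fin N), p.Anti i ∧ p.f0 i + p.fC i + p.fV i + p.fH i = 7 ∧
    v = (p.f0 i, {p.fC i, p.fV i, p.fH i})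

/-- One of the two generators of `SL₂(ℤ)` (the shear and the quarter turn), or an isomorphism. -/
inductive Ori.Step {N : ℕ} : Ori N → Ori N → Prop
  | shear (r u : Equiv.Perm (Fin N)) : Ori.Step (r, u) (r, u * r⁻¹)
  | turn (r u : Equiv.Perm (Fin N)) : Ori.Step (r, u) (u⁻¹, r)
  | iso (r u s : Equiv.Perm (Fin N)) : Ori.Step (r, u) (s * r * s⁻¹, s * u * s⁻¹)

/-- The two origamis are in the same `SL₂(ℤ)`-orbit (of isomorphism classes). -/
def Ori.SameOrbit {N : ℕ} : Ori N → Ori N → Prop := Relation.EqvGen Ori.Step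

/-- Primitive origamis of hyperelliptic type in `H(4)` with `N` squares. -/
def Ori.PH {N : ℕ} (p : Ori N) : Prop := p.InH4 ∧ p.Primitive ∧ ∃ v, p.HLK v

end Pool.Agent.H4G
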