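import Pool.Agent.H4G.ReconA
import Pool.Agent.H4G.Core

/-!
# Reconstruction and primitivity (row P of MP_4f7c28 GEOM)
-/

set_option autoImplicit false

namespace Pool.Agent.H4G

variable {X : Type}

theorem recon {X' : Type} [Finite X] [Finite X'] {O : Org X} {O' : Org X'} (hO : O.Trans)
    (hO' : O'.Trans) {c : C6} (_hc : Pos c) (h : Chain O c) (h' : Chain O' c)
    (hX : (Nat.card X : ℤ) = vol c) (hX' : (Nat.card X' : ℤ) = vol c) :
    ∃ e : X ≃ X', Iso O O' e :=
  recon_of (fun h => core h) hO hO' h h' hX hX'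

theorem span_eq_top [Finite X] {O : Org X} (hO : O.Trans) (hp : O.Prim) {c : C6} (hc : Pos c)
    (h : Chain O c) (hX : (Nat.card X : ℤ) = vol c) : span c = ⊤ :=
  span_eq_top_of (fun h => core h) hO hp hc h hX

end Pool.Agent.H4G
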