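import Pool.Agent.H4G.Exist
import Pool.Agent.H4G.Recon
import Pool.Agent.H4G.Inv
import Pool.Agent.H4G.Move
import Pool.Agent.H4G.FinDefs

/-!
# MP_4f7c28: row F, part A (helper96): chains and orbits
-/

set_option autoImplicit false

namespace Pool.Agent.H4G

variable {X : Type}

theorem SLE.refl (O : Org X) : SLE O O := Relation.EqvGen.refl _

theorem SLE.symm {O O' : Org X} (h : SLE O O') : SLE O' O := Relation.EqvGen.symm _ _ h

theorem SLE.trans {O O' O'' : Org X} (h : SLE O O') (h' : SLE O' O'') : SLE O O'' :=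
  Relation.EqvGen.trans _ _ _ h h'

theorem SLE.hyp [Finite X] {O O' : Org X} (h : SLE O O') : Hyp O ↔ Hyp O' := by
  induction h with
  | rel a b h => exact ⟨h.hyp, h.hyp'⟩
  | refl a => exact Iff.rfl
  | symm a b _ ih => exact ih.symm
  | trans a b c _ _ ih1 ih2 => exact ih1.trans ih2

theorem SLE.prim {O O' : Org X} (h : SLE O O') : O.Prim ↔ O'.Prim := by
  induction h with
  | rel a b h => exact h.prim
  | refl a => exact Iff.rfl
  | symm a b _ ih => exact ih.symm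
  | trans a b c _ _ ih1 ih2 => exact ih1.trans ih2

/-- transport of chains along the equivalence of chains -/
theorem CEq.chain {c c' : C6} (h : CEq c c') : (Pos c ↔ Pos c') ∧ (Pos c → vol c' = vol c) ∧
    (Pos c → ∀ O : Org X, Chain O c → ∃ O' : Org X, SLE O O' ∧ Chain O' c') ∧
    (Pos c → ∀ O : Org X, Chain O c' → ∃ O' : Org X, SLE O O' ∧ Chain O' c) := by
  induction h with
  | rel a b h =>
    obtain ⟨hp, hm⟩ := h
    refine ⟨⟨fun _ => hm.pos hp, fun _ => hp⟩, fun _ => hm.vol_eq, fun _ O hO => ?_,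
      fun _ O hO => ?_⟩
    · obtain ⟨O', h1, h2⟩ := hO.mv hp hm
      refine ⟨O', ?_, h2⟩
      rcases h1 with rfl | h1
      · exact SLE.refl _
      · exact Relation.EqvGen.rel _ _ h1
    · obtain ⟨O', h1, h2⟩ := hO.mv_symm hp hm
      refine ⟨O', ?_, h2⟩
      rcases h1 with rfl | h1
      · exact SLE.refl _
      · exact (Relation.EqvGen.rel _ _ h1).symm
  | refl a =>
    exact ⟨Iff.rfl, fun _ => rfl, fun _ O hO => ⟨O, SLE.refl _, hO⟩,
      fun _ O hO => ⟨O, SLE.refl _, hO⟩⟩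
  | symm a b _ ih =>
    obtain ⟨h1, h2, h3, h4⟩ := ih
    exact ⟨h1.symm, fun hp => (h2 (h1.2 hp)).symm, fun hp => h4 (h1.2 hp), fun hp => h3 (h1.2 hp)⟩
  | trans a b c _ _ ih1 ih2 =>
    obtain ⟨h1, h2, h3, h4⟩ := ih1
    obtain ⟨k1, k2, k3, k4⟩ := ih2
    refine ⟨h1.trans k1, fun hp => (k2 (h1.1 hp)).trans (h2 hp), fun hp O hO => ?_,
      fun hp O hO => ?_⟩
    · obtain ⟨O', e1, e2⟩ := h3 hp O hO
      obtain ⟨O'', e3, e4⟩ := k3 (h1.1 hp) O' e2
      exact ⟨O'', e1.trans e3, e4⟩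
    · obtain ⟨O', e1, e2⟩ := k4 (h1.1 hp) O hO
      obtain ⟨O'', e3, e4⟩ := h4 hp O' e2
      exact ⟨O'', e1.trans e3, e4⟩

end Pool.Agent.H4G
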