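import Pool.Agent.H4G.FinA

/-!
# MP_4f7c28: row F, part B (helper96): pairs of permutations
-/

set_option autoImplicit false

namespace Pool.Agent.H4G

variable {X : Type} {N : ℕ}

/-! ## Paths -/

theorem Path.tr {O : Org X} {x y z : X} {w w' : Z2} (h : Path O x w y) (h' : Path O y w' z) :
    Path O x (w + w') z := by
  induction h' with
  | refl => simpa using h
  | right _ ih => rw [← add_assoc]; exact ih.right
  | left _ ih => rw [← add_sub_assoc]; exact ih.left
  | up _ ih => rw [← add_assoc]; exact ih.up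
  | down _ ih => rw [← add_sub_assoc]; exact ih.down

theorem Path.rev {O : Org X} {x y : X} {w : Z2} (h : Path O x w y) : Path O y (-w) x := by
  induction h with
  | refl => simpa using Path.refl x
  | @right y w _ ih =>
    have h1 : Path O (O.r y) (0 - (1, 0)) (O.r.symm (O.r y)) := (Path.refl _).left
    rw [Equiv.symm_apply_apply] at h1
    have h2 := h1.tr ih
    have e : (0 : Z2) - (1, 0) + -w = -(w + (1, 0)) := by abel
    rwa [e] at h2
  | @left y w _ ih =>
    have h1 : Path O (O.r.symm y) (0 + (1, 0)) (O.r (O.r.symm y)) := (Path.refl _).right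
    rw [Equiv.apply_symm_apply] at h1
    have h2 := h1.tr ih
    have e : (0 : Z2) + (1, 0) + -w = -(w - (1, 0)) := by abel
    rwa [e] at h2
  | @up y w _ ih =>
    have h1 : Path O (O.u y) (0 - (0, 1)) (O.u.symm (O.u y)) := (Path.refl _).down
    rw [Equiv.symm_apply_apply] at h1
    have h2 := h1.tr ih
    have e : (0 : Z2) - (0, 1) + -w = -(w + (0, 1)) := by abel
    rwa [e] at h2
  | @down y w _ ih =>
    have h1 : Path O (O.u.symm y) (0 + (0, 1)) (O.u (O.u.symm y)) := (Path.refl _).up
    rw [Equiv.apply_symm_apply] at h1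
    have h2 := h1.tr ih
    have e : (0 : Z2) + (0, 1) + -w = -(w - (0, 1)) := by abel
    rwa [e] at h2

/-- The group of the holonomies of the closed paths at `x`. -/
def hol (O : Org X) (x : X) : AddSubgroup Z2 where
  carrier := {w | Path O x w x}
  zero_mem' := Path.refl x
  add_mem' := fun h h' => Path.tr h h'
  neg_mem' := fun h => Path.rev h

theorem Org.Trans.path {O : Org X} [Finite X] (h : O.Trans) (x y : X) : ∃ w, Path O x w y := by
  have : {y | ∃ w, Path O x w y} = Set.univ := by
    refine h _ ⟨x, 0, Path.refl x⟩ ?_ ?_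
    · rintro y ⟨w, hw⟩; exact ⟨_, hw.right⟩
    · rintro y ⟨w, hw⟩; exact ⟨_, hw.up⟩
  have h2 : y ∈ {y | ∃ w, Path O x w y} := by rw [this]; trivial
  exact h2

/-- the origami as a pair of permutations -/
def Org.pair (O : Org (Fin N)) : Ori N := (O.r, O.u)

theorem walk_iff (O : Org (Fin N)) (x : Fin N) (w : Z2) (y : Fin N) :
    O.pair.Walk x w y ↔ Path O x w y := by
  constructor
  · intro h
    induction h with
    | nil => exact .refl _
    | right _ ih => exact ih.right
    | left _ ih => exact ih.left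
    | up _ ih => exact ih.up
    | down _ ih => exact ih.down
  · intro h
    induction h with
    | refl => exact .nil _
    | right _ ih => exact ih.right
    | left _ ih => exact ih.left
    | up _ ih => exact ih.up
    | down _ ih => exact ih.down

theorem primitive_iff {O : Org (Fin N)} (h : O.Trans) (hN : 0 < N) :
    O.pair.Primitive ↔ O.Prim := by
  unfold Ori.Primitive
  simp only [walk_iff]
  constructor
  · intro hp x w
    have h1 : AddSubgroup.closure {w : ℤ × ℤ | ∃ x, Path O x w x} ≤ hol O x := by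
      rw [AddSubgroup.closure_le]
      rintro w ⟨y, hy⟩
      obtain ⟨v, hv⟩ := h.path x y
      have h2 := (hv.tr hy).tr hv.rev
      have e : v + w + -v = w := by abel
      rw [e] at h2
      exact h2
    rw [hp] at h1
    exact h1 (AddSubgroup.mem_top w)
  · intro hp
    rw [eq_top_iff]
    intro w _
    exact AddSubgroup.subset_closure ⟨⟨0, hN⟩, hp _ w⟩

/-! ## Connectedness -/

theorem conn_iff (O : Org (Fin N)) : O.pair.Conn ↔ O.Trans := by
  constructor
  · intro h S hS hr hu
    obtain ⟨x, hx⟩ := hS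
    have key : ∀ g ∈ Subgroup.closure {O.pair.1, O.pair.2}, ∀ y ∈ S, g y ∈ S := by
      intro g hg
      induction hg using Subgroup.closure_induction with
      | mem g hg =>
        rcases hg with rfl | rfl
        · exact hr
        · exact hu
      | one => intro y hy; exact hy
      | mul a b _ _ iha ihb => intro y hy; exact iha _ (ihb _ hy)
      | inv a _ ih => exact HI.back ih
    ext y
    refine ⟨fun _ => trivial, fun _ => ?_⟩
    obtain ⟨g, hg⟩ := h.exists_smul_eq x y
    rw [← hg]
    exact key g.1 g.2 x hx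
  · intro h
    refine ⟨fun x y => ?_⟩
    have : {y | ∃ g : Subgroup.closure {O.pair.1, O.pair.2}, g • x = y} = Set.univ := by
      refine h _ ⟨x, 1, one_smul _ _⟩ ?_ ?_
      · rintro y ⟨g, rfl⟩
        refine ⟨⟨O.r, Subgroup.subset_closure (Or.inl rfl)⟩ * g, ?_⟩
        rw [mul_smul]; rfl
      · rintro y ⟨g, rfl⟩
        refine ⟨⟨O.u, Subgroup.subset_closure (Or.inr rfl)⟩ * g, ?_⟩
        rw [mul_smul]; rfl
    have h2 : y ∈ {y | ∃ g : Subgroup.closure {O.pair.1, O.pair.2}, g • x = y} := by
      rw [this]; trivial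
    exact h2

/-- an anti-automorphism with enough fixed points is an involution -/
theorem anti_invol {p : Ori N} (hc : p.Conn) {i : Equiv.Perm (Fin N)} (hi : p.Anti i)
    (h7 : p.f0 i + p.fC i + p.fV i + p.fH i = 7) : ∀ x, i (i x) = x := by
  have hr : ∀ x, i (p.1 x) = p.1⁻¹ (i x) := by
    intro x
    have := congrArg (fun e : Equiv.Perm (Fin N) => e (i x)) hi.1
    simpa [Equiv.Perm.mul_apply] using this
  have hu : ∀ x, i (p.2 x) = p.2⁻¹ (i x) := by
    intro x
    have := congrArg (fun e : Equiv.Perm (Fin N) => e (i x)) hi.2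
    simpa [Equiv.Perm.mul_apply] using this
  have hr' : ∀ x, i (p.1⁻¹ x) = p.1 (i x) := by
    intro x
    have := hr (p.1⁻¹ x)
    rw [show p.1 (p.1⁻¹ x) = x from p.1.apply_symm_apply x] at this
    rw [this, show p.1 (p.1⁻¹ (i (p.1⁻¹ x))) = i (p.1⁻¹ x) from p.1.apply_symm_apply _]
  have hu' : ∀ x, i (p.2⁻¹ x) = p.2 (i x) := by
    intro x
    have := hu (p.2⁻¹ x)
    rw [show p.2 (p.2⁻¹ x) = x from p.2.apply_symm_apply x] at this
    rw [this, show p.2 (p.2⁻¹ (i (p.2⁻¹ x))) = i (p.2⁻¹ x) from p.2.apply_symm_apply _]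
  have hx : ∃ x, i (i x) = x := by
    by_contra hne
    push Not at hne
    have e0 : p.f0 i = 0 := by
      unfold Ori.f0
      rw [Finset.card_eq_zero, Finset.filter_eq_empty_iff]
      rintro x - ⟨h1, h2⟩
      apply hne x
      rw [h1, hu, hr, h1, ← h2]
      simp
    have e1 : p.fC i = 0 := by
      unfold Ori.fC
      rw [Finset.card_eq_zero, Finset.filter_eq_empty_iff]
      rintro x - h1
      apply hne x
      rw [h1, h1]
    have e2 : p.fV i = 0 := by
      unfold Ori.fV
      rw [Finset.card_eq_zero, Finset.filter_eq_empty_iff]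
      rintro x - h1
      apply hne x
      rw [h1, hr, h1]
      simp
    have e3 : p.fH i = 0 := by
      unfold Ori.fH
      rw [Finset.card_eq_zero, Finset.filter_eq_empty_iff]
      rintro x - h1
      apply hne x
      rw [h1, hu, h1]
      simp
    omega
  obtain ⟨x, hx⟩ := hx
  have key : ∀ g ∈ Subgroup.closure {p.1, p.2}, ∀ y, i (i y) = y → i (i (g y)) = g y := by
    intro g hg
    induction hg using Subgroup.closure_induction with
    | mem g hg =>
      rcases hg with rfl | rfl
      · intro y hy; rw [hr, hr', hy]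
      · intro y hy; rw [hu, hu', hy]
    | one => intro y hy; exact hy
    | mul a b _ _ iha ihb => intro y hy; exact iha _ (ihb _ hy)
    | inv a _ ih =>
      have h1 := HI.back (S := {y | i (i y) = y}) (e := a) ih
      exact h1
  intro y
  obtain ⟨g, hg⟩ := hc.exists_smul_eq x y
  rw [← hg]
  exact key g.1 g.2 x hx

theorem Ori.HLK.org {p : Ori N} (hp : p.InH4) {v : ℕ × Multiset ℕ} (hv : p.HLK v) :
    ∃ O : Org (Fin N), O.pair = p ∧ Hyp O ∧ O.hlk = v := by
  obtain ⟨i, hi, h7, hv⟩ := hv
  have hii := anti_invol hp.1 hi h7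
  have hr : ∀ x, i (p.1 x) = p.1⁻¹ (i x) := by
    intro x
    have := congrArg (fun e : Equiv.Perm (Fin N) => e (i x)) hi.1
    simpa [Equiv.Perm.mul_apply] using this
  have hu : ∀ x, i (p.2 x) = p.2⁻¹ (i x) := by
    intro x
    have := congrArg (fun e : Equiv.Perm (Fin N) => e (i x)) hi.2
    simpa [Equiv.Perm.mul_apply] using this
  let O : Org (Fin N) := ⟨p.1, p.2, i, hii, hr, hu⟩
  have e0 : O.n0 = p.f0 i := by
    unfold Org.n0 Ori.f0
    rw [← Set.ncard_coe_finset]; congr 1; ext x; simp [O]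
  have eC : O.nC = p.fC i := by
    unfold Org.nC Ori.fC
    rw [← Set.ncard_coe_finset]; congr 1; ext x; simp [O]
  have eV : O.nV = p.fV i := by
    unfold Org.nV Ori.fV
    rw [← Set.ncard_coe_finset]; congr 1; ext x; simp [O]
  have eH : O.nH = p.fH i := by
    unfold Org.nH Ori.fH
    rw [← Set.ncard_coe_finset]; congr 1; ext x; simp [O]
  refine ⟨O, rfl, ⟨(conn_iff O).1 hp.1, hp.2.1, ?_, ?_⟩, ?_⟩
  · rw [← hp.2.2, ← Set.ncard_coe_finset]; congr 1; ext x; simp [O]
  · change O.nC + O.nV + O.nH + O.n0 = 7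
    omega
  · unfold Org.hlk
    rw [e0, eC, eV, eH, hv]

theorem Hyp.pair {O : Org (Fin N)} (hO : Hyp O) : O.pair.InH4 ∧ O.pair.HLK O.hlk := by
  have e0 : O.n0 = O.pair.f0 O.i := by
    unfold Org.n0 Ori.f0
    rw [← Set.ncard_coe_finset]; congr 1; ext x; simp [Org.pair]
  have eC : O.nC = O.pair.fC O.i := by
    unfold Org.nC Ori.fC
    rw [← Set.ncard_coe_finset]; congr 1; ext x; simp
  have eV : O.nV = O.pair.fV O.i := by
    unfold Org.nV Ori.fV
    rw [← Set.ncard_coe_finset]; congr 1; ext x; simp [Org.pair]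
  have eH : O.nH = O.pair.fH O.i := by
    unfold Org.nH Ori.fH
    rw [← Set.ncard_coe_finset]; congr 1; ext x; simp [Org.pair]
  refine ⟨⟨(conn_iff O).2 hO.trans, hO.cyc, ?_⟩, O.i, ⟨?_, ?_⟩, ?_, ?_⟩
  · rw [← hO.five, ← Set.ncard_coe_finset]; congr 1; ext x; simp [Org.pair]
  · ext x
    have h1 := O.ir (O.i⁻¹ x)
    rw [show O.i (O.i⁻¹ x) = x from O.i.apply_symm_apply x] at h1
    simp only [Equiv.Perm.mul_apply, Org.pair]
    rw [h1]; rfl
  · ext x
    have h1 := O.iu (O.i⁻¹ x)
    rw [show O.i (O.i⁻¹ x) = x from O.i.apply_symm_apply x] at h1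
    simp only [Equiv.Perm.mul_apply, Org.pair]
    rw [h1]; rfl
  · rw [← e0, ← eC, ← eV, ← eH]
    have h7 : O.nC + O.nV + O.nH + O.n0 = 7 := hO.seven
    omega
  · unfold Org.hlk
    rw [e0, eC, eV, eH]

end Pool.Agent.H4G
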