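import Pool.Agent.H4G.FinDefs
import Pool.Agent.H4G.Inv

/-!
# Row L: the HLK invariant is an invariant (helper19)
-/

set_option autoImplicit false

namespace Pool.Agent.H4G

variable {X : Type}

namespace HL

lemma card_equiv {X' : Type} (e : X ≃ X') {P : X' → Prop} {Q : X → Prop} (h : ∀ y, P (e y) ↔ Q y) :
    {x | P x}.ncard = {x | Q x}.ncard := by
  have h1 : {x | P x} = e '' {x | Q x} := by
    ext x
    constructor
    · intro hx
      refine ⟨e.symm x, ?_, e.apply_symm_apply x⟩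
      have hx' : P x := hx
      rw [← e.apply_symm_apply x] at hx'
      exact (h _).1 hx'
    · rintro ⟨y, hy, rfl⟩
      exact (h y).2 hy
  rw [h1, Set.ncard_image_of_injective _ e.injective]

lemma T_nC (O : Org X) : O.T.nC = O.nV := by
  have key : ∀ y, O.T.i (O.r y) = O.i y := by
    intro y
    change O.r (O.i (O.r y)) = O.i y
    rw [O.ir, Equiv.apply_symm_apply]
  exact card_equiv O.r (fun y => by rw [key])

lemma T_nV (O : Org X) : O.T.nV = O.nC := by
  unfold Org.nV Org.nC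
  congr 1
  ext x
  change O.r (O.i x) = O.r x ↔ O.i x = x
  exact O.r.injective.eq_iff

lemma T_nH (O : Org X) : O.T.nH = O.nH := by
  have key : ∀ y, O.T.i (O.r y) = O.i y := by
    intro y
    change O.r (O.i (O.r y)) = O.i y
    rw [O.ir, Equiv.apply_symm_apply]
  refine card_equiv O.r (fun y => ?_)
  rw [key]
  change O.i y = O.u (O.r.symm (O.r y)) ↔ _
  rw [Equiv.symm_apply_apply]

lemma T_n0 (O : Org X) : O.T.n0 = O.n0 := by
  have key : ∀ y, O.T.i (O.r y) = O.i y := by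
    intro y
    change O.r (O.i (O.r y)) = O.i y
    rw [O.ir, Equiv.apply_symm_apply]
  refine card_equiv O.r (fun y => ?_)
  rw [key]
  change O.i y = O.u (O.r.symm (O.r (O.r y))) ∧
    O.r (O.u (O.r.symm (O.r y))) = O.u (O.r.symm (O.r (O.r y))) ↔ _
  rw [Equiv.symm_apply_apply, Equiv.symm_apply_apply]

lemma J_nC (O : Org X) : O.J.nC = O.nC := rfl

lemma J_nV (O : Org X) : O.J.nV = O.nH := by
  refine card_equiv O.u (fun y => ?_)
  change O.i (O.u y) = O.u.symm (O.u y) ↔ _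
  rw [O.iu, Equiv.symm_apply_apply, Equiv.symm_apply_eq]

lemma J_nH (O : Org X) : O.J.nH = O.nV := rfl

lemma J_n0 (O : Org X) : O.J.n0 = O.n0 := by
  refine card_equiv O.u (fun y => ?_)
  change O.i (O.u y) = O.r (O.u.symm (O.u y)) ∧
    O.u.symm (O.r (O.u y)) = O.r (O.u.symm (O.u y)) ↔ _
  rw [O.iu, Equiv.symm_apply_apply, Equiv.symm_apply_eq, Equiv.symm_apply_eq]

lemma ms1 (a b c : ℕ) : ({a, b, c} : Multiset ℕ) = {b, a, c} := by
  change a ::ₘ b ::ₘ {c} = b ::ₘ a ::ₘ {c}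
  exact Multiset.cons_swap _ _ _

lemma ms2 (a b c : ℕ) : ({a, b, c} : Multiset ℕ) = {a, c, b} := by
  change a ::ₘ b ::ₘ {c} = a ::ₘ c ::ₘ {b}
  congr 1
  change b ::ₘ c ::ₘ 0 = c ::ₘ b ::ₘ 0
  exact Multiset.cons_swap _ _ _

end HL

theorem Step.hlk {O O' : Org X} (h : Step O O') : O'.hlk = O.hlk := by
  cases h with
  | T =>
    unfold Org.hlk
    rw [HL.T_n0, HL.T_nC, HL.T_nV, HL.T_nH, HL.ms1]
  | J =>
    unfold Org.hlk
    rw [HL.J_n0, HL.J_nC, HL.J_nV, HL.J_nH, HL.ms2]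

theorem Iso.hlk {X' : Type} {O : Org X} {O' : Org X'} {e : X ≃ X'} (h : Iso O O' e) :
    O'.hlk = O.hlk := by
  have h0 : O'.n0 = O.n0 := by
    refine HL.card_equiv e (fun y => ?_)
    rw [← h.i, ← h.r, ← h.u, ← h.u, ← h.r, e.injective.eq_iff, e.injective.eq_iff]
  have h1 : O'.nC = O.nC := by
    refine HL.card_equiv e (fun y => ?_)
    rw [← h.i, e.injective.eq_iff]
  have h2 : O'.nV = O.nV := by
    refine HL.card_equiv e (fun y => ?_)
    rw [← h.i, ← h.r, e.injective.eq_iff]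
  have h3 : O'.nH = O.nH := by
    refine HL.card_equiv e (fun y => ?_)
    rw [← h.i, ← h.u, e.injective.eq_iff]
  unfold Org.hlk
  rw [h0, h1, h2, h3]

end Pool.Agent.H4G
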