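import Pool.Agent.H4G.FinB
import Pool.Agent.H4G.Hlk
import Pool.Agent.H4G.Cyl

/-!
# MP_4f7c28: row F, part C (helper96): the orbits, from the equivalence of chains
-/

set_option autoImplicit false

namespace Pool.Agent.H4G

variable {X : Type} {N : ℕ}

/-! ## Isomorphisms -/

theorem Iso.hyp {X' : Type} {O : Org X} {O' : Org X'} {e : X ≃ X'} (h : Iso O O' e)
    (hO : Hyp O) : Hyp O' := by
  have h' := h.symm
  have hc : ∀ x, (O'.r * O'.u * O'.r⁻¹ * O'.u⁻¹) (e x) =
      e ((O.r * O.u * O.r⁻¹ * O.u⁻¹) x) := by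
    intro x
    have h1 : ∀ y, O'.u.symm (e y) = e (O.u.symm y) := by
      intro y; rw [Equiv.symm_apply_eq, ← h.u, Equiv.apply_symm_apply]
    have h2 : ∀ y, O'.r.symm (e y) = e (O.r.symm y) := by
      intro y; rw [Equiv.symm_apply_eq, ← h.r, Equiv.apply_symm_apply]
    change O'.r (O'.u (O'.r.symm (O'.u.symm (e x)))) = e (O.r (O.u (O.r.symm (O.u.symm x))))
    rw [h1, h2, ← h.u, ← h.r]
  have hce : O'.r * O'.u * O'.r⁻¹ * O'.u⁻¹ =
      (e.permCongr) (O.r * O.u * O.r⁻¹ * O.u⁻¹) := by
    ext x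
    obtain ⟨y, rfl⟩ := e.surjective x
    rw [hc, Equiv.permCongr_apply, Equiv.symm_apply_apply]
  refine ⟨?_, ?_, ?_, ?_⟩
  · intro S hS hr hu
    have h1 := hO.trans (e ⁻¹' S) ?_ ?_ ?_
    · ext x
      refine ⟨fun _ => trivial, fun _ => ?_⟩
      have h2 : e.symm x ∈ e ⁻¹' S := by rw [h1]; trivial
      simpa using h2
    · obtain ⟨x, hx⟩ := hS
      exact ⟨e.symm x, by simpa using hx⟩
    · intro x hx
      change e (O.r x) ∈ S
      rw [h.r]; exact hr _ hx
    · intro x hx
      change e (O.u x) ∈ S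
      rw [h.u]; exact hu _ hx
  · rw [hce]
    obtain ⟨x, hx, h1⟩ := hO.cyc
    refine ⟨e x, ?_, ?_⟩
    · rw [Equiv.permCongr_apply, Equiv.symm_apply_apply]
      exact fun he => hx (e.injective he)
    · intro y hy
      obtain ⟨z, rfl⟩ := e.surjective y
      rw [Equiv.permCongr_apply, Equiv.symm_apply_apply] at hy
      obtain ⟨n, hn⟩ := h1 (y := z) (fun he => hy (by rw [he]))
      refine ⟨n, ?_⟩
      have h3 : (e.permCongr (O.r * O.u * O.r⁻¹ * O.u⁻¹)) ^ n =
          e.permCongr ((O.r * O.u * O.r⁻¹ * O.u⁻¹) ^ n) :=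
        (map_zpow e.permCongrHom _ n).symm
      rw [h3, Equiv.permCongr_apply, Equiv.symm_apply_apply, hn]
  · rw [← hO.five]
    refine HL.card_equiv e (fun y => ?_)
    rw [hc]
    exact not_congr e.injective.eq_iff
  · have e0 : O'.n0 = O.n0 := by
      refine HL.card_equiv e (fun y => ?_)
      rw [← h.r, ← h.u, ← h.i, ← h.u, ← h.r]
      exact and_congr e.injective.eq_iff e.injective.eq_iff
    have eC : O'.nC = O.nC := by
      refine HL.card_equiv e (fun y => ?_)
      rw [← h.i]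
      exact e.injective.eq_iff
    have eV : O'.nV = O.nV := by
      refine HL.card_equiv e (fun y => ?_)
      rw [← h.i, ← h.r]
      exact e.injective.eq_iff
    have eH : O'.nH = O.nH := by
      refine HL.card_equiv e (fun y => ?_)
      rw [← h.i, ← h.u]
      exact e.injective.eq_iff
    change O'.nC + O'.nV + O'.nH + O'.n0 = 7
    rw [e0, eC, eV, eH]
    exact hO.seven

theorem Iso.pathm {X' : Type} {O : Org X} {O' : Org X'} {e : X ≃ X'} (h : Iso O O' e) {x y : X}
    {w : Z2} (hp : Path O x w y) : Path O' (e x) w (e y) := by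
  induction hp with
  | refl => exact .refl _
  | right _ ih => rw [h.r]; exact ih.right
  | left _ ih =>
    rename_i z v _
    have : e (O.r.symm z) = O'.r.symm (e z) := by
      rw [Equiv.eq_symm_apply, ← h.r, Equiv.apply_symm_apply]
    rw [this]; exact ih.left
  | up _ ih => rw [h.u]; exact ih.up
  | down _ ih =>
    rename_i z v _
    have : e (O.u.symm z) = O'.u.symm (e z) := by
      rw [Equiv.eq_symm_apply, ← h.u, Equiv.apply_symm_apply]
    rw [this]; exact ih.down

theorem Iso.prim {X' : Type} {O : Org X} {O' : Org X'} {e : X ≃ X'} (h : Iso O O' e)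
    (hp : O.Prim) : O'.Prim := by
  intro x w
  have := h.pathm (hp (e.symm x) w)
  simpa using this

theorem Iso.pair {O O' : Org (Fin N)} {e : Fin N ≃ Fin N} (h : Iso O O' e) :
    Ori.Step O.pair O'.pair := by
  have h1 : O'.r = e * O.r * e⁻¹ := by
    ext x
    have := h.r (e.symm x)
    rw [Equiv.apply_symm_apply] at this
    rw [← this]; rfl
  have h2 : O'.u = e * O.u * e⁻¹ := by
    ext x
    have := h.u (e.symm x)
    rw [Equiv.apply_symm_apply] at this
    rw [← this]; rfl
  unfold Org.pair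
  rw [h1, h2]
  exact Ori.Step.iso _ _ _

theorem Step.pair {O O' : Org (Fin N)} (h : Step O O') : Ori.Step O.pair O'.pair := by
  cases h with
  | T => exact Ori.Step.shear _ _
  | J => exact Ori.Step.turn _ _

theorem SLE.pair {O O' : Org (Fin N)} (h : SLE O O') : Ori.SameOrbit O.pair O'.pair := by
  induction h with
  | rel a b h => exact Relation.EqvGen.rel _ _ h.pair
  | refl a => exact Relation.EqvGen.refl _
  | symm a b _ ih => exact Relation.EqvGen.symm _ _ ih
  | trans a b c _ _ ih1 ih2 => exact Relation.EqvGen.trans _ _ _ ih1 ih2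

/-- the conjugate origami -/
def Org.cj (O : Org X) (s : Equiv.Perm X) : Org X where
  r := s * O.r * s⁻¹
  u := s * O.u * s⁻¹
  i := s * O.i * s⁻¹
  ii x := by
    change s (O.i (s.symm (s (O.i (s.symm x))))) = x
    rw [Equiv.symm_apply_apply, O.ii, Equiv.apply_symm_apply]
  ir x := by
    change s (O.i (s.symm (s (O.r (s.symm x))))) = s (O.r.symm (s.symm (s (O.i (s.symm x)))))
    rw [Equiv.symm_apply_apply, Equiv.symm_apply_apply, O.ir]
  iu x := by
    change s (O.i (s.symm (s (O.u (s.symm x))))) = s (O.u.symm (s.symm (s (O.i (s.symm x)))))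
    rw [Equiv.symm_apply_apply, Equiv.symm_apply_apply, O.iu]

theorem cj_iso (O : Org X) (s : Equiv.Perm X) : Iso O (O.cj s) s where
  r x := by
    change _ = s (O.r (s.symm (s x)))
    rw [Equiv.symm_apply_apply]
  u x := by
    change _ = s (O.u (s.symm (s x)))
    rw [Equiv.symm_apply_apply]
  i x := by
    change _ = s (O.i (s.symm (s x)))
    rw [Equiv.symm_apply_apply]

/-! ## The HLK invariant of a pair -/

theorem comm_fixed {O : Org X} [Finite X] (hO : O.Trans) {t : Equiv.Perm X}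
    (hr : ∀ x, t (O.r x) = O.r (t x)) (hu : ∀ x, t (O.u x) = O.u (t x)) {x0 : X}
    (h0 : t x0 = x0) : t = 1 := by
  have h1 := hO {x | t x = x} ⟨x0, h0⟩ (fun x hx => by
    change t (O.r x) = O.r x
    rw [hr, show t x = x from hx]) (fun x hx => by
    change t (O.u x) = O.u x
    rw [hu, show t x = x from hx])
  ext x
  have h2 : x ∈ {x | t x = x} := by rw [h1]; trivial
  exact h2

/-- two hyperelliptic involutions of the same origami give the same HLK invariant -/
theorem hlk_unique [Finite X] {O O' : Org X} (hO : Hyp O) (hr : O'.r = O.r) (hu : O'.u = O.u) :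
    O'.hlk = O.hlk := by
  classical
  set t : Equiv.Perm X := O'.i * O.i with ht
  have htr : ∀ x, t (O.r x) = O.r (t x) := by
    intro x
    change O'.i (O.i (O.r x)) = O.r (O'.i (O.i x))
    rw [O.ir, ← hr]
    have := O'.ir (O'.r.symm (O.i x))
    rw [Equiv.apply_symm_apply] at this
    rw [this, Equiv.apply_symm_apply]
  have htu : ∀ x, t (O.u x) = O.u (t x) := by
    intro x
    change O'.i (O.i (O.u x)) = O.u (O'.i (O.i x))
    rw [O.iu, ← hu]
    have := O'.iu (O'.u.symm (O.i x))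
    rw [Equiv.apply_symm_apply] at this
    rw [this, Equiv.apply_symm_apply]
  have cr : t * O.r = O.r * t := by ext x; exact htr x
  have cu : t * O.u = O.u * t := by ext x; exact htu x
  set c : Equiv.Perm X := O.r * O.u * O.r⁻¹ * O.u⁻¹ with hcdef
  have cc : Commute t c := by
    have hr1 : Commute t O.r := cr
    have hu1 : Commute t O.u := cu
    exact ((hr1.mul_right hu1).mul_right hr1.inv_right).mul_right hu1.inv_right
  obtain ⟨x0, hx0, hcyc⟩ := hO.cyc
  have htx : c (t x0) ≠ t x0 := by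
    have : c (t x0) = t (c x0) := by
      have := congrArg (fun e : Equiv.Perm X => e x0) cc.eq
      simpa [Equiv.Perm.mul_apply] using this.symm
    rw [this]
    exact fun he => hx0 (t.injective he)
  obtain ⟨j, hj⟩ := hcyc htx
  -- `c ^ 5 = 1`
  have hc5 : c ^ 5 = 1 := by
    have : Fintype X := Fintype.ofFinite X
    have h1 : orderOf c = c.support.card := hO.cyc.orderOf
    have h2 : c.support.card = 5 := by
      have h5 := hO.five
      change {x | c x ≠ x}.ncard = 5 at h5
      rw [← h5, ← Set.ncard_coe_finset]; congr 1; ext x; simp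
    rw [← h2, ← h1]
    exact pow_orderOf_eq_one c
  have hcj : Commute t (c ^ j) := cc.zpow_right j
  have hpow : ∀ n : ℕ, (t ^ n) x0 = ((c ^ j) ^ n) x0 := by
    intro n
    induction n with
    | zero => rfl
    | succ n ih =>
      have e1 : (t ^ (n + 1)) x0 = (t ^ n) (t x0) := by rw [pow_succ]; rfl
      have e2 : (t ^ n) ((c ^ j) x0) = (c ^ j) ((t ^ n) x0) := by
        have := congrArg (fun e : Equiv.Perm X => e x0) (hcj.pow_left n).eq
        simpa [Equiv.Perm.mul_apply] using this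
      rw [e1, ← hj, e2, ih, pow_succ']
      rfl
  have ht5 : (t ^ 5) x0 = x0 := by
    rw [hpow 5, ← zpow_natCast, ← zpow_mul, mul_comm, zpow_mul]
    have : c ^ ((5 : ℕ) : ℤ) = 1 := by rw [zpow_natCast]; exact hc5
    rw [this, one_zpow]
    rfl
  have ht5' : t ^ 5 = 1 := by
    have h5r : Commute (t ^ 5) O.r := (show Commute t O.r from cr).pow_left 5
    have h5u : Commute (t ^ 5) O.u := (show Commute t O.u from cu).pow_left 5
    refine comm_fixed hO.trans (fun x => ?_) (fun x => ?_) ht5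
    · have := congrArg (fun e : Equiv.Perm X => e x) h5r.eq
      simpa [Equiv.Perm.mul_apply] using this
    · have := congrArg (fun e : Equiv.Perm X => e x) h5u.eq
      simpa [Equiv.Perm.mul_apply] using this
  have hi2 : O.i * O.i = 1 := by ext x; exact O.ii x
  have hi2' : O'.i * O'.i = 1 := by ext x; exact O'.ii x
  have hii : O.i * t = t⁻¹ * O.i := by
    have h1 : t⁻¹ = O.i * O'.i := by
      rw [ht, mul_inv_rev, inv_eq_of_mul_eq_one_left hi2, inv_eq_of_mul_eq_one_left hi2']
    rw [h1, ht, mul_assoc]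
  have hii3 : O.i * t ^ 3 = (t ^ 3)⁻¹ * O.i := by
    have h1 : SemiconjBy O.i t t⁻¹ := hii
    have h2 := h1.pow_right 3
    rw [inv_pow] at h2
    exact h2
  have hi' : O'.i = t * O.i := by rw [ht, mul_assoc, hi2, mul_one]
  have key : t ^ 3 * O.i = O'.i * t ^ 3 := by
    rw [hi', mul_assoc, hii3, ← mul_assoc]
    congr 1
    rw [eq_mul_inv_iff_mul_eq, ← pow_add]
    calc t ^ (3 + 3) = t ^ 5 * t := by rw [← pow_succ]
      _ = t := by rw [ht5', one_mul]
  have hI : Iso O O' (t ^ 3) := by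
    refine ⟨fun x => ?_, fun x => ?_, fun x => ?_⟩
    · have h3r : Commute (t ^ 3) O.r := (show Commute t O.r from cr).pow_left 3
      have := congrArg (fun e : Equiv.Perm X => e x) h3r.eq
      rw [hr]
      simpa [Equiv.Perm.mul_apply] using this
    · have h3u : Commute (t ^ 3) O.u := (show Commute t O.u from cu).pow_left 3
      have := congrArg (fun e : Equiv.Perm X => e x) h3u.eq
      rw [hu]
      simpa [Equiv.Perm.mul_apply] using this
    · exact congrArg (fun e : Equiv.Perm X => e x) key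
  exact hI.hlk

theorem pair_hlk_unique {p : Ori N} (hp : p.InH4) {v v' : ℕ × Multiset ℕ} (h : p.HLK v)
    (h' : p.HLK v') : v = v' := by
  obtain ⟨O, h1, h2, h3⟩ := h.org hp
  obtain ⟨O', h1', h2', h3'⟩ := h'.org hp
  rw [← h3, ← h3']
  have e : O.pair = O'.pair := by rw [h1, h1']
  exact (hlk_unique h2 (congrArg Prod.fst e).symm (congrArg Prod.snd e).symm).symm

/-! ## Invariance for pairs -/

theorem step_fwd {p q : Ori N} (h : Ori.Step p q) {v : ℕ × Multiset ℕ} (hp : p.InH4)
    (hv : p.HLK v) : q.InH4 ∧ q.HLK v := by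
  obtain ⟨O, h1, h2, h3⟩ := hv.org hp
  cases h with
  | shear r u =>
    have e1 : O.r = r := congrArg Prod.fst h1
    have e2 : O.u = u := congrArg Prod.snd h1
    have k : Step O O.T := Step.T O
    have k1 := (k.hyp h2).pair
    have k2 : O.T.pair = (r, u * r⁻¹) := by rw [← e1, ← e2]; rfl
    rw [k.hlk, h3, k2] at k1
    exact k1
  | turn r u =>
    have e1 : O.r = r := congrArg Prod.fst h1
    have e2 : O.u = u := congrArg Prod.snd h1
    have k : Step O O.J := Step.J O
    have k1 := (k.hyp h2).pair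
    have k2 : O.J.pair = (u⁻¹, r) := by rw [← e1, ← e2]; rfl
    rw [k.hlk, h3, k2] at k1
    exact k1
  | iso r u s =>
    have e1 : O.r = r := congrArg Prod.fst h1
    have e2 : O.u = u := congrArg Prod.snd h1
    have k := cj_iso O s
    have k1 := (k.hyp h2).pair
    have k2 : (O.cj s).pair = (s * r * s⁻¹, s * u * s⁻¹) := by rw [← e1, ← e2]; rfl
    rw [k.hlk, h3, k2] at k1
    exact k1

theorem step_bwd {p q : Ori N} (h : Ori.Step p q) {v : ℕ × Multiset ℕ} (hq : q.InH4)
    (hv : q.HLK v) : p.InH4 ∧ p.HLK v := by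
  obtain ⟨O, h1, h2, h3⟩ := hv.org hq
  cases h with
  | shear r u =>
    have e1 : O.r = r := congrArg Prod.fst h1
    have e2 : O.u = u * r⁻¹ := congrArg Prod.snd h1
    have k : Step O.Ti O := by
      have := Step.T O.Ti
      rwa [Ti_T] at this
    have k1 := (k.hyp' h2).pair
    have k2 : O.Ti.pair = (r, u) := by
      have : O.Ti.pair = (O.r, O.u * O.r) := rfl
      rw [this, e1, e2]; simp
    rw [← k.hlk, h3, k2] at k1
    exact k1
  | turn r u =>
    have e1 : O.r = u⁻¹ := congrArg Prod.fst h1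
    have e2 : O.u = r := congrArg Prod.snd h1
    have k : Step O.J.J.J O := by
      have := Step.J O.J.J.J
      rwa [J4] at this
    have k1 := (k.hyp' h2).pair
    have k2 : O.J.J.J.pair = (r, u) := by
      have : O.J.J.J.pair = ((O.u⁻¹)⁻¹, O.r⁻¹) := rfl
      rw [this, e1, e2]; simp
    rw [← k.hlk, h3, k2] at k1
    exact k1
  | iso r u s =>
    have e1 : O.r = s * r * s⁻¹ := congrArg Prod.fst h1
    have e2 : O.u = s * u * s⁻¹ := congrArg Prod.snd h1
    have k := cj_iso O s⁻¹
    have k1 := (k.hyp h2).pair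
    have k2 : (O.cj s⁻¹).pair = (r, u) := by
      have : (O.cj s⁻¹).pair = (s⁻¹ * O.r * s⁻¹⁻¹, s⁻¹ * O.u * s⁻¹⁻¹) := rfl
      rw [this, e1, e2]
      refine Prod.ext ?_ ?_ <;> simp only <;> group
    rw [k.hlk, h3, k2] at k1
    exact k1

theorem sameOrbit_hlk {p q : Ori N} (h : Ori.SameOrbit p q) :
    ∀ v, (p.InH4 ∧ p.HLK v) ↔ (q.InH4 ∧ q.HLK v) := by
  induction h with
  | rel a b h => exact fun v => ⟨fun k => step_fwd h k.1 k.2, fun k => step_bwd h k.1 k.2⟩
  | refl a => exact fun v => Iff.rfl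
  | symm a b _ ih => exact fun v => (ih v).symm
  | trans a b c _ _ ih1 ih2 => exact fun v => (ih1 v).trans (ih2 v)

/-! ## The orbits -/

theorem Ori.PH.org {p : Ori N} (hp : p.PH) : ∃ O : Org (Fin N), O.pair = p ∧ Hyp O ∧ O.Prim := by
  obtain ⟨h1, h2, v, hv⟩ := hp
  obtain ⟨O, e1, e2, _⟩ := hv.org h1
  refine ⟨O, e1, e2, ?_⟩
  have hN : 0 < N := by
    rcases Nat.eq_zero_or_pos N with h | h
    · subst h
      obtain ⟨x, _⟩ := e2.cyc
      exact x.elim0
    · exact h
  rw [← primitive_iff e2.trans hN, e1]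
  exact h2

theorem Hyp.pos {O : Org (Fin N)} (hO : Hyp O) : 0 < N := by
  rcases Nat.eq_zero_or_pos N with h | h
  · subst h
    obtain ⟨x, _⟩ := hO.cyc
    exact x.elim0
  · exact h

/-- every primitive hyperelliptic origami has a canonical chain -/
theorem canon_of {K : Type} {canon : K → C6}
    (hA : ∀ c : C6, Pos c → span c = ⊤ → vol c = N → ∃ k, CEq c (canon k))
    {O : Org (Fin N)} (hO : Hyp O) (hp : O.Prim) :
    ∃ k, ∃ O' : Org (Fin N), SLE O O' ∧ Pos (canon k) ∧ vol (canon k) = N ∧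
      Chain O' (canon k) := by
  obtain ⟨c, c1, c2, c3⟩ := exists_chain hO
  rw [Nat.card_fin] at c2
  have hs := span_eq_top hO.trans hp c1 c3 (by rw [Nat.card_fin, c2])
  obtain ⟨k, hk⟩ := hA c c1 hs c2
  obtain ⟨h1, h2, h3, _⟩ := hk.chain (X := Fin N)
  obtain ⟨O', e1, e2⟩ := h3 c1 O c3
  exact ⟨k, O', e1, h1.1 c1, by rw [h2 c1, c2], e2⟩

theorem orbit_of_canon {c : C6} (hc : Pos c) (hv : vol c = N) {O1 O2 O1' O2' : Org (Fin N)}
    (h1 : Hyp O1) (h2 : Hyp O2) (s1 : SLE O1 O1') (s2 : SLE O2 O2') (c1 : Chain O1' c)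
    (c2 : Chain O2' c) : Ori.SameOrbit O1.pair O2.pair := by
  have k1 := (s1.hyp.1 h1).trans
  have k2 := (s2.hyp.1 h2).trans
  obtain ⟨e, he⟩ := recon k1 k2 hc c1 c2 (by rw [Nat.card_fin, hv]) (by rw [Nat.card_fin, hv])
  exact Relation.EqvGen.trans _ _ _ s1.pair (Relation.EqvGen.trans _ _ _
    (Relation.EqvGen.rel _ _ he.pair) (Relation.EqvGen.symm _ _ s2.pair))

/-- the orbits, from the equivalence of chains -/
theorem orbits_of {K : Type} [Finite K] {canon : K → C6} {val : K → ℕ × Multiset ℕ}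
    (hval : Function.Injective val)
    (hA : ∀ c : C6, Pos c → span c = ⊤ → vol c = N → ∃ k, CEq c (canon k))
    (hE : ∀ k, ∃ O : Org (Fin N), Hyp O ∧ O.Prim ∧ O.hlk = val k) :
    ∃ o : K → Ori N, (∀ k, (o k).PH ∧ ∀ v, (o k).HLK v ↔ v = val k) ∧
      ∀ p : Ori N, p.PH → ∃! k, p.SameOrbit (o k) := by
  choose O hO hP hV using hE
  have hHLK : ∀ k v, (O k).pair.HLK v ↔ v = val k := by
    intro k v
    constructor
    · intro h
      have h2 := (hO k).pair
      rw [hV] at h2
      exact pair_hlk_unique h2.1 h h2.2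
    · rintro rfl
      have h2 := (hO k).pair
      rw [hV] at h2
      exact h2.2
  have hPH : ∀ k, (O k).pair.PH := fun k =>
    ⟨(hO k).pair.1, (primitive_iff (hO k).trans (hO k).pos).2 (hP k), _, (hO k).pair.2⟩
  have hinj : ∀ k k', Ori.SameOrbit (O k).pair (O k').pair → k = k' := by
    intro k k' h
    have h1 := (sameOrbit_hlk h (val k)).1 ⟨(hO k).pair.1, (hHLK k _).2 rfl⟩
    exact hval ((hHLK k' _).1 h1.2)
  refine ⟨fun k => (O k).pair, fun k => ⟨hPH k, hHLK k⟩, fun p hp => ?_⟩
  -- canonical chains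
  have hC : ∀ k, ∃ k' O', SLE (O k) O' ∧ Pos (canon k') ∧ vol (canon k') = N ∧
      Chain O' (canon k') := fun k => canon_of hA (hO k) (hP k)
  choose s O' hs1 hs2 hs3 hs4 using hC
  have hsinj : Function.Injective s := by
    intro k k' h
    apply hinj
    refine orbit_of_canon (hs2 k) (hs3 k) (hO k) (hO k') (hs1 k) (hs1 k') (hs4 k) ?_
    rw [h]; exact hs4 k'
  have hssurj : Function.Surjective s := Finite.surjective_of_injective hsinj
  obtain ⟨Q, q1, q2, q3⟩ := hp.org
  obtain ⟨k1, Q', r1, r2, r3, r4⟩ := canon_of hA q2 q3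
  obtain ⟨k, rfl⟩ := hssurj k1
  have hk : Ori.SameOrbit p (O k).pair := by
    rw [← q1]
    exact orbit_of_canon r2 r3 q2 (hO k) r1 (hs1 k) r4 (hs4 k)
  refine ⟨k, hk, fun k' hk' => ?_⟩
  exact hinj _ _ (Relation.EqvGen.trans _ _ _ (Relation.EqvGen.symm _ _ hk') hk)

end Pool.Agent.H4G
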