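import Pool.Agent.H4G.Defs

/-!
# Products, reconstruction and primitivity (row P of MP_4f7c28 GEOM)
-/

set_option autoImplicit false

namespace Pool.Agent.H4G

variable {X : Type}

/-! ## Products -/

theorem Fill.prod {X' : Type} {O : Org X} {O' : Org X'} {t : Tree} :
    ∀ {A B : Z2} {g : Z2 → X} {g' : Z2 → X'}, Fill O A B t g → Fill O' A B t g' →
      Fill (O.prod O') A B t (fun z => (g z, g' z)) := by
  induction t with
  | leaf =>
    intro A B g g' h h' x hx z hz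
    exact Prod.ext (h x hx z hz) (h' x hx z hz)
  | node C l r ihl ihr =>
    rintro A B g g' ⟨h0, f, hf, ha, hl, hr⟩ ⟨_, f', hf', ha', hl', hr'⟩
    refine ⟨h0, fun z => (f z, f' z), ?_, ?_, ihl hl hl', ihr hr hr'⟩
    · intro x hx
      exact ⟨fun z hz hz' => Prod.ext ((hf x hx).1 z hz hz') ((hf' x hx).1 z hz hz'),
        fun z hz hz' => Prod.ext ((hf x hx).2 z hz hz') ((hf' x hx).2 z hz hz')⟩
    · intro x hx z hz
      exact Prod.ext (ha x hx z hz) (ha' x hx z hz)

theorem Has.prod {X' : Type} {O : Org X} {O' : Org X'} {A B : Z2} {t t' : Tree}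
    (h : Has O A B t t') (h' : Has O' A B t t') : Has (O.prod O') A B t t' := by
  obtain ⟨g, hd, h1, h2⟩ := h
  obtain ⟨g', hd', h1', h2'⟩ := h'
  refine ⟨fun z => (g z, g' z), ?_, h1.prod h1', h2.prod h2'⟩
  intro x hx
  exact ⟨fun z hz hz' => Prod.ext ((hd x hx).1 z hz hz') ((hd' x hx).1 z hz hz'),
    fun z hz hz' => Prod.ext ((hd x hx).2 z hz hz') ((hd' x hx).2 z hz hz')⟩

/-- the statement of the core theorem (row C) -/
def CoreStmt : Prop := ∀ {X : Type} [Finite X] {O : Org X} {A B C : Z2} {l r t' : Tree},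
    Has O A B (.node C l r) t' →
    ∃ R : Set X, R.Nonempty ∧ (∀ x ∈ R, O.r x ∈ R) ∧ (∀ x ∈ R, O.u x ∈ R) ∧ (∀ x ∈ R, O.i x ∈ R) ∧
      (R.ncard : ℤ) ≤ (Tree.node C l r).area A B + t'.area B A

lemma tri_zero (B C : Z2) : tri 0 B C = cr B C := by
  simp [tri]

lemma fan_area (a0 a1 a2 a3 a4 a5 : Z2) :
    (fan a1 a2 a3 a4 a5).area 0 a0 + Tree.leaf.area a0 0 = vol (a0, a1, a2, a3, a4, a5) := by
  simp only [fan, Tree.area, tri_zero, vol]
  ring

theorem core_chain (hcore : CoreStmt) [Finite X] {O : Org X} {c : C6} (h : Chain O c) :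
    ∃ R : Set X, R.Nonempty ∧ (∀ x ∈ R, O.r x ∈ R) ∧ (∀ x ∈ R, O.u x ∈ R) ∧ (∀ x ∈ R, O.i x ∈ R) ∧
      (R.ncard : ℤ) ≤ vol c := by
  obtain ⟨a0, a1, a2, a3, a4, a5⟩ := c
  rw [← fan_area]
  exact hcore h

theorem Chain.prod {X' : Type} {O : Org X} {O' : Org X'} {c : C6} (h : Chain O c)
    (h' : Chain O' c) : Chain (O.prod O') c := by
  obtain ⟨a0, a1, a2, a3, a4, a5⟩ := c
  exact Has.prod h h'

/-- a relation with full projection and few elements is the graph of a function -/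
lemma graph_unique {X Y : Type} [Finite X] [Finite Y] (R : Set (X × Y))
    (hsur : ∀ x, ∃ y, (x, y) ∈ R) (hcard : R.ncard ≤ Nat.card X) {x : X} {y y' : Y}
    (h : (x, y) ∈ R) (h' : (x, y') ∈ R) : y = y' := by
  have hs : Function.Surjective (fun p : R => p.1.1) := fun x => by
    obtain ⟨y, hy⟩ := hsur x
    exact ⟨⟨(x, y), hy⟩, rfl⟩
  have hb := hs.bijective_of_nat_card_le (by rwa [Nat.card_coe_set_eq])
  have := hb.1 (a₁ := ⟨(x, y), h⟩) (a₂ := ⟨(x, y'), h'⟩) rfl
  exact congrArg (fun p : R => p.1.2) this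

theorem proj_fst {X' : Type} {O : Org X} {O' : Org X'} (hO : O.Trans) {R : Set (X × X')}
    (hne : R.Nonempty) (hr : ∀ x ∈ R, (O.prod O').r x ∈ R) (hu : ∀ x ∈ R, (O.prod O').u x ∈ R) (x : X) :
    ∃ y, (x, y) ∈ R := by
  have h := hO {x | ∃ y, (x, y) ∈ R} (by
    obtain ⟨⟨x, y⟩, h⟩ := hne
    exact ⟨x, y, h⟩) (by
    rintro x ⟨y, h⟩
    exact ⟨O'.r y, hr _ h⟩) (by
    rintro x ⟨y, h⟩
    exact ⟨O'.u y, hu _ h⟩)
  have : x ∈ {x | ∃ y, (x, y) ∈ R} := h ▸ Set.mem_univ x
  exact this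

theorem proj_snd {X' : Type} {O : Org X} {O' : Org X'} (hO' : O'.Trans) {R : Set (X × X')}
    (hne : R.Nonempty) (hr : ∀ x ∈ R, (O.prod O').r x ∈ R) (hu : ∀ x ∈ R, (O.prod O').u x ∈ R)
    (y : X') : ∃ x, (x, y) ∈ R := by
  have h := hO' {y | ∃ x, (x, y) ∈ R} (by
    obtain ⟨⟨x, y⟩, h⟩ := hne
    exact ⟨y, x, h⟩) (by
    rintro y ⟨x, h⟩
    exact ⟨O.r x, hr _ h⟩) (by
    rintro y ⟨x, h⟩
    exact ⟨O.u x, hu _ h⟩)
  have : y ∈ {y | ∃ x, (x, y) ∈ R} := h ▸ Set.mem_univ y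
  exact this

theorem recon_of (hcore : CoreStmt) {X' : Type} [Finite X] [Finite X'] {O : Org X} {O' : Org X'}
    (hO : O.Trans) (hO' : O'.Trans) {c : C6} (h : Chain O c) (h' : Chain O' c)
    (hX : (Nat.card X : ℤ) = vol c) (hX' : (Nat.card X' : ℤ) = vol c) :
    ∃ e : X ≃ X', Iso O O' e := by
  obtain ⟨R, hne, hr, hu, hi, hcard⟩ := core_chain hcore (h.prod h')
  have h1 : R.ncard ≤ Nat.card X := by
    rw [← hX] at hcard
    exact_mod_cast hcard
  have h2 : R.ncard ≤ Nat.card X' := by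
    rw [← hX'] at hcard
    exact_mod_cast hcard
  have p1 := proj_fst hO hne hr hu
  have p2 := proj_snd hO' hne hr hu
  have hs1 : Function.Surjective (fun p : R => p.1.1) := fun x => by
    obtain ⟨y, hy⟩ := p1 x
    exact ⟨⟨(x, y), hy⟩, rfl⟩
  have hs2 : Function.Surjective (fun p : R => p.1.2) := fun y => by
    obtain ⟨x, hx⟩ := p2 y
    exact ⟨⟨(x, y), hx⟩, rfl⟩
  have hb1 := hs1.bijective_of_nat_card_le (by rwa [Nat.card_coe_set_eq])
  have hb2 := hs2.bijective_of_nat_card_le (by rwa [Nat.card_coe_set_eq])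
  set e : X ≃ X' := (Equiv.ofBijective _ hb1).symm.trans (Equiv.ofBijective _ hb2) with he
  have hmem : ∀ x, (x, e x) ∈ R := by
    intro x
    have h3 : (((Equiv.ofBijective _ hb1).symm x) : R).1.1 = x :=
      (Equiv.ofBijective _ hb1).apply_symm_apply x
    have h4 : e x = (((Equiv.ofBijective _ hb1).symm x) : R).1.2 := rfl
    have h5 := ((Equiv.ofBijective _ hb1).symm x).2
    have h6 : (x, e x) = (((Equiv.ofBijective _ hb1).symm x) : R).1 := Prod.ext h3.symm h4
    rw [h6]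
    exact h5
  refine ⟨e, fun x => ?_, fun x => ?_, fun x => ?_⟩
  · exact graph_unique R p1 h1 (hmem _) (hr _ (hmem x))
  · exact graph_unique R p1 h1 (hmem _) (hu _ (hmem x))
  · exact graph_unique R p1 h1 (hmem _) (hi _ (hmem x))

/-! ## The torus of a chain -/

section Torus

variable (S : AddSubgroup Z2)

/-- the class of a lattice point -/
def mq (z : Z2) : Z2 ⧸ S := QuotientAddGroup.mk z

/-- the translation origami of a subgroup of the lattice -/
def torus : Org (Z2 ⧸ S) where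
  r := Equiv.addRight (mq S (1, 0))
  u := Equiv.addRight (mq S (0, 1))
  i := Equiv.subLeft (mq S (-1, -1))
  ii x := by
    rw [Equiv.subLeft_apply, Equiv.subLeft_apply, sub_sub_cancel]
  ir x := by
    rw [Equiv.subLeft_apply, Equiv.subLeft_apply, Equiv.coe_addRight, Equiv.eq_symm_apply,
      Equiv.coe_addRight, sub_add_eq_sub_sub]
    exact sub_add_cancel _ _
  iu x := by
    rw [Equiv.subLeft_apply, Equiv.subLeft_apply, Equiv.coe_addRight, Equiv.eq_symm_apply,
      Equiv.coe_addRight, sub_add_eq_sub_sub]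
    exact sub_add_cancel _ _

lemma torus_dev (x : V) : DevAt (torus S) x (fun z => (QuotientAddGroup.mk z : Z2 ⧸ S)) :=
  ⟨fun _ _ _ => rfl, fun _ _ _ => rfl⟩

lemma torus_fold {A B : Z2} (h : A + B ∈ S) :
    Fold (torus S) A B (fun z => (QuotientAddGroup.mk z : Z2 ⧸ S)) := by
  intro x _ z _
  show (QuotientAddGroup.mk z : Z2 ⧸ S) =
    QuotientAddGroup.mk (-1, -1) - QuotientAddGroup.mk (rf (A + B) z)
  rw [← QuotientAddGroup.mk_sub, QuotientAddGroup.eq]
  have e : -z + ((-1, -1) - rf (A + B) z) = -(A + B) := by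
    ext
    · simp only [rf, Prod.fst_add, Prod.fst_neg, Prod.fst_sub]; ring
    · simp only [rf, Prod.snd_add, Prod.snd_neg, Prod.snd_sub]; ring
  rw [e]
  exact S.neg_mem h

/-- finite index -/
lemma finite_quotient {a b : Z2} (ha : a ∈ S) (hb : b ∈ S) (h : 0 < cr a b) : Finite (Z2 ⧸ S) := by
  set d : ℤ := cr a b with hd
  have hmul : ∀ z : Z2, (d * z.1, d * z.2) ∈ S := by
    intro z
    have e : (d * z.1, d * z.2) = (cr z b) • a + (cr a z) • b := by
      rw [hd]
      ext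
      · simp only [cr, Prod.fst_add, Prod.smul_fst, smul_eq_mul]; ring
      · simp only [cr, Prod.snd_add, Prod.smul_snd, smul_eq_mul]; ring
    rw [e]
    exact S.add_mem (S.zsmul_mem ha _) (S.zsmul_mem hb _)
  have hdn : (d.toNat : ℤ) = d := Int.toNat_of_nonneg h.le
  refine Finite.of_surjective
    (fun p : Fin d.toNat × Fin d.toNat => (QuotientAddGroup.mk ((p.1 : ℕ), (p.2 : ℕ)) : Z2 ⧸ S)) ?_
  intro q
  obtain ⟨z, rfl⟩ := QuotientAddGroup.mk_surjective q
  have hb1 : ∀ k : ℤ, (k % d).toNat < d.toNat := fun k => by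
    have h1 := Int.emod_nonneg k h.ne'
    have h2 := Int.emod_lt_of_pos k h
    omega
  refine ⟨(⟨(z.1 % d).toNat, hb1 _⟩, ⟨(z.2 % d).toNat, hb1 _⟩), ?_⟩
  show (QuotientAddGroup.mk ((((z.1 % d).toNat : ℕ) : ℤ), (((z.2 % d).toNat : ℕ) : ℤ)) : Z2 ⧸ S) = _
  rw [QuotientAddGroup.eq, Int.toNat_of_nonneg (Int.emod_nonneg _ h.ne'),
    Int.toNat_of_nonneg (Int.emod_nonneg _ h.ne')]
  have e : -(z.1 % d, z.2 % d) + z = (d * (z.1 / d), d * (z.2 / d)) := by
    ext
    · show -(z.1 % d) + z.1 = d * (z.1 / d)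
      have := Int.emod_add_mul_ediv z.1 d
      linarith
    · show -(z.2 % d) + z.2 = d * (z.2 / d)
      have := Int.emod_add_mul_ediv z.2 d
      linarith
  rw [e]
  exact hmul (z.1 / d, z.2 / d)

end Torus

lemma torus_chain {c : C6} (hc : Pos c) : Chain (torus (span c)) c := by
  obtain ⟨a0, a1, a2, a3, a4, a5⟩ := c
  obtain ⟨h1, h2, h3, h4, h5⟩ := hc
  have m0 : a0 ∈ span (a0, a1, a2, a3, a4, a5) := AddSubgroup.subset_closure (by simp)
  have m1 : a1 ∈ span (a0, a1, a2, a3, a4, a5) := AddSubgroup.subset_closure (by simp)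
  have m2 : a2 ∈ span (a0, a1, a2, a3, a4, a5) := AddSubgroup.subset_closure (by simp)
  have m3 : a3 ∈ span (a0, a1, a2, a3, a4, a5) := AddSubgroup.subset_closure (by simp)
  have m4 : a4 ∈ span (a0, a1, a2, a3, a4, a5) := AddSubgroup.subset_closure (by simp)
  have m5 : a5 ∈ span (a0, a1, a2, a3, a4, a5) := AddSubgroup.subset_closure (by simp)
  set S := span (a0, a1, a2, a3, a4, a5) with hS
  have hd : ∀ K : Set V, Dev (torus S) K (fun z => (QuotientAddGroup.mk z : Z2 ⧸ S)) :=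
    fun _ x _ => torus_dev S x
  have ha : ∀ K : Set V, Agree K (fun z => (QuotientAddGroup.mk z : Z2 ⧸ S))
    (fun z => (QuotientAddGroup.mk z : Z2 ⧸ S)) := fun _ _ _ _ _ => rfl
  refine ⟨fun z => (QuotientAddGroup.mk z : Z2 ⧸ S), hd _, ?_, ?_⟩
  · refine ⟨by rw [tri_zero]; exact h1, _, hd _, ha _, torus_fold S (S.add_mem m1 m0), ?_⟩
    refine ⟨by rw [tri_zero]; exact h2, _, hd _, ha _, torus_fold S (S.add_mem m2 m1), ?_⟩
    refine ⟨by rw [tri_zero]; exact h3, _, hd _, ha _, torus_fold S (S.add_mem m3 m2), ?_⟩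
    refine ⟨by rw [tri_zero]; exact h4, _, hd _, ha _, torus_fold S (S.add_mem m4 m3), ?_⟩
    refine ⟨by rw [tri_zero]; exact h5, _, hd _, ha _, torus_fold S (S.add_mem m5 m4), ?_⟩
    exact torus_fold S (by rw [zero_add]; exact m5)
  · exact torus_fold S (by rw [add_zero]; exact m0)

theorem span_eq_top_of (hcore : CoreStmt) [Finite X] {O : Org X} (hO : O.Trans) (hp : O.Prim)
    {c : C6} (hc : Pos c) (h : Chain O c) (hX : (Nat.card X : ℤ) = vol c) : span c = ⊤ := by
  have hfin : Finite (Z2 ⧸ span c) := by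
    obtain ⟨a0, a1, a2, a3, a4, a5⟩ := c
    exact finite_quotient _ (a := a0) (b := a1) (AddSubgroup.subset_closure (by simp))
      (AddSubgroup.subset_closure (by simp)) hc.1
  obtain ⟨R, hne, hr, hu, hi, hcard⟩ := core_chain hcore (h.prod (torus_chain hc))
  have h1 : R.ncard ≤ Nat.card X := by
    rw [← hX] at hcard
    exact_mod_cast hcard
  have p1 := proj_fst hO hne hr hu
  choose F hF using p1
  have hun : ∀ {x : X} {y : Z2 ⧸ span c}, (x, y) ∈ R → F x = y := fun hxy =>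
    graph_unique R (fun x => ⟨F x, hF x⟩) h1 (hF _) hxy
  have hFr : ∀ x, F (O.r x) = F x + QuotientAddGroup.mk (1, 0) := fun x => hun (hr _ (hF x))
  have hFu : ∀ x, F (O.u x) = F x + QuotientAddGroup.mk (0, 1) := fun x => hun (hu _ (hF x))
  have hpath : ∀ {x y : X} {w : Z2}, Path O x w y → F y = F x + QuotientAddGroup.mk w := by
    intro x y w hxy
    induction hxy with
    | refl => rw [QuotientAddGroup.mk_zero, add_zero]
    | right _ ih => rw [hFr, ih, add_assoc, ← QuotientAddGroup.mk_add]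
    | @left y w _ ih =>
      have := hFr (O.r.symm y)
      rw [O.r.apply_symm_apply, ih] at this
      rw [QuotientAddGroup.mk_sub, ← add_sub_assoc, this, add_sub_cancel_right]
    | up _ ih => rw [hFu, ih, add_assoc, ← QuotientAddGroup.mk_add]
    | @down y w _ ih =>
      have := hFu (O.u.symm y)
      rw [O.u.apply_symm_apply, ih] at this
      rw [QuotientAddGroup.mk_sub, ← add_sub_assoc, this, add_sub_cancel_right]
  obtain ⟨⟨x, _⟩, _⟩ := hne
  rw [eq_top_iff]
  intro w _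
  have h2 := hpath (hp x w)
  have h3 : (QuotientAddGroup.mk w : Z2 ⧸ span c) = 0 := by
    have := add_right_cancel (b := F x) (a := QuotientAddGroup.mk w) (c := 0) (by
      rw [zero_add, add_comm]; exact h2.symm)
    exact this
  exact (QuotientAddGroup.eq_zero_iff w).1 h3

end Pool.Agent.H4G
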