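import Pool.Agent.H4G.Defs

/-!
# GEOM row U1 (helper96): congruence, union lemma, quadrilaterals, rotation of trees
-/

set_option autoImplicit false

namespace Pool.Agent.H4G

variable {X : Type}

/-! ## Signed areas -/

theorem ori_add (A B C : Z2) (x : V) : ori A B x + ori B C x + ori C A x = (tri A B C : ℝ) := by
  simp only [ori, tri, cr, Prod.fst_sub, Prod.snd_sub]; push_cast; ring

theorem ori_swap (A B : Z2) (x : V) : ori B A x = -ori A B x := by
  simp only [ori]; ring

/-- barycentric coordinates -/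
theorem bary (A B C P Q : Z2) (x : V) : (tri A B C : ℝ) * ori P Q x =
    ori B C x * ori P Q (em A) + ori C A x * ori P Q (em B) + ori A B x * ori P Q (em C) := by
  simp only [ori, tri, cr, em, Prod.fst_sub, Prod.snd_sub]; push_cast; ring

theorem ori_em (A B C : Z2) : ori A B (em C) = (tri A B C : ℝ) := by
  simp only [ori, tri, cr, em, Prod.fst_sub, Prod.snd_sub]; push_cast; ring

theorem tri_rot (A B C : Z2) : tri B C A = tri A B C := by
  simp only [tri, cr, Prod.fst_sub, Prod.snd_sub]; ring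

theorem tri_self (A B : Z2) : tri A B A = 0 := by
  simp only [tri, cr, Prod.fst_sub, Prod.snd_sub]; ring

theorem tri_self' (A B : Z2) : tri A B B = 0 := by
  simp only [tri, cr, Prod.fst_sub, Prod.snd_sub]; ring

theorem tri_swap (A B C : Z2) : tri B A C = -tri A B C := by
  simp only [tri, cr, Prod.fst_sub, Prod.snd_sub]; ring

theorem ori_em_left (A B : Z2) : ori A B (em A) = 0 := by rw [ori_em, tri_self]; simp

theorem ori_em_right (A B : Z2) : ori A B (em B) = 0 := by rw [ori_em, tri_self']; simp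

theorem bary_fst (A B C : Z2) (x : V) : (tri A B C : ℝ) * x.1 =
    ori B C x * A.1 + ori C A x * B.1 + ori A B x * C.1 := by
  simp only [ori, tri, cr, Prod.fst_sub, Prod.snd_sub]; push_cast; ring

theorem bary_snd (A B C : Z2) (x : V) : (tri A B C : ℝ) * x.2 =
    ori B C x * A.2 + ori C A x * B.2 + ori A B x * C.2 := by
  simp only [ori, tri, cr, Prod.fst_sub, Prod.snd_sub]; push_cast; ring

theorem eq_em_of {A B C : Z2} (h : tri A B C ≠ 0) {x : V} (h1 : ori A B x = 0)
    (h2 : ori C A x = 0) : x = em A := by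
  have h' : (tri A B C : ℝ) ≠ 0 := by exact_mod_cast h
  have h3 := ori_add A B C x
  have h4 : ori B C x = (tri A B C : ℝ) := by rw [h1, h2] at h3; linarith
  have e1 := bary_fst A B C x
  have e2 := bary_snd A B C x
  rw [h1, h2, h4] at e1 e2
  ext
  · simp only [em]; exact mul_left_cancel₀ h' (by linarith)
  · simp only [em]; exact mul_left_cancel₀ h' (by linarith)

theorem Tri_rot (A B C : Z2) : Tri B C A = Tri A B C := by
  ext x; simp only [Tri, Set.mem_ofPred_eq]; tauto

theorem mem_tri_iff {A B C : Z2} (h : 0 < tri A B C) (x : V) : x ∈ Tri A B C ↔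
    0 ≤ ori A B x ∧ 0 ≤ ori B C x ∧ 0 ≤ ori C A x ∧ ¬ (ori A B x = 0 ∧ ori C A x = 0) ∧
      ¬ (ori B C x = 0 ∧ ori A B x = 0) ∧ ¬ (ori C A x = 0 ∧ ori B C x = 0) := by
  have e1 : x = em A ↔ (ori A B x = 0 ∧ ori C A x = 0) := by
    constructor
    · rintro rfl; exact ⟨ori_em_left A B, ori_em_right C A⟩
    · rintro ⟨h1, h2⟩; exact eq_em_of h.ne' h1 h2
  have e2 : x = em B ↔ (ori B C x = 0 ∧ ori A B x = 0) := by
    constructor
    · rintro rfl; exact ⟨ori_em_left B C, ori_em_right A B⟩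
    · rintro ⟨h1, h2⟩; exact eq_em_of (by rw [tri_rot]; exact h.ne') h1 h2
  have e3 : x = em C ↔ (ori C A x = 0 ∧ ori B C x = 0) := by
    constructor
    · rintro rfl; exact ⟨ori_em_left C A, ori_em_right B C⟩
    · rintro ⟨h1, h2⟩; exact eq_em_of (by rw [tri_rot, tri_rot]; exact h.ne') h1 h2
  simp only [Tri, Set.mem_ofPred_eq, ne_eq, e1, e2, e3]

theorem mem_seg_of {A B C : Z2} (h : 0 < tri A B C) {x : V} (h1 : 0 < ori A B x)
    (h2 : ori B C x = 0) (h3 : 0 < ori C A x) : x ∈ Seg B C := by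
  have h' : (0 : ℝ) < (tri A B C : ℝ) := by exact_mod_cast h
  have h4 := ori_add A B C x
  rw [h2, add_zero] at h4
  have e1 := bary_fst A B C x
  have e2 := bary_snd A B C x
  rw [h2] at e1 e2
  refine ⟨ori A B x / tri A B C, by positivity, ?_, ?_⟩
  · rw [div_lt_one h']; linarith
  · have h5 : 1 - ori A B x / (tri A B C : ℝ) = ori C A x / tri A B C := by
      field_simp; linarith
    ext
    · simp only [h5]; field_simp; linarith
    · simp only [h5]; field_simp; linarith

theorem seg_symm (A B : Z2) : Seg A B = Seg B A := by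
  ext x
  constructor <;> rintro ⟨t, h0, h1, rfl⟩ <;>
    exact ⟨1 - t, by linarith, by linarith, by ext <;> simp <;> ring⟩

theorem seg_sub_aux {A B C : Z2} (h : 0 < tri A B C) : Seg A B ⊆ Tri A B C := by
  rintro x ⟨t, h0, h1, rfl⟩
  have h' : (0 : ℝ) < (tri A B C : ℝ) := by exact_mod_cast h
  have e1 : ori A B ((1 - t) * A.1 + t * B.1, (1 - t) * A.2 + t * B.2) = 0 := by
    simp only [ori]; ring
  have e2 : ori B C ((1 - t) * A.1 + t * B.1, (1 - t) * A.2 + t * B.2) = (1 - t) * tri A B C := by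
    simp only [ori, tri, cr, Prod.fst_sub, Prod.snd_sub]; push_cast; ring
  have e3 : ori C A ((1 - t) * A.1 + t * B.1, (1 - t) * A.2 + t * B.2) = t * tri A B C := by
    simp only [ori, tri, cr, Prod.fst_sub, Prod.snd_sub]; push_cast; ring
  have p2 : 0 < (1 - t) * (tri A B C : ℝ) := by apply mul_pos <;> linarith
  have p3 : 0 < t * (tri A B C : ℝ) := by apply mul_pos <;> linarith
  rw [mem_tri_iff h, e1, e2, e3]
  refine ⟨le_rfl, p2.le, p3.le, ?_, ?_, ?_⟩
  · rintro ⟨-, h⟩; exact p3.ne' h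
  · rintro ⟨h, -⟩; exact p2.ne' h
  · rintro ⟨h, -⟩; exact p3.ne' h

theorem seg_sub_tri {A B C : Z2} (h : 0 < tri A B C) :
    Seg A B ⊆ Tri A B C ∧ Seg B C ⊆ Tri A B C ∧ Seg C A ⊆ Tri A B C := by
  refine ⟨seg_sub_aux h, ?_, ?_⟩
  · rw [← Tri_rot A B C]; exact seg_sub_aux (by rw [tri_rot]; exact h)
  · rw [← Tri_rot A B C, ← Tri_rot B C A]
    exact seg_sub_aux (by rw [tri_rot, tri_rot]; exact h)

/-! ## Agreement -/

theorem Agree.symm {K : Set V} {f g : Z2 → X} (h : Agree K f g) : Agree K g f :=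
  fun x hx z hz => (h x hx z hz).symm

theorem Agree.trans {K : Set V} {f g k : Z2 → X} (h : Agree K f g) (h' : Agree K g k) :
    Agree K f k := fun x hx z hz => (h x hx z hz).trans (h' x hx z hz)

theorem Agree.refl (K : Set V) (f : Z2 → X) : Agree K f f := fun _ _ _ _ => rfl

theorem Agree.mono {K K' : Set V} {f g : Z2 → X} (h : Agree K f g) (hK : K' ⊆ K) :
    Agree K' f g := fun x hx z hz => h x (hK hx) z hz

theorem Dev.mono {O : Org X} {K K' : Set V} {f : Z2 → X} (h : Dev O K f) (hK : K' ⊆ K) :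
    Dev O K' f := fun x hx => h x (hK hx)

theorem DevAt.congr {O : Org X} {x : V} {f g : Z2 → X} (h : DevAt O x f)
    (hfg : ∀ z, Nr x z → f z = g z) : DevAt O x g := by
  refine ⟨fun z h1 h2 => ?_, fun z h1 h2 => ?_⟩
  · rw [← hfg _ h1, ← hfg _ h2]; exact h.1 z h1 h2
  · rw [← hfg _ h1, ← hfg _ h2]; exact h.2 z h1 h2

theorem Dev.congr {O : Org X} {K : Set V} {f g : Z2 → X} (h : Dev O K f) (hfg : Agree K f g) :
    Dev O K g := fun x hx => (h x hx).congr (hfg x hx)

/-- the reflected square is near the reflected point -/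
theorem Nr.rf {x : V} {z : Z2} (h : Nr x z) (c : Z2) :
    Nr ((c.1 : ℝ) - x.1, (c.2 : ℝ) - x.2) (rf c z) := by
  obtain ⟨h1, h2, h3, h4⟩ := h
  simp only [Nr, H4G.rf]
  push_cast
  refine ⟨by linarith, by linarith, by linarith, by linarith⟩

theorem seg_rf {A B : Z2} {x : V} (h : x ∈ Seg A B) :
    (((A + B).1 : ℝ) - x.1, ((A + B).2 : ℝ) - x.2) ∈ Seg A B := by
  obtain ⟨t, h0, h1, rfl⟩ := h
  refine ⟨1 - t, by linarith, by linarith, ?_⟩
  ext <;> simp <;> ring

theorem Fold.congr {O : Org X} {A B : Z2} {g g' : Z2 → X} (h : Fold O A B g)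
    (hg : Agree (Seg A B) g g') : Fold O A B g' := by
  intro x hx z hz
  rw [← hg x hx z hz, h x hx z hz]
  congr 1
  exact hg _ (seg_rf hx) _ (hz.rf _)

theorem Fill.congr {O : Org X} {A B : Z2} {t : Tree} {g g' : Z2 → X}
    (h : Fill O A B t g) (hg : Agree (Seg A B) g g') : Fill O A B t g' := by
  cases t with
  | leaf => exact Fold.congr h hg
  | node C l r =>
    obtain ⟨h0, f, h1, h2, h3, h4⟩ := h
    exact ⟨h0, f, h1, h2.trans hg, h3, h4⟩

/-! ## Union lemma -/

theorem union_dev {O : Org X} {K1 K2 : Set V} {f1 f2 : Z2 → X} (h1 : Dev O K1 f1)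
    (h2 : Dev O K2 f2)
    (hc : ∀ x1 ∈ K1, ∀ x2 ∈ K2, ∀ z : Z2, Nr x1 z → Nr x2 z → f1 z = f2 z) :
    ∃ h : Z2 → X, Dev O (K1 ∪ K2) h ∧ Agree K1 f1 h ∧ Agree K2 f2 h := by
  classical
  let h : Z2 → X := fun z => if ∃ x ∈ K1, Nr x z then f1 z else f2 z
  have a1 : Agree K1 f1 h := by
    intro x hx z hz
    simp only [h]
    rw [if_pos ⟨x, hx, hz⟩]
  have a2 : Agree K2 f2 h := by
    intro x hx z hz
    simp only [h]
    split_ifs with h3
    · obtain ⟨y, hy, hyz⟩ := h3
      exact (hc y hy x hx z hyz hz).symm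
    · rfl
  refine ⟨h, ?_, a1, a2⟩
  rintro x (hx | hx)
  · exact (h1 x hx).congr (a1 x hx)
  · exact (h2 x hx).congr (a2 x hx)

theorem Nr.comb {x y : V} {z : Z2} (hx : Nr x z) (hy : Nr y z) {a b : ℝ} (ha : 0 ≤ a)
    (hb : 0 ≤ b) (hab : a + b = 1) : Nr (a * x.1 + b * y.1, a * x.2 + b * y.2) z := by
  obtain ⟨h1, h2, h3, h4⟩ := hx
  obtain ⟨k1, k2, k3, k4⟩ := hy
  have hb' : b = 1 - a := by linarith
  subst hb'
  refine ⟨?_, ?_, ?_, ?_⟩ <;> simp only <;> nlinarith

theorem ori_comb (A B : Z2) (x y : V) {a b : ℝ} (hab : a + b = 1) :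
    ori A B (a * x.1 + b * y.1, a * x.2 + b * y.2) = a * ori A B x + b * ori A B y := by
  have hb' : b = 1 - a := by linarith
  subst hb'
  simp only [ori]; ring

/-- consistency of two developments on the two halves of a strictly convex quadrilateral -/
theorem quad_cons {A B C E : Z2} (h1 : 0 < tri A B C) (h2 : 0 < tri C B E) (h3 : 0 < tri A B E)
    (h4 : 0 < tri A E C) {f1 f2 : Z2 → X} (ha : Agree (Seg C B) f2 f1) :
    ∀ x1 ∈ Tri A B C, ∀ x2 ∈ Tri C B E, ∀ z : Z2, Nr x1 z → Nr x2 z → f1 z = f2 z := by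
  intro x1 hx1 x2 hx2 z hz1 hz2
  rw [mem_tri_iff h1] at hx1
  rw [mem_tri_iff h2] at hx2
  obtain ⟨p1, p2, p3, q1, q2, q3⟩ := hx1
  obtain ⟨r1, r2, r3, s1, s2, s3⟩ := hx2
  have t1 : (0 : ℝ) < tri A B C := by exact_mod_cast h1
  have t2 : (0 : ℝ) < tri C B E := by exact_mod_cast h2
  have t3 : (0 : ℝ) < tri A B E := by exact_mod_cast h3
  have t4 : (0 : ℝ) < tri A E C := by exact_mod_cast h4
  -- on the segment
  have key : ∀ y : V, y ∈ Seg B C → Nr y z → f1 z = f2 z := by
    intro y hy hyz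
    rw [seg_symm] at hy
    exact (ha y hy z hyz).symm
  rcases eq_or_lt_of_le p2 with h0 | hpos
  · -- `x1` on the line
    have a1 : 0 < ori A B x1 := lt_of_le_of_ne p1 fun h => q2 ⟨h0.symm, h.symm⟩
    have a3 : 0 < ori C A x1 := lt_of_le_of_ne p3 fun h => q3 ⟨h.symm, h0.symm⟩
    exact key x1 (mem_seg_of h1 a1 h0.symm a3) hz1
  · set w := ori B C x1 + ori C B x2 with hw
    have hwpos : 0 < w := by linarith
    set a := ori C B x2 / w with hadef
    set b := ori B C x1 / w with hbdef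
    have ha0 : 0 ≤ a := div_nonneg r1 hwpos.le
    have hb0 : 0 < b := div_pos hpos hwpos
    have hab : a + b = 1 := by
      rw [hadef, hbdef, ← add_div, add_comm, ← hw, div_self hwpos.ne']
    -- positivity at x2
    have b1 : (tri C B E : ℝ) * ori A B x2 = ori B E x2 * tri A B C + ori C B x2 * tri A B E := by
      rw [bary C B E A B x2, ori_em, ori_em_right, ori_em]; ring
    have b3 : (tri C B E : ℝ) * ori C A x2 = ori E C x2 * tri A B C + ori C B x2 * tri A E C := by
      rw [bary C B E C A x2, ori_em_left, ori_em, ori_em]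
      have e1 : tri C A B = tri A B C := tri_rot C A B ▸ rfl
      have e2 : tri C A E = tri A E C := (tri_rot C A E) ▸ rfl
      rw [e1, e2]; ring
    have c1 : 0 < ori A B x2 := by
      have : 0 < (tri C B E : ℝ) * ori A B x2 := by
        rw [b1]
        rcases eq_or_lt_of_le r1 with hh | hh
        · have : 0 < ori B E x2 := lt_of_le_of_ne r2 fun h => s2 ⟨h.symm, hh.symm⟩
          rw [← hh]; positivity
        · have := mul_pos hh t3
          have := mul_nonneg r2 t1.le
          linarith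
      exact (mul_pos_iff_of_pos_left t2).1 this
    have c3 : 0 < ori C A x2 := by
      have : 0 < (tri C B E : ℝ) * ori C A x2 := by
        rw [b3]
        rcases eq_or_lt_of_le r1 with hh | hh
        · have : 0 < ori E C x2 := lt_of_le_of_ne r3 fun h => s1 ⟨hh.symm, h.symm⟩
          rw [← hh]; positivity
        · have := mul_pos hh t4
          have := mul_nonneg r3 t1.le
          linarith
      exact (mul_pos_iff_of_pos_left t2).1 this
    refine key (a * x1.1 + b * x2.1, a * x1.2 + b * x2.2) (mem_seg_of h1 ?_ ?_ ?_)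
      (hz1.comb hz2 ha0 hb0.le hab)
    · rw [ori_comb _ _ _ _ hab]
      have := mul_nonneg ha0 p1
      have := mul_pos hb0 c1
      linarith
    · rw [ori_comb _ _ _ _ hab, ori_swap C B x2 |> fun h => h]
      rw [hadef, hbdef]
      field_simp
      ring
    · rw [ori_comb _ _ _ _ hab]
      have := mul_nonneg ha0 p3
      have := mul_pos hb0 c3
      linarith

/-- the first new triangle lies in the quadrilateral -/
theorem quad_sub1 {A B C E : Z2} (h1 : 0 < tri A B C) (h2 : 0 < tri C B E) (h3 : 0 < tri A B E)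
    (h4 : 0 < tri A E C) : Tri A B E ⊆ Tri A B C ∪ Tri C B E := by
  intro x hx
  obtain ⟨p1, p2, p3, q1, q2, q3⟩ := hx
  have t1 : (0 : ℝ) < tri A B C := by exact_mod_cast h1
  have t2 : (0 : ℝ) < tri C B E := by exact_mod_cast h2
  have t3 : (0 : ℝ) < tri A B E := by exact_mod_cast h3
  have t4 : (0 : ℝ) < tri A E C := by exact_mod_cast h4
  have hC : x ≠ em C := by
    rintro rfl
    rw [ori_em] at p3
    have : tri E A C = -tri A E C := tri_swap A E C
    rw [this] at p3
    push_cast at p3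
    linarith
  rcases le_or_gt 0 (ori B C x) with h | h
  · left
    refine ⟨p1, h, ?_, q1, q2, hC⟩
    have b3 : (tri A B E : ℝ) * ori C A x = ori E A x * tri A B C + ori A B x * tri A E C := by
      rw [bary A B E C A x, ori_em_right, ori_em, ori_em]
      have e1 : tri C A B = tri A B C := tri_rot C A B ▸ rfl
      have e2 : tri C A E = tri A E C := (tri_rot C A E) ▸ rfl
      rw [e1, e2]; ring
    have : 0 ≤ (tri A B E : ℝ) * ori C A x := by rw [b3]; positivity
    exact nonneg_of_mul_nonneg_right this t3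
  · right
    refine ⟨?_, p2, ?_, hC, q2, q3⟩
    · rw [ori_swap]; linarith
    · have b3 : (tri A B E : ℝ) * ori E C x = ori B E x * tri A E C + ori E A x * tri C B E := by
        rw [bary A B E E C x, ori_em, ori_em, ori_em_left]
        have e1 : tri E C A = tri A E C := tri_rot A E C
        have e2 : tri E C B = tri C B E := by rw [← tri_rot E C B]
        rw [e1, e2]; ring
      have : 0 ≤ (tri A B E : ℝ) * ori E C x := by rw [b3]; positivity
      exact nonneg_of_mul_nonneg_right this t3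

/-- the second new triangle lies in the quadrilateral -/
theorem quad_sub2 {A B C E : Z2} (h1 : 0 < tri A B C) (h2 : 0 < tri C B E) (h3 : 0 < tri A B E)
    (h4 : 0 < tri A E C) : Tri A E C ⊆ Tri A B C ∪ Tri C B E := by
  intro x hx
  obtain ⟨p1, p2, p3, q1, q2, q3⟩ := hx
  have t1 : (0 : ℝ) < tri A B C := by exact_mod_cast h1
  have t2 : (0 : ℝ) < tri C B E := by exact_mod_cast h2
  have t3 : (0 : ℝ) < tri A B E := by exact_mod_cast h3
  have t4 : (0 : ℝ) < tri A E C := by exact_mod_cast h4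
  have hB : x ≠ em B := by
    rintro rfl
    rw [ori_em] at p1
    have : tri A E B = -tri A B E := by
      simp only [tri, cr, Prod.fst_sub, Prod.snd_sub]; ring
    rw [this] at p1
    push_cast at p1
    linarith
  rcases le_or_gt 0 (ori B C x) with h | h
  · left
    refine ⟨?_, h, p3, q1, hB, q3⟩
    have b3 : (tri A E C : ℝ) * ori A B x = ori C A x * tri A B E + ori A E x * tri A B C := by
      rw [bary A E C A B x, ori_em_left, ori_em, ori_em]; ring
    have : 0 ≤ (tri A E C : ℝ) * ori A B x := by rw [b3]; positivity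
    exact nonneg_of_mul_nonneg_right this t4
  · right
    refine ⟨?_, ?_, p2, q3, hB, q2⟩
    · rw [ori_swap]; linarith
    · have b3 : (tri A E C : ℝ) * ori B E x = ori E C x * tri A B E + ori A E x * tri C B E := by
        rw [bary A E C B E x, ori_em, ori_em_right, ori_em]
        have e1 : tri B E A = tri A B E := tri_rot A B E
        have e2 : tri B E C = tri C B E := tri_rot C B E
        rw [e1, e2]; ring
      have : 0 ≤ (tri A E C : ℝ) * ori B E x := by rw [b3]; positivity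
      exact nonneg_of_mul_nonneg_right this t4

/-- one development on a quadrilateral -/
theorem quad_dev {O : Org X} {A B C E : Z2} (h1 : 0 < tri A B C) (h2 : 0 < tri C B E)
    (h3 : 0 < tri A B E) (h4 : 0 < tri A E C) {f1 f2 : Z2 → X} (d1 : Dev O (Tri A B C) f1)
    (d2 : Dev O (Tri C B E) f2) (ha : Agree (Seg C B) f2 f1) :
    ∃ h : Z2 → X, Dev O (Tri A B C ∪ Tri C B E) h ∧ Agree (Tri A B C) f1 h ∧
      Agree (Tri C B E) f2 h :=
  union_dev d1 d2 (quad_cons h1 h2 h3 h4 ha)

theorem Fill.rot {O : Org X} {A B C E : Z2} {l1 l2 r : Tree} {g : Z2 → X}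
    (h : Fill O A B (.node C (.node E l1 l2) r) g) (h1 : 0 < tri A B E) (h2 : 0 < tri A E C) :
    Fill O A B (.node E l1 (.node C l2 r)) g := by
  obtain ⟨t1, f, d1, a1, ⟨t2, f2, d2, a2, k1, k2⟩, k3⟩ := h
  obtain ⟨w, dw, aw1, aw2⟩ := quad_dev t1 t2 h1 h2 d1 d2 a2
  have s1 := seg_sub_tri t1
  have s2 := seg_sub_tri t2
  refine ⟨h1, w, dw.mono (quad_sub1 t1 t2 h1 h2), (aw1.symm.mono s1.1).trans a1, ?_, ?_⟩
  · exact k1.congr (aw2.mono (by rw [seg_symm]; exact s2.2.1))
  · refine ⟨h2, w, dw.mono (quad_sub2 t1 t2 h1 h2), Agree.refl _ _, ?_, ?_⟩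
    · exact k2.congr (aw2.mono (by rw [seg_symm]; exact s2.2.2))
    · exact k3.congr (aw1.mono (by rw [seg_symm]; exact s1.2.2))

theorem Fill.rot' {O : Org X} {A B C E : Z2} {l1 l2 r : Tree} {g : Z2 → X}
    (h : Fill O A B (.node E l1 (.node C l2 r)) g) (h1 : 0 < tri A B C) (h2 : 0 < tri C B E) :
    Fill O A B (.node C (.node E l1 l2) r) g := by
  obtain ⟨t1, f, d1, a1, k1, ⟨t2, f2, d2, a2, k2, k3⟩⟩ := h
  -- quadrilateral `B, E, C, A` with diagonal `A E`
  have u1 : 0 < tri B E A := by rw [tri_rot]; exact t1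
  have u2 : 0 < tri A E C := t2
  have u3 : 0 < tri B E C := by rw [tri_rot]; exact h2
  have u4 : 0 < tri B C A := by rw [tri_rot]; exact h1
  have d1' : Dev O (Tri B E A) f := by rw [Tri_rot]; exact d1
  obtain ⟨w, dw, aw1, aw2⟩ := quad_dev u1 u2 u3 u4 d1' d2 a2
  rw [Tri_rot] at aw1
  have s1 := seg_sub_tri t1
  have s2 := seg_sub_tri t2
  have v1 := quad_sub1 u1 u2 u3 u4
  have v2 := quad_sub2 u1 u2 u3 u4
  rw [Tri_rot] at v1 v2
  refine ⟨h1, w, dw.mono v2, (aw1.symm.mono s1.1).trans a1, ?_, ?_⟩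
  · refine ⟨h2, w, dw.mono v1, Agree.refl _ _, ?_, ?_⟩
    · exact k1.congr (aw1.mono (by rw [seg_symm]; exact s1.2.1))
    · exact k2.congr (aw2.mono (by rw [seg_symm]; exact s2.2.1))
  · exact k3.congr (aw2.mono (by rw [seg_symm]; exact s2.2.2))

end Pool.Agent.H4G
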