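import Pool.Agent.H4G.SadDefs

/-!
# Row E1 (a): saddles and cylinders of a hyperelliptic origami (helper40)
-/

set_option autoImplicit false

namespace Pool.Agent.H4G

variable {X : Type}

/-! ## Elementary computations -/

theorem pz_add (p : Equiv.Perm X) (a b : ℤ) (x : X) : (p ^ a) ((p ^ b) x) = (p ^ (a + b)) x := by
  rw [zpow_add]; rfl

theorem pz_zero (p : Equiv.Perm X) (x : X) : (p ^ (0 : ℤ)) x = x := by
  rw [zpow_zero]; rfl

theorem p_pz (p : Equiv.Perm X) (a : ℤ) (x : X) : p ((p ^ a) x) = (p ^ (a + 1)) x := by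
  rw [add_comm, zpow_add, zpow_one]; rfl

theorem pz_p (p : Equiv.Perm X) (a : ℤ) (x : X) : (p ^ a) (p x) = (p ^ (a + 1)) x := by
  rw [zpow_add, zpow_one]; rfl

theorem ps_pz (p : Equiv.Perm X) (a : ℤ) (x : X) : p.symm ((p ^ a) x) = (p ^ (a - 1)) x := by
  rw [Equiv.symm_apply_eq, p_pz]; congr 2; ring

theorem pz_nat (p : Equiv.Perm X) (n : ℕ) (x : X) : (p ^ n) x = (p ^ (n : ℤ)) x := by
  rw [zpow_natCast]

theorem Org.irs (O : Org X) (x : X) : O.i (O.r.symm x) = O.r (O.i x) := by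
  have := O.ir (O.r.symm x)
  rw [O.r.apply_symm_apply] at this
  rw [this, O.r.apply_symm_apply]

theorem Org.ius (O : Org X) (x : X) : O.i (O.u.symm x) = O.u (O.i x) := by
  have := O.iu (O.u.symm x)
  rw [O.u.apply_symm_apply] at this
  rw [this, O.u.apply_symm_apply]

theorem Org.irz (O : Org X) (a : ℤ) (x : X) : O.i ((O.r ^ a) x) = (O.r ^ (-a)) (O.i x) := by
  induction a using Int.induction_on with
  | zero => simp
  | succ n ih =>
    rw [← p_pz, O.ir, ih, ps_pz]; congr 2; ring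
  | pred n ih =>
    rw [← ps_pz, O.irs, ih, p_pz]; congr 2; ring

theorem Org.iuz (O : Org X) (a : ℤ) (x : X) : O.i ((O.u ^ a) x) = (O.u ^ (-a)) (O.i x) := by
  induction a using Int.induction_on with
  | zero => simp
  | succ n ih =>
    rw [← p_pz, O.iu, ih, ps_pz]; congr 2; ring
  | pred n ih =>
    rw [← ps_pz, O.ius, ih, p_pz]; congr 2; ring

/-- The map `u r i`: the half turn, then the square at the upper right corner. -/
def al (O : Org X) (x : X) : X := O.u (O.r (O.i x))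

theorem al_inj (O : Org X) {x y : X} (h : al O x = al O y) : x = y :=
  O.i.injective (O.r.injective (O.u.injective h))

theorem al_al (O : Org X) (x : X) : al O (al O x) = O.u (O.r (O.u.symm (O.r.symm x))) := by
  unfold al
  rw [O.iu, O.ir, O.ii]

theorem sing_iff (O : Org X) (x : X) : O.Sing x ↔ al O (al O x) ≠ x := by
  rw [al_al]
  unfold Org.Sing
  rw [not_iff_not]
  constructor
  · intro h; rw [h]; simp
  · intro h
    have := congrArg (fun y => O.r.symm (O.u.symm y)) h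
    simpa using this

theorem sing_al (O : Org X) (x : X) : O.Sing (al O x) ↔ O.Sing x := by
  rw [sing_iff, sing_iff, not_iff_not]
  constructor
  · intro h; exact al_inj O h
  · intro h; rw [h]

/-! ## Saddles -/

theorem not_sing {O : Org X} {x : X} (h : ¬ O.Sing x) :
    O.u.symm (O.r.symm x) = O.r.symm (O.u.symm x) := by
  unfold Org.Sing at h
  exact not_not.1 h

/-- below a saddle, the squares are consecutive -/
theorem Sad.below {O : Org X} {x : X} {l : ℕ} (h : Sad O x l) (a : ℕ) (ha : a < l) :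
    O.u.symm ((O.r ^ (a : ℤ)) x) = (O.r ^ (a : ℤ)) (O.u.symm x) := by
  induction a with
  | zero => simp
  | succ a ih =>
    have h1 := ih (by omega)
    have h2 := not_sing (h.mid (a + 1) (by omega) ha)
    rw [pz_nat, ps_pz] at h2
    push_cast at h2 ⊢
    rw [add_sub_cancel_right, h1] at h2
    have h3 := congrArg O.r h2
    rw [O.r.apply_symm_apply, p_pz] at h3
    exact h3.symm

/-- the image of a saddle: squares -/
theorem Sad.img {O : Org X} {x : X} {l : ℕ} (h : Sad O x l) (a : ℕ) (ha : a < l) :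
    O.u (O.i ((O.r ^ (a : ℤ)) x)) = (O.r ^ (-(a : ℤ))) (O.u (O.i x)) := by
  have := congrArg O.i (h.below a ha)
  rw [O.ius, O.irz, O.irz, O.ius] at this
  rw [O.irz]; exact this

/-- the image of a saddle: its first square -/
theorem Sad.al_stop {O : Org X} {x : X} {l : ℕ} (h : Sad O x l) :
    al O ((O.r ^ l) x) = (O.r ^ (-((l : ℤ) - 1))) (O.u (O.i x)) := by
  have h1 := h.img (l - 1) (by have := h.pos; omega)
  have h2 : ((l - 1 : ℕ) : ℤ) = (l : ℤ) - 1 := by have := h.pos; omega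
  rw [h2] at h1
  rw [← h1]
  unfold al
  rw [pz_nat, ← O.irs, ps_pz]

/-- the image of a saddle: its squares from its first square -/
theorem Sad.half {O : Org X} {x : X} {l : ℕ} (h : Sad O x l) (a : ℕ) (ha : a < l) :
    O.u (O.i ((O.r ^ (a : ℤ)) x)) = (O.r ^ ((l : ℤ) - 1 - a)) (al O ((O.r ^ l) x)) := by
  rw [h.img a ha, h.al_stop, pz_add]
  congr 2; ring

theorem al_prev (O : Org X) (x : X) : al O (O.r (O.u (O.i x))) = x := by
  unfold al
  rw [O.ir, O.iu, O.ii, O.r.apply_symm_apply, O.u.apply_symm_apply]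

theorem sing_prev (O : Org X) (x : X) : O.Sing (O.r (O.u (O.i x))) ↔ O.Sing x := by
  conv_rhs => rw [← al_prev O x]
  rw [sing_al]

/-- the image of a saddle is a saddle -/
theorem Sad.sad {O : Org X} {x : X} {l : ℕ} (h : Sad O x l) : Sad O (al O ((O.r ^ l) x)) l where
  pos := h.pos
  start := (sing_al O _).2 h.stop
  stop := by
    rw [pz_nat, h.al_stop, pz_add]
    have : (l : ℤ) + -((l : ℤ) - 1) = 0 + 1 := by ring
    rw [this, ← p_pz, pz_zero]
    exact (sing_prev O x).2 h.start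
  mid := by
    intro a ha1 ha2
    have h1 := h.half (l - 1 - a) (by omega)
    have h2 : (l : ℤ) - 1 - ((l - 1 - a : ℕ) : ℤ) = a := by omega
    rw [h2] at h1
    rw [pz_nat, ← h1]
    set k := l - 1 - a with hk
    have hk1 : k + 1 < l := by omega
    rw [sing_iff, not_not]
    have h3 : al O (O.u (O.i ((O.r ^ (k : ℤ)) x))) = (O.r ^ ((k : ℤ) + 1)) x := by
      unfold al
      rw [O.iu, O.ii, h.below k (by omega), p_pz]
      have := h.below (k + 1) hk1
      push_cast at this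
      rw [← this, O.u.apply_symm_apply]
    rw [h3]
    unfold al
    rw [← O.irs, ps_pz, add_sub_cancel_right]

theorem Sad.unique {O : Org X} {x : X} {l l' : ℕ} (h : Sad O x l) (h' : Sad O x l') : l = l' := by
  rcases lt_trichotomy l l' with h1 | h1 | h1
  · exact absurd h.stop (h'.mid l h.pos h1)
  · exact h1
  · exact absurd h'.stop (h.mid l' h'.pos h1)

theorem exists_sad [Finite X] {O : Org X} {x : X} (hx : O.Sing x) : ∃ l, Sad O x l := by
  classical
  have hex : ∃ l : ℕ, 0 < l ∧ O.Sing ((O.r ^ l) x) := by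
    refine ⟨orderOf O.r, orderOf_pos _, ?_⟩
    rw [pow_orderOf_eq_one]; exact hx
  refine ⟨Nat.find hex, (Nat.find_spec hex).1, hx, (Nat.find_spec hex).2, ?_⟩
  intro a ha1 ha2 ha3
  exact Nat.find_min hex ha2 ⟨ha1, ha3⟩

/-! ## The five singular squares -/

/-- `u r i` as a permutation -/
def alP (O : Org X) : Equiv.Perm X := O.u * O.r * O.i

theorem alP_apply (O : Org X) (x : X) : alP O x = al O x := rfl

theorem alP_sq (O : Org X) : alP O ^ 2 = (O.r * O.u * O.r⁻¹ * O.u⁻¹)⁻¹ := by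
  ext x
  rw [pow_two]
  change al O (al O x) = _
  rw [al_al]
  simp only [mul_inv_rev, inv_inv]
  rfl

theorem sing_iff_comm (O : Org X) (x : X) :
    O.Sing x ↔ (O.r * O.u * O.r⁻¹ * O.u⁻¹) x ≠ x := by
  rw [sing_iff]
  have h : al O (al O x) = (O.r * O.u * O.r⁻¹ * O.u⁻¹)⁻¹ x := by
    rw [← alP_sq, pow_two]; rfl
  rw [h, not_iff_not]
  constructor
  · intro h1
    rw [Equiv.Perm.inv_eq_iff_eq] at h1
    exact h1.symm
  · intro h1
    rw [Equiv.Perm.inv_eq_iff_eq]
    exact h1.symm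

theorem exists_five [Finite X] {O : Org X} (hO : Hyp O) :
    ∃ z : Fin 5 → X, Function.Injective z ∧ (∀ x, O.Sing x ↔ ∃ j, x = z j) ∧
      ∀ j, al O (z j) = z (j + 1) := by
  classical
  have := Fintype.ofFinite X
  set c := O.r * O.u * O.r⁻¹ * O.u⁻¹ with hc
  have hcyc : (alP O ^ 2).IsCycle := by rw [alP_sq]; exact hO.cyc.inv
  have hcard : orderOf (alP O ^ 2) = 5 := by
    rw [hcyc.orderOf, alP_sq, Equiv.Perm.support_inv]
    have : {x | c x ≠ x} = (c.support : Set X) := by ext x; simp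
    rw [← hO.five, ← hc, this, Set.ncard_coe_finset]
  obtain ⟨x0, hx0, hsame⟩ := hcyc
  have h10 : (alP O ^ (10 : ℤ)) x0 = x0 := by
    have : alP O ^ (10 : ℤ) = (alP O ^ 2) ^ 5 := by
      rw [← pow_mul]; norm_cast
    rw [this, ← hcard, pow_orderOf_eq_one]; rfl
  have hmul : ∀ n k : ℤ, (alP O ^ n) x0 = x0 → (alP O ^ (n * k)) x0 = x0 := by
    intro n k hn
    rw [zpow_mul]
    exact Equiv.Perm.zpow_apply_eq_self_of_apply_eq_self hn k
  have hadd : ∀ n k : ℤ, (alP O ^ n) x0 = x0 → (alP O ^ k) x0 = x0 → (alP O ^ (n + k)) x0 = x0 := by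
    intro n k hn hk
    rw [← pz_add, hk, hn]
  have h1n : (alP O ^ (1 : ℤ)) x0 ≠ x0 := by
    intro h
    apply hx0
    have := hmul 1 2 h
    exact_mod_cast this
  have hal : (alP O ^ 2) (alP O x0) ≠ alP O x0 := by
    intro h
    apply hx0
    have : (alP O ^ 2) (alP O x0) = alP O ((alP O ^ 2) x0) := rfl
    rw [this] at h
    exact (alP O).injective h
  obtain ⟨m, hm⟩ := hsame hal
  have hm1 : (alP O ^ (2 * m - 1)) x0 = x0 := by
    have h1 : ((alP O ^ 2) ^ m) x0 = (alP O ^ (2 * m)) x0 := by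
      rw [zpow_mul]; norm_cast
    rw [h1] at hm
    rw [← ps_pz, hm, Equiv.symm_apply_apply]
  have h5 : (alP O ^ (5 : ℤ)) x0 = x0 := by
    have := hadd _ _ (hmul _ 5 hm1) (hmul _ (1 - m) h10)
    have e : (2 * m - 1) * 5 + 10 * (1 - m) = 5 := by ring
    rwa [e] at this
  have hne : ∀ k : ℕ, 0 < k → k < 5 → (alP O ^ (k : ℤ)) x0 ≠ x0 := by
    intro k hk1 hk2 hk3
    apply h1n
    have key : ∀ a b : ℤ, (k : ℤ) * a + 5 * b = 1 → (alP O ^ (1 : ℤ)) x0 = x0 := by
      intro a b hab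
      rw [← hab]
      exact hadd _ _ (hmul _ a hk3) (hmul 5 b h5)
    interval_cases k
    · exact key 1 0 (by norm_num)
    · exact key (-2) 1 (by norm_num)
    · exact key 2 (-1) (by norm_num)
    · exact key (-1) 1 (by norm_num)
  have hzinj : ∀ i j : Fin 5, i < j → (alP O ^ ((i : ℕ) : ℤ)) x0 ≠ (alP O ^ ((j : ℕ) : ℤ)) x0 := by
    intro i j hij h
    have hij' : (i : ℕ) < (j : ℕ) := hij
    apply hne ((j : ℕ) - (i : ℕ)) (by omega) (by omega)
    have e : (((j : ℕ) - (i : ℕ) : ℕ) : ℤ) = -((i : ℕ) : ℤ) + ((j : ℕ) : ℤ) := by omega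
    rw [e, ← pz_add, ← h, pz_add, neg_add_cancel, pz_zero]
  refine ⟨fun j => (alP O ^ ((j : ℕ) : ℤ)) x0, ?_, ?_, ?_⟩
  · intro i j hij
    rcases lt_trichotomy i j with h | h | h
    · exact absurd hij (hzinj i j h)
    · exact h
    · exact absurd hij.symm (hzinj j i h)
  · have hS : ∀ x, O.Sing x ↔ x ∈ {x | c x ≠ x} := fun x => sing_iff_comm O x
    have hsing : ∀ j : ℕ, O.Sing ((alP O ^ (j : ℤ)) x0) := by
      intro j
      induction j with
      | zero =>
        rw [Nat.cast_zero, pz_zero, sing_iff]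
        exact hx0
      | succ j ih =>
        push_cast
        rw [← p_pz, alP_apply, sing_al]
        exact ih
    have hsub : Set.range (fun j : Fin 5 => (alP O ^ ((j : ℕ) : ℤ)) x0) ⊆ {x | c x ≠ x} := by
      rintro _ ⟨j, rfl⟩
      exact (hS _).1 (hsing _)
    have hinj : Function.Injective (fun j : Fin 5 => (alP O ^ ((j : ℕ) : ℤ)) x0) := by
      intro i j hij
      rcases lt_trichotomy i j with h | h | h
      · exact absurd hij (hzinj i j h)
      · exact h
      · exact absurd hij.symm (hzinj j i h)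
    have heq := Set.eq_of_subset_of_ncard_le hsub (by
      rw [hO.five, ← Set.image_univ, Set.ncard_image_of_injective _ hinj, Set.ncard_univ]
      simp) (Set.toFinite _)
    intro x
    rw [hS, ← heq]
    constructor
    · rintro ⟨j, hj⟩; exact ⟨j, hj.symm⟩
    · rintro ⟨j, hj⟩; exact ⟨j, hj.symm⟩
  · intro j
    change alP O ((alP O ^ ((j : ℕ) : ℤ)) x0) = (alP O ^ (((j + 1 : Fin 5) : ℕ) : ℤ)) x0
    rw [p_pz]
    by_cases hj : (j : ℕ) = 4
    · have h0 : ((j + 1 : Fin 5) : ℕ) = 0 := by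
        have : j = 4 := Fin.ext hj
        subst this; rfl
      rw [h0, hj]
      push_cast
      rw [pz_zero]
      exact h5
    · have h0 : ((j + 1 : Fin 5) : ℕ) = (j : ℕ) + 1 := by
        have := j.isLt
        rw [Fin.val_add]
        simp
        omega
      rw [h0]
      push_cast; rfl

/-- The singular squares and the saddles. -/
structure BD (O : Org X) (z : Fin 5 → X) (l : Fin 5 → ℕ) (t : Fin 5 → Fin 5) : Prop where
  inj : Function.Injective z
  sing : ∀ x : X, O.Sing x ↔ ∃ j, x = z j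
  alz : ∀ j, al O (z j) = z (j + 1)
  sad : ∀ j, Sad O (z j) (l j)
  next : ∀ j, (O.r ^ l j) (z j) = z (t j - 1)
  tt : ∀ j, t (t j) = j
  lt : ∀ j, l (t j) = l j
  pair : ∀ j, al O ((O.r ^ l j) (z j)) = z (t j)

theorem exists_BD [Finite X] {O : Org X} (hO : Hyp O) :
    ∃ (z : Fin 5 → X) (l : Fin 5 → ℕ) (t : Fin 5 → Fin 5), BD O z l t := by
  obtain ⟨z, hinj, hsing, hal⟩ := exists_five hO
  choose l hl using fun j => exists_sad ((hsing (z j)).2 ⟨j, rfl⟩)
  choose t ht using fun j => (hsing _).1 (hl j).sad.start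
  have hlt : ∀ j, l (t j) = l j := by
    intro j
    have h1 := (hl j).sad
    rw [ht j] at h1
    exact (hl (t j)).unique h1
  refine ⟨z, l, t, hinj, hsing, hal, hl, ?_, ?_, hlt, ht⟩
  · intro j
    apply al_inj O
    rw [ht j, hal, sub_add_cancel]
  · intro j
    apply hinj
    rw [← ht (t j), hlt]
    have h1 := (hl j).half 0 (hl j).pos
    rw [ht j, Nat.cast_zero, pz_zero, sub_zero] at h1
    have h2 : (O.r ^ l j) (z (t j)) = O.r (O.u (O.i (z j))) := by
      rw [h1, p_pz, pz_nat, sub_add_cancel]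
    rw [h2, al_prev]

namespace BD

variable {O : Org X} {z : Fin 5 → X} {l : Fin 5 → ℕ} {t : Fin 5 → Fin 5}

theorem prev (D : BD O z l t) (m : Fin 5) : ∃ j, (O.r ^ l j) (z j) = z m := by
  refine ⟨t (m + 1), ?_⟩
  rw [D.next, D.tt, add_sub_cancel_right]

/-- the squares of a row which contains a singular square: the next one -/
theorem row_succ (D : BD O z l t) (j : Fin 5) (k : ℕ) (hk : k < l j) :
    ∃ (j' : Fin 5) (k' : ℕ), k' < l j' ∧ (O.r ^ ((k : ℤ) + 1)) (z j) = (O.r ^ (k' : ℤ)) (z j') := by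
  by_cases h : k + 1 < l j
  · exact ⟨j, k + 1, h, by push_cast; rfl⟩
  · have e : ((k : ℤ) + 1) = ((l j : ℕ) : ℤ) := by omega
    refine ⟨t j - 1, 0, (D.sad _).pos, ?_⟩
    rw [e, ← pz_nat, D.next, Nat.cast_zero, pz_zero]

/-- the squares of a row which contains a singular square: the previous one -/
theorem row_pred (D : BD O z l t) (j : Fin 5) (k : ℕ) (hk : k < l j) :
    ∃ (j' : Fin 5) (k' : ℕ), k' < l j' ∧ (O.r ^ ((k : ℤ) - 1)) (z j) = (O.r ^ (k' : ℤ)) (z j') := by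
  by_cases h : 0 < k
  · exact ⟨j, k - 1, by omega, by congr 2; omega⟩
  · have e : k = 0 := by omega
    obtain ⟨j', hj'⟩ := D.prev j
    refine ⟨j', l j' - 1, by have := (D.sad j').pos; omega, ?_⟩
    have e' : ((l j' - 1 : ℕ) : ℤ) = (l j' : ℤ) - 1 := by have := (D.sad j').pos; omega
    rw [e, Nat.cast_zero, zero_sub, e', ← ps_pz, ← pz_nat, hj', ← pz_zero O.r (z j), ps_pz,
      pz_add]
    rfl

end BD

/-! ## Heights -/

/-- The row of `x` is the bottom row of a cylinder of height `h`. -/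
structure Ht (O : Org X) (x : X) (h : ℕ) : Prop where
  pos : 0 < h
  top : ∃ a : ℤ, O.Sing ((O.u ^ h) ((O.r ^ a) x))
  mid : ∀ b : ℕ, 0 < b → b < h → ∀ a : ℤ, ¬ O.Sing ((O.u ^ b) ((O.r ^ a) x))

theorem Ht.unique {O : Org X} {x : X} {h h' : ℕ} (H : Ht O x h) (H' : Ht O x h') : h = h' := by
  rcases lt_trichotomy h h' with h1 | h1 | h1
  · obtain ⟨a, ha⟩ := H.top
    exact absurd ha (H'.mid h H.pos h1 a)
  · exact h1
  · obtain ⟨a, ha⟩ := H'.top
    exact absurd ha (H.mid h' H'.pos h1 a)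

theorem Ht.shift {O : Org X} {x : X} {h : ℕ} (H : Ht O x h) (a : ℤ) : Ht O ((O.r ^ a) x) h where
  pos := H.pos
  top := by
    obtain ⟨a', ha'⟩ := H.top
    refine ⟨a' - a, ?_⟩
    rw [pz_add, sub_add_cancel]; exact ha'
  mid := by
    intro b hb1 hb2 a'
    rw [pz_add]; exact H.mid b hb1 hb2 _

theorem exists_ht [Finite X] {O : Org X} {x : X} (hx : O.Sing x) : ∃ h, Ht O x h := by
  classical
  have hex : ∃ h : ℕ, 0 < h ∧ ∃ a : ℤ, O.Sing ((O.u ^ h) ((O.r ^ a) x)) := by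
    refine ⟨orderOf O.u, orderOf_pos _, 0, ?_⟩
    rw [pow_orderOf_eq_one, pz_zero]; exact hx
  refine ⟨Nat.find hex, (Nat.find_spec hex).1, (Nat.find_spec hex).2, ?_⟩
  intro b hb1 hb2 a ha
  exact Nat.find_min hex hb2 ⟨hb1, a, ha⟩

theorem zseq (p : Equiv.Perm X) (g : ℤ → X) (h : ∀ a, p.symm (g a) = g (a - 1)) (a : ℤ) :
    g a = (p ^ a) (g 0) := by
  induction a using Int.induction_on with
  | zero => simp
  | succ n ih =>
    have := h (n + 1)
    rw [add_sub_cancel_right, ih, Equiv.symm_apply_eq, p_pz] at this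
    exact this
  | pred n ih =>
    rw [← h, ih, ps_pz]

theorem Ht.strip {O : Org X} {x : X} {h : ℕ} (H : Ht O x h) (b : ℕ) (hb : b < h) (a : ℤ) :
    (O.u ^ b) ((O.r ^ a) x) = (O.r ^ a) ((O.u ^ b) x) := by
  induction b generalizing a with
  | zero => simp
  | succ b ih =>
    have ih' := ih (by omega)
    have key : ∀ a : ℤ, O.r.symm ((O.u ^ (b + 1)) ((O.r ^ a) x)) =
        (O.u ^ (b + 1)) ((O.r ^ (a - 1)) x) := by
      intro a
      have h1 := not_sing (H.mid (b + 1) (by omega) hb a)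
      have h2 : O.u.symm ((O.u ^ (b + 1)) ((O.r ^ a) x)) = (O.u ^ b) ((O.r ^ a) x) := by
        rw [pz_nat, ps_pz, Nat.cast_add, Nat.cast_one, add_sub_cancel_right, ← pz_nat]
      rw [h2, ih', ps_pz, ← ih', Equiv.symm_apply_eq] at h1
      rw [h1, pz_nat, p_pz, pz_nat, Nat.cast_add, Nat.cast_one]
    have := zseq O.r (fun a => (O.u ^ (b + 1)) ((O.r ^ a) x)) key a
    beta_reduce at this
    rw [this, pz_zero]

namespace BD

variable {O : Org X} {z : Fin 5 → X} {l : Fin 5 → ℕ} {t : Fin 5 → Fin 5} {h : Fin 5 → ℕ}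

theorem ht_row (H : ∀ j, Ht O (z j) (h j)) {j j' : Fin 5} {a a' : ℤ}
    (e : (O.r ^ a) (z j) = (O.r ^ a') (z j')) : h j' = h j := by
  have h1 := (H j).shift a
  rw [e] at h1
  exact ((H j').shift a').unique h1

theorem u_top (H : ∀ j, Ht O (z j) (h j)) (j : Fin 5) (a : ℤ) :
    O.u ((O.r ^ a) ((O.u ^ (h j - 1)) (z j))) = (O.u ^ h j) ((O.r ^ a) (z j)) := by
  have hp := (H j).pos
  rw [← (H j).strip (h j - 1) (by omega), pz_nat, p_pz, pz_nat]
  congr 2; omega

theorem top (D : BD O z l t) (H : ∀ j, Ht O (z j) (h j)) (j : Fin 5) (a : ℤ) :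
    ∃ (j' : Fin 5) (k' : ℕ), k' < l j' ∧
      O.u ((O.r ^ a) ((O.u ^ (h j - 1)) (z j))) = (O.r ^ (k' : ℤ)) (z j') := by
  set g : ℤ → X := fun a => O.u ((O.r ^ a) ((O.u ^ (h j - 1)) (z j))) with hg
  have hstep : ∀ a, al O (al O (O.r (g a))) = g (a + 1) := by
    intro a
    rw [al_al, O.r.symm_apply_apply]
    simp only [hg, O.u.symm_apply_apply]
    rw [p_pz]
  have hsing : ∀ x, O.Sing x → ∃ (j' : Fin 5) (k' : ℕ), k' < l j' ∧ x = (O.r ^ (k' : ℤ)) (z j') := by
    intro x hx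
    obtain ⟨m, hm⟩ := (D.sing x).1 hx
    exact ⟨m, 0, (D.sad m).pos, by rw [hm, Nat.cast_zero, pz_zero]⟩
  have hup : ∀ a, (∃ (j' : Fin 5) (k' : ℕ), k' < l j' ∧ g a = (O.r ^ (k' : ℤ)) (z j')) →
      ∃ (j' : Fin 5) (k' : ℕ), k' < l j' ∧ g (a + 1) = (O.r ^ (k' : ℤ)) (z j') := by
    rintro a ⟨j', k', hk', e⟩
    rw [← hstep]
    by_cases hs : O.Sing (O.r (g a))
    · exact hsing _ ((sing_al O _).2 ((sing_al O _).2 hs))
    · rw [sing_iff, not_not] at hs
      rw [hs, e, p_pz]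
      exact D.row_succ j' k' hk'
  have hdown : ∀ a, (∃ (j' : Fin 5) (k' : ℕ), k' < l j' ∧ g a = (O.r ^ (k' : ℤ)) (z j')) →
      ∃ (j' : Fin 5) (k' : ℕ), k' < l j' ∧ g (a - 1) = (O.r ^ (k' : ℤ)) (z j') := by
    rintro a ⟨j', k', hk', e⟩
    have h1 := hstep (a - 1)
    rw [sub_add_cancel] at h1
    by_cases hs : O.Sing (O.r (g (a - 1)))
    · obtain ⟨m, hm⟩ := (D.sing _).1 hs
      rw [← Equiv.eq_symm_apply] at hm
      rw [hm, ← pz_zero O.r (z m), ps_pz]
      have := D.row_pred m 0 (D.sad m).pos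
      simpa using this
    · rw [sing_iff, not_not] at hs
      rw [hs, e, ← Equiv.eq_symm_apply, ps_pz] at h1
      rw [h1]
      exact D.row_pred j' k' hk'
  obtain ⟨a0, ha0⟩ := (H j).top
  have h0 : ∃ (j' : Fin 5) (k' : ℕ), k' < l j' ∧ g a0 = (O.r ^ (k' : ℤ)) (z j') := by
    apply hsing
    simp only [hg]
    rw [u_top H]; exact ha0
  exact Int.inductionOn' (motive := fun a => ∃ (j' : Fin 5) (k' : ℕ), k' < l j' ∧
    g a = (O.r ^ (k' : ℤ)) (z j')) a a0 h0 (fun k _ hk => hup k hk) (fun k _ hk => hdown k hk)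

theorem cover (D : BD O z l t) (hT : O.Trans) (H : ∀ j, Ht O (z j) (h j)) (y : X) :
    ∃ (j : Fin 5) (k b : ℕ), k < l j ∧ b < h j ∧ y = (O.r ^ k) ((O.u ^ b) (z j)) := by
  have := hT {y | ∃ (j : Fin 5) (k b : ℕ), k < l j ∧ b < h j ∧
    y = (O.r ^ (k : ℤ)) ((O.u ^ b) (z j))} ⟨z 0, 0, 0, 0, (D.sad 0).pos, (H 0).pos, by simp⟩ ?_ ?_
  · have hy : y ∈ {y | ∃ (j : Fin 5) (k b : ℕ), k < l j ∧ b < h j ∧
        y = (O.r ^ (k : ℤ)) ((O.u ^ b) (z j))} := by rw [this]; trivial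
    obtain ⟨j, k, b, hk, hb, e⟩ := hy
    exact ⟨j, k, b, hk, hb, by rw [pz_nat]; exact e⟩
  · rintro _ ⟨j, k, b, hk, hb, rfl⟩
    obtain ⟨j', k', hk', e⟩ := D.row_succ j k hk
    have hh := ht_row H e
    refine ⟨j', k', b, hk', by rw [hh]; exact hb, ?_⟩
    rw [p_pz, ← (H j).strip b hb, e, (H j').strip b (by rw [hh]; exact hb)]
  · rintro _ ⟨j, k, b, hk, hb, rfl⟩
    by_cases hb1 : b + 1 < h j
    · refine ⟨j, k, b + 1, hk, hb1, ?_⟩
      rw [← (H j).strip b hb, ← (H j).strip (b + 1) hb1, pz_nat, p_pz, pz_nat, Nat.cast_add,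
        Nat.cast_one]
    · have e : b = h j - 1 := by omega
      rw [e]
      obtain ⟨j', k', hk', e'⟩ := D.top H j k
      refine ⟨j', k', 0, hk', (H j').pos, ?_⟩
      rw [e', pow_zero]; rfl

theorem uniq_aux (D : BD O z l t) (H : ∀ j, Ht O (z j) (h j)) {j j' : Fin 5} {k k' b b' : ℕ}
    (hk : k < l j) (hk' : k' < l j') (hb' : b' < h j')
    (hbb : b ≤ b')
    (e : (O.u ^ b) ((O.r ^ (k : ℤ)) (z j)) = (O.u ^ b') ((O.r ^ (k' : ℤ)) (z j'))) :
    j = j' ∧ k = k' ∧ b = b' := by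
  have e1 : (O.r ^ (k : ℤ)) (z j) = (O.u ^ (b' - b)) ((O.r ^ (k' : ℤ)) (z j')) := by
    have : O.u ^ b' = O.u ^ b * O.u ^ (b' - b) := by rw [← pow_add]; congr 1; omega
    rw [this] at e
    exact (O.u ^ b).injective e
  have e2 : z j = (O.u ^ (b' - b)) ((O.r ^ ((k' : ℤ) - k)) (z j')) := by
    rw [(H j').strip (b' - b) (by omega)] at e1 ⊢
    have := congrArg (O.r ^ (-(k : ℤ))) e1
    rw [pz_add, pz_add, neg_add_cancel, pz_zero] at this
    rw [this]; congr 2; ring
  have hbe : b' - b = 0 := by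
    by_contra hne
    have hs := (H j').mid (b' - b) (by omega) (by omega) ((k' : ℤ) - k)
    rw [← e2] at hs
    exact hs (D.sad j).start
  rw [hbe, pow_zero] at e1
  change (O.r ^ (k : ℤ)) (z j) = (O.r ^ (k' : ℤ)) (z j') at e1
  have hsad : ∀ {i i' : Fin 5} {m m' : ℕ}, m ≤ m' → m' < l i' →
      (O.r ^ (m : ℤ)) (z i) = (O.r ^ (m' : ℤ)) (z i') → i = i' ∧ m = m' := by
    intro i i' m m' hm hm' e
    have e3 : z i = (O.r ^ (m' - m)) (z i') := by
      have := congrArg (O.r ^ (-(m : ℤ))) e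
      rw [pz_add, pz_add, neg_add_cancel, pz_zero] at this
      rw [this, pz_nat]; congr 2; omega
    have : m' - m = 0 := by
      by_contra hne
      have hs := (D.sad i').mid (m' - m) (by omega) (by omega)
      rw [← e3] at hs
      exact hs (D.sad i).start
    rw [this, pow_zero] at e3
    exact ⟨D.inj e3, by omega⟩
  have : j = j' ∧ k = k' := by
    rcases le_total k k' with hkk | hkk
    · exact hsad hkk hk' e1
    · have := hsad hkk hk e1.symm
      exact ⟨this.1.symm, this.2.symm⟩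
  exact ⟨this.1, this.2, by omega⟩

theorem uniq (D : BD O z l t) (H : ∀ j, Ht O (z j) (h j)) (j j' : Fin 5) (k k' b b' : ℕ)
    (hk : k < l j) (hb : b < h j) (hk' : k' < l j') (hb' : b' < h j')
    (e : (O.r ^ k) ((O.u ^ b) (z j)) = (O.r ^ k') ((O.u ^ b') (z j'))) :
    j = j' ∧ k = k' ∧ b = b' := by
  rw [pz_nat O.r, pz_nat O.r, ← (H j).strip b hb, ← (H j').strip b' hb'] at e
  rcases le_total b b' with hbb | hbb
  · exact D.uniq_aux H hk hk' hb' hbb e
  · have := D.uniq_aux H hk' hk hb hbb e.symm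
    exact ⟨this.1.symm, this.2.1.symm, this.2.2.symm⟩

theorem img (D : BD O z l t) (H : ∀ j, Ht O (z j) (h j)) (j : Fin 5) :
    ∃ (j' : Fin 5) (c : ℤ), h j' = h j ∧ ∀ (a : ℤ) (b : ℕ), b < h j →
      O.i ((O.r ^ a) ((O.u ^ b) (z j))) = (O.r ^ (c - 1 - a)) ((O.u ^ (h j - 1 - b)) (z j')) := by
  have hp := (H j).pos
  obtain ⟨a0, ha0⟩ := (H j).top
  set y := O.i ((O.r ^ (a0 - 1)) ((O.u ^ (h j - 1)) (z j))) with hy
  have hys : O.Sing y := by
    rw [← sing_al]
    have : al O y = (O.u ^ h j) ((O.r ^ a0) (z j)) := by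
      unfold al
      rw [hy, O.ii, p_pz, sub_add_cancel, u_top H]
    rw [this]; exact ha0
  obtain ⟨j', hj'⟩ := (D.sing y).1 hys
  have key : ∀ (e : ℤ) (m : ℕ), m < h j →
      (O.u ^ m) ((O.r ^ e) (z j')) = O.i ((O.r ^ (a0 - 1 - e)) ((O.u ^ (h j - 1 - m)) (z j))) := by
    intro e m hm
    have h1 : (O.r ^ e) (z j') = O.i ((O.r ^ (a0 - 1 - e)) ((O.u ^ (h j - 1)) (z j))) := by
      rw [← hj', hy, O.irz, O.irz, pz_add]; congr 2; ring
    rw [h1, pz_nat O.u m, ← (H j).strip (h j - 1) (by omega), ← (H j).strip (h j - 1 - m) (by omega),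
      pz_nat O.u, pz_nat O.u, O.iuz, O.iuz, pz_add]
    congr 2; omega
  have hge : h j ≤ h j' := by
    by_contra hlt
    push Not at hlt
    obtain ⟨e, he⟩ := (H j').top
    rw [key e (h j') hlt, ← sing_al] at he
    have hp' := (H j').pos
    unfold al at he
    rw [O.ii, p_pz, ← (H j).strip (h j - 1 - h j') (by omega), pz_nat O.u, p_pz] at he
    have e2 : ((h j - 1 - h j' : ℕ) : ℤ) + 1 = ((h j - h j' : ℕ) : ℤ) := by omega
    rw [e2, ← pz_nat] at he
    exact (H j).mid _ (by omega) (by omega) _ he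
  have hle : h j' ≤ h j := by
    by_contra hlt
    push Not at hlt
    have h1 := key (a0 - (l j : ℤ)) (h j - 1) (by omega)
    have h2 : h j - 1 - (h j - 1) = 0 := by omega
    have h3 : a0 - 1 - (a0 - (l j : ℤ)) = ((l j - 1 : ℕ) : ℤ) := by
      have := (D.sad j).pos; omega
    rw [h2, pow_zero, h3] at h1
    change _ = O.i ((O.r ^ ((l j - 1 : ℕ) : ℤ)) (z j)) at h1
    have h4 := congrArg O.u h1
    rw [(D.sad j).half (l j - 1) (by have := (D.sad j).pos; omega), pz_nat, p_pz] at h4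
    have h5 : ((h j - 1 : ℕ) : ℤ) + 1 = ((h j : ℕ) : ℤ) := by omega
    have h6 : (l j : ℤ) - 1 - ((l j - 1 : ℕ) : ℤ) = 0 := by
      have := (D.sad j).pos; omega
    rw [h5, h6, pz_zero, D.pair, ← pz_nat] at h4
    apply (H j').mid (h j) hp hlt (a0 - (l j : ℤ))
    rw [h4]
    exact (D.sad _).start
  refine ⟨j', a0, le_antisymm hle hge, ?_⟩
  intro a b hb
  have h1 := key (a0 - 1 - a) (h j - 1 - b) (by omega)
  have h2 : h j - 1 - (h j - 1 - b) = b := by omega
  rw [h2, sub_sub_cancel, (H j').strip (h j - 1 - b) (by omega)] at h1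
  exact h1.symm

end BD

/-- Row E1 (a). -/
theorem exists_SD [Finite X] {O : Org X} (hO : Hyp O) :
    ∃ (z : Fin 5 → X) (l h : Fin 5 → ℕ) (t : Fin 5 → Fin 5), SD O z l h t := by
  obtain ⟨z, l, t, D⟩ := exists_BD hO
  choose h H using fun j => exists_ht (D.sad j).start
  refine ⟨z, l, h, t, D.inj, D.sing, D.sad, D.next, D.tt, D.lt, ?_, fun j => (H j).pos, ?_,
    fun j a b hb => (H j).strip b hb a, ?_, D.cover hO.trans H, D.uniq H, ?_, D.img H⟩
  · intro j k hk
    have h1 := (D.sad j).half k hk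
    rw [D.pair] at h1
    rw [Equiv.eq_symm_apply, pz_nat, h1, pz_nat]
    congr 2; omega
  · intro j
    have e : (O.r ^ (l j : ℤ)) (z j) = (O.r ^ (0 : ℤ)) (z (t j - 1)) := by
      rw [← pz_nat, D.next, pz_zero]
    exact BD.ht_row H e
  · intro j a b hb1 hb2
    rw [← (H j).strip b hb2]
    exact (H j).mid b hb1 hb2 a
  · intro j a
    obtain ⟨j', k', hk', e⟩ := D.top H j a
    exact ⟨j', k', hk', by rw [e, pz_nat]⟩

end Pool.Agent.H4G
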