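import Pool.Agent.H4G.CylDefs

/-!
# Row E1: interface between the saddles (helper40, file Sad.lean) and the count of the fixed
points (helper65, file Count.lean)
-/

set_option autoImplicit false

namespace Pool.Agent.H4G

variable {X : Type}

/-- The horizontal saddles and cylinders of a hyperelliptic origami. The five singular squares are
`z j`, numbered such that `j ↦ j + 1` is the map `u r i`; the saddle at `z j` has length `l j`, its
image under `i` is the saddle at `z (t j)`, the next saddle in the row is `z (t j - 1)`; the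
cylinder whose bottom row contains `z j` has height `h j`. -/
structure SD (O : Org X) (z : Fin 5 → X) (l h : Fin 5 → ℕ) (t : Fin 5 → Fin 5) : Prop where
  inj : Function.Injective z
  sing : ∀ x : X, O.Sing x ↔ ∃ j, x = z j
  sad : ∀ j, Sad O (z j) (l j)
  next : ∀ j, (O.r ^ l j) (z j) = z (t j - 1)
  tt : ∀ j, t (t j) = j
  lt : ∀ j, l (t j) = l j
  half : ∀ j (k : ℕ), k < l j →
    O.i ((O.r ^ k) (z j)) = O.u.symm ((O.r ^ (l j - 1 - k)) (z (t j)))
  hpos : ∀ j, 0 < h j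
  hnext : ∀ j, h (t j - 1) = h j
  strip : ∀ j (a : ℤ) (b : ℕ), b < h j →
    (O.u ^ b) ((O.r ^ a) (z j)) = (O.r ^ a) ((O.u ^ b) (z j))
  inner : ∀ j (a : ℤ) (b : ℕ), 0 < b → b < h j → ¬ O.Sing ((O.r ^ a) ((O.u ^ b) (z j)))
  cover : ∀ y : X, ∃ (j : Fin 5) (k b : ℕ), k < l j ∧ b < h j ∧ y = (O.r ^ k) ((O.u ^ b) (z j))
  uniq : ∀ (j j' : Fin 5) (k k' b b' : ℕ), k < l j → b < h j → k' < l j' → b' < h j' →
    (O.r ^ k) ((O.u ^ b) (z j)) = (O.r ^ k') ((O.u ^ b') (z j')) → j = j' ∧ k = k' ∧ b = b'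
  /-- the squares above the top row of a cylinder are in bottom rows -/
  top : ∀ j (a : ℤ), ∃ (j' : Fin 5) (k' : ℕ), k' < l j' ∧
    O.u ((O.r ^ a) ((O.u ^ (h j - 1)) (z j))) = (O.r ^ k') (z j')
  /-- `i` maps the cylinder above `z j` to the one above `z j'` -/
  img : ∀ j, ∃ (j' : Fin 5) (c : ℤ), h j' = h j ∧ ∀ (a : ℤ) (b : ℕ), b < h j →
    O.i ((O.r ^ a) ((O.u ^ b) (z j))) = (O.r ^ (c - 1 - a)) ((O.u ^ (h j - 1 - b)) (z j'))

/-- The smallest index of the row of `j`. -/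
def rep (t : Fin 5 → Fin 5) (j : Fin 5) : Fin 5 :=
  let n : Fin 5 → Fin 5 := fun i => t i - 1
  min j (min (n j) (min (n (n j)) (min (n (n (n j))) (n (n (n (n j)))))))

/-- `i` maps the cylinder above `z j` to itself. -/
def FixC (O : Org X) (z : Fin 5 → X) (h : Fin 5 → ℕ) (j : Fin 5) : Prop :=
  ∃ c : ℤ, O.i (z j) = (O.r ^ (c - 1)) ((O.u ^ (h j - 1)) (z j))

end Pool.Agent.H4G
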